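import Mathlib

/-!
# Definitions for the four point theorem (MP_23d34e)

`X` is a real normed space.  A type function `Φ : X → ℝ → ℝ` is the limit of `‖x + r e‖` where
`e` runs to infinity inside almost Euclidean subspaces (relative Dvoretzky theorem).
-/

set_option autoImplicit false

namespace P23F

/-- relative Dvoretzky property: for finitely many vectors `x` there is a linear map `T` from a
Euclidean space of dimension `k` such that `‖x + T y‖` almost depends only on `‖y‖`, and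
`‖T y‖` is almost `‖y‖`. -/
def RelDvor (X : Type*) [NormedAddCommGroup X] [NormedSpace ℝ X] : Prop :=
  ∀ (S : Finset X) (k : ℕ) (R ε : ℝ), 0 < ε → ∃ T : EuclideanSpace ℝ (Fin k) →ₗ[ℝ] X,
    (∀ x ∈ S, ∀ y y' : EuclideanSpace ℝ (Fin k), ‖y‖ = ‖y'‖ → ‖y‖ ≤ R →
      |‖x + T y‖ - ‖x + T y'‖| ≤ ε) ∧
    (∀ y : EuclideanSpace ℝ (Fin k), ‖y‖ ≤ R → |‖T y‖ - ‖y‖| ≤ ε)

/-- a limit norm on `X × ℝ`, approximated by `‖x + T y‖`, `T` linear on Euclidean spaces. -/
structure IsType {X : Type*} [NormedAddCommGroup X] [NormedSpace ℝ X] (Φ : X → ℝ → ℝ) :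
    Prop where
  add_le : ∀ x y r s, Φ (x + y) (r + s) ≤ Φ x r + Φ y s
  smul : ∀ (t : ℝ) x r, Φ (t • x) (t * r) = |t| * Φ x r
  even : ∀ x r, Φ x (-r) = Φ x r
  zero_right : ∀ x, Φ x 0 = ‖x‖
  zero_left : ∀ r, Φ 0 r = |r|
  approx : ∀ K : Set X, IsCompact K → ∀ (k : ℕ) (R ε : ℝ), 0 < ε →
    ∃ T : EuclideanSpace ℝ (Fin k) →ₗ[ℝ] X, ∀ x ∈ K, ∀ y, ‖y‖ ≤ R →
      |‖x + T y‖ - Φ x ‖y‖| ≤ ε

/-- the quadratic form `- ∑ c i c j R i j` is positive definite on `∑ c i = 0` -/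
def Pos4 (R : Fin 4 → Fin 4 → ℝ) : Prop :=
  ∀ c : Fin 4 → ℝ, ∑ i, c i = 0 → c ≠ 0 → ∑ i, ∑ j, c i * c j * R i j < 0

/-- squared distance matrix of four affinely independent points of `ℝ³` -/
structure Good (R : Fin 4 → Fin 4 → ℝ) : Prop where
  diag : ∀ i, R i i = 0
  symm : ∀ i j, R i j = R j i
  pos : Pos4 R

/-- the six pairs of indices: first index -/
def pi6 : Fin 6 → Fin 4 := ![0, 0, 0, 1, 1, 2]

/-- the six pairs of indices: second index -/
def pj6 : Fin 6 → Fin 4 := ![1, 2, 3, 2, 3, 3]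

/-- real inner product of the plane `ℂ` -/
def ip (w u : ℂ) : ℝ := w.re * u.re + w.im * u.im

/-- cross product of the plane `ℂ` -/
def cr (u v : ℂ) : ℝ := u.re * v.im - u.im * v.re

/-- unit direction of a pair (with the value `1` on the diagonal) -/
noncomputable def dir (a : Fin 4 → ℂ) (i j : Fin 4) : ℂ :=
  if i = j then 1 else (a i - a j) / (‖a i - a j‖ : ℂ)

/-- no three of the four points are collinear -/
def Gen (a : Fin 4 → ℂ) : Prop :=
  ∀ i j k, i ≠ j → i ≠ k → j ≠ k → cr (a j - a i) (a k - a i) ≠ 0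

/-- `μ` spans the affine dependences of the four points -/
structure Dep (a : Fin 4 → ℂ) (μ : Fin 4 → ℝ) : Prop where
  ne : ∀ i, μ i ≠ 0
  sum : ∑ i, μ i = 0
  suma : ∑ i, (μ i : ℂ) * a i = 0
  ker : ∀ c : Fin 4 → ℝ, ∑ i, c i = 0 → ∑ i, (c i : ℂ) * a i = 0 → ∃ t : ℝ, ∀ i, c i = t * μ i

/-- the weight `μ i μ j ‖a i - a j‖²` of an ordered pair -/
noncomputable def wt (a : Fin 4 → ℂ) (μ : Fin 4 → ℝ) (p : Fin 4 × Fin 4) : ℝ :=
  μ p.1 * μ p.2 * ‖a p.1 - a p.2‖ ^ 2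

/-- total weight of the ordered pairs parallel to the pair `p` -/
noncomputable def cls (a : Fin 4 → ℂ) (μ : Fin 4 → ℝ) (p : Fin 4 × Fin 4) : ℝ :=
  ∑ q : Fin 4 × Fin 4, if cr (dir a p.1 p.2) (dir a q.1 q.2) = 0 ∧ q.1 ≠ q.2 then wt a μ q else 0

/-- the squared distances `R i j = d i j ² (1 - k (s i - s j) / d i j)` -/
noncomputable def Rk (a : Fin 4 → ℂ) (k : ℝ → ℝ) (s : Fin 4 → ℝ) (i j : Fin 4) : ℝ :=
  ‖a i - a j‖ ^ 2 * (1 - k ((s i - s j) / ‖a i - a j‖))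

/-- the real analysis hypothesis of the third part: the function `k` is the deficiency function
of a two dimensional section, and no choice of `s` gives a positive definite form -/
structure Bad (a : Fin 4 → ℂ) (k : ℝ → ℝ) : Prop where
  even : ∀ y, k (-y) = k y
  cont : ContinuousOn k (Set.Ioo (-1) 1)
  zero : k 0 = 0
  nonneg : ∀ y, |y| < 1 → 0 ≤ k y
  lt_one : ∀ y, |y| < 1 → k y < 1
  bad : ∀ s : Fin 4 → ℝ, (∀ i j, i ≠ j → |s i - s j| < ‖a i - a j‖) → ¬ Pos4 (Rk a k s)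

/-- the moment polynomials: `lam ω u n = ∑ ω l ω m U_n (⟨u l, u m⟩)` -/
noncomputable def lam {ι : Type*} [Fintype ι] (ω : ι → ℝ) (u : ι → ℂ) (n : ℕ) : ℝ :=
  ∑ l, ∑ m, ω l * ω m * (Polynomial.Chebyshev.U ℝ n).eval (ip (u l) (u m))

/-- Chebyshev coefficient of a function on `[-1, 1]` -/
noncomputable def cb (h : ℝ → ℝ) (n : ℕ) : ℝ :=
  2 / Real.pi * ∫ t in (-1 : ℝ)..1, h t * (Polynomial.Chebyshev.U ℝ n).eval t * √(1 - t ^ 2)

/-- the unit disc -/
abbrev Disc : Set ℂ := Metric.closedBall (0 : ℂ) 1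

/-- the function `k (ρ t)` for `|t| ≤ 1`, extended by constants -/
noncomputable def hh (k : ℝ → ℝ) (ρ : ℝ) (t : ℝ) : ℝ := k (ρ * max (-1) (min 1 t))

/-- constant coefficient of the projection to the span of `U_0, U_2, U_4` -/
noncomputable def c6 (h : ℝ → ℝ) : ℝ := cb h 0 - cb h 2 + cb h 4

/-- quadratic coefficient of the projection to the span of `U_0, U_2, U_4` -/
noncomputable def al6 (h : ℝ → ℝ) : ℝ := 4 * cb h 2 - 12 * cb h 4

/-- quartic coefficient of the projection to the span of `U_0, U_2, U_4` -/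
noncomputable def ga6 (h : ℝ → ℝ) : ℝ := 16 * cb h 4

/-- the part of `h` orthogonal to `U_0, U_2, U_4` -/
noncomputable def ka6 (h : ℝ → ℝ) (t : ℝ) : ℝ := h t - c6 h - al6 h * t ^ 2 - ga6 h * t ^ 4

/-- constant coefficient of the projection to the span of `U_0, U_2` -/
noncomputable def c4 (h : ℝ → ℝ) : ℝ := cb h 0 - cb h 2

/-- quadratic coefficient of the projection to the span of `U_0, U_2` -/
noncomputable def al4 (h : ℝ → ℝ) : ℝ := 4 * cb h 2

/-- the part of `h` orthogonal to `U_0, U_2` -/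
noncomputable def ka4 (h : ℝ → ℝ) (t : ℝ) : ℝ := h t - c4 h - al4 h * t ^ 2

/-- the cubic form of the displacement of the point `a 0` -/
noncomputable def LL (a : Fin 4 → ℂ) (μ : Fin 4 → ℝ) (w : ℂ) : ℝ :=
  2 * ∑ j : Fin 4, if j = 0 then 0 else μ j / ‖a 0 - a j‖ ^ 2 * ip w (a 0 - a j) ^ 3

/-- the displacement of the point `a 0`, normalised by `∑ μ i η i = 1` -/
noncomputable def eta (μ : Fin 4 → ℝ) (i : Fin 4) : ℝ := if i = 0 then (μ 0)⁻¹ else 0

end P23F
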