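import Mathlib
import Pool.Agent.Lib.P23F.Defs

/-!
# Module P23F.TypeBasic : elementary properties of a type function

PROOF.  Write `hΦ : IsType Φ`.  `Φ (-x) (-r) = Φ x r` (`smul` with `t = -1`), so with `even`
`Φ (-x) r = Φ x r`; `Φ 0 0 = 0`; from `add_le` and these:
* `lip`: `Φ x r ≤ Φ y s + Φ (x - y) (r - s)` and `Φ z t ≤ Φ z 0 + Φ 0 t = ‖z‖ + |t|`.
* `norm_le`: `2 ‖x‖ = Φ (x + x) (r + (-r)) ≤ Φ x r + Φ x (-r) = 2 Φ x r`.
* `abs_le`: `2 |r| = Φ (x + (-x)) (r + r) ≤ Φ x r + Φ (-x) r = 2 Φ x r`.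
* `conv`: `Φ (a x + b y) (a r + b s) ≤ a Φ x r + b Φ y s` for `a, b ≥ 0` (`add_le`, `smul`).
* `mono_right`: `r ↦ Φ x r` is even and convex, so for `|r| ≤ |r'|` write `r` as a convex
  combination of `r'` and `-r'`.  `mono_left`: `t ↦ Φ (t • x) r` is even and convex.
* `strict`: let `0 ≤ r < r'` and `‖x‖ < Φ x r'`.  Then `r = (1 - θ) 0 + θ r'`, `θ = r / r' < 1`, so
  `Φ x r ≤ (1 - θ) ‖x‖ + θ Φ x r' < Φ x r'`.
* `strict'`: let `0 ≤ r < r'` and `‖x‖ < Φ x r` (then `0 < r`); by `mono_right`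
  `‖x‖ < Φ x r ≤ Φ x r'` and `strict` gives `Φ x r < Φ x r'`.
* `cont`: from `lip`.
-/

set_option autoImplicit false

namespace P23F

variable {X : Type*} [NormedAddCommGroup X] [NormedSpace ℝ X] {Φ : X → ℝ → ℝ}

theorem IsType.neg_left (hΦ : IsType Φ) (x : X) (r : ℝ) : Φ (-x) r = Φ x r := by
  have h1 := hΦ.smul (-1) x (-r)
  rw [neg_one_smul, neg_one_mul, neg_neg, abs_neg, abs_one, one_mul, hΦ.even] at h1
  exact h1

theorem IsType.le_add (hΦ : IsType Φ) (x : X) (r : ℝ) : Φ x r ≤ ‖x‖ + |r| := by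
  have h1 := hΦ.add_le x 0 0 r
  rw [add_zero, zero_add, hΦ.zero_right, hΦ.zero_left] at h1
  exact h1

theorem IsType.lip (hΦ : IsType Φ) (x y : X) (r s : ℝ) :
    |Φ x r - Φ y s| ≤ ‖x - y‖ + |r - s| := by
  rw [abs_le]
  constructor
  · have h1 := hΦ.add_le x (y - x) r (s - r)
    have h2 := hΦ.le_add (y - x) (s - r)
    rw [add_sub_cancel, add_sub_cancel] at h1
    rw [norm_sub_rev, abs_sub_comm] at h2
    linarith
  · have h1 := hΦ.add_le y (x - y) s (r - s)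
    have h2 := hΦ.le_add (x - y) (r - s)
    rw [add_sub_cancel, add_sub_cancel] at h1
    linarith

theorem IsType.norm_le (hΦ : IsType Φ) (x : X) (r : ℝ) : ‖x‖ ≤ Φ x r := by
  have h1 := hΦ.add_le x x r (-r)
  rw [add_neg_cancel, hΦ.zero_right, hΦ.even, ← two_smul ℝ x, norm_smul] at h1
  norm_num at h1
  linarith

theorem IsType.abs_le (hΦ : IsType Φ) (x : X) (r : ℝ) : |r| ≤ Φ x r := by
  have h1 := hΦ.add_le x (-x) r r
  rw [add_neg_cancel, hΦ.zero_left, hΦ.neg_left, ← two_mul, abs_mul] at h1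
  norm_num at h1
  linarith

theorem IsType.conv (hΦ : IsType Φ) (x y : X) (r s a b : ℝ) (ha : 0 ≤ a) (hb : 0 ≤ b) :
    Φ (a • x + b • y) (a * r + b * s) ≤ a * Φ x r + b * Φ y s := by
  have h1 := hΦ.add_le (a • x) (b • y) (a * r) (b * s)
  rw [hΦ.smul, hΦ.smul, abs_of_nonneg ha, abs_of_nonneg hb] at h1
  exact h1

private theorem conv_coef {r r' : ℝ} (h : |r| ≤ |r'|) :
    ∃ a b : ℝ, 0 ≤ a ∧ 0 ≤ b ∧ a + b = 1 ∧ r = a * r' + b * (-r') := by
  by_cases h0 : r' = 0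
  · rw [h0, abs_zero] at h
    have h1 : r = 0 := abs_eq_zero.1 (le_antisymm h (abs_nonneg r))
    exact ⟨1, 0, by norm_num, by norm_num, by norm_num, by rw [h1, h0]; ring⟩
  · have h1 : |r / r'| ≤ 1 := by
      rw [abs_div]
      exact div_le_one_of_le₀ h (abs_nonneg _)
    have h2 := _root_.abs_le.1 h1
    refine ⟨(1 + r / r') / 2, (1 - r / r') / 2, by linarith [h2.1], by linarith [h2.2],
      by ring, ?_⟩
    field_simp
    ring

theorem IsType.mono_right (hΦ : IsType Φ) (x : X) {r r' : ℝ} (h : |r| ≤ |r'|) :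
    Φ x r ≤ Φ x r' := by
  obtain ⟨a, b, ha, hb, hab, hr⟩ := conv_coef h
  have h1 := hΦ.conv x x r' (-r') a b ha hb
  rw [← add_smul, hab, one_smul, ← hr, hΦ.even] at h1
  have h2 : a * Φ x r' + b * Φ x r' = Φ x r' := by rw [← add_mul, hab, one_mul]
  linarith

theorem IsType.mono_left (hΦ : IsType Φ) (x : X) (r : ℝ) {t t' : ℝ} (h : |t| ≤ |t'|) :
    Φ (t • x) r ≤ Φ (t' • x) r := by
  obtain ⟨a, b, ha, hb, hab, ht⟩ := conv_coef h
  have h1 := hΦ.conv (t' • x) (-(t' • x)) r r a b ha hb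
  have e1 : a • (t' • x) + b • (-(t' • x)) = t • x := by
    rw [ht, add_smul, mul_smul, mul_smul, neg_smul]
  have e2 : a * r + b * r = r := by rw [← add_mul, hab, one_mul]
  rw [e1, e2, hΦ.neg_left] at h1
  have h2 : a * Φ (t' • x) r + b * Φ (t' • x) r = Φ (t' • x) r := by
    rw [← add_mul, hab, one_mul]
  linarith

theorem IsType.strict (hΦ : IsType Φ) (x : X) {r r' : ℝ} (h0 : 0 ≤ r) (h : r < r')
    (hx : ‖x‖ < Φ x r') : Φ x r < Φ x r' := by
  have hr' : 0 < r' := lt_of_le_of_lt h0 h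
  have hθ : r / r' < 1 := (div_lt_one hr').2 h
  have hθ0 : 0 ≤ r / r' := div_nonneg h0 hr'.le
  have h1 := hΦ.conv x x 0 r' (1 - r / r') (r / r') (by linarith) hθ0
  have e1 : (1 - r / r') • x + (r / r') • x = x := by
    rw [← add_smul]
    have : 1 - r / r' + r / r' = 1 := by ring
    rw [this, one_smul]
  have e2 : (1 - r / r') * 0 + r / r' * r' = r := by
    field_simp
    ring
  rw [e1, e2, hΦ.zero_right] at h1
  have h3 : 0 < (1 - r / r') * (Φ x r' - ‖x‖) := mul_pos (by linarith) (by linarith)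
  nlinarith [h3, h1]

theorem IsType.strict' (hΦ : IsType Φ) (x : X) {r r' : ℝ} (h0 : 0 ≤ r) (h : r < r')
    (hx : ‖x‖ < Φ x r) : Φ x r < Φ x r' := by
  have h1 : Φ x r ≤ Φ x r' := hΦ.mono_right x (by
    rw [abs_of_nonneg h0, abs_of_nonneg (h0.trans h.le)]
    exact h.le)
  exact hΦ.strict x h0 h (lt_of_lt_of_le hx h1)

theorem IsType.cont (hΦ : IsType Φ) : Continuous fun p : X × ℝ => Φ p.1 p.2 := by
  have h : LipschitzWith 2 (fun p : X × ℝ => Φ p.1 p.2) := by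
    apply LipschitzWith.of_dist_le_mul
    intro p q
    have h1 := hΦ.lip p.1 q.1 p.2 q.2
    have h2 : ‖p.1 - q.1‖ ≤ dist p q := by
      rw [← dist_eq_norm, Prod.dist_eq]
      exact le_max_left _ _
    have h3 : |p.2 - q.2| ≤ dist p q := by
      rw [← Real.dist_eq, Prod.dist_eq]
      exact le_max_right _ _
    rw [Real.dist_eq]
    push_cast
    linarith
  exact h.continuous

end P23F
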