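import Mathlib
import Pool.Agent.Lib.Brouwer.Brouwer

/-!
# Module P23F.PMir : the Poincaré-Miranda theorem

PROOF.  Let `Q = Icc (fun _ => -1) (fun _ => 1)` in `Fin m → ℝ`, and
`c : (Fin m → ℝ) → Q`, `(c x) l = max (-1) (min 1 (x l))`, continuous, `c x = x` for `x ∈ Q`.
Consider `g x = c (c x - F (c x))` as a continuous map of `EuclideanSpace ℝ (Fin m)` (through
`WithLp.ofLp`, `WithLp.toLp`); it maps everything into `Q`, whose points have Euclidean norm at
most `√m`, so it maps `closedBall 0 √m` into itself and Brouwer's theorem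
(`Pool.Agent.Lib.Brouwer.brouwer_closedBall`) gives `x = g x`.  Then `x ∈ Q`, so `c x = x` and
`x l = max (-1) (min 1 (x l - F x l))` for all `l`.  If `-1 < x l < 1` then `F x l = 0`.  If
`x l = 1` then `x l - F x l ≥ 1`, so `F x l ≤ 0`, and `hpos` gives `F x l ≥ 0`.  If `x l = -1` then
`-1 - F x l ≤ -1`, so `F x l ≥ 0`, and `hneg` gives `F x l ≤ 0`.
-/

set_option autoImplicit false

namespace P23F

theorem poincare_miranda {m : ℕ} (F : (Fin m → ℝ) → (Fin m → ℝ))
    (hF : ContinuousOn F (Set.Icc (fun _ => -1) (fun _ => 1)))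
    (hneg : ∀ τ ∈ Set.Icc (fun _ => (-1 : ℝ)) (fun _ => (1 : ℝ)), ∀ l : Fin m, τ l = -1 →
      F τ l ≤ 0)
    (hpos : ∀ τ ∈ Set.Icc (fun _ => (-1 : ℝ)) (fun _ => (1 : ℝ)), ∀ l : Fin m, τ l = 1 →
      0 ≤ F τ l) :
    ∃ τ ∈ Set.Icc (fun _ => (-1 : ℝ)) (fun _ => (1 : ℝ)), ∀ l, F τ l = 0 := by
  classical
  set Q : Set (Fin m → ℝ) := Set.Icc (fun _ => (-1 : ℝ)) (fun _ => (1 : ℝ)) with hQ
  let c : (Fin m → ℝ) → (Fin m → ℝ) := fun x l => max (-1) (min 1 (x l))
  have hc : Continuous c := by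
    refine continuous_pi fun l => ?_
    exact continuous_const.max (continuous_const.min (continuous_apply l))
  have hcQ : ∀ x, c x ∈ Q := fun x =>
    ⟨fun l => le_max_left _ _, fun l => max_le (by norm_num) (min_le_left _ _)⟩
  have hcid : ∀ x ∈ Q, c x = x := by
    intro x hx
    funext l
    have h1 : (-1 : ℝ) ≤ x l := hx.1 l
    have h2 : x l ≤ (1 : ℝ) := hx.2 l
    show max (-1) (min 1 (x l)) = x l
    rw [min_eq_right h2, max_eq_right h1]
  let g : (Fin m → ℝ) → (Fin m → ℝ) := fun x => c (c x - F (c x))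
  have hg : Continuous g := by
    refine hc.comp ?_
    refine hc.sub ?_
    exact hF.comp_continuous hc hcQ
  have hgQ : ∀ x, g x ∈ Q := fun x => hcQ _
  let G : EuclideanSpace ℝ (Fin m) → EuclideanSpace ℝ (Fin m) := fun x =>
    WithLp.toLp 2 (g (WithLp.ofLp x))
  have hG : Continuous G := by
    exact (PiLp.continuous_toLp 2 _).comp (hg.comp (PiLp.continuous_ofLp 2 _))
  have hnorm : ∀ y ∈ Q, ‖(WithLp.toLp 2 y : EuclideanSpace ℝ (Fin m))‖ ≤ Real.sqrt m := by
    intro y hy
    rw [EuclideanSpace.norm_eq]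
    refine Real.sqrt_le_sqrt ?_
    calc ∑ i, ‖(WithLp.toLp 2 y : EuclideanSpace ℝ (Fin m)) i‖ ^ 2
        ≤ ∑ _i : Fin m, (1 : ℝ) := by
          refine Finset.sum_le_sum fun i _ => ?_
          have h1 : (-1 : ℝ) ≤ y i := hy.1 i
          have h2 : y i ≤ (1 : ℝ) := hy.2 i
          show ‖y i‖ ^ 2 ≤ 1
          rw [Real.norm_eq_abs, sq_abs]
          nlinarith
      _ = m := by simp
  obtain ⟨z, hzB, hz⟩ := Pool.Agent.Lib.Brouwer.brouwer_closedBall (Real.sqrt_nonneg (m : ℝ)) G
    hG.continuousOn (fun y _ => by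
      rw [mem_closedBall_zero_iff]
      exact hnorm _ (hgQ _))
  set x : Fin m → ℝ := WithLp.ofLp z with hx
  have hxg : x = g x := by
    have := congrArg WithLp.ofLp hz
    exact this.symm
  have hxQ : x ∈ Q := by
    rw [hxg]
    exact hgQ x
  refine ⟨x, hxQ, fun l => ?_⟩
  have hl : x l = max (-1) (min 1 (x l - F x l)) := by
    have h3 : x l = g x l := congrFun hxg l
    have h4 : g x l = max (-1) (min 1 (x l - F x l)) := by
      show c (c x - F (c x)) l = _
      rw [hcid x hxQ]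
      rfl
    rw [← h4]
    exact h3
  have h1 : (-1 : ℝ) ≤ x l := hxQ.1 l
  have h2 : x l ≤ (1 : ℝ) := hxQ.2 l
  have hn := hneg x hxQ l
  have hp := hpos x hxQ l
  rcases le_total (x l - F x l) (-1) with h5 | h5
  · rw [min_eq_right (by linarith), max_eq_left h5] at hl
    have := hn hl
    linarith
  · rcases le_total 1 (x l - F x l) with h6 | h6
    · rw [min_eq_left h6, max_eq_right (by norm_num)] at hl
      have := hp hl
      linarith
    · rw [min_eq_right h6, max_eq_right h5] at hl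
      linarith

end P23F
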