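import Mathlib
import Pool.Agent.Lib.P23F.Defs

/-!
# Module P23F.DRmax : the volume-maximal position

PROOF.  `E := EuclideanSpace ℝ (Fin n)`, `n > 0`.  As `X` is infinite dimensional there are
linearly independent `b : Fin n → X`; let `J : E →ₗ X`, `J t = ∑ t i • b i`, injective, so
`c ‖t‖ ≤ ‖J t‖ ≤ C ‖t‖` with `c > 0` (finite dimension).  Let `𝒦` be the set of
`A : E →L[ℝ] E` (or matrices) with `‖J (A t)‖ ≤ ‖t‖` for all `t`.  It is closed, and bounded
since `c ‖A t‖ ≤ ‖t‖`; so compact.  It contains `C⁻¹ • id`, whose determinant is nonzero.  Let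
`A₀ ∈ 𝒦` maximise `|det A|`, `T := J ∘ A₀`; `det A₀ ≠ 0`.

Let `F ≠ ⊥` be a subspace of dimension `f`, and let `e` be a point of the (compact, nonempty) unit
sphere of `F` where `‖T e‖` is maximal, `θ := ‖T e‖`; so `‖T v‖ ≤ θ ‖v‖` on `F`.  For `ε > 0` let
`B = id + ε P` where `P` is the orthogonal projection onto `F`.  Then
`‖T (B t)‖ ≤ ‖T t‖ + ε ‖T (P t)‖ ≤ ‖t‖ + ε θ ‖P t‖ ≤ (1 + ε θ) ‖t‖`, so
`(1 + ε θ)⁻¹ • (A₀ ∘ B) ∈ 𝒦`, and maximality gives
`|det A₀| * det B / (1 + ε θ) ^ n ≤ |det A₀|`, i.e. (as `det B = (1 + ε) ^ f`)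
`(1 + ε) ^ f ≤ (1 + ε θ) ^ n` for all `ε > 0`.
Hence `1 + f ε ≤ (1 + ε) ^ f ≤ (1 + ε θ) ^ n ≤ exp (n ε θ)`; divide `1 + f ε ≤ exp (n θ ε)` by `ε`
and let `ε → 0` (derivative of `exp`): `f ≤ n θ`.

`det B = (1 + ε) ^ f`: e.g. in an orthonormal basis adapted to `F ⊕ Fᗮ`; or only the inequality
`(1 + ε) ^ f ≤ |det B|` is needed.  (One may also avoid determinants of projections by an
orthonormal basis `v` of `E` whose first `f` vectors span `F` and `B v i = (1 + ε) v i` or `v i`: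
`LinearMap.det_toLin` / `Matrix.det_diagonal`.)
-/

set_option autoImplicit false

namespace P23F

namespace DRmaxAux

theorem det_aux {E : Type*} [NormedAddCommGroup E] [InnerProductSpace ℝ E]
    [FiniteDimensional ℝ E] (F : Submodule ℝ E) (ε : ℝ) :
    LinearMap.det (LinearMap.id + ε • (F.starProjection : E →L[ℝ] E).toLinearMap : E →ₗ[ℝ] E) =
      (1 + ε) ^ Module.finrank ℝ F := by
  set B : E →ₗ[ℝ] E := LinearMap.id + ε • (F.starProjection : E →L[ℝ] E).toLinearMap with hB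
  have hBF : ∀ x ∈ F, B x = (1 + ε) • x := by
    intro x hx
    have h : F.starProjection x = x := Submodule.starProjection_eq_self_iff.mpr hx
    simp [hB, h, add_smul]
  have he : F ≤ F.comap B := by
    intro x hx
    rw [Submodule.mem_comap, hBF x hx]
    exact F.smul_mem _ hx
  rw [LinearMap.det_eq_det_mul_det F B he]
  have h1 : B.restrict he = (1 + ε) • LinearMap.id := by
    apply LinearMap.ext
    intro x
    apply Subtype.ext
    rw [LinearMap.coe_restrict_apply]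
    rw [hBF x.1 x.2]
    rfl
  have h2 : F.mapQ F B he = LinearMap.id := by
    apply Submodule.linearMap_qext
    apply LinearMap.ext
    intro x
    rw [LinearMap.comp_apply, LinearMap.comp_apply, Submodule.mkQ_apply, Submodule.mapQ_apply,
      LinearMap.id_apply, Submodule.Quotient.eq]
    have h : B x - x = ε • F.starProjection x := by
      simp [hB]
    rw [h]
    exact F.smul_mem _ (Submodule.starProjection_apply_mem F x)
  rw [h1, h2, LinearMap.det_smul, LinearMap.det_id, LinearMap.det_id, mul_one, mul_one]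

theorem exp_aux {f n θ : ℝ} (hn : 0 ≤ n) (h : ∀ ε : ℝ, 0 < ε → 1 + f * ε ≤ Real.exp (n * (ε * θ)))
    (hθ : 0 ≤ θ) : f ≤ n * θ := by
  by_contra hcon
  push Not at hcon
  -- exp (x) ≤ 1 + x + x ^ 2 for x ≤ 1
  set d : ℝ := f - n * θ with hd
  have hdpos : 0 < d := by rw [hd]; linarith
  have hc : 0 ≤ n * θ := mul_nonneg hn hθ
  set c : ℝ := n * θ with hcdef
  have hpos : 0 < (c + 1) ^ 2 * (d + 1) := by positivity
  set ε : ℝ := d / ((c + 1) ^ 2 * (d + 1)) with hε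
  have hεpos : 0 < ε := div_pos hdpos hpos
  have hε1 : ε * (c + 1) ^ 2 * (d + 1) = d := by
    rw [hε]; field_simp
  obtain ⟨m, hm⟩ : ∃ m, m = ε * (c + 1) ^ 2 := ⟨_, rfl⟩
  have hmpos : 0 < m := by rw [hm]; positivity
  rw [← hm] at hε1
  have hm1 : m ≤ 1 := by
    by_contra h3
    push Not at h3
    nlinarith
  have hmd : m < d := by nlinarith
  have hεc : ε * c ≤ 1 := by
    have h5 := mul_nonneg hεpos.le hc
    have h6 := mul_nonneg hεpos.le (sq_nonneg c)
    have : ε * c ≤ m := by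
      rw [hm]
      nlinarith [h5, h6]
    linarith
  have hx : Real.exp (ε * c) ≤ 1 + ε * c + (ε * c) ^ 2 := by
    have h0 : 0 ≤ ε * c := mul_nonneg hεpos.le hc
    have := Real.abs_exp_sub_one_sub_id_le (x := ε * c) (by rw [abs_of_nonneg h0]; exact hεc)
    have h2 := (abs_le.mp this).2
    linarith
  have h8 := h ε hεpos
  have h9 : n * (ε * θ) = ε * c := by rw [hcdef]; ring
  rw [h9] at h8
  have h10 : f * ε ≤ ε * c + (ε * c) ^ 2 := by linarith
  have h11 : d ≤ ε * c ^ 2 := by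
    have h12 : ε * d ≤ ε * (ε * c ^ 2) := by
      have : f = d + c := by rw [hd]; ring
      rw [this] at h10
      nlinarith
    exact le_of_mul_le_mul_left h12 hεpos
  have h13 : ε * c ^ 2 < d := by
    have : ε * c ^ 2 ≤ m := by rw [hm]; nlinarith [mul_nonneg hεpos.le hc]
    linarith
  linarith

end DRmaxAux

theorem exists_maximal {X : Type*} [NormedAddCommGroup X] [NormedSpace ℝ X]
    (hX : ¬ FiniteDimensional ℝ X) (n : ℕ) (hn : 0 < n) :
    ∃ T : EuclideanSpace ℝ (Fin n) →ₗ[ℝ] X, (∀ t, ‖T t‖ ≤ ‖t‖) ∧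
      ∀ F : Submodule ℝ (EuclideanSpace ℝ (Fin n)), F ≠ ⊥ →
        ∃ e ∈ F, ‖e‖ = 1 ∧ (Module.finrank ℝ F : ℝ) / n ≤ ‖T e‖ := by
  classical
  have : Nonempty (Fin n) := ⟨⟨0, hn⟩⟩
  -- an injective linear map
  obtain ⟨b, hb⟩ : ∃ b : Fin n → X, LinearIndependent ℝ b := by
    refine exists_linearIndependent_of_le_rank ?_
    have h1 : Cardinal.aleph0 ≤ Module.rank ℝ X := by
      by_contra hcon
      push Not at hcon
      exact hX (Module.rank_lt_aleph0_iff.mp hcon)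
    exact le_trans (Cardinal.natCast_lt_aleph0).le h1
  let J : EuclideanSpace ℝ (Fin n) →ₗ[ℝ] X :=
    (Fintype.linearCombination ℝ b) ∘ₗ (WithLp.linearEquiv 2 ℝ (Fin n → ℝ)).toLinearMap
  have hJ : LinearMap.ker J = ⊥ := by
    rw [LinearMap.ker_eq_bot]
    have h1 : Function.Injective (Fintype.linearCombination ℝ b) :=
      hb.fintypeLinearCombination_injective
    exact h1.comp (WithLp.linearEquiv 2 ℝ (Fin n → ℝ)).injective
  obtain ⟨c, hc0, hc⟩ := LinearMap.exists_antilipschitzWith J hJ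
  have hlow : ∀ t, ‖t‖ ≤ (c : ℝ) * ‖J t‖ := by
    intro t
    have := hc.le_mul_dist t 0
    simpa using this
  let Jc : EuclideanSpace ℝ (Fin n) →L[ℝ] X := LinearMap.toContinuousLinearMap J
  have hJc : ∀ t, Jc t = J t := fun t => rfl
  let K : Set (EuclideanSpace ℝ (Fin n) →L[ℝ] EuclideanSpace ℝ (Fin n)) :=
    {A | ∀ t, ‖J (A t)‖ ≤ ‖t‖}
  have hKclosed : IsClosed K := by
    have : K = ⋂ t, {A | ‖Jc (A t)‖ ≤ ‖t‖} := by
      ext A
      simp [K, hJc]
    rw [this]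
    refine isClosed_iInter fun t => isClosed_le ?_ continuous_const
    have h1 : Continuous fun A : EuclideanSpace ℝ (Fin n) →L[ℝ] EuclideanSpace ℝ (Fin n) =>
        A t := (ContinuousLinearMap.apply ℝ _ t).continuous
    exact (Jc.continuous.comp h1).norm
  have hKbdd : Bornology.IsBounded K := by
    rw [isBounded_iff_forall_norm_le]
    refine ⟨c, fun A hA => ?_⟩
    refine ContinuousLinearMap.opNorm_le_bound A c.2 fun t => ?_
    exact le_trans (hlow (A t)) (mul_le_mul_of_nonneg_left (hA t) c.2)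
  have hKcomp : IsCompact K := Metric.isCompact_of_isClosed_isBounded hKclosed hKbdd
  -- an invertible element
  obtain ⟨A₁, hA₁, hdet₁⟩ : ∃ A ∈ K, A.det ≠ 0 := by
    have hCpos : 0 < ‖Jc‖ + 1 := by positivity
    refine ⟨(‖Jc‖ + 1)⁻¹ • ContinuousLinearMap.id ℝ _, fun t => ?_, ?_⟩
    · have h1 : J (((‖Jc‖ + 1)⁻¹ • ContinuousLinearMap.id ℝ (EuclideanSpace ℝ (Fin n))) t) =
          (‖Jc‖ + 1)⁻¹ • J t := by
        simp
      rw [h1, norm_smul, Real.norm_of_nonneg (inv_nonneg.mpr hCpos.le), inv_mul_le_iff₀ hCpos]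
      have h2 := Jc.le_opNorm t
      rw [hJc] at h2
      nlinarith [norm_nonneg t]
    · have h1 : ContinuousLinearMap.det
          ((‖Jc‖ + 1)⁻¹ • ContinuousLinearMap.id ℝ (EuclideanSpace ℝ (Fin n))) =
          (‖Jc‖ + 1)⁻¹ ^ n := by
        rw [ContinuousLinearMap.det]
        simp [LinearMap.det_smul]
      rw [h1]
      exact pow_ne_zero _ (inv_ne_zero hCpos.ne')
  obtain ⟨A₀, hA₀, hmax⟩ := hKcomp.exists_isMaxOn ⟨A₁, hA₁⟩
    (f := fun A => |A.det|) (ContinuousLinearMap.continuous_det.abs.continuousOn)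
  have hdet₀ : 0 < |A₀.det| := lt_of_lt_of_le (abs_pos.mpr hdet₁) (hmax hA₁)
  refine ⟨J ∘ₗ A₀.toLinearMap, fun t => hA₀ t, fun F hF => ?_⟩
  -- the maximum on the sphere of F
  let S : Set (EuclideanSpace ℝ (Fin n)) := {e | e ∈ F ∧ ‖e‖ = 1}
  have hScomp : IsCompact S := by
    have h1 : S = (F : Set (EuclideanSpace ℝ (Fin n))) ∩ Metric.sphere 0 1 := by
      ext e
      simp [S]
    rw [h1]
    exact (isCompact_sphere _ _).inter_left F.closed_of_finiteDimensional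
  have hSne : S.Nonempty := by
    obtain ⟨v, hv, hv0⟩ := Submodule.exists_mem_ne_zero_of_ne_bot hF
    refine ⟨‖v‖⁻¹ • v, F.smul_mem _ hv, ?_⟩
    rw [norm_smul, norm_inv, norm_norm, inv_mul_cancel₀ (norm_ne_zero_iff.mpr hv0)]
  let Tc : EuclideanSpace ℝ (Fin n) →L[ℝ] X := Jc.comp A₀
  have hTc : ∀ t, Tc t = J (A₀ t) := fun t => rfl
  obtain ⟨e, he, hemax⟩ := hScomp.exists_isMaxOn hSne (f := fun t => ‖Tc t‖)
    Tc.continuous.norm.continuousOn
  refine ⟨e, he.1, he.2, ?_⟩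
  set θ : ℝ := ‖Tc e‖ with hθ
  have hθ0 : 0 ≤ θ := norm_nonneg _
  have hθ1 : θ ≤ 1 := by
    have := hA₀ e
    rw [he.2] at this
    exact this
  have hTF : ∀ v ∈ F, ‖Tc v‖ ≤ θ * ‖v‖ := by
    intro v hv
    by_cases hv0 : v = 0
    · subst hv0
      simp
    · have hvn : 0 < ‖v‖ := norm_pos_iff.mpr hv0
      have h1 : ‖v‖⁻¹ • v ∈ S := by
        refine ⟨F.smul_mem _ hv, ?_⟩
        rw [norm_smul, norm_inv, norm_norm, inv_mul_cancel₀ hvn.ne']
      have h2 : ‖Tc (‖v‖⁻¹ • v)‖ ≤ θ := hemax h1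
      rw [map_smul, norm_smul, norm_inv, norm_norm, inv_mul_le_iff₀ hvn] at h2
      linarith
  have hnr : (0 : ℝ) < n := by exact_mod_cast hn
  rw [div_le_iff₀ hnr]
  have hkey : ∀ ε : ℝ, 0 < ε →
      1 + (Module.finrank ℝ F : ℝ) * ε ≤ Real.exp ((n : ℝ) * (ε * θ)) := by
    intro ε hε
    have hpos : 0 < 1 + ε * θ := by positivity
    let P : EuclideanSpace ℝ (Fin n) →L[ℝ] EuclideanSpace ℝ (Fin n) := F.starProjection
    let B : EuclideanSpace ℝ (Fin n) →L[ℝ] EuclideanSpace ℝ (Fin n) :=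
      ContinuousLinearMap.id ℝ _ + ε • P
    have hB : B.det = (1 + ε) ^ Module.finrank ℝ F := by
      rw [ContinuousLinearMap.det, ← DRmaxAux.det_aux F ε]
      rfl
    have hBK : (1 + ε * θ)⁻¹ • A₀.comp B ∈ K := by
      intro t
      have h1 : J (((1 + ε * θ)⁻¹ • A₀.comp B) t) = (1 + ε * θ)⁻¹ • (Tc t + ε • Tc (P t)) := by
        rw [hTc, hTc]
        simp [B]
      rw [h1, norm_smul, Real.norm_of_nonneg (inv_nonneg.mpr hpos.le), inv_mul_le_iff₀ hpos]
      have h2 : ‖Tc t + ε • Tc (P t)‖ ≤ ‖Tc t‖ + ε * ‖Tc (P t)‖ := by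
        refine le_trans (norm_add_le _ _) ?_
        rw [norm_smul, Real.norm_of_nonneg hε.le]
      have h3 : ‖Tc t‖ ≤ ‖t‖ := hA₀ t
      have h4 : ‖Tc (P t)‖ ≤ θ * ‖t‖ := by
        refine le_trans (hTF (P t) (Submodule.starProjection_apply_mem F t)) ?_
        exact mul_le_mul_of_nonneg_left (Submodule.norm_starProjection_apply_le F t) hθ0
      have h5 := mul_le_mul_of_nonneg_left h4 hε.le
      nlinarith
    have h6 : |((1 + ε * θ)⁻¹ • A₀.comp B).det| ≤ |A₀.det| := hmax hBK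
    have h7 : ((1 + ε * θ)⁻¹ • A₀.comp B).det =
        (1 + ε * θ)⁻¹ ^ n * (A₀.det * B.det) := by
      rw [ContinuousLinearMap.det, ContinuousLinearMap.det, ContinuousLinearMap.det,
        ← LinearMap.det_comp]
      have : ((((1 + ε * θ)⁻¹ • A₀.comp B :
          EuclideanSpace ℝ (Fin n) →L[ℝ] EuclideanSpace ℝ (Fin n))) :
          EuclideanSpace ℝ (Fin n) →ₗ[ℝ] EuclideanSpace ℝ (Fin n)) =
          (1 + ε * θ)⁻¹ • ((A₀ : EuclideanSpace ℝ (Fin n) →ₗ[ℝ] EuclideanSpace ℝ (Fin n)) ∘ₗ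
            (B : EuclideanSpace ℝ (Fin n) →ₗ[ℝ] EuclideanSpace ℝ (Fin n))) := rfl
      rw [this, LinearMap.det_smul, finrank_euclideanSpace_fin]
    have hBpos : 0 < B.det := by rw [hB]; positivity
    rw [h7, abs_mul, abs_mul, abs_of_pos (a := B.det) hBpos,
      abs_of_pos (pow_pos (inv_pos.mpr hpos) n)] at h6
    have h8 : B.det ≤ (1 + ε * θ) ^ n := by
      have h9 : (1 + ε * θ)⁻¹ ^ n * B.det ≤ 1 := by
        have h10 : |A₀.det| * ((1 + ε * θ)⁻¹ ^ n * B.det) ≤ |A₀.det| * 1 := by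
          calc |A₀.det| * ((1 + ε * θ)⁻¹ ^ n * B.det) =
                (1 + ε * θ)⁻¹ ^ n * (|A₀.det| * B.det) := by ring
            _ ≤ |A₀.det| := h6
            _ = |A₀.det| * 1 := by ring
        exact le_of_mul_le_mul_left h10 hdet₀
      rw [inv_pow, inv_mul_le_iff₀ (pow_pos hpos n), mul_one] at h9
      exact h9
    rw [hB] at h8
    have h11 : 1 + (Module.finrank ℝ F : ℝ) * ε ≤ (1 + ε) ^ Module.finrank ℝ F :=
      one_add_mul_le_pow (by linarith) _
    have h12 : (1 + ε * θ) ^ n ≤ Real.exp ((n : ℝ) * (ε * θ)) := by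
      rw [Real.exp_nat_mul]
      refine pow_le_pow_left₀ hpos.le ?_ n
      have := Real.add_one_le_exp (ε * θ)
      linarith
    linarith
  have := DRmaxAux.exp_aux hnr.le hkey hθ0
  have h2 : ‖(J ∘ₗ A₀.toLinearMap) e‖ = θ := rfl
  rw [h2]
  linarith

end P23F
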