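import Mathlib
import Pool.Agent.Lib.P23F.DRmax

/-!
# Module P23F.DRsel : the Dvoretzky-Rogers lemma

PROOF.  `m = 0` is trivial.  Let `n = 2 m` and `T` from `exists_maximal hX n`.  Claim: for
`j ≤ m` there is an orthonormal family `e : Fin j → E` (`E := EuclideanSpace ℝ (Fin n)`) with
`1/2 ≤ ‖T (e i)‖`.  Induction on `j`: given `e : Fin j → E` with `j < m` let
`F := (span (range e))ᗮ`, of dimension `n - j ≥ m + 1 > 0`, so `F ≠ ⊥`; `exists_maximal` gives a
unit vector `e' ∈ F` with `‖T e'‖ ≥ (n - j) / n ≥ 1 / 2`; append it (`Fin.snoc`).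
Take `j = m`, `x i := T (e i)`; `‖∑ t i • x i‖ = ‖T (∑ t i • e i)‖ ≤ ‖∑ t i • e i‖ = ‖t‖`
(orthonormality).
-/

set_option autoImplicit false

namespace P23F

theorem dvoretzky_rogers {X : Type*} [NormedAddCommGroup X] [NormedSpace ℝ X]
    (hX : ¬ FiniteDimensional ℝ X) (m : ℕ) :
    ∃ x : Fin m → X, (∀ t : EuclideanSpace ℝ (Fin m), ‖∑ i, t i • x i‖ ≤ ‖t‖) ∧
      ∀ i, 1 / 2 ≤ ‖x i‖ := by
  rcases Nat.eq_zero_or_pos m with hm | hm
  · subst hm
    refine ⟨fun i => i.elim0, fun t => ?_, fun i => i.elim0⟩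
    simp
  obtain ⟨T, hT1, hT2⟩ := exists_maximal hX (2 * m) (by omega)
  have claim : ∀ j : ℕ, j ≤ m → ∃ e : Fin j → EuclideanSpace ℝ (Fin (2 * m)),
      Orthonormal ℝ e ∧ ∀ i, 1 / 2 ≤ ‖T (e i)‖ := by
    intro j
    induction j with
    | zero =>
      intro _
      exact ⟨fun i => i.elim0, Orthonormal.of_isEmpty _, fun i => i.elim0⟩
    | succ j ih =>
      intro hj
      obtain ⟨e, he, hT⟩ := ih (by omega)
      set F : Submodule ℝ (EuclideanSpace ℝ (Fin (2 * m))) :=
        (Submodule.span ℝ (Set.range e))ᗮ with hF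
      have h1 : Module.finrank ℝ (Submodule.span ℝ (Set.range e)) = j := by
        rw [finrank_span_eq_card he.linearIndependent, Fintype.card_fin]
      have h2 := Submodule.finrank_add_finrank_orthogonal (Submodule.span ℝ (Set.range e))
      rw [h1, finrank_euclideanSpace_fin, ← hF] at h2
      have hFne : F ≠ ⊥ := by
        intro h0
        rw [h0, finrank_bot] at h2
        omega
      obtain ⟨e', he'F, he'1, he'T⟩ := hT2 F hFne
      refine ⟨Matrix.vecCons e' e, ?_, ?_⟩
      · rw [orthonormal_vecCons_iff]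
        refine ⟨he'1, fun i => ?_, he⟩
        exact Submodule.inner_left_of_mem_orthogonal
          (Submodule.subset_span (Set.mem_range_self i)) he'F
      · intro i
        refine Fin.cases ?_ (fun i => ?_) i
        · rw [Matrix.cons_val_zero]
          refine le_trans ?_ he'T
          have h3 : (j : ℝ) + Module.finrank ℝ F = 2 * m := by exact_mod_cast h2
          have h4 : (j : ℝ) + 1 ≤ m := by exact_mod_cast hj
          have hm' : (0 : ℝ) < m := by exact_mod_cast hm
          push_cast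
          rw [div_le_div_iff₀ (by norm_num) (by positivity)]
          linarith
        · rw [Matrix.cons_val_succ]
          exact hT i
  obtain ⟨e, he, hT⟩ := claim m le_rfl
  refine ⟨fun i => T (e i), fun t => ?_, hT⟩
  have h1 : ∑ i, t i • T (e i) = T (∑ i, t i • e i) := by
    rw [map_sum]
    simp only [map_smul]
  rw [h1]
  refine (hT1 _).trans (le_of_eq ?_)
  have h2 : ‖∑ i, t i • e i‖ ^ 2 = ‖t‖ ^ 2 := by
    rw [← real_inner_self_eq_norm_sq, he.inner_sum, EuclideanSpace.real_norm_sq_eq]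
    refine Finset.sum_congr rfl fun i _ => ?_
    simp [sq]
  exact (sq_eq_sq₀ (norm_nonneg _) (norm_nonneg _)).1 h2

end P23F
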