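import Mathlib
import Pool.Agent.Lib.P23F.Defs

/-!
# Module P23F.ExpLow : the mean norm of a Gaussian sum is large

PROOF.  Let `C > 0` (for `C ≤ 0` the integral is nonnegative), `s := 4 C`.  Let
`q := P(|g| < s) < 1` for a standard real Gaussian `g`, and choose `m₀` with `q ^ m ≤ 1/2` for
`m ≥ m₀`.  Work on `Ω = Fin m → ℝ` with the product `π` of `gaussianReal 0 1`
(`map_pi_eq_stdGaussian` transfers the integral).  Put `N(g) = ‖∑ g j • x j‖`.  The disjoint events
`A i = {|g i| ≥ s, |g j| < s for all j < i}` depend only on the absolute values.  Let `φ_i` be the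
map changing the signs of all coordinates except the `i`-th one; it preserves `π` (product of the
symmetric measures) and `A i`.  So
`2 ∫_{A i} N = ∫_{A i} (N(g) + N(φ_i g)) ≥ ∫_{A i} ‖2 g i x i‖ ≥ ∫_{A i} 2 s (1/2) = s π(A i)`
since `∑ g j x j + ∑ (φ_i g) j x j = 2 g i x i` and `‖x i‖ ≥ 1/2`.  Summing over `i`:
`∫ N ≥ ∑ ∫_{A i} N ≥ (s/2) π(⋃ A i) = (s/2) (1 - q ^ m) ≥ s/4 = C`.
-/

set_option autoImplicit false

open MeasureTheory ProbabilityTheory

universe u

namespace P23F

namespace ExpLowAux

/-- the product of standard Gaussian measures -/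
noncomputable def gp (m : ℕ) : Measure (Fin m → ℝ) := Measure.pi fun _ => gaussianReal 0 1

instance (m : ℕ) : IsProbabilityMeasure (gp m) := by
  unfold gp
  infer_instance

/-- change the signs of all coordinates except one -/
def fl (m : ℕ) (i : Fin m) (g : Fin m → ℝ) : Fin m → ℝ := fun j => if j = i then g j else -g j

theorem fl_abs (m : ℕ) (i : Fin m) (g : Fin m → ℝ) (j : Fin m) : |fl m i g j| = |g j| := by
  unfold fl
  split_ifs <;> simp

theorem fl_meas (m : ℕ) (i : Fin m) : Measurable (fl m i) := by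
  refine measurable_pi_lambda _ fun j => ?_
  unfold fl
  by_cases h : j = i
  · simp only [h, if_true]
    exact measurable_pi_apply i
  · simp only [h, if_false]
    exact (measurable_pi_apply j).neg

theorem fl_map (m : ℕ) (i : Fin m) : (gp m).map (fl m i) = gp m := by
  have h : ∀ j : Fin m, MeasurePreserving (fun x : ℝ => if j = i then x else -x)
      (gaussianReal 0 1) (gaussianReal 0 1) := by
    intro j
    by_cases h : j = i
    · simp only [h, if_true]
      exact MeasurePreserving.id _
    · simp only [h, if_false]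
      refine ⟨measurable_neg, ?_⟩
      have := gaussianReal_map_neg (μ := 0) (v := 1)
      simpa using this
  have h2 := measurePreserving_pi (fun _ : Fin m => gaussianReal 0 1)
    (fun _ : Fin m => gaussianReal 0 1) h
  exact h2.map_eq

/-- first large coordinate -/
def A (m : ℕ) (s : ℝ) (i : Fin m) : Set (Fin m → ℝ) := {g | s ≤ |g i| ∧ ∀ j, j < i → |g j| < s}

/-- all coordinates small -/
def Z (m : ℕ) (s : ℝ) : Set (Fin m → ℝ) := {g | ∀ j, |g j| < s}

theorem A_meas (m : ℕ) (s : ℝ) (i : Fin m) : MeasurableSet (A m s i) := by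
  have h1 : ∀ j : Fin m, Measurable fun g : Fin m → ℝ => |g j| := fun j =>
    (measurable_pi_apply j).abs
  have e : A m s i = {g | s ≤ |g i|} ∩ ⋂ j : Fin m, ⋂ _ : j < i, {g : Fin m → ℝ | |g j| < s} := by
    ext g
    simp [A]
  rw [e]
  refine (measurableSet_le measurable_const (h1 i)).inter
    (MeasurableSet.iInter fun j => MeasurableSet.iInter fun _ =>
      measurableSet_lt (h1 j) measurable_const)

theorem Z_meas (m : ℕ) (s : ℝ) : MeasurableSet (Z m s) := by
  have h1 : ∀ j : Fin m, Measurable fun g : Fin m → ℝ => |g j| := fun j =>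
    (measurable_pi_apply j).abs
  have e : Z m s = ⋂ j : Fin m, {g : Fin m → ℝ | |g j| < s} := by
    ext g
    simp [Z]
  rw [e]
  exact MeasurableSet.iInter fun j => measurableSet_lt (h1 j) measurable_const

theorem fl_A (m : ℕ) (s : ℝ) (i : Fin m) (g : Fin m → ℝ) : fl m i g ∈ A m s i ↔ g ∈ A m s i := by
  simp [A, fl_abs]

/-- at most one event, and one of them occurs outside `Z` -/
theorem cover (m : ℕ) (s : ℝ) (g : Fin m → ℝ) (F : ℝ) :
    (∑ i, (A m s i).indicator (fun _ => F) g) + (Z m s).indicator (fun _ => F) g = F := by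
  classical
  by_cases hz : g ∈ Z m s
  · rw [Set.indicator_of_mem hz]
    have : ∀ i ∈ Finset.univ, (A m s i).indicator (fun _ => F) g = 0 := by
      intro i _
      refine Set.indicator_of_notMem ?_ _
      intro h
      exact absurd (hz i) (not_lt.2 h.1)
    rw [Finset.sum_eq_zero this, zero_add]
  · rw [Set.indicator_of_notMem hz, add_zero]
    have hne : (Finset.univ.filter fun j : Fin m => s ≤ |g j|).Nonempty := by
      unfold Z at hz
      simp only [Set.mem_ofPred_eq, not_forall, not_lt] at hz
      obtain ⟨j, hj⟩ := hz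
      exact ⟨j, by simpa using hj⟩
    set i0 := (Finset.univ.filter fun j : Fin m => s ≤ |g j|).min' hne with hi0
    have hmem := Finset.min'_mem _ hne
    rw [← hi0] at hmem
    have h1 : s ≤ |g i0| := by simpa using hmem
    have h2 : ∀ j, j < i0 → |g j| < s := by
      intro j hj
      by_contra hcon
      push Not at hcon
      have : i0 ≤ j := Finset.min'_le _ _ (by simpa using hcon)
      exact absurd hj (not_lt.2 this)
    rw [Finset.sum_eq_single i0]
    · exact Set.indicator_of_mem (show g ∈ A m s i0 from ⟨h1, h2⟩) _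
    · intro j _ hj
      refine Set.indicator_of_notMem ?_ _
      intro h
      rcases lt_or_gt_of_ne hj with h3 | h3
      · exact absurd (h2 j h3) (not_lt.2 h.1)
      · exact absurd (h.2 i0 h3) (not_lt.2 h1)
    · intro h
      exact absurd (Finset.mem_univ _) h

/-- probability of a small coordinate -/
noncomputable def qq (s : ℝ) : ℝ := (gaussianReal 0 1).real {x | |x| < s}

theorem Z_real (m : ℕ) (s : ℝ) : (gp m).real (Z m s) = qq s ^ m := by
  have e : Z m s = Set.univ.pi fun _ : Fin m => {x : ℝ | |x| < s} := by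
    ext g
    simp [Z]
  unfold qq gp
  rw [e, Measure.real, Measure.pi_pi, Finset.prod_const, Finset.card_univ, Fintype.card_fin,
    ENNReal.toReal_pow]
  rfl

theorem qq_lt (s : ℝ) : qq s < 1 := by
  have h1 : MeasurableSet {x : ℝ | |x| < s} :=
    measurableSet_lt measurable_id.abs measurable_const
  have h2 : (gaussianReal 0 1).real {x : ℝ | |x| < s}ᶜ = 1 - qq s := by
    rw [probReal_compl_eq_one_sub h1]
    rfl
  have h3 : 0 < (gaussianReal 0 1).real {x : ℝ | |x| < s}ᶜ := by
    rw [Measure.real, ENNReal.toReal_pos_iff]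
    refine ⟨?_, measure_lt_top _ _⟩
    rw [pos_iff_ne_zero]
    intro h0
    have h4 := gaussianReal_absolutelyContinuous' (0 : ℝ) (v := 1) one_ne_zero h0
    have h5 : Set.Ioi s ⊆ {x : ℝ | |x| < s}ᶜ := by
      intro x hx
      simp only [Set.mem_compl_iff, Set.mem_ofPred_eq, not_lt]
      exact (le_of_lt hx).trans (le_abs_self x)
    have h6 := measure_mono_null h5 h4
    rw [Real.volume_Ioi] at h6
    exact absurd h6 (by simp)
  linarith

theorem qq_nonneg (s : ℝ) : 0 ≤ qq s := measureReal_nonneg

section main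

variable {m : ℕ} {X : Type u} [NormedAddCommGroup X] [NormedSpace ℝ X] (x : Fin m → X)

/-- the norm of the sum -/
noncomputable def NN (g : Fin m → ℝ) : ℝ := ‖∑ i, g i • x i‖

theorem NN_nonneg (g : Fin m → ℝ) : 0 ≤ NN x g := norm_nonneg _

theorem NN_cont : Continuous (NN x) := by
  unfold NN
  fun_prop

theorem coord_int (j : Fin m) : Integrable (fun g : Fin m → ℝ => g j) (gp m) := by
  have h1 : Integrable (fun x : ℝ => x) (gaussianReal 0 1) := by
    have := memLp_id_gaussianReal (μ := 0) (v := 1) (1 : NNReal)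
    have h : MemLp (fun x : ℝ => x) 1 (gaussianReal 0 1) := by exact_mod_cast this
    exact memLp_one_iff_integrable.1 h
  have h2 : MeasurePreserving (fun g : Fin m → ℝ => g j) (gp m) (gaussianReal 0 1) :=
    measurePreserving_eval (fun _ : Fin m => gaussianReal 0 1) j
  exact h2.integrable_comp_of_integrable h1

theorem NN_int : Integrable (NN x) (gp m) := by
  have h1 : Integrable (fun g : Fin m → ℝ => ∑ j, |g j| * ‖x j‖) (gp m) :=
    integrable_finsetSum _ fun j _ => (coord_int j).abs.mul_const _
  refine h1.mono' (NN_cont x).aestronglyMeasurable (Filter.Eventually.of_forall fun g => ?_)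
  rw [Real.norm_of_nonneg (NN_nonneg x g)]
  refine (norm_sum_le _ _).trans (le_of_eq ?_)
  refine Finset.sum_congr rfl fun j _ => ?_
  rw [norm_smul, Real.norm_eq_abs]

theorem NN_fl (i : Fin m) (g : Fin m → ℝ) : 2 * |g i| * ‖x i‖ ≤ NN x g + NN x (fl m i g) := by
  have e : (∑ j, g j • x j) + (∑ j, fl m i g j • x j) = (2 * g i) • x i := by
    rw [← Finset.sum_add_distrib, Finset.sum_eq_single i]
    · simp only [fl, if_true]
      rw [← add_smul, two_mul]
    · intro j _ hj
      simp only [fl, hj, if_false]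
      rw [neg_smul, add_neg_cancel]
    · intro h
      exact absurd (Finset.mem_univ _) h
  have h := norm_add_le (∑ j, g j • x j) (∑ j, fl m i g j • x j)
  rw [e, norm_smul, Real.norm_eq_abs, abs_mul, abs_two] at h
  exact h

theorem part (s : ℝ) (hs : 0 ≤ s) (hx : ∀ i, 1 / 2 ≤ ‖x i‖) (i : Fin m) :
    s / 2 * ∫ g, (A m s i).indicator (fun _ => (1 : ℝ)) g ∂(gp m) ≤
      ∫ g, (A m s i).indicator (NN x) g ∂(gp m) := by
  have hA := A_meas m s i
  have hI : Integrable ((A m s i).indicator (NN x)) (gp m) := (NN_int x).indicator hA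
  have hmeas : Measurable ((A m s i).indicator (NN x)) := (NN_cont x).measurable.indicator hA
  have h1 : ∫ g, (A m s i).indicator (NN x) g ∂(gp m) =
      ∫ g, (A m s i).indicator (NN x) (fl m i g) ∂(gp m) := by
    conv_lhs => rw [← fl_map m i]
    rw [integral_map (fl_meas m i).aemeasurable hmeas.aestronglyMeasurable]
  have hI2 : Integrable (fun g => (A m s i).indicator (NN x) (fl m i g)) (gp m) := by
    have : MeasurePreserving (fl m i) (gp m) (gp m) := ⟨fl_meas m i, fl_map m i⟩
    exact this.integrable_comp_of_integrable hI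
  have h2 : ∫ g, s * (A m s i).indicator (fun _ => (1 : ℝ)) g ∂(gp m) ≤
      ∫ g, ((A m s i).indicator (NN x) g + (A m s i).indicator (NN x) (fl m i g)) ∂(gp m) := by
    refine integral_mono_of_nonneg (Filter.Eventually.of_forall fun g => ?_) (hI.add hI2)
      (Filter.Eventually.of_forall fun g => ?_)
    · exact mul_nonneg hs (Set.indicator_nonneg (fun _ _ => zero_le_one) _)
    · by_cases hg : g ∈ A m s i
      · have hg2 : fl m i g ∈ A m s i := (fl_A m s i g).2 hg
        simp only [Set.indicator_of_mem hg, Set.indicator_of_mem hg2]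
        have h3 := NN_fl x i g
        have h4 := hg.1
        have h5 := hx i
        have h6 : s * 1 ≤ 2 * |g i| * ‖x i‖ := by nlinarith [norm_nonneg (x i)]
        linarith
      · have hg2 : fl m i g ∉ A m s i := fun h => hg ((fl_A m s i g).1 h)
        simp only [Set.indicator_of_notMem hg, Set.indicator_of_notMem hg2]
        simp
  rw [integral_const_mul, integral_add hI hI2, ← h1] at h2
  linarith

theorem main (s : ℝ) (hs : 0 ≤ s) (hx : ∀ i, 1 / 2 ≤ ‖x i‖) :
    s / 2 * (1 - qq s ^ m) ≤ ∫ g, NN x g ∂(gp m) := by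
  have hZ : Integrable ((Z m s).indicator (fun _ => (1 : ℝ))) (gp m) :=
    (integrable_const _).indicator (Z_meas m s)
  have hA : ∀ i ∈ (Finset.univ : Finset (Fin m)),
      Integrable ((A m s i).indicator (fun _ => (1 : ℝ))) (gp m) := fun i _ =>
    (integrable_const _).indicator (A_meas m s i)
  have hN : ∀ i ∈ (Finset.univ : Finset (Fin m)),
      Integrable ((A m s i).indicator (NN x)) (gp m) := fun i _ =>
    (NN_int x).indicator (A_meas m s i)
  have h1 : (∑ i, ∫ g, (A m s i).indicator (fun _ => (1 : ℝ)) g ∂(gp m)) +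
      (gp m).real (Z m s) = 1 := by
    have h2 : ∫ g, ((∑ i, (A m s i).indicator (fun _ => (1 : ℝ)) g) +
        (Z m s).indicator (fun _ => (1 : ℝ)) g) ∂(gp m) = 1 := by
      simp_rw [cover m s _ 1]
      simp
    rw [integral_add (integrable_finsetSum _ hA) hZ, integral_finsetSum _ hA,
      integral_indicator (Z_meas m s)] at h2
    simpa using h2
  have h3 : (∑ i, ∫ g, (A m s i).indicator (NN x) g ∂(gp m)) ≤ ∫ g, NN x g ∂(gp m) := by
    rw [← integral_finsetSum _ hN]
    refine integral_mono (integrable_finsetSum _ hN) (NN_int x) fun g => ?_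
    have h4 := cover m s g (NN x g)
    have h5 : ∀ i, (A m s i).indicator (NN x) g = (A m s i).indicator (fun _ => NN x g) g := by
      intro i
      by_cases hg : g ∈ A m s i
      · rw [Set.indicator_of_mem hg, Set.indicator_of_mem hg]
      · rw [Set.indicator_of_notMem hg, Set.indicator_of_notMem hg]
    have h6 : 0 ≤ (Z m s).indicator (fun _ => NN x g) g :=
      Set.indicator_nonneg (fun _ _ => NN_nonneg x g) _
    simp only [h5]
    linarith
  have h7 : ∑ i, (s / 2 * ∫ g, (A m s i).indicator (fun _ => (1 : ℝ)) g ∂(gp m)) ≤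
      ∑ i, ∫ g, (A m s i).indicator (NN x) g ∂(gp m) :=
    Finset.sum_le_sum fun i _ => part x s hs hx i
  rw [← Finset.mul_sum] at h7
  rw [Z_real] at h1
  have h8 : (∑ i, ∫ g, (A m s i).indicator (fun _ => (1 : ℝ)) g ∂(gp m)) = 1 - qq s ^ m := by
    linarith
  rw [h8] at h7
  exact h7.trans h3

end main

end ExpLowAux

open ExpLowAux

theorem exp_low (C : ℝ) : ∃ m₀ : ℕ, ∀ m : ℕ, m₀ ≤ m →
    ∀ (X : Type u) [NormedAddCommGroup X] [NormedSpace ℝ X] (x : Fin m → X),
      (∀ i, 1 / 2 ≤ ‖x i‖) →
      C ≤ ∫ g, ‖∑ i, g i • x i‖ ∂(stdGaussian (EuclideanSpace ℝ (Fin m))) := by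
  rcases le_or_gt C 0 with hC | hC
  · refine ⟨0, fun m _ X _ _ x _ => hC.trans ?_⟩
    exact integral_nonneg fun _ => norm_nonneg _
  · have hq := qq_lt (4 * C)
    have hq0 := qq_nonneg (4 * C)
    obtain ⟨m₀, hm₀⟩ := exists_pow_lt_of_lt_one (show (0 : ℝ) < 1 / 2 by norm_num) hq
    refine ⟨m₀, fun m hm X _ _ x hx => ?_⟩
    have h1 : qq (4 * C) ^ m ≤ 1 / 2 :=
      (pow_le_pow_of_le_one hq0 hq.le hm).trans hm₀.le
    have h2 := main x (4 * C) (by linarith) hx
    have h3 : ∫ g, ‖∑ i, g i • x i‖ ∂(stdGaussian (EuclideanSpace ℝ (Fin m))) =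
        ∫ g, NN x g ∂(gp m) := by
      have hc : Continuous fun g : EuclideanSpace ℝ (Fin m) => ‖∑ i, g i • x i‖ := by
        fun_prop
      have hmm : Measurable (WithLp.toLp 2 : (Fin m → ℝ) → EuclideanSpace ℝ (Fin m)) := by
        fun_prop
      rw [← map_pi_eq_stdGaussian, integral_map hmm.aemeasurable hc.aestronglyMeasurable]
      rfl
    rw [h3]
    nlinarith

end P23F
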