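import Mathlib
import Pool.Agent.Lib.P23F.Defs

/-!
# Module P23F.GaussOp : law of a Gaussian matrix applied to a unit vector

PROOF.  The map `L : EuclideanSpace ℝ (Fin m × Fin k) →L EuclideanSpace ℝ (Fin m)`,
`(L g) i = ∑ j, g (i, j) * v j`, satisfies `‖L† t‖ = ‖t‖` for a unit vector `v`
(`L† t = (t i * v j)_{i j}` and `∑ (t i v j)² = ‖t‖² ‖v‖²`).  The image of `stdGaussian` has
characteristic function `t ↦ charFun (stdGaussian) (L† t) = exp (- ‖L† t‖² / 2) = exp (-‖t‖²/2)`
(`charFun_map`-type lemma or directly from the definition: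
`⟪L g, t⟫ = ⟪g, L† t⟫`), so it is `stdGaussian` by `Measure.ext_of_charFun`.
-/

set_option autoImplicit false

open MeasureTheory ProbabilityTheory

namespace P23F

private theorem cont_op {m k : ℕ} (v : EuclideanSpace ℝ (Fin k)) :
    Continuous (fun g : EuclideanSpace ℝ (Fin m × Fin k) =>
      (WithLp.toLp 2 fun i => ∑ j, g (i, j) * v j : EuclideanSpace ℝ (Fin m))) := by
  apply (PiLp.continuous_toLp 2 _).comp
  fun_prop

/-- the adjoint -/
private noncomputable def adj {m k : ℕ} (v : EuclideanSpace ℝ (Fin k))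
    (t : EuclideanSpace ℝ (Fin m)) : EuclideanSpace ℝ (Fin m × Fin k) :=
  WithLp.toLp 2 fun p => t p.1 * v p.2

private theorem norm_adj {m k : ℕ} (v : EuclideanSpace ℝ (Fin k)) (hv : ‖v‖ = 1)
    (t : EuclideanSpace ℝ (Fin m)) : ‖adj v t‖ ^ 2 = ‖t‖ ^ 2 := by
  rw [EuclideanSpace.real_norm_sq_eq, EuclideanSpace.real_norm_sq_eq]
  have hv2 : ∑ j, v j ^ 2 = 1 := by
    rw [← EuclideanSpace.real_norm_sq_eq, hv]
    norm_num
  have h1 : ∀ p : Fin m × Fin k, (adj v t) p ^ 2 = t p.1 ^ 2 * v p.2 ^ 2 := by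
    intro p
    show (t p.1 * v p.2) ^ 2 = _
    ring
  rw [Finset.sum_congr rfl fun p _ => h1 p, Fintype.sum_prod_type]
  refine Finset.sum_congr rfl fun i _ => ?_
  show ∑ j, t i ^ 2 * v j ^ 2 = t i ^ 2
  rw [← Finset.mul_sum, hv2, mul_one]

private theorem inner_op {m k : ℕ} (v : EuclideanSpace ℝ (Fin k))
    (g : EuclideanSpace ℝ (Fin m × Fin k)) (t : EuclideanSpace ℝ (Fin m)) :
    inner ℝ (WithLp.toLp 2 fun i => ∑ j, g (i, j) * v j : EuclideanSpace ℝ (Fin m)) t =
      inner ℝ g (adj v t) := by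
  rw [PiLp.inner_apply, PiLp.inner_apply, Fintype.sum_prod_type]
  refine Finset.sum_congr rfl fun i _ => ?_
  show inner ℝ (∑ j, g (i, j) * v j) (t i) = ∑ j, inner ℝ (g (i, j)) (t i * v j)
  simp only [RCLike.inner_apply, conj_trivial]
  rw [Finset.mul_sum]
  refine Finset.sum_congr rfl fun j _ => ?_
  ring

theorem gauss_op {m k : ℕ} (v : EuclideanSpace ℝ (Fin k)) (hv : ‖v‖ = 1) :
    (stdGaussian (EuclideanSpace ℝ (Fin m × Fin k))).map
      (fun g => (WithLp.toLp 2 fun i => ∑ j, g (i, j) * v j : EuclideanSpace ℝ (Fin m))) =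
    stdGaussian (EuclideanSpace ℝ (Fin m)) := by
  have hm : Measurable (fun g : EuclideanSpace ℝ (Fin m × Fin k) =>
      (WithLp.toLp 2 fun i => ∑ j, g (i, j) * v j : EuclideanSpace ℝ (Fin m))) :=
    (cont_op v).measurable
  have : IsProbabilityMeasure ((stdGaussian (EuclideanSpace ℝ (Fin m × Fin k))).map
      (fun g => (WithLp.toLp 2 fun i => ∑ j, g (i, j) * v j : EuclideanSpace ℝ (Fin m)))) :=
    Measure.isProbabilityMeasure_map hm.aemeasurable
  apply Measure.ext_of_charFun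
  funext t
  rw [charFun_stdGaussian, charFun_apply, integral_map hm.aemeasurable
    (Continuous.aestronglyMeasurable (by fun_prop))]
  simp only [inner_op]
  rw [← charFun_apply, charFun_stdGaussian]
  congr 2
  have h := norm_adj v hv t
  rw [← Complex.ofReal_pow, ← Complex.ofReal_pow, h]

end P23F
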