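import Mathlib
import Pool.Agent.Lib.P23F.Defs
import Pool.Agent.Lib.P07dee5.Dens

/-!
# Module P23F.SmallRot : small rotations and Lipschitz functions

Notation `E = EuclideanSpace ℝ (Fin N)`, `γ = stdGaussian E`, `F` is `L`-Lipschitz.

PROOF.  Let `G δ p := (δ⁻¹ (F (cos δ p.1 + sin δ p.2) - F p.1)) ^ 2` for `δ > 0`.
(1) Domination: `|F (cos δ x + sin δ y) - F x| ≤ L (|cos δ - 1| ‖x‖ + |sin δ| ‖y‖)
≤ L δ (‖x‖ + ‖y‖)` for `0 < δ ≤ 1`, so `G δ p ≤ L² (‖x‖ + ‖y‖)²`, which is integrable for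
`γ.prod γ` (`IsGaussian.memLp_two_id` and `MemLp` on products, or `(a+b)² ≤ 2a² + 2b²`).
(2) Pointwise limit: `F` is differentiable at Lebesgue-almost every `x`
(`LipschitzWith.ae_differentiableAt_of_real`), hence at `γ`-almost every `x`, because `γ` is
absolutely continuous: `Pool.Agent.Lib.P07dee5.Dens` has `law_eq_density` (take `t = 1`), or use
`map_pi_eq_stdGaussian` and the density of `gaussianReal`.  At such `x`, for every `y`, the curve
`δ ↦ cos δ • x + sin δ • y` has derivative `y` at `0`, so `G δ (x, y) → (fderiv ℝ F x y) ^ 2`.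
(3) `‖fderiv ℝ F x‖ ≤ L` and `∫ (ℓ y)² dγ(y) = ‖ℓ‖²` for a continuous linear functional `ℓ`
(`variance_dual_stdGaussian`, mean zero).  So by dominated convergence and Fubini
`∫ G δ → ∫ (fderiv F x y)² ≤ L²`, hence `∫ G δ ≤ L² + ε` for all small `δ > 0`.  (Measurability of
the limit is given by dominated convergence `tendsto_integral_of_dominated_convergence` along
sequences, or measurability of `fderiv`; the filter `𝓝[>] 0` is countably generated so
`tendsto_integral_filter_of_dominated_convergence` applies.)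
-/

set_option autoImplicit false

open MeasureTheory ProbabilityTheory
open scoped NNReal

namespace P23F

namespace SmallRotAux

open Filter Topology

theorem ac (N : ℕ) : stdGaussian (EuclideanSpace ℝ (Fin N)) ≪
    (volume : Measure (EuclideanSpace ℝ (Fin N))) := by
  have h := Pool.Agent.Lib.P07dee5.law_eq_density (E := EuclideanSpace ℝ (Fin N)) (t := 1) one_pos
  have h1 : (stdGaussian (EuclideanSpace ℝ (Fin N))).map
      (fun z => (NNReal.sqrt 1 : ℝ) • z) = stdGaussian (EuclideanSpace ℝ (Fin N)) := by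
    simp
  rw [h1] at h
  rw [h]
  exact withDensity_absolutelyContinuous _ _

theorem rot_le {E : Type*} [NormedAddCommGroup E] [NormedSpace ℝ E] (x y : E) {δ : ℝ}
    (h0 : 0 < δ) (h1 : δ ≤ 1) : ‖(Real.cos δ • x + Real.sin δ • y) - x‖ ≤ δ * (‖x‖ + ‖y‖) := by
  have e : (Real.cos δ • x + Real.sin δ • y) - x = (Real.cos δ - 1) • x + Real.sin δ • y := by
    rw [sub_smul, one_smul]
    abel
  rw [e]
  have hs : |Real.sin δ| ≤ δ := by
    have := Real.abs_sin_le_abs (x := δ)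
    rwa [abs_of_pos h0] at this
  have hc : |Real.cos δ - 1| ≤ δ := by
    have h2 := Real.one_sub_sq_div_two_le_cos (x := δ)
    have h3 := Real.cos_le_one δ
    rw [abs_of_nonpos (by linarith)]
    nlinarith
  calc ‖(Real.cos δ - 1) • x + Real.sin δ • y‖
      ≤ ‖(Real.cos δ - 1) • x‖ + ‖Real.sin δ • y‖ := norm_add_le _ _
    _ = |Real.cos δ - 1| * ‖x‖ + |Real.sin δ| * ‖y‖ := by
        rw [norm_smul, norm_smul, Real.norm_eq_abs, Real.norm_eq_abs]
    _ ≤ δ * ‖x‖ + δ * ‖y‖ := add_le_add (mul_le_mul_of_nonneg_right hc (norm_nonneg _))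
        (mul_le_mul_of_nonneg_right hs (norm_nonneg _))
    _ = δ * (‖x‖ + ‖y‖) := by ring

theorem dom {E : Type*} [NormedAddCommGroup E] [NormedSpace ℝ E] (F : E → ℝ) (L : ℝ≥0)
    (hF : LipschitzWith L F) (x y : E) {δ : ℝ} (h0 : 0 < δ) (h1 : δ ≤ 1) :
    (δ⁻¹ * (F (Real.cos δ • x + Real.sin δ • y) - F x)) ^ 2 ≤ (L : ℝ) ^ 2 * (‖x‖ + ‖y‖) ^ 2 := by
  have h2 : |F (Real.cos δ • x + Real.sin δ • y) - F x| ≤ L * (δ * (‖x‖ + ‖y‖)) := by
    have h3 := hF.norm_sub_le (Real.cos δ • x + Real.sin δ • y) x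
    rw [Real.norm_eq_abs] at h3
    exact h3.trans (mul_le_mul_of_nonneg_left (rot_le x y h0 h1) L.coe_nonneg)
  have h4 : |δ⁻¹ * (F (Real.cos δ • x + Real.sin δ • y) - F x)| ≤ L * (‖x‖ + ‖y‖) := by
    rw [abs_mul, abs_of_pos (inv_pos.2 h0)]
    calc δ⁻¹ * |F (Real.cos δ • x + Real.sin δ • y) - F x|
        ≤ δ⁻¹ * (L * (δ * (‖x‖ + ‖y‖))) := mul_le_mul_of_nonneg_left h2 (inv_pos.2 h0).le
      _ = L * (‖x‖ + ‖y‖) := by field_simp
  rw [← sq_abs, ← mul_pow]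
  exact pow_le_pow_left₀ (abs_nonneg _) h4 2

theorem ptw {E : Type*} [NormedAddCommGroup E] [NormedSpace ℝ E] (F : E → ℝ) (x y : E)
    (hd : DifferentiableAt ℝ F x) :
    Tendsto (fun δ : ℝ => (δ⁻¹ * (F (Real.cos δ • x + Real.sin δ • y) - F x)) ^ 2) (𝓝[>] 0)
      (𝓝 ((fderiv ℝ F x y) ^ 2)) := by
  have h1 : HasDerivAt (fun δ : ℝ => Real.cos δ • x + Real.sin δ • y) y 0 := by
    have h2 : HasDerivAt (fun δ : ℝ => Real.cos δ • x + Real.sin δ • y)
        (-Real.sin 0 • x + Real.cos 0 • y) 0 :=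
      ((Real.hasDerivAt_cos 0).smul_const x).add ((Real.hasDerivAt_sin 0).smul_const y)
    simpa using h2
  have h3 : HasFDerivAt F (fderiv ℝ F x)
      ((fun δ : ℝ => Real.cos δ • x + Real.sin δ • y) 0) := by
    simpa using hd.hasFDerivAt
  have h4 := (h3.comp_hasDerivAt (0 : ℝ) h1).tendsto_slope_zero_right
  have h5 : Tendsto (fun δ : ℝ => δ⁻¹ * (F (Real.cos δ • x + Real.sin δ • y) - F x)) (𝓝[>] 0)
      (𝓝 (fderiv ℝ F x y)) := by
    simpa using h4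
  exact h5.pow 2

theorem int_sq {N : ℕ} (ℓ : StrongDual ℝ (EuclideanSpace ℝ (Fin N))) :
    ∫ y, (ℓ y) ^ 2 ∂(stdGaussian (EuclideanSpace ℝ (Fin N))) = ‖ℓ‖ ^ 2 := by
  rw [← variance_dual_stdGaussian ℓ, variance_of_integral_eq_zero]
  · exact ℓ.continuous.aemeasurable
  · exact integral_strongDual_stdGaussian ℓ

theorem bound_int (N : ℕ) (c : ℝ) :
    Integrable (fun p : EuclideanSpace ℝ (Fin N) × EuclideanSpace ℝ (Fin N) =>
      c * (‖p.1‖ + ‖p.2‖) ^ 2) ((stdGaussian (EuclideanSpace ℝ (Fin N))).prod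
            (stdGaussian (EuclideanSpace ℝ (Fin N)))) := by
  have h : MemLp (fun x : EuclideanSpace ℝ (Fin N) => ‖x‖) 2
      (stdGaussian (EuclideanSpace ℝ (Fin N))) := IsGaussian.memLp_two_id.norm
  have h1 := h.comp_fst (stdGaussian (EuclideanSpace ℝ (Fin N)))
  have h2 := h.comp_snd (stdGaussian (EuclideanSpace ℝ (Fin N)))
  exact ((h1.add h2).integrable_sq).const_mul c

end SmallRotAux

open SmallRotAux Filter Topology in
theorem small_rot {N : ℕ} (F : EuclideanSpace ℝ (Fin N) → ℝ) (L : ℝ≥0) (hF : LipschitzWith L F)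
    (ε : ℝ) (hε : 0 < ε) :
    ∃ δ₀ > 0, ∀ δ : ℝ, 0 < δ → δ ≤ δ₀ →
      ∫ p : EuclideanSpace ℝ (Fin N) × EuclideanSpace ℝ (Fin N),
        (F (Real.cos δ • p.1 + Real.sin δ • p.2) - F p.1) ^ 2
          ∂((stdGaussian (EuclideanSpace ℝ (Fin N))).prod
            (stdGaussian (EuclideanSpace ℝ (Fin N)))) ≤ ((L : ℝ) ^ 2 + ε) * δ ^ 2 := by
  set γ := stdGaussian (EuclideanSpace ℝ (Fin N)) with hγ
  set G : ℝ → EuclideanSpace ℝ (Fin N) × EuclideanSpace ℝ (Fin N) → ℝ := fun δ p =>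
    (δ⁻¹ * (F (Real.cos δ • p.1 + Real.sin δ • p.2) - F p.1)) ^ 2 with hG
  have hFc : Continuous F := hF.continuous
  have hGc : ∀ δ, AEStronglyMeasurable (G δ) (γ.prod γ) := by
    intro δ
    have : Continuous (G δ) := by
      rw [hG]
      fun_prop
    exact this.aestronglyMeasurable
  have hd : ∀ᵐ x ∂γ, DifferentiableAt ℝ F x := (ac N).ae_le (hF.ae_differentiableAt_of_real)
  have hd2 : ∀ᵐ p ∂(γ.prod γ), DifferentiableAt ℝ F p.1 :=
    Measure.quasiMeasurePreserving_fst.ae hd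
  have hlim : ∀ᵐ p ∂(γ.prod γ), Tendsto (fun δ => G δ p) (𝓝[>] 0)
      (𝓝 ((fderiv ℝ F p.1 p.2) ^ 2)) := by
    filter_upwards [hd2] with p hp
    exact ptw F p.1 p.2 hp
  have hbd := bound_int N ((L : ℝ) ^ 2)
  have htend : Tendsto (fun δ => ∫ p, G δ p ∂(γ.prod γ)) (𝓝[>] 0)
      (𝓝 (∫ p, (fderiv ℝ F p.1 p.2) ^ 2 ∂(γ.prod γ))) := by
    refine tendsto_integral_filter_of_dominated_convergence
      (fun p => (L : ℝ) ^ 2 * (‖p.1‖ + ‖p.2‖) ^ 2) (Eventually.of_forall hGc) ?_ hbd hlim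
    filter_upwards [Ioc_mem_nhdsGT (show (0 : ℝ) < 1 from one_pos)] with δ hδ
    refine Eventually.of_forall fun p => ?_
    rw [Real.norm_eq_abs, abs_of_nonneg (sq_nonneg _)]
    exact dom F L hF p.1 p.2 hδ.1 hδ.2
  have hLn : ∀ x, ‖fderiv ℝ F x‖ ≤ L := fun x => norm_fderiv_le_of_lipschitz ℝ hF
  have hlm : AEStronglyMeasurable (fun p : EuclideanSpace ℝ (Fin N) × EuclideanSpace ℝ (Fin N) =>
      (fderiv ℝ F p.1 p.2) ^ 2) (γ.prod γ) :=
    aestronglyMeasurable_of_tendsto_ae (𝓝[>] (0 : ℝ)) hGc hlim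
  have hli : Integrable (fun p : EuclideanSpace ℝ (Fin N) × EuclideanSpace ℝ (Fin N) =>
      (fderiv ℝ F p.1 p.2) ^ 2) (γ.prod γ) := by
    refine hbd.mono' hlm (Eventually.of_forall fun p => ?_)
    rw [Real.norm_eq_abs, abs_of_nonneg (sq_nonneg _), ← sq_abs, ← mul_pow]
    refine pow_le_pow_left₀ (abs_nonneg _) ?_ 2
    have h1 := (fderiv ℝ F p.1).le_opNorm p.2
    rw [Real.norm_eq_abs] at h1
    refine h1.trans (mul_le_mul (hLn p.1) ?_ (norm_nonneg _) L.coe_nonneg)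
    have := norm_nonneg p.1
    linarith
  have hI : ∫ p, (fderiv ℝ F p.1 p.2) ^ 2 ∂(γ.prod γ) ≤ (L : ℝ) ^ 2 := by
    rw [integral_prod _ hli]
    have h1 : ∀ x, ∫ y, (fderiv ℝ F x y) ^ 2 ∂γ = ‖fderiv ℝ F x‖ ^ 2 := fun x => int_sq _
    have h2 : ∫ x, ∫ y, (fderiv ℝ F x y) ^ 2 ∂γ ∂γ ≤ ∫ _ : EuclideanSpace ℝ (Fin N),
        (L : ℝ) ^ 2 ∂γ := by
      refine integral_mono hli.integral_prod_left (integrable_const _) fun x => ?_
      simp only [h1]
      exact pow_le_pow_left₀ (norm_nonneg _) (hLn x) 2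
    refine h2.trans (le_of_eq ?_)
    simp
  have hev : ∀ᶠ δ in 𝓝[>] (0 : ℝ), ∫ p, G δ p ∂(γ.prod γ) < (L : ℝ) ^ 2 + ε :=
    htend.eventually_lt_const (lt_of_le_of_lt hI (by linarith))
  obtain ⟨δ₁, hδ₁, hsub⟩ := mem_nhdsGT_iff_exists_Ioo_subset.1 hev
  refine ⟨δ₁ / 2, half_pos hδ₁, fun δ h0 h1 => ?_⟩
  have h2 : ∫ p, G δ p ∂(γ.prod γ) < (L : ℝ) ^ 2 + ε :=
    hsub ⟨h0, lt_of_le_of_lt h1 (half_lt_self hδ₁)⟩
  have h3 : ∀ p : EuclideanSpace ℝ (Fin N) × EuclideanSpace ℝ (Fin N),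
      (F (Real.cos δ • p.1 + Real.sin δ • p.2) - F p.1) ^ 2 = δ ^ 2 * G δ p := by
    intro p
    simp only [hG]
    rw [mul_pow, ← mul_assoc, ← mul_pow, mul_inv_cancel₀ h0.ne', one_pow, one_mul]
  simp only [h3]
  rw [integral_const_mul, mul_comm]
  exact mul_le_mul_of_nonneg_right h2.le (sq_nonneg _)

end P23F
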