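import Mathlib
import Pool.Agent.Lib.P23F.SmallRot

/-!
# Module P23F.VarBd : variance of a Lipschitz function of a Gaussian vector

Notation `E = EuclideanSpace ℝ (Fin N)`, `γ = stdGaussian E`, `P = γ.prod γ`.

PROOF.  `P` is invariant under `ContinuousLinearMap.rotation θ`
(`ProbabilityTheory.IsGaussian.map_rotation_eq_self`, mean zero by `integral_id_stdGaussian`).
Let `x_θ = cos θ x + sin θ y` (first coordinate of the rotation of `p = (x, y)`), `x_0 = x`,
`x_{π/2} = y`.  Fix `ε > 0`, `δ₀` from `small_rot`, `K ≥ 1` with `δ := π / (2 K) ≤ δ₀`.  Then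
`F y - F x = ∑_{j < K} D_j`, `D_j = F (x_{(j+1) δ}) - F (x_{j δ})`.  Since
`x_{(j+1)δ} = cos δ x_{jδ} + sin δ y_{jδ}` with `(x_θ, y_θ)` the rotation of `(x, y)`, invariance
gives `∫ D_j² dP = ∫ D_0² dP ≤ (L² + ε) δ²`.  By Cauchy-Schwarz `(∑ D_j)² ≤ K ∑ D_j²`, so
`∫ (F x - F y)² dP ≤ K² (L² + ε) δ² = (π² / 4) (L² + ε)`.  Let `ε → 0`.
Integrability of the squares: `|F x - F x'| ≤ L ‖x - x'‖` and `IsGaussian.memLp_two_id`.

Second statement: with `m = ∫ F dγ`,
`∫ (F x - F y)² dP = 2 ∫ (F - m)² dγ` (expand, Fubini), so `∫ (F - m)² dγ ≤ (π²/8) L² ≤ 2 L²`.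
-/

set_option autoImplicit false

open MeasureTheory ProbabilityTheory
open scoped NNReal

namespace P23F

namespace VarBdAux

/-- rotations preserve the product of two standard Gaussian measures -/
theorem mp_rot (N : ℕ) (θ : ℝ) :
    MeasurePreserving (ContinuousLinearMap.rotation (E := EuclideanSpace ℝ (Fin N)) θ)
      ((stdGaussian (EuclideanSpace ℝ (Fin N))).prod (stdGaussian (EuclideanSpace ℝ (Fin N))))
      ((stdGaussian (EuclideanSpace ℝ (Fin N))).prod (stdGaussian (EuclideanSpace ℝ (Fin N)))) :=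
  ⟨(ContinuousLinearMap.rotation θ).continuous.measurable,
    IsGaussian.map_rotation_eq_self
      (by simp) θ⟩

theorem memLp_lip {N : ℕ} (F : EuclideanSpace ℝ (Fin N) → ℝ) (L : ℝ≥0)
    (hF : LipschitzWith L F) : MemLp F 2 (stdGaussian (EuclideanSpace ℝ (Fin N))) := by
  have h1 : MemLp (fun x : EuclideanSpace ℝ (Fin N) => (L : ℝ) * ‖x‖ + |F 0|) 2
      (stdGaussian (EuclideanSpace ℝ (Fin N))) :=
    ((IsGaussian.memLp_two_id
      (μ := stdGaussian (EuclideanSpace ℝ (Fin N)))).norm.const_mul (L : ℝ)).add (memLp_const _)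
  refine h1.mono' hF.continuous.aestronglyMeasurable (ae_of_all _ fun x => ?_)
  have h2 := hF.dist_le_mul x 0
  rw [Real.dist_eq, dist_zero_right] at h2
  rw [Real.norm_eq_abs]
  have h3 := abs_sub_abs_le_abs_sub (F x) (F 0)
  linarith

/-- the path from the first to the second coordinate -/
noncomputable def X {N : ℕ} (θ : ℝ) (p : EuclideanSpace ℝ (Fin N) × EuclideanSpace ℝ (Fin N)) :
    EuclideanSpace ℝ (Fin N) := Real.cos θ • p.1 + Real.sin θ • p.2

theorem X_add {N : ℕ} (θ δ : ℝ) (p : EuclideanSpace ℝ (Fin N) × EuclideanSpace ℝ (Fin N)) :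
    X (θ + δ) p = X δ (ContinuousLinearMap.rotation θ p) := by
  unfold X
  rw [ContinuousLinearMap.rotation_apply, Real.cos_add, Real.sin_add]
  simp only [smul_add, smul_smul]
  module

theorem memLp_X {N : ℕ} (F : EuclideanSpace ℝ (Fin N) → ℝ) (L : ℝ≥0)
    (hF : LipschitzWith L F) (θ : ℝ) :
    MemLp (fun p => F (X θ p)) 2
      ((stdGaussian (EuclideanSpace ℝ (Fin N))).prod (stdGaussian (EuclideanSpace ℝ (Fin N)))) := by
  have h1 := (memLp_lip F L hF).comp_measurePreserving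
    (measurePreserving_fst (μ := stdGaussian (EuclideanSpace ℝ (Fin N)))
      (ν := stdGaussian (EuclideanSpace ℝ (Fin N))))
  exact h1.comp_measurePreserving (mp_rot N θ)

theorem int_step {N : ℕ} (F : EuclideanSpace ℝ (Fin N) → ℝ) (L : ℝ≥0)
    (hF : LipschitzWith L F) (θ δ : ℝ) :
    ∫ p, (F (X (θ + δ) p) - F (X θ p)) ^ 2
        ∂((stdGaussian (EuclideanSpace ℝ (Fin N))).prod (stdGaussian (EuclideanSpace ℝ (Fin N)))) =
      ∫ p : EuclideanSpace ℝ (Fin N) × EuclideanSpace ℝ (Fin N),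
        (F (Real.cos δ • p.1 + Real.sin δ • p.2) - F p.1) ^ 2
        ∂((stdGaussian (EuclideanSpace ℝ (Fin N))).prod
          (stdGaussian (EuclideanSpace ℝ (Fin N)))) := by
  have hc : Continuous fun p : EuclideanSpace ℝ (Fin N) × EuclideanSpace ℝ (Fin N) =>
      (F (Real.cos δ • p.1 + Real.sin δ • p.2) - F p.1) ^ 2 := by
    have := hF.continuous
    fun_prop
  have h1 := integral_map (μ := (stdGaussian (EuclideanSpace ℝ (Fin N))).prod
      (stdGaussian (EuclideanSpace ℝ (Fin N)))) (mp_rot N θ).measurable.aemeasurable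
      (f := fun p : EuclideanSpace ℝ (Fin N) × EuclideanSpace ℝ (Fin N) =>
        (F (Real.cos δ • p.1 + Real.sin δ • p.2) - F p.1) ^ 2) hc.aestronglyMeasurable
  rw [(mp_rot N θ).map_eq] at h1
  rw [h1]
  refine integral_congr_ae (ae_of_all _ fun p => ?_)
  show (F (X (θ + δ) p) - F (X θ p)) ^ 2 = _
  rw [X_add]
  rfl

/-- the bound along the whole path -/
theorem path_bound {N : ℕ} (F : EuclideanSpace ℝ (Fin N) → ℝ) (L : ℝ≥0)
    (hF : LipschitzWith L F) (ε : ℝ) (hε : 0 < ε) :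
    ∫ p : EuclideanSpace ℝ (Fin N) × EuclideanSpace ℝ (Fin N), (F p.2 - F p.1) ^ 2
        ∂((stdGaussian (EuclideanSpace ℝ (Fin N))).prod (stdGaussian (EuclideanSpace ℝ (Fin N)))) ≤
      (Real.pi / 2) ^ 2 * ((L : ℝ) ^ 2 + ε) := by
  obtain ⟨δ₀, hδ₀, hsm⟩ := small_rot F L hF ε hε
  obtain ⟨K, hK⟩ := exists_nat_gt (Real.pi / (2 * δ₀))
  have hpi := Real.pi_pos
  have hK0 : (0 : ℝ) < K := lt_trans (by positivity) hK
  set δ : ℝ := Real.pi / (2 * K) with hδ
  have hδ1 : 0 < δ := by positivity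
  have hδ2 : δ ≤ δ₀ := by
    rw [hδ, div_le_iff₀ (by positivity)]
    rw [div_lt_iff₀ (by positivity)] at hK
    linarith
  have hstep := hsm δ hδ1 hδ2
  set P := (stdGaussian (EuclideanSpace ℝ (Fin N))).prod
    (stdGaussian (EuclideanSpace ℝ (Fin N))) with hP
  have hint : ∀ θ δ : ℝ, Integrable (fun p => (F (X (θ + δ) p) - F (X θ p)) ^ 2) P := fun θ δ =>
    ((memLp_X F L hF (θ + δ)).sub (memLp_X F L hF θ)).integrable_sq
  have hX0 : ∀ p : EuclideanSpace ℝ (Fin N) × EuclideanSpace ℝ (Fin N), X 0 p = p.1 := by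
    intro p; simp [X]
  have hX1 : ∀ p : EuclideanSpace ℝ (Fin N) × EuclideanSpace ℝ (Fin N),
      X (K * δ) p = p.2 := by
    intro p
    have h1 : (K : ℝ) * δ = Real.pi / 2 := by
      rw [hδ]
      field_simp
    rw [h1]
    simp [X]
  have htel : ∀ p : EuclideanSpace ℝ (Fin N) × EuclideanSpace ℝ (Fin N),
      (F p.2 - F p.1) ^ 2 ≤
        K * ∑ j ∈ Finset.range K, (F (X ((j : ℝ) * δ + δ) p) - F (X ((j : ℝ) * δ) p)) ^ 2 := by
    intro p
    have h1 := Finset.sum_range_sub (fun j : ℕ => F (X ((j : ℝ) * δ) p)) K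
    have h2 : F p.2 - F p.1 =
        ∑ j ∈ Finset.range K, (F (X ((j : ℝ) * δ + δ) p) - F (X ((j : ℝ) * δ) p)) := by
      rw [← hX0 p, ← hX1 p]
      simp only [Nat.cast_zero, zero_mul] at h1
      rw [hX1 p, hX0 p] at *
      rw [← h1]
      refine Finset.sum_congr rfl fun j _ => ?_
      have h3 : ((j + 1 : ℕ) : ℝ) * δ = (j : ℝ) * δ + δ := by push_cast; ring
      rw [h3]
    rw [h2]
    have h4 := sq_sum_le_card_mul_sum_sq (s := Finset.range K)
      (f := fun j : ℕ => F (X ((j : ℝ) * δ + δ) p) - F (X ((j : ℝ) * δ) p))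
    rwa [Finset.card_range] at h4
  have hI1 : Integrable (fun p : EuclideanSpace ℝ (Fin N) × EuclideanSpace ℝ (Fin N) =>
      (F p.2 - F p.1) ^ 2) P := by
    have h1 := hint 0 (K * δ)
    simp only [zero_add, hX0, hX1] at h1
    exact h1
  have hI2 : Integrable (fun p => ∑ j ∈ Finset.range K,
      (F (X ((j : ℝ) * δ + δ) p) - F (X ((j : ℝ) * δ) p)) ^ 2) P :=
    integrable_finsetSum _ fun j _ => hint _ _
  calc ∫ p : EuclideanSpace ℝ (Fin N) × EuclideanSpace ℝ (Fin N), (F p.2 - F p.1) ^ 2 ∂P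
      ≤ ∫ p, K * ∑ j ∈ Finset.range K,
          (F (X ((j : ℝ) * δ + δ) p) - F (X ((j : ℝ) * δ) p)) ^ 2 ∂P :=
        integral_mono hI1 (hI2.const_mul _) htel
    _ = K * ∑ j ∈ Finset.range K,
          ∫ p, (F (X ((j : ℝ) * δ + δ) p) - F (X ((j : ℝ) * δ) p)) ^ 2 ∂P := by
        rw [integral_const_mul, integral_finsetSum _ fun j _ => hint _ _]
    _ ≤ K * ∑ _j ∈ Finset.range K, ((L : ℝ) ^ 2 + ε) * δ ^ 2 := by
        refine mul_le_mul_of_nonneg_left (Finset.sum_le_sum fun j _ => ?_) hK0.le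
        rw [int_step F L hF]
        exact hstep
    _ = (Real.pi / 2) ^ 2 * ((L : ℝ) ^ 2 + ε) := by
        rw [Finset.sum_const, Finset.card_range, nsmul_eq_mul, hδ]
        field_simp

end VarBdAux

open VarBdAux

theorem lip_var {N : ℕ} (F : EuclideanSpace ℝ (Fin N) → ℝ) (L : ℝ≥0) (hF : LipschitzWith L F) :
    ∫ x, (F x - ∫ y, F y ∂(stdGaussian (EuclideanSpace ℝ (Fin N)))) ^ 2
      ∂(stdGaussian (EuclideanSpace ℝ (Fin N))) ≤ 2 * (L : ℝ) ^ 2 := by
  set γ := stdGaussian (EuclideanSpace ℝ (Fin N)) with hγ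
  set m := ∫ y, F y ∂γ with hm
  have hL : MemLp F 2 γ := memLp_lip F L hF
  have hG : MemLp (fun x => F x - m) 2 γ := hL.sub (memLp_const m)
  have hG1 : Integrable (fun x => F x - m) γ := hG.integrable (by norm_num)
  have hG2 : Integrable (fun x => (F x - m) ^ 2) γ := hG.integrable_sq
  have hG0 : ∫ x, (F x - m) ∂γ = 0 := by
    rw [integral_sub (hL.integrable (by norm_num)) (integrable_const m)]
    simp [hm]
  have hexp : ∫ p : EuclideanSpace ℝ (Fin N) × EuclideanSpace ℝ (Fin N), (F p.2 - F p.1) ^ 2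
      ∂(γ.prod γ) = 2 * ∫ x, (F x - m) ^ 2 ∂γ := by
    have e1 : (fun p : EuclideanSpace ℝ (Fin N) × EuclideanSpace ℝ (Fin N) =>
        (F p.2 - F p.1) ^ 2) = fun p => ((1 * (F p.2 - m) ^ 2) + ((F p.1 - m) ^ 2 * 1)) -
          2 * ((F p.1 - m) * (F p.2 - m)) := by
      funext p; ring
    have i1 : Integrable (fun p : EuclideanSpace ℝ (Fin N) × EuclideanSpace ℝ (Fin N) =>
        1 * (F p.2 - m) ^ 2) (γ.prod γ) :=
      Integrable.mul_prod (f := fun _ => (1 : ℝ)) (g := fun x => (F x - m) ^ 2)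
        (integrable_const 1) hG2
    have i2 : Integrable (fun p : EuclideanSpace ℝ (Fin N) × EuclideanSpace ℝ (Fin N) =>
        (F p.1 - m) ^ 2 * 1) (γ.prod γ) :=
      Integrable.mul_prod (f := fun x => (F x - m) ^ 2) (g := fun _ => (1 : ℝ))
        hG2 (integrable_const 1)
    have i3 : Integrable (fun p : EuclideanSpace ℝ (Fin N) × EuclideanSpace ℝ (Fin N) =>
        (F p.1 - m) * (F p.2 - m)) (γ.prod γ) :=
      Integrable.mul_prod (f := fun x => F x - m) (g := fun x => F x - m) hG1 hG1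
    have v1 := integral_prod_mul (μ := γ) (ν := γ) (fun _ => (1 : ℝ)) (fun x => (F x - m) ^ 2)
    have v2 := integral_prod_mul (μ := γ) (ν := γ) (fun x => (F x - m) ^ 2) (fun _ => (1 : ℝ))
    have v3 := integral_prod_mul (μ := γ) (ν := γ) (fun x => F x - m) (fun x => F x - m)
    have i12 : Integrable (fun p : EuclideanSpace ℝ (Fin N) × EuclideanSpace ℝ (Fin N) =>
        1 * (F p.2 - m) ^ 2 + (F p.1 - m) ^ 2 * 1) (γ.prod γ) := i1.add i2
    rw [e1, integral_sub i12 (i3.const_mul 2), integral_add i1 i2, v1, v2, integral_const_mul,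
      v3, hG0]
    simp
    ring
  refine le_of_forall_pos_le_add fun ε hε => ?_
  have h1 := path_bound F L hF (ε / 2) (by positivity)
  rw [← hγ, hexp] at h1
  have h2 : (Real.pi / 2) ^ 2 ≤ 4 := by
    have := Real.pi_pos
    have := Real.pi_le_four
    nlinarith
  have h3 : 0 ≤ (L : ℝ) ^ 2 + ε / 2 := by positivity
  have h4 := mul_le_mul_of_nonneg_right h2 h3
  linarith

end P23F
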