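import Mathlib
import Pool.Agent.Lib.P23F.DRsel
import Pool.Agent.Lib.P23F.VarBd
import Pool.Agent.Lib.P23F.ExpLow
import Pool.Agent.Lib.P23F.GaussOp

/-!
# Module P23F.NetRel : the relative Dvoretzky theorem

Let `S : Finset X`, `k`, `R`, `ε > 0`.  WLOG `R ≥ 1` (the conclusion for a bigger `R` is stronger),
`ε ≤ 1`, `0 ∈ S` (insert it), `1 ≤ k` (for `k = 0` take `T = 0`).

PROOF.  For `m` (large, chosen below) take `x : Fin m → X` from `dvoretzky_rogers`, and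
`λ := ∫ ‖∑ h i x i‖ dγ_m(h)`, `γ_m = stdGaussian (EuclideanSpace ℝ (Fin m))`.  By `exp_low`
`λ` is as large as we like.  For `z ∈ X`, `r ≥ 0` put
`F_{z,r}(h) = ‖z + (r/λ) ∑ h i x i‖`, a function on `EuclideanSpace ℝ (Fin m)` which is
`r/λ`-Lipschitz (`‖∑ t i x i‖ ≤ ‖t‖`), and `φ(z, r) = ∫ F_{z,r} dγ_m`; `φ(0, r) = r`, and
`|φ(z, r) - φ(z, r')| ≤ |r - r'|`.  By `lip_var`, `∫ (F_{z,r} - φ(z,r))² ≤ 2 (r/λ)²`.

For `g ∈ EuclideanSpace ℝ (Fin m × Fin k)` let `T_g v = λ⁻¹ ∑ i (∑ j g(i,j) v j) x i`.  For a unit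
vector `v` the law of `(∑ j g(i,j) v j)_i` is `γ_m` (`gauss_op`); so by Chebyshev/Markov
`P( |‖z + r T_g v‖ - φ(z, r)| ≥ δ ) ≤ 2 (r/λ)² / δ²`.
Let `δ := ε / (16 (R + 1))` and choose finite sets: `𝒩` a `δ`-net of the unit sphere of
`EuclideanSpace ℝ (Fin k)` (consisting of unit vectors; compactness), `ℛ` a finite `δ`-net of
`[0, R]` contained in `[0, R]` and containing `1` (recall `R ≥ 1`).  If
`#S #𝒩 #ℛ 2 (R/λ)²/δ² < 1` (true for `m` large) some `g` satisfies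
`|‖z + r T_g v‖ - φ(z, r)| < δ` for all `z ∈ S`, `v ∈ 𝒩`, `r ∈ ℛ`.  Put `T = T_g`.
(1) `‖T‖ ≤ 2`: with `z = 0`, `r = 1`: `‖T v‖ ≤ 1 + δ` on the net; if `M = sup ‖T v‖` over the unit
sphere then `M ≤ 1 + δ + δ M`, so `M ≤ (1+δ)/(1-δ) ≤ 2`.
(2) For a unit vector `v`, `r ∈ [0, R]`, `z ∈ S` choose `v' ∈ 𝒩`, `r' ∈ ℛ` within `δ`:
`|‖z + r T v‖ - ‖z + r' T v'‖| ≤ |r - r'| ‖T v‖ + r' ‖T(v - v')‖ ≤ 2 δ + 2 R δ`, so
`|‖z + r T v‖ - φ(z, r)| ≤ 2δ + 2Rδ + δ + δ ≤ 4 δ (R + 1) = ε/4`.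
(3) Conclusions: if `‖y‖ = ‖y'‖ = r ≤ R` write `y = r v`, `y' = r v'` (for `r = 0` trivial) and use
(2) twice; and (2) with `z = 0` gives `|‖T y‖ - ‖y‖| ≤ ε/4`.
-/

set_option autoImplicit false

open MeasureTheory ProbabilityTheory

namespace P23F

namespace NetRelAux

open scoped NNReal

/-- deterministic part -/
theorem det {X : Type*} [NormedAddCommGroup X] [NormedSpace ℝ X] {k : ℕ}
    (T : EuclideanSpace ℝ (Fin k) →ₗ[ℝ] X) (S : Set X) (N : Set (EuclideanSpace ℝ (Fin k)))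
    (P : Set ℝ) (φ : X → ℝ → ℝ) {δ R : ℝ} (hδ : 0 < δ) (hδ3 : δ ≤ 1 / 3) (hR : 1 ≤ R)
    (h0 : (0 : X) ∈ S) (hN : ∀ v : EuclideanSpace ℝ (Fin k), ‖v‖ = 1 → ∃ v' ∈ N, ‖v - v'‖ ≤ δ)
    (hP1 : (1 : ℝ) ∈ P)
    (hP : ∀ r, 0 ≤ r → r ≤ R → ∃ r' ∈ P, 0 ≤ r' ∧ r' ≤ R ∧ |r - r'| ≤ δ)
    (hφ0 : φ 0 1 = 1)
    (hφ : ∀ z r r', |φ z r - φ z r'| ≤ |r - r'|)
    (hT : ∀ z ∈ S, ∀ v ∈ N, ∀ r ∈ P, |‖z + r • T v‖ - φ z r| ≤ δ) :
    ∀ z ∈ S, ∀ v : EuclideanSpace ℝ (Fin k), ‖v‖ = 1 → ∀ r, 0 ≤ r → r ≤ R →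
      |‖z + r • T v‖ - φ z r| ≤ 4 * δ * (R + 1) := by
  have hdec : ∀ v : EuclideanSpace ℝ (Fin k), v ≠ 0 → ‖(‖v‖⁻¹ • v)‖ = 1 := by
    intro v hv
    rw [norm_smul, norm_inv, norm_norm, inv_mul_cancel₀ (norm_ne_zero_iff.2 hv)]
  set T' : EuclideanSpace ℝ (Fin k) →L[ℝ] X := LinearMap.toContinuousLinearMap T with hT'
  have hTT : ∀ v, T' v = T v := fun v => rfl
  have hM0 : 0 ≤ ‖T'‖ := norm_nonneg _
  have h1 : ∀ v : EuclideanSpace ℝ (Fin k), ‖v‖ = 1 → ‖T v‖ ≤ 1 + δ + ‖T'‖ * δ := by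
    intro v hv
    obtain ⟨v', hv', hvv⟩ := hN v hv
    have e1 := hT 0 h0 v' hv' 1 hP1
    rw [zero_add, one_smul, hφ0] at e1
    have e2 : ‖T v‖ ≤ ‖T v'‖ + ‖T (v - v')‖ := by
      have : T v = T v' + T (v - v') := by rw [← map_add]; congr 1; abel
      rw [this]
      exact norm_add_le _ _
    have e3 : ‖T (v - v')‖ ≤ ‖T'‖ * δ := by
      rw [← hTT]
      exact (T'.le_opNorm _).trans (mul_le_mul_of_nonneg_left hvv hM0)
    have e4 := (abs_le.1 e1).2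
    linarith
  have h2 : ‖T'‖ ≤ 1 + δ + ‖T'‖ * δ := by
    refine ContinuousLinearMap.opNorm_le_bound _ (by positivity) fun v => ?_
    by_cases hv : v = 0
    · rw [hv, map_zero, norm_zero, norm_zero, mul_zero]
    · have e1 := h1 _ (hdec v hv)
      rw [map_smul, norm_smul, norm_inv, norm_norm] at e1
      have e2 : 0 < ‖v‖ := norm_pos_iff.2 hv
      rw [hTT]
      rw [inv_mul_le_iff₀ e2] at e1
      linarith
  have h3 : ‖T'‖ ≤ 2 := by nlinarith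
  intro z hz v hv r hr hrR
  obtain ⟨v', hv', hvv⟩ := hN v hv
  obtain ⟨r', hr', hr'0, hr'R, hrr⟩ := hP r hr hrR
  have e1 := hT z hz v' hv' r' hr'
  have e2 := hφ z r' r
  have e3 : |‖z + r • T v‖ - ‖z + r' • T v'‖| ≤ 2 * δ + 2 * R * δ := by
    refine (abs_norm_sub_norm_le _ _).trans ?_
    have : z + r • T v - (z + r' • T v') = (r - r') • T v + r' • T (v - v') := by
      rw [map_sub]
      module
    rw [this]
    refine (norm_add_le _ _).trans ?_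
    rw [norm_smul, norm_smul, Real.norm_eq_abs, Real.norm_eq_abs, abs_of_nonneg hr'0]
    have e4 : ‖T v‖ ≤ 2 := by
      rw [← hTT]
      have := T'.le_opNorm v
      rw [hv, mul_one] at this
      exact this.trans h3
    have e5 : ‖T (v - v')‖ ≤ 2 * δ := by
      rw [← hTT]
      exact (T'.le_opNorm _).trans (mul_le_mul h3 hvv (norm_nonneg _) (by norm_num))
    have e6 : |r - r'| * ‖T v‖ ≤ δ * 2 := mul_le_mul hrr e4 (norm_nonneg _) hδ.le
    have e7 : r' * ‖T (v - v')‖ ≤ R * (2 * δ) :=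
      mul_le_mul hr'R e5 (norm_nonneg _) (by linarith)
    linarith
  have e4 : |r' - r| ≤ δ := by rw [abs_sub_comm]; exact hrr
  have e5 : ‖z + r • T v‖ - φ z r = (‖z + r • T v‖ - ‖z + r' • T v'‖) +
      (‖z + r' • T v'‖ - φ z r') + (φ z r' - φ z r) := by ring
  rw [e5]
  refine (abs_add_three _ _ _).trans ?_
  nlinarith [e2.trans e4]

theorem net_sphere (k : ℕ) {δ : ℝ} (hδ : 0 < δ) :
    ∃ N : Finset (EuclideanSpace ℝ (Fin k)), (∀ v ∈ N, ‖v‖ = 1) ∧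
      ∀ v : EuclideanSpace ℝ (Fin k), ‖v‖ = 1 → ∃ v' ∈ N, ‖v - v'‖ ≤ δ := by
  obtain ⟨t, ht1, ht2, ht3⟩ :=
    (isCompact_sphere (0 : EuclideanSpace ℝ (Fin k)) 1).finite_cover_balls hδ
  refine ⟨ht2.toFinset, fun v hv => ?_, fun v hv => ?_⟩
  · exact mem_sphere_zero_iff_norm.1 (ht1 (ht2.mem_toFinset.1 hv))
  · have h1 := ht3 (mem_sphere_zero_iff_norm.2 hv)
    rw [Set.mem_iUnion₂] at h1
    obtain ⟨v', h2, h3⟩ := h1
    exact ⟨v', ht2.mem_toFinset.2 h2, (mem_ball_iff_norm.1 h3).le⟩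

theorem net_Icc {R δ : ℝ} (hR : 1 ≤ R) (hδ : 0 < δ) :
    ∃ P : Finset ℝ, (1 : ℝ) ∈ P ∧ (∀ r ∈ P, 0 ≤ r ∧ r ≤ R) ∧
      ∀ r, 0 ≤ r → r ≤ R → ∃ r' ∈ P, |r - r'| ≤ δ := by
  obtain ⟨t, ht1, ht2, ht3⟩ := (isCompact_Icc (a := (0 : ℝ)) (b := R)).finite_cover_balls hδ
  refine ⟨insert 1 ht2.toFinset, Finset.mem_insert_self _ _, fun r hr => ?_, fun r h0 h1 => ?_⟩
  · rcases Finset.mem_insert.1 hr with rfl | hr
    · exact ⟨zero_le_one, hR⟩
    · exact ht1 (ht2.mem_toFinset.1 hr)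
  · have h2 := ht3 (Set.mem_Icc.2 ⟨h0, h1⟩)
    rw [Set.mem_iUnion₂] at h2
    obtain ⟨r', h3, h4⟩ := h2
    rw [mem_ball_iff_norm, Real.norm_eq_abs] at h4
    exact ⟨r', Finset.mem_insert_of_mem (ht2.mem_toFinset.2 h3), h4.le⟩

section prob

variable {X : Type*} [NormedAddCommGroup X] [NormedSpace ℝ X] {m : ℕ} (x : Fin m → X)

/-- the linear map given by the vectors `x i` -/
def A (h : EuclideanSpace ℝ (Fin m)) : X := ∑ i, h i • x i

theorem A_sub (h h' : EuclideanSpace ℝ (Fin m)) : A x (h - h') = A x h - A x h' := by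
  unfold A
  rw [← Finset.sum_sub_distrib]
  refine Finset.sum_congr rfl fun i _ => ?_
  rw [← sub_smul]
  rfl

theorem lip (hx : ∀ t : EuclideanSpace ℝ (Fin m), ‖∑ i, t i • x i‖ ≤ ‖t‖) (z : X) (c : ℝ) :
    LipschitzWith (Real.toNNReal |c|)
      (fun h : EuclideanSpace ℝ (Fin m) => ‖z + c • A x h‖) := by
  refine LipschitzWith.of_dist_le_mul fun h h' => ?_
  rw [Real.coe_toNNReal _ (abs_nonneg c), Real.dist_eq, dist_eq_norm]
  refine (abs_norm_sub_norm_le _ _).trans ?_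
  have : z + c • A x h - (z + c • A x h') = c • A x (h - h') := by
    rw [A_sub]
    module
  rw [this, norm_smul, Real.norm_eq_abs]
  exact mul_le_mul_of_nonneg_left (hx _) (abs_nonneg c)

/-- the mean norm -/
noncomputable def phi (lam : ℝ) (z : X) (r : ℝ) : ℝ :=
  ∫ h, ‖z + (r / lam) • A x h‖ ∂(stdGaussian (EuclideanSpace ℝ (Fin m)))

theorem phi_int (hx : ∀ t : EuclideanSpace ℝ (Fin m), ‖∑ i, t i • x i‖ ≤ ‖t‖) (z : X) (c : ℝ) :
    Integrable (fun h : EuclideanSpace ℝ (Fin m) => ‖z + c • A x h‖)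
      (stdGaussian (EuclideanSpace ℝ (Fin m))) :=
  (VarBdAux.memLp_lip _ _ (lip x hx z c)).integrable (by norm_num)

theorem phi_zero {lam : ℝ} (hlam : 0 < lam)
    (hl : lam = ∫ h, ‖∑ i, h i • x i‖ ∂(stdGaussian (EuclideanSpace ℝ (Fin m)))) :
    phi x lam 0 1 = 1 := by
  unfold phi
  have h1 : ∀ h : EuclideanSpace ℝ (Fin m), ‖(0 : X) + (1 / lam) • A x h‖ =
      (1 / lam) * ‖∑ i, h i • x i‖ := by
    intro h
    rw [zero_add, norm_smul, Real.norm_eq_abs, abs_of_pos (by positivity)]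
    rfl
  simp only [h1]
  rw [integral_const_mul, ← hl]
  field_simp

theorem phi_lip (hx : ∀ t : EuclideanSpace ℝ (Fin m), ‖∑ i, t i • x i‖ ≤ ‖t‖) {lam : ℝ}
    (hlam : 0 < lam)
    (hl : lam = ∫ h, ‖∑ i, h i • x i‖ ∂(stdGaussian (EuclideanSpace ℝ (Fin m)))) (z : X)
    (r r' : ℝ) : |phi x lam z r - phi x lam z r'| ≤ |r - r'| := by
  have hi : Integrable (fun h : EuclideanSpace ℝ (Fin m) => ‖∑ i, h i • x i‖)
      (stdGaussian (EuclideanSpace ℝ (Fin m))) := by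
    have := phi_int x hx 0 1
    simpa [A] using this
  unfold phi
  rw [← integral_sub (phi_int x hx z _) (phi_int x hx z _), ← Real.norm_eq_abs]
  refine (norm_integral_le_integral_norm _).trans ?_
  calc ∫ h, ‖‖z + (r / lam) • A x h‖ - ‖z + (r' / lam) • A x h‖‖
        ∂(stdGaussian (EuclideanSpace ℝ (Fin m)))
      ≤ ∫ h, |r - r'| / lam * ‖∑ i, h i • x i‖
        ∂(stdGaussian (EuclideanSpace ℝ (Fin m))) := by
        refine integral_mono_of_nonneg (ae_of_all _ fun h => norm_nonneg _)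
          (hi.const_mul _) (ae_of_all _ fun h => ?_)
        show ‖‖z + (r / lam) • A x h‖ - ‖z + (r' / lam) • A x h‖‖ ≤ _
        rw [Real.norm_eq_abs]
        refine (abs_norm_sub_norm_le _ _).trans (le_of_eq ?_)
        have : z + (r / lam) • A x h - (z + (r' / lam) • A x h) = ((r - r') / lam) • A x h := by
          rw [sub_div]
          module
        rw [this, norm_smul, Real.norm_eq_abs, abs_div, abs_of_pos hlam]
        rfl
    _ = |r - r'| := by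
        rw [integral_const_mul, ← hl]
        field_simp

/-- Chebyshev -/
theorem cheb (hx : ∀ t : EuclideanSpace ℝ (Fin m), ‖∑ i, t i • x i‖ ≤ ‖t‖) {lam : ℝ}
    (hlam : 0 < lam) (z : X) {r R δ : ℝ} (hr : 0 ≤ r) (hrR : r ≤ R) (hδ : 0 < δ) :
    (stdGaussian (EuclideanSpace ℝ (Fin m)))
      {h | δ ≤ |‖z + (r / lam) • A x h‖ - phi x lam z r|} ≤
      ENNReal.ofReal (2 * (R / lam) ^ 2 / δ ^ 2) := by
  have hL := lip x hx z (r / lam)
  have hm := VarBdAux.memLp_lip _ _ hL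
  refine (meas_ge_le_variance_div_sq hm hδ).trans (ENNReal.ofReal_le_ofReal ?_)
  refine div_le_div_of_nonneg_right ?_ (by positivity)
  rw [variance_eq_integral hm.aestronglyMeasurable.aemeasurable]
  refine (lip_var _ _ hL).trans ?_
  rw [Real.coe_toNNReal _ (abs_nonneg _), abs_of_nonneg (by positivity)]
  have h1 : r / lam ≤ R / lam := div_le_div_of_nonneg_right hrR hlam.le
  have h2 : 0 ≤ r / lam := by positivity
  have h3 := pow_le_pow_left₀ h2 h1 2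
  linarith

/-- the random operator -/
noncomputable def TT {k : ℕ} (lam : ℝ) (g : EuclideanSpace ℝ (Fin m × Fin k)) :
    EuclideanSpace ℝ (Fin k) →ₗ[ℝ] X where
  toFun v := lam⁻¹ • ∑ i, (∑ j, g (i, j) * v j) • x i
  map_add' v w := by
    rw [← smul_add, ← Finset.sum_add_distrib]
    congr 1
    refine Finset.sum_congr rfl fun i _ => ?_
    rw [← add_smul, ← Finset.sum_add_distrib]
    congr 1
    refine Finset.sum_congr rfl fun j _ => ?_
    rw [PiLp.add_apply]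
    ring
  map_smul' c v := by
    have h1 : (∑ i, (∑ j, g (i, j) * (c • v) j) • x i) =
        c • ∑ i, (∑ j, g (i, j) * v j) • x i := by
      rw [Finset.smul_sum]
      refine Finset.sum_congr rfl fun i _ => ?_
      rw [smul_smul, Finset.mul_sum]
      congr 1
      refine Finset.sum_congr rfl fun j _ => ?_
      rw [PiLp.smul_apply, smul_eq_mul]
      ring
    rw [h1, RingHom.id_apply, smul_comm]

theorem meas_bad (hx : ∀ t : EuclideanSpace ℝ (Fin m), ‖∑ i, t i • x i‖ ≤ ‖t‖) {lam : ℝ}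
    (hlam : 0 < lam) {k : ℕ} (z : X) {r R δ : ℝ} (hr : 0 ≤ r) (hrR : r ≤ R) (hδ : 0 < δ)
    (v : EuclideanSpace ℝ (Fin k)) (hv : ‖v‖ = 1) :
    (stdGaussian (EuclideanSpace ℝ (Fin m × Fin k)))
      {g | δ ≤ |‖z + r • TT x lam g v‖ - phi x lam z r|} ≤
      ENNReal.ofReal (2 * (R / lam) ^ 2 / δ ^ 2) := by
  have h1 := cheb x hx hlam z hr hrR hδ
  rw [← gauss_op v hv] at h1
  have hcont : Continuous fun g : EuclideanSpace ℝ (Fin m × Fin k) =>
      (WithLp.toLp 2 fun i => ∑ j, g (i, j) * v j : EuclideanSpace ℝ (Fin m)) := by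
    apply (PiLp.continuous_toLp 2 _).comp
    fun_prop
  have hF : Continuous fun h : EuclideanSpace ℝ (Fin m) =>
      |‖z + (r / lam) • A x h‖ - phi x lam z r| :=
    ((lip x hx z (r / lam)).continuous.sub continuous_const).abs
  rw [Measure.map_apply hcont.measurable (measurableSet_le measurable_const hF.measurable)] at h1
  refine le_trans (measure_mono ?_) h1
  intro g hg
  show δ ≤ |‖z + (r / lam) • A x
    (WithLp.toLp 2 fun i => ∑ j, g (i, j) * v j : EuclideanSpace ℝ (Fin m))‖ - phi x lam z r|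
  have h2 : (r / lam) • A x
      (WithLp.toLp 2 fun i => ∑ j, g (i, j) * v j : EuclideanSpace ℝ (Fin m)) =
      r • TT x lam g v := by
    show (r / lam) • ∑ i, (∑ j, g (i, j) * v j) • x i =
      r • (lam⁻¹ • ∑ i, (∑ j, g (i, j) * v j) • x i)
    rw [smul_smul, div_eq_mul_inv]
  rw [h2]
  exact hg

theorem exists_good (hx : ∀ t : EuclideanSpace ℝ (Fin m), ‖∑ i, t i • x i‖ ≤ ‖t‖) {lam : ℝ}
    (hlam : 0 < lam) {k : ℕ} (S : Finset X) (N : Finset (EuclideanSpace ℝ (Fin k)))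
    (P : Finset ℝ) {R δ : ℝ} (hN : ∀ v ∈ N, ‖v‖ = 1) (hP : ∀ r ∈ P, 0 ≤ r ∧ r ≤ R)
    (hδ : 0 < δ)
    (hbig : ((S ×ˢ N ×ˢ P).card : ℝ) * (2 * (R / lam) ^ 2 / δ ^ 2) < 1) :
    ∃ g : EuclideanSpace ℝ (Fin m × Fin k), ∀ z ∈ S, ∀ v ∈ N, ∀ r ∈ P,
      |‖z + r • TT x lam g v‖ - phi x lam z r| ≤ δ := by
  set μ := stdGaussian (EuclideanSpace ℝ (Fin m × Fin k)) with hμ
  have h1 : μ (⋃ p ∈ S ×ˢ N ×ˢ P,
      {g | δ ≤ |‖p.1 + p.2.2 • TT x lam g p.2.1‖ - phi x lam p.1 p.2.2|}) < 1 := by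
    refine lt_of_le_of_lt (measure_biUnion_finset_le _ _) ?_
    refine lt_of_le_of_lt (Finset.sum_le_sum fun p hp => ?_)
      (b := ∑ _p ∈ S ×ˢ N ×ˢ P, ENNReal.ofReal (2 * (R / lam) ^ 2 / δ ^ 2)) ?_
    · obtain ⟨h2, h3⟩ := Finset.mem_product.1 hp
      obtain ⟨h4, h5⟩ := Finset.mem_product.1 h3
      exact meas_bad x hx hlam p.1 (hP _ h5).1 (hP _ h5).2 hδ p.2.1 (hN _ h4)
    · rw [Finset.sum_const, nsmul_eq_mul, ← ENNReal.ofReal_natCast,
        ← ENNReal.ofReal_mul (by positivity), ← ENNReal.ofReal_one]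
      exact (ENNReal.ofReal_lt_ofReal_iff zero_lt_one).2 hbig
  by_contra hcon
  push Not at hcon
  have h2 : (⋃ p ∈ S ×ˢ N ×ˢ P,
      {g | δ ≤ |‖p.1 + p.2.2 • TT x lam g p.2.1‖ - phi x lam p.1 p.2.2|}) = Set.univ := by
    rw [Set.eq_univ_iff_forall]
    intro g
    obtain ⟨z, hz, v, hv, r, hr, h3⟩ := hcon g
    exact Set.mem_iUnion₂.2 ⟨(z, v, r), Finset.mem_product.2 ⟨hz, Finset.mem_product.2 ⟨hv, hr⟩⟩,
      h3.le⟩
  rw [h2, measure_univ] at h1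
  exact lt_irrefl _ h1

end prob

end NetRelAux

theorem relDvor {X : Type*} [NormedAddCommGroup X] [NormedSpace ℝ X]
    (hX : ¬ FiniteDimensional ℝ X) : RelDvor X := by
  classical
  intro S k R0 ε0 hε0
  set R : ℝ := max R0 1 with hRdef
  have hR1 : 1 ≤ R := le_max_right _ _
  set ε : ℝ := min ε0 1 with hεdef
  have hε : 0 < ε := lt_min hε0 zero_lt_one
  have hε1 : ε ≤ 1 := min_le_right _ _
  set δ : ℝ := ε / (16 * (R + 1)) with hδdef
  have hδ : 0 < δ := by positivity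
  have hδ3 : δ ≤ 1 / 3 := by
    rw [hδdef, div_le_iff₀ (by positivity)]
    linarith
  have hδe : 4 * δ * (R + 1) = ε / 4 := by
    rw [hδdef]
    field_simp
    norm_num
  obtain ⟨N, hN1, hN2⟩ := NetRelAux.net_sphere k hδ
  obtain ⟨P, hP1, hP2, hP3⟩ := NetRelAux.net_Icc hR1 hδ
  set n : ℝ := (((insert (0 : X) S) ×ˢ N ×ˢ P).card : ℝ) with hn
  have hn0 : 0 ≤ n := Nat.cast_nonneg _
  set C : ℝ := 1 + n * (2 * R ^ 2 / δ ^ 2) with hC
  have hC1 : 1 ≤ C := by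
    have : 0 ≤ n * (2 * R ^ 2 / δ ^ 2) := by positivity
    linarith
  obtain ⟨m, hm⟩ := exp_low C
  obtain ⟨x, hx1, hx2⟩ := dvoretzky_rogers hX m
  set lam : ℝ := ∫ h, ‖∑ i, h i • x i‖ ∂(stdGaussian (EuclideanSpace ℝ (Fin m))) with hlamdef
  have hlamC : C ≤ lam := hm m le_rfl X x hx2
  have hlam : 0 < lam := by linarith
  have hbig : n * (2 * (R / lam) ^ 2 / δ ^ 2) < 1 := by
    have e1 : n * (2 * (R / lam) ^ 2 / δ ^ 2) = n * (2 * R ^ 2 / δ ^ 2) / lam ^ 2 := by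
      field_simp
    rw [e1, div_lt_one (by positivity)]
    have e2 : n * (2 * R ^ 2 / δ ^ 2) < C := by rw [hC]; linarith
    have e3 : C ≤ lam ^ 2 := by nlinarith
    linarith
  obtain ⟨g, hg⟩ := NetRelAux.exists_good x hx1 hlam (insert (0 : X) S) N P hN1 hP2 hδ hbig
  have key := NetRelAux.det (NetRelAux.TT x lam g) (↑(insert (0 : X) S)) (↑N) (↑P)
    (NetRelAux.phi x lam) hδ hδ3 hR1 (Finset.mem_coe.2 (Finset.mem_insert_self _ _))
    (fun v hv => hN2 v hv) hP1 (fun r h0 h1 => by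
      obtain ⟨r', h2, h3⟩ := hP3 r h0 h1
      exact ⟨r', h2, (hP2 r' h2).1, (hP2 r' h2).2, h3⟩)
    (NetRelAux.phi_zero x hlam hlamdef) (NetRelAux.phi_lip x hx1 hlam hlamdef)
    (fun z hz v hv r hr => hg z hz v hv r hr)
  rw [hδe] at key
  have key2 : ∀ z ∈ insert (0 : X) S, ∀ y : EuclideanSpace ℝ (Fin k), ‖y‖ ≤ R → y ≠ 0 →
      |‖z + NetRelAux.TT x lam g y‖ - NetRelAux.phi x lam z ‖y‖| ≤ ε / 4 := by
    intro z hz y hy hy0
    have h1 : ‖(‖y‖⁻¹ • y)‖ = 1 := by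
      rw [norm_smul, norm_inv, norm_norm, inv_mul_cancel₀ (norm_ne_zero_iff.2 hy0)]
    have h2 := key z (Finset.mem_coe.2 hz) (‖y‖⁻¹ • y) h1 ‖y‖ (norm_nonneg _) hy
    rwa [map_smul, smul_smul, mul_inv_cancel₀ (norm_ne_zero_iff.2 hy0), one_smul] at h2
  have hphi0 : ∀ r : ℝ, 0 ≤ r → NetRelAux.phi x lam 0 r = r := by
    intro r hr
    unfold NetRelAux.phi
    have h1 : ∀ h : EuclideanSpace ℝ (Fin m), ‖(0 : X) + (r / lam) • NetRelAux.A x h‖ =
        (r / lam) * ‖∑ i, h i • x i‖ := by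
      intro h
      rw [zero_add, norm_smul, Real.norm_eq_abs, abs_of_nonneg (by positivity)]
      rfl
    simp only [h1]
    rw [integral_const_mul, ← hlamdef]
    field_simp
  refine ⟨NetRelAux.TT x lam g, fun z hz y y' hyy hy => ?_, fun y hy => ?_⟩
  · have hyR : ‖y‖ ≤ R := hy.trans (le_max_left _ _)
    by_cases hy0 : y = 0
    · have hy'0 : y' = 0 := by
        rw [hy0, norm_zero] at hyy
        exact norm_eq_zero.1 hyy.symm
      rw [hy0, hy'0, sub_self, abs_zero]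
      exact hε0.le
    · have hy'0 : y' ≠ 0 := by
        intro h
        rw [h, norm_zero] at hyy
        exact hy0 (norm_eq_zero.1 hyy)
      have h1 := key2 z (Finset.mem_insert_of_mem hz) y hyR hy0
      have h2 := key2 z (Finset.mem_insert_of_mem hz) y' (hyy ▸ hyR) hy'0
      rw [← hyy] at h2
      have h3 : ε ≤ ε0 := min_le_left _ _
      rw [abs_le] at h1 h2 ⊢
      constructor <;> linarith [h1.1, h1.2, h2.1, h2.2]
  · have hyR : ‖y‖ ≤ R := hy.trans (le_max_left _ _)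
    by_cases hy0 : y = 0
    · rw [hy0, map_zero, norm_zero, norm_zero, sub_self, abs_zero]
      exact hε0.le
    · have h1 := key2 0 (Finset.mem_insert_self _ _) y hyR hy0
      rw [zero_add, hphi0 _ (norm_nonneg _)] at h1
      have h3 : ε ≤ ε0 := min_le_left _ _
      linarith

end P23F
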