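import Mathlib
import Pool.Agent.Lib.P23F.TypeBasic

/-!
# Module P23F.Sec : the deficiency function of a two dimensional section

PROOF.  For `|y| < 1` the function `r ↦ Φ (y • x) r` is continuous, `= |y| < 1` at `0` and `≥ 1` at
`1` (`IsType.abs_le`), so there is `ρ ∈ (0, 1]` with `Φ (y • x) ρ = 1`; it is unique in `[0, ∞)`: for
`0 ≤ r < r'` with both values `1 > ‖y • x‖`, `IsType.strict` is contradictory.  Moreover for
`r ≥ 0`: `Φ (y • x) r ≤ 1` implies `r ≤ ρ` (else `IsType.strict'` at `ρ < r`).  Let `k y = 1 - ρ²` for `|y| < 1` and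
`k y = 0` otherwise.  Even: `IsType.neg_left`.  `0 ≤ k < 1` as `0 < ρ ≤ 1`; `k 0 = 0` since
`Φ 0 r = |r|`.
Continuity: `ρ` is concave on `Ioo (-1) 1`: for weights `a + b = 1`, `a, b ≥ 0`,
`Φ ((a y + b y') • x) (a ρ(y) + b ρ(y')) ≤ a + b = 1` (`IsType.conv`), so
`a ρ(y) + b ρ(y') ≤ ρ(a y + b y')`; a concave function on an open interval is continuous
(`ConcaveOn.continuousOn`).
Last property: `|s| < d`, `y = s / d`: `Φ (s • x) (d ρ(y)) = d Φ (y • x) (ρ y) = d` (`smul`), and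
`√(d² (1 - k y)) = d ρ(y)`.
-/

set_option autoImplicit false

namespace P23F

theorem exists_section {X : Type*} [NormedAddCommGroup X] [NormedSpace ℝ X] {Φ : X → ℝ → ℝ}
    (hΦ : IsType Φ) (x : X) (hx : ‖x‖ = 1) :
    ∃ k : ℝ → ℝ, (∀ y, k (-y) = k y) ∧ ContinuousOn k (Set.Ioo (-1) 1) ∧ k 0 = 0 ∧
      (∀ y, |y| < 1 → 0 ≤ k y) ∧ (∀ y, |y| < 1 → k y < 1) ∧
      ∀ s d : ℝ, |s| < d → Φ (s • x) √(d ^ 2 * (1 - k (s / d))) = d := by
  have hny : ∀ y : ℝ, ‖y • x‖ = |y| := fun y => by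
    rw [norm_smul, hx, mul_one, Real.norm_eq_abs]
  have hex : ∀ y : ℝ, |y| < 1 → ∃ ρ : ℝ, 0 < ρ ∧ ρ ≤ 1 ∧ Φ (y • x) ρ = 1 := by
    intro y hy
    have hc : ContinuousOn (fun r : ℝ => Φ (y • x) r) (Set.Icc 0 1) :=
      (hΦ.cont.comp (continuous_const.prodMk continuous_id)).continuousOn
    have h0 : Φ (y • x) 0 = |y| := by rw [hΦ.zero_right, hny]
    have h1 : (1 : ℝ) ≤ Φ (y • x) 1 := by
      have := hΦ.abs_le (y • x) 1
      rwa [abs_one] at this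
    obtain ⟨ρ, hρ, hρ1⟩ := intermediate_value_Icc zero_le_one hc
      (Set.mem_Icc.2 ⟨by rw [h0]; exact hy.le, h1⟩)
    have hρ1' : Φ (y • x) ρ = 1 := hρ1
    refine ⟨ρ, lt_of_le_of_ne hρ.1 ?_, hρ.2, hρ1'⟩
    rintro rfl
    rw [h0] at hρ1'
    linarith
  choose! ρ h1 h2 h3 using hex
  have hmax : ∀ y : ℝ, |y| < 1 → ∀ r : ℝ, Φ (y • x) r ≤ 1 → r ≤ ρ y := by
    intro y hy r hr
    by_contra hc
    push Not at hc
    have := hΦ.strict' (y • x) (h1 y hy).le hc (by rw [hny, h3 y hy]; exact hy)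
    rw [h3 y hy] at this
    linarith
  have hle : ∀ y : ℝ, |y| < 1 → ρ (-y) ≤ ρ y := by
    intro y hy
    refine hmax y hy _ ?_
    rw [← hΦ.neg_left, ← neg_smul]
    exact (h3 (-y) (by rwa [abs_neg])).le
  have hev : ∀ y : ℝ, |y| < 1 → ρ (-y) = ρ y := by
    intro y hy
    refine le_antisymm (hle y hy) ?_
    have := hle (-y) (by rwa [abs_neg])
    rwa [neg_neg] at this
  have habs : ∀ y : ℝ, y ∈ Set.Ioo (-1 : ℝ) 1 → |y| < 1 := fun y hy => abs_lt.2 ⟨hy.1, hy.2⟩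
  have hcc : ConcaveOn ℝ (Set.Ioo (-1 : ℝ) 1) ρ := by
    refine ⟨convex_Ioo _ _, ?_⟩
    intro y hy y' hy' a b ha hb hab
    have hmem : a • y + b • y' ∈ Set.Ioo (-1 : ℝ) 1 := (convex_Ioo _ _) hy hy' ha hb hab
    refine hmax _ (habs _ hmem) _ ?_
    have h4 := hΦ.conv (y • x) (y' • x) (ρ y) (ρ y') a b ha hb
    rw [h3 y (habs y hy), h3 y' (habs y' hy'), smul_smul, smul_smul, ← add_smul] at h4
    have h5 : a * 1 + b * 1 = (1 : ℝ) := by rw [mul_one, mul_one, hab]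
    rw [h5] at h4
    exact h4
  have hcont : ContinuousOn ρ (Set.Ioo (-1 : ℝ) 1) := hcc.continuousOn isOpen_Ioo
  refine ⟨fun y => if |y| < 1 then 1 - ρ y ^ 2 else 0, ?_, ?_, ?_, ?_, ?_, ?_⟩
  · intro y
    beta_reduce
    rw [abs_neg]
    split_ifs with h
    · rw [hev y h]
    · rfl
  · have hc2 : ContinuousOn (fun y => 1 - ρ y ^ 2) (Set.Ioo (-1 : ℝ) 1) :=
      ContinuousOn.sub continuousOn_const (hcont.pow 2)
    refine hc2.congr fun y hy => ?_
    beta_reduce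
    rw [if_pos (habs y hy)]
  · have h0 : |(0 : ℝ)| < 1 := by rw [abs_zero]; exact one_pos
    have h4 := h3 0 h0
    rw [zero_smul, hΦ.zero_left, abs_of_pos (h1 0 h0)] at h4
    beta_reduce
    rw [if_pos h0, h4]
    norm_num
  · intro y hy
    beta_reduce
    rw [if_pos hy]
    nlinarith [h1 y hy, h2 y hy]
  · intro y hy
    beta_reduce
    rw [if_pos hy]
    have := h1 y hy
    have : 0 < ρ y ^ 2 := by positivity
    linarith
  · intro s d hsd
    have hd : 0 < d := lt_of_le_of_lt (abs_nonneg s) hsd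
    have hy : |s / d| < 1 := by
      rw [abs_div, abs_of_pos hd, div_lt_one hd]; exact hsd
    beta_reduce
    rw [if_pos hy]
    have h4 : d ^ 2 * (1 - (1 - ρ (s / d) ^ 2)) = (d * ρ (s / d)) ^ 2 := by ring
    rw [h4, Real.sqrt_sq (mul_nonneg hd.le (h1 _ hy).le)]
    have h5 : s • x = d • ((s / d) • x) := by
      rw [smul_smul, mul_div_cancel₀ s hd.ne']
    rw [h5, hΦ.smul, h3 _ hy, abs_of_pos hd, mul_one]

end P23F
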