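import Mathlib
import Pool.Agent.Lib.P23F.Defs

/-!
# Module P23F.TypeLim : the limit norm

PROOF.  Index set `I = Finset X × ℕ` (product order, directed, nonempty).  For `i = (S, n)` let
`T i : EuclideanSpace ℝ (Fin (n + 1)) →ₗ X` be given by `RelDvor X` for `S`, `k = n + 1`,
`R = n + 1`, `ε = 1 / (n + 1)`, and `e i := T i (first basis vector)`.  Let `𝒰` be an ultrafilter on
`I` finer than `atTop` (`Ultrafilter.of atTop`).  For `x`, `r` the function `i ↦ ‖x + r • e i‖` is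
bounded along `𝒰` (`‖e i‖ ≤ 2` since `|‖T y‖ - ‖y‖| ≤ 1` for `‖y‖ = 1`), so it converges along `𝒰`
(compactness of a closed interval, `Ultrafilter.le_nhds_of_mem...` / `IsCompact`); let `Φ x r` be
the limit.
* `add_le`, `smul`: pass to the limit in `‖(x + y) + (r + s) e‖ ≤ ‖x + r e‖ + ‖y + s e‖` and
  `‖t x + (t r) e‖ = |t| ‖x + r e‖`.
* `zero_right` trivial; `zero_left`: `|‖r e i‖ - |r|| ≤ |r| / (n+1) → 0`.
* `even`: if `x ∈ S` and `|r| ≤ n + 1` then `|‖x + r e i‖ - ‖x - r e i‖| ≤ 1 / (n + 1)` (apply the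
  first property to `y = r b`, `y' = - r b`, `b` the first basis vector); these `i` are in `𝒰`.
* `approx`: let `K` compact, `k`, `R`, `ε`; WLOG `R ≥ 0` (otherwise there is no `y`).  `Φ` is
  Lipschitz: `|Φ x r - Φ x' r'| ≤ ‖x - x'‖ + |r - r'|`.  Choose a finite set `S₀ ⊆ K` (an `ε/8`-net)
  and a finite `ε/8`-net `ℛ ⊂ [0, R]` of `[0, R]`.  The set of `i = (S, n)` with `S₀ ⊆ S`, `n ≥ k`,
  `n ≥ R`, `1/(n+1) ≤ ε/8` and `|‖x + r e i‖ - Φ x r| ≤ ε/8` for all `x ∈ S₀`, `r ∈ ℛ`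
  belongs to `𝒰`; take such an `i`.  Let `T := T i ∘ ι` where
  `ι : EuclideanSpace ℝ (Fin k) →ₗᵢ EuclideanSpace ℝ (Fin (n+1))` is an isometric embedding.
  For `x ∈ K`, `‖y‖ ≤ R` choose `x₀ ∈ S₀`, `r ∈ ℛ` with `‖x - x₀‖ ≤ ε/8`, `|‖y‖ - r| ≤ ε/8`:
  `‖x₀ + T y‖` is within `ε/8` of `‖x₀ + ‖y‖ e i‖` (first property, both arguments have norm
  `‖y‖ ≤ R`), which is within `2 * ε/8` of `‖x₀ + r e i‖` (as `‖e i‖ ≤ 2`), within `ε/8` of
  `Φ x₀ r`, within `ε/8 + ε/8` of `Φ x ‖y‖`; and `‖x + T y‖` is within `ε/8` of `‖x₀ + T y‖`.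
  Total `7 ε/8`.
-/

set_option autoImplicit false

open Filter Topology

namespace P23F

namespace TypeLimAux

theorem exists_isom {k m : ℕ} (h : k ≤ m) :
    Nonempty (EuclideanSpace ℝ (Fin k) →ₗᵢ[ℝ] EuclideanSpace ℝ (Fin m)) := by
  let b := EuclideanSpace.basisFun (Fin k) ℝ
  let c := EuclideanSpace.basisFun (Fin m) ℝ
  let f : EuclideanSpace ℝ (Fin k) →ₗ[ℝ] EuclideanSpace ℝ (Fin m) :=
    b.toBasis.constr ℝ (fun j => c (Fin.castLE h j))
  refine ⟨f.isometryOfOrthonormal (v := b.toBasis) ?_ ?_⟩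
  · simp [b.orthonormal]
  · have h1 : (f ∘ b.toBasis : Fin k → EuclideanSpace ℝ (Fin m)) =
        (c : Fin m → EuclideanSpace ℝ (Fin m)) ∘ (Fin.castLE h) := by
      funext j
      simp [f]
    rw [h1]
    exact c.orthonormal.comp _ (Fin.castLE_injective h)

theorem ab {a b c : ℝ} (h1 : a ≤ b + c) (h2 : b ≤ a + c) : |a - b| ≤ c := by
  rw [abs_le]; constructor <;> linarith

end TypeLimAux

open TypeLimAux in
theorem exists_type {X : Type*} [NormedAddCommGroup X] [NormedSpace ℝ X] (h : RelDvor X) :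
    ∃ Φ : X → ℝ → ℝ, IsType Φ := by
  classical
  have hpos : ∀ i : Finset X × ℕ, (0 : ℝ) < 1 / ((i.2 : ℝ) + 1) := fun i => by positivity
  choose T hT1 hT2 using fun (i : Finset X × ℕ) =>
    h i.1 (i.2 + 1) ((i.2 : ℝ) + 1) (1 / ((i.2 : ℝ) + 1)) (hpos i)
  let b : ∀ i : Finset X × ℕ, EuclideanSpace ℝ (Fin (i.2 + 1)) :=
    fun i => EuclideanSpace.single 0 (1 : ℝ)
  have hb : ∀ i, ‖b i‖ = 1 := fun i => by simp [b]
  have hrb : ∀ (r : ℝ) i, ‖r • b i‖ = |r| := fun r i => by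
    rw [norm_smul, hb, mul_one, Real.norm_eq_abs]
  let e : Finset X × ℕ → X := fun i => T i (b i)
  have hre : ∀ (r : ℝ) i, r • e i = T i (r • b i) := fun r i => by simp [e]
  have hn1 : ∀ i : Finset X × ℕ, (1 : ℝ) ≤ (i.2 : ℝ) + 1 := fun i => by
    have : (0 : ℝ) ≤ (i.2 : ℝ) := Nat.cast_nonneg _
    linarith
  have he : ∀ i, ‖e i‖ ≤ 2 := by
    intro i
    have h1 := hT2 i (b i) (by rw [hb]; exact hn1 i)
    rw [hb] at h1
    have h2 : 1 / ((i.2 : ℝ) + 1) ≤ 1 := by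
      rw [div_le_one (by have := hn1 i; linarith)]; exact hn1 i
    have h3 := (abs_le.1 h1).2
    show ‖T i (b i)‖ ≤ 2
    linarith
  let U : Ultrafilter (Finset X × ℕ) := Ultrafilter.of atTop
  have ev : ∀ (S₀ : Finset X) (n₀ : ℕ), ∀ᶠ i in (U : Filter (Finset X × ℕ)),
      S₀ ⊆ i.1 ∧ n₀ ≤ i.2 := by
    intro S₀ n₀
    have h1 : ∀ᶠ i : Finset X × ℕ in atTop, (S₀, n₀) ≤ i := eventually_ge_atTop _
    exact (h1.filter_mono (Ultrafilter.of_le atTop)).mono fun i hi => ⟨hi.1, hi.2⟩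
  have evR : ∀ (S₀ : Finset X) (n₀ : ℕ) (R ε : ℝ), 0 < ε →
      ∀ᶠ i in (U : Filter (Finset X × ℕ)),
      S₀ ⊆ i.1 ∧ n₀ ≤ i.2 ∧ R ≤ (i.2 : ℝ) + 1 ∧ 1 / ((i.2 : ℝ) + 1) ≤ ε := by
    intro S₀ n₀ R ε hε
    obtain ⟨n₁, hn₁⟩ := exists_nat_ge R
    obtain ⟨n₂, hn₂⟩ := exists_nat_ge (1 / ε)
    refine (ev S₀ (n₀ + n₁ + n₂)).mono fun i hi => ⟨hi.1, by omega, ?_, ?_⟩
    · have h1 : (n₁ : ℝ) ≤ (i.2 : ℝ) := by exact_mod_cast (by omega : n₁ ≤ i.2)
      linarith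
    · have h1 : (n₂ : ℝ) ≤ (i.2 : ℝ) := by exact_mod_cast (by omega : n₂ ≤ i.2)
      rw [div_le_iff₀ (by have := hn1 i; linarith)]
      have h2 : 1 / ε ≤ (i.2 : ℝ) + 1 := by linarith
      rw [div_le_iff₀ hε] at h2
      linarith
  have hlim : ∀ (x : X) (r : ℝ), ∃ l, Tendsto (fun i => ‖x + r • e i‖) (U : Filter _) (𝓝 l) := by
    intro x r
    have hc : IsCompact (Set.Icc (0 : ℝ) (‖x‖ + |r| * 2)) := isCompact_Icc
    obtain ⟨l, -, hl⟩ := hc.ultrafilter_le_nhds (U.map fun i => ‖x + r • e i‖) (by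
      rw [le_principal_iff, Ultrafilter.mem_coe, Ultrafilter.mem_map]
      refine Filter.univ_mem' fun i => ?_
      refine ⟨norm_nonneg _, (norm_add_le _ _).trans ?_⟩
      rw [norm_smul, Real.norm_eq_abs]
      have := mul_le_mul_of_nonneg_left (he i) (abs_nonneg r)
      linarith)
    exact ⟨l, hl⟩
  choose Φ hΦ using hlim
  -- identification of limits
  have hclose : ∀ (x y : X) (r s : ℝ) (c : ℝ), (∀ ε > 0, ∀ᶠ i in (U : Filter (Finset X × ℕ)),
      |‖x + r • e i‖ - c * ‖y + s • e i‖| ≤ ε) → Φ x r = c * Φ y s := by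
    intro x y r s c hc
    refine eq_of_abs_sub_le_all fun ε hε => ?_
    exact le_of_tendsto (((hΦ x r).sub ((hΦ y s).const_mul c)).abs) (hc ε hε)
  have hconst : ∀ (x : X) (r : ℝ) (c : ℝ), (∀ ε > 0, ∀ᶠ i in (U : Filter (Finset X × ℕ)),
      |‖x + r • e i‖ - c| ≤ ε) → Φ x r = c := by
    intro x r c hc
    refine eq_of_abs_sub_le_all fun ε hε => ?_
    exact le_of_tendsto (((hΦ x r).sub_const c).abs) (hc ε hε)
  have hadd : ∀ x y r s, Φ (x + y) (r + s) ≤ Φ x r + Φ y s := by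
    intro x y r s
    refine le_of_tendsto_of_tendsto' (hΦ _ _) ((hΦ x r).add (hΦ y s)) fun i => ?_
    have : x + y + (r + s) • e i = (x + r • e i) + (y + s • e i) := by
      rw [add_smul]; abel
    rw [this]
    exact norm_add_le _ _
  have hzr : ∀ x, Φ x 0 = ‖x‖ := by
    intro x
    refine hconst x 0 _ fun ε hε => Filter.Eventually.of_forall fun i => ?_
    simp [hε.le]
  have hzl : ∀ r, Φ 0 r = |r| := by
    intro r
    refine hconst 0 r _ fun ε hε => ?_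
    refine (evR ∅ 0 |r| ε hε).mono fun i hi => ?_
    have h1 := hT2 i (r • b i) (by rw [hrb]; exact hi.2.2.1)
    rw [hrb] at h1
    rw [zero_add, hre]
    exact h1.trans hi.2.2.2
  have hlip : ∀ x x' r r', Φ x r ≤ Φ x' r' + (‖x - x'‖ + |r - r'|) := by
    intro x x' r r'
    have h1 := hadd x' (x - x') r' (r - r')
    have h2 := hadd (x - x') 0 0 (r - r')
    rw [hzr, hzl, add_zero, zero_add] at h2
    have e1 : x' + (x - x') = x := by abel
    have e2 : r' + (r - r') = r := by ring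
    rw [e1, e2] at h1
    linarith
  refine ⟨Φ, hadd, ?_, ?_, hzr, hzl, ?_⟩
  · intro t x r
    refine hclose (t • x) x (t * r) r |t| fun ε hε => Filter.Eventually.of_forall fun i => ?_
    have : t • x + (t * r) • e i = t • (x + r • e i) := by
      rw [smul_add, smul_smul]
    rw [this, norm_smul, Real.norm_eq_abs, sub_self, abs_zero]
    exact hε.le
  · intro x r
    have := hclose x x (-r) r 1 fun ε hε => ?_
    · rw [this, one_mul]
    refine (evR {x} 0 |r| ε hε).mono fun i hi => ?_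
    rw [one_mul, hre, hre]
    refine (hT1 i x (hi.1 (Finset.mem_singleton_self x)) _ _ ?_ ?_).trans hi.2.2.2
    · rw [hrb, hrb, abs_neg]
    · rw [hrb, abs_neg]; exact hi.2.2.1
  · intro K hK k R ε hε
    have hδ : 0 < ε / 8 := by linarith
    obtain ⟨t, htK, htf, htc⟩ := hK.finite_cover_balls hδ
    obtain ⟨q, hqK, hqf, hqc⟩ := (isCompact_Icc (a := (0 : ℝ)) (b := R)).finite_cover_balls hδ
    have hev : ∀ᶠ i in (U : Filter (Finset X × ℕ)), ∀ x ∈ t, ∀ r ∈ q,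
        |‖x + r • e i‖ - Φ x r| ≤ ε / 8 := by
      rw [eventually_all_finite htf]
      intro x _
      rw [eventually_all_finite hqf]
      intro r _
      have h1 := (hΦ x r).eventually (Metric.closedBall_mem_nhds _ hδ)
      exact h1.mono fun i hi => by simpa [Real.dist_eq] using hi
    obtain ⟨i, hi1, hi2⟩ := ((evR htf.toFinset k R (ε / 8) hδ).and hev).exists
    obtain ⟨hS, hk, hR, h8⟩ := hi1
    obtain ⟨ι⟩ := exists_isom (k := k) (m := i.2 + 1) (by omega)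
    refine ⟨(T i).comp ι.toLinearMap, fun x hx y hy => ?_⟩
    have hx' := htc hx
    simp only [Set.mem_iUnion, Metric.mem_ball, exists_prop] at hx'
    obtain ⟨x₀, hx₀, hd⟩ := hx'
    have hy' := hqc (Set.mem_Icc.2 ⟨norm_nonneg y, hy⟩)
    simp only [Set.mem_iUnion, Metric.mem_ball, exists_prop] at hy'
    obtain ⟨r, hr, hd'⟩ := hy'
    rw [dist_eq_norm] at hd
    rw [Real.dist_eq] at hd'
    have hy0 : |‖y‖| = ‖y‖ := abs_of_nonneg (norm_nonneg y)
    have hTy : ((T i).comp ι.toLinearMap) y = T i (ι y) := rfl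
    rw [hTy]
    have hA : |‖x + T i (ι y)‖ - ‖x₀ + T i (ι y)‖| ≤ ‖x - x₀‖ := by
      refine (abs_norm_sub_norm_le _ _).trans (le_of_eq ?_)
      congr 1
      abel
    have hB : |‖x₀ + T i (ι y)‖ - ‖x₀ + ‖y‖ • e i‖| ≤ ε / 8 := by
      rw [hre]
      refine (hT1 i x₀ (hS (by simpa using hx₀)) _ _ ?_ ?_).trans h8
      · rw [hrb, hy0, ι.norm_map]
      · rw [ι.norm_map]; exact hy.trans hR
    have hC : |‖x₀ + ‖y‖ • e i‖ - ‖x₀ + r • e i‖| ≤ |‖y‖ - r| * 2 := by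
      refine (abs_norm_sub_norm_le _ _).trans ?_
      have : x₀ + ‖y‖ • e i - (x₀ + r • e i) = (‖y‖ - r) • e i := by
        rw [sub_smul]; abel
      rw [this, norm_smul, Real.norm_eq_abs]
      exact mul_le_mul_of_nonneg_left (he i) (abs_nonneg _)
    have hD := hi2 x₀ hx₀ r hr
    have hE1 := hlip x₀ x r ‖y‖
    have hE2 := hlip x x₀ ‖y‖ r
    rw [norm_sub_rev, abs_sub_comm] at hE1
    rw [abs_le] at hA hB hC hD ⊢
    constructor <;> linarith [hA.1, hA.2, hB.1, hB.2, hC.1, hC.2, hD.1, hD.2]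

end P23F
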