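import Mathlib
import Pool.Agent.Lib.P23F.Defs

/-!
# Module P23F.DiscInt : integrals over the disc by slices

PROOF.  The map `w ↦ w * u` is a linear isometry of `ℂ`, so it preserves the volume and the disc:
`∫_{Disc} G w = ∫_{Disc} G (w * u)`.  `Complex.volume_preserving_equiv_real_prod` and Fubini
(indicator of the disc; `t² + s² ≤ 1`; `G` continuous so everything is integrable) give
`∫_{Disc} G (w u) = ∫_{t ∈ [-1,1]} ∫_{s ∈ [-√(1-t²), √(1-t²)]} G ((t + i s) u)`.
`disc_ridge`: with `G w = f (ip w u)` one has `ip ((t + i s) u) u = t` (`‖u‖ = 1`), inner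
integral `2 √(1 - t²) f t`.
-/

set_option autoImplicit false

open MeasureTheory

namespace P23F

namespace DiscIntAux

theorem mem_disc (t s : ℝ) : ((t : ℂ) + s * Complex.I) ∈ Disc ↔ t ^ 2 + s ^ 2 ≤ 1 := by
  rw [mem_closedBall_zero_iff, Complex.norm_def, Complex.normSq_add_mul_I, Real.sqrt_le_one]

theorem key (F : ℂ → ℝ) (hF : Continuous F) :
    ∫ w in Disc, F w = ∫ t in (-1 : ℝ)..1, ∫ s in (-√(1 - t ^ 2))..√(1 - t ^ 2),
      F (t + s * Complex.I) := by
  have h1 := (Complex.volume_preserving_equiv_real_prod.symm).setIntegral_preimage_emb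
    (MeasurableEquiv.measurableEmbedding _) F Disc
  rw [← h1]
  have hsymm : ∀ p : ℝ × ℝ, Complex.measurableEquivRealProd.symm p =
      (p.1 : ℂ) + p.2 * Complex.I := by
    intro p
    rw [Complex.measurableEquivRealProd_symm_apply]
    apply Complex.ext <;> simp
  have hset : (Complex.measurableEquivRealProd.symm ⁻¹' Disc : Set (ℝ × ℝ)) =
      {p : ℝ × ℝ | p.1 ^ 2 + p.2 ^ 2 ≤ 1} := by
    ext p
    rw [Set.mem_preimage, hsymm, mem_disc]
    rfl
  simp only [hsymm]
  rw [hset]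
  have hclosed : IsClosed {p : ℝ × ℝ | p.1 ^ 2 + p.2 ^ 2 ≤ 1} :=
    isClosed_le (by fun_prop) continuous_const
  have hmeas : MeasurableSet {p : ℝ × ℝ | p.1 ^ 2 + p.2 ^ 2 ≤ 1} := hclosed.measurableSet
  have hcomp : IsCompact {p : ℝ × ℝ | p.1 ^ 2 + p.2 ^ 2 ≤ 1} := by
    refine (isCompact_Icc (a := ((-1 : ℝ), (-1 : ℝ))) (b := ((1 : ℝ), (1 : ℝ)))).of_isClosed_subset
      hclosed ?_
    rintro ⟨x, y⟩ h
    have h : x ^ 2 + y ^ 2 ≤ 1 := h
    refine ⟨⟨?_, ?_⟩, ⟨?_, ?_⟩⟩ <;> simp only <;> nlinarith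
  have hcont : Continuous fun p : ℝ × ℝ => F ((p.1 : ℂ) + p.2 * Complex.I) :=
    hF.comp (by fun_prop)
  have hint : IntegrableOn (fun p : ℝ × ℝ => F ((p.1 : ℂ) + p.2 * Complex.I))
      {p : ℝ × ℝ | p.1 ^ 2 + p.2 ^ 2 ≤ 1} := hcont.continuousOn.integrableOn_compact hcomp
  rw [← integral_indicator hmeas, Measure.volume_eq_prod,
    integral_prod _ ((integrable_indicator_iff hmeas).2 hint)]
  rw [intervalIntegral.integral_of_le (by norm_num), ← integral_Icc_eq_integral_Ioc,
    ← integral_indicator measurableSet_Icc]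
  refine integral_congr_ae (Filter.Eventually.of_forall fun t => ?_)
  beta_reduce
  by_cases ht : t ∈ Set.Icc (-1 : ℝ) 1
  · rw [Set.indicator_of_mem ht]
    have h0 : 0 ≤ 1 - t ^ 2 := by nlinarith [ht.1, ht.2]
    rw [intervalIntegral.integral_of_le (by linarith [Real.sqrt_nonneg (1 - t ^ 2)]),
      ← integral_Icc_eq_integral_Ioc, ← integral_indicator measurableSet_Icc]
    refine integral_congr_ae (Filter.Eventually.of_forall fun s => ?_)
    beta_reduce
    have hiff : (t, s) ∈ {p : ℝ × ℝ | p.1 ^ 2 + p.2 ^ 2 ≤ 1} ↔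
        s ∈ Set.Icc (-√(1 - t ^ 2)) √(1 - t ^ 2) := by
      rw [Set.mem_setOf_eq, Set.mem_Icc, ← abs_le, ← Real.sqrt_sq_eq_abs,
        Real.sqrt_le_sqrt_iff h0]
      constructor <;> intro h <;> linarith
    by_cases hs : s ∈ Set.Icc (-√(1 - t ^ 2)) √(1 - t ^ 2)
    · rw [Set.indicator_of_mem hs, Set.indicator_of_mem (hiff.2 hs)]
    · rw [Set.indicator_of_notMem hs, Set.indicator_of_notMem (fun h => hs (hiff.1 h))]
  · rw [Set.indicator_of_notMem ht]
    have h2 : ∀ s : ℝ, (t, s) ∉ {p : ℝ × ℝ | p.1 ^ 2 + p.2 ^ 2 ≤ 1} := by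
      intro s hs
      have hs : t ^ 2 + s ^ 2 ≤ 1 := hs
      exact ht ⟨by nlinarith, by nlinarith⟩
    simp only [Set.indicator_of_notMem (h2 _), integral_zero]

theorem rot (G : ℂ → ℝ) (u : ℂ) (hu : ‖u‖ = 1) :
    ∫ w in Disc, G w = ∫ w in Disc, G (w * u) := by
  let c : Circle := ⟨u, mem_sphere_zero_iff_norm.2 hu⟩
  have h1 := ((rotation c).measurePreserving).setIntegral_preimage_emb
    (rotation c).toHomeomorph.measurableEmbedding G Disc
  have h2 : (rotation c ⁻¹' Disc : Set ℂ) = Disc := by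
    ext w
    rw [Set.mem_preimage, mem_closedBall_zero_iff, mem_closedBall_zero_iff,
      LinearIsometryEquiv.norm_map]
  rw [h2] at h1
  rw [← h1]
  refine integral_congr_ae (Filter.Eventually.of_forall fun w => ?_)
  beta_reduce
  rw [rotation_apply, mul_comm]

end DiscIntAux

theorem disc_slices (G : ℂ → ℝ) (hG : Continuous G) (u : ℂ) (hu : ‖u‖ = 1) :
    ∫ w in Disc, G w = ∫ t in (-1 : ℝ)..1, ∫ s in (-√(1 - t ^ 2))..√(1 - t ^ 2),
      G ((t + s * Complex.I) * u) := by
  rw [DiscIntAux.rot G u hu]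
  exact DiscIntAux.key (fun w => G (w * u)) (hG.comp (continuous_id.mul continuous_const))

theorem disc_ridge (f : ℝ → ℝ) (hf : Continuous f) (u : ℂ) (hu : ‖u‖ = 1) :
    ∫ w in Disc, f (ip w u) = ∫ t in (-1 : ℝ)..1, f t * (2 * √(1 - t ^ 2)) := by
  have hc : Continuous fun w : ℂ => f (ip w u) := by
    refine hf.comp ?_
    unfold ip
    exact (Complex.continuous_re.mul continuous_const).add
      (Complex.continuous_im.mul continuous_const)
  rw [disc_slices _ hc u hu]
  have hu2 : u.re * u.re + u.im * u.im = 1 := by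
    have h1 := Complex.normSq_eq_norm_sq u
    rw [hu, Complex.normSq_apply] at h1
    linarith
  refine intervalIntegral.integral_congr fun t _ => ?_
  beta_reduce
  have h1 : ∀ s : ℝ, ip (((t : ℂ) + s * Complex.I) * u) u = t := by
    intro s
    have h2 : ip (((t : ℂ) + s * Complex.I) * u) u = t * (u.re * u.re + u.im * u.im) := by
      simp [ip]
      ring
    rw [h2, hu2, mul_one]
  simp only [h1, intervalIntegral.integral_const, smul_eq_mul]
  ring

theorem disc_ridge_re (f : ℝ → ℝ) (hf : Continuous f) (u : ℂ) (hu : ‖u‖ = 1) :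
    ∫ w in Disc, f (ip w u) = ∫ w in Disc, f w.re := by
  rw [disc_ridge f hf u hu, ← disc_ridge f hf 1 (by simp)]
  simp [ip]

end P23F
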