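import Mathlib
import Pool.Agent.Lib.P23F.DiscInt

/-!
# Module P23F.AbsNear : the basic L² argument

PROOF.  Let `β(w) = ∑ l, ω l κ(ip w (u l))`, `I = ∫_{Disc} κ(w.re)²` (`≥ 0`), `N = #ι`.
By `disc_ridge_re`, `∫_{Disc} β = (∑ ω l) ∫_{Disc} κ(w.re) = 0`, and
`∫_{Disc} κ(ip w (u l))² = I`, `∫_{Disc} |κ(ip w (u l))| ...` not needed.
So `∫ |β| = 2 ∫ max β 0 ≤ 2 C₁ ∫ (∑_l κ(ip w (u l))² + g²) = 2 C₁ (N I + π g²)
≤ 2 C₁ (N + π C₂) I` (`h1`, whose right side is `≥ 0`; volume of the disc `π`; `h3`).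
For `w ∈ Disc`: `|ip w (u l)| ≤ 1`, so `|β(w)| ≤ δ ∑ |ω l|` (`h4`).  Hence
`c I ≤ ∫ β² ≤ δ (∑ |ω l|) ∫ |β| ≤ δ (∑ |ω l|) 2 C₁ (N + π C₂) I`.  By `h5` this forces `I = 0` (if
`I > 0` divide by `I`).  `κ(w.re)²` is continuous and nonnegative with integral `0` over the disc, so
it vanishes on the open disc, hence `κ t = 0` for `|t| < 1` (`w = t`), and for `|t| ≤ 1` by
continuity.
-/

set_option autoImplicit false

open MeasureTheory

namespace P23F

namespace AbsNearAux

private theorem ip_cont (u : ℂ) : Continuous fun w : ℂ => ip w u := by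
  unfold ip
  fun_prop

private theorem int_on {f : ℂ → ℝ} (hf : Continuous f) : IntegrableOn f Disc volume :=
  hf.continuousOn.integrableOn_compact (isCompact_closedBall _ _)

private theorem abs_ip_le {w u : ℂ} (hw : w ∈ Disc) (hu : ‖u‖ = 1) : |ip w u| ≤ 1 := by
  have hw' : ‖w‖ ≤ 1 := by simpa [Disc] using hw
  have h1 : ip w u = (w * (starRingEnd ℂ) u).re := by
    simp [ip, Complex.mul_re]
  rw [h1]
  refine (Complex.abs_re_le_norm _).trans ?_
  rw [norm_mul, Complex.norm_conj, hu, mul_one]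
  exact hw'

private theorem vol_disc : (volume Disc).toReal = Real.pi := by
  unfold Disc
  rw [Complex.volume_closedBall]
  simp

end AbsNearAux

open AbsNearAux in
theorem abs_near {ι : Type*} [Fintype ι] (ω : ι → ℝ) (u : ι → ℂ) (hu : ∀ l, ‖u l‖ = 1)
    (κ : ℝ → ℝ) (hκ : Continuous κ) (c C₁ C₂ δ g : ℝ) (hC₁ : 0 ≤ C₁) (hC₂ : 0 ≤ C₂)
    (hω : ∑ l, ω l = 0)
    (h1 : ∀ w ∈ Disc, ∑ l, ω l * κ (ip w (u l)) ≤ C₁ * (∑ l, κ (ip w (u l)) ^ 2 + g ^ 2))
    (h2 : c * ∫ w in Disc, κ w.re ^ 2 ≤ ∫ w in Disc, (∑ l, ω l * κ (ip w (u l))) ^ 2)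
    (h3 : g ^ 2 ≤ C₂ * ∫ w in Disc, κ w.re ^ 2)
    (h4 : ∀ t, |t| ≤ 1 → |κ t| ≤ δ)
    (h5 : δ * (∑ l, |ω l|) * (2 * C₁ * (Fintype.card ι + Real.pi * C₂)) < c) :
    ∀ t, |t| ≤ 1 → κ t = 0 := by
  have hδ : 0 ≤ δ := (abs_nonneg _).trans (h4 0 (by simp))
  set I : ℝ := ∫ w in Disc, κ w.re ^ 2 with hI
  have hI0 : 0 ≤ I := integral_nonneg fun w => sq_nonneg _
  have hcl : ∀ l, Continuous fun w : ℂ => κ (ip w (u l)) := fun l => hκ.comp (ip_cont (u l))
  set β : ℂ → ℝ := fun w => ∑ l, ω l * κ (ip w (u l)) with hβ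
  have hβc : Continuous β := continuous_finset_sum _ fun l _ => continuous_const.mul (hcl l)
  -- the integral of β
  have hβ0 : ∫ w in Disc, β w = 0 := by
    have e1 : ∫ w in Disc, β w = ∑ l, ∫ w in Disc, ω l * κ (ip w (u l)) :=
      integral_finset_sum _ fun l _ => int_on (continuous_const.mul (hcl l))
    rw [e1]
    have e2 : ∀ l, ∫ w in Disc, ω l * κ (ip w (u l)) = ω l * ∫ w in Disc, κ w.re := by
      intro l
      rw [integral_const_mul, disc_ridge_re κ hκ (u l) (hu l)]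
    simp_rw [e2]
    rw [← Finset.sum_mul, hω, zero_mul]
  -- the integral of the squares
  have hsq : ∀ l, ∫ w in Disc, κ (ip w (u l)) ^ 2 = I := fun l =>
    disc_ridge_re (fun t => κ t ^ 2) (hκ.pow 2) (u l) (hu l)
  -- the integral of |β|
  have habs : ∫ w in Disc, |β w| ≤ 2 * (C₁ * (Fintype.card ι * I + Real.pi * g ^ 2)) := by
    have e1 : ∫ w in Disc, |β w| = ∫ w in Disc, (2 * max (β w) 0 - β w) := by
      apply integral_congr_ae
      filter_upwards with w
      rcases le_total 0 (β w) with h | h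
      · rw [abs_of_nonneg h, max_eq_left h]; ring
      · rw [abs_of_nonpos h, max_eq_right h]; ring
    have hmc : Continuous fun w => max (β w) 0 := hβc.max continuous_const
    have e2 : ∫ w in Disc, (2 * max (β w) 0 - β w) = 2 * ∫ w in Disc, max (β w) 0 := by
      have hmc2 : Continuous fun w => 2 * max (β w) 0 := continuous_const.mul hmc
      have e0 : ∫ w in Disc, (2 * max (β w) 0 - β w) =
          (∫ w in Disc, 2 * max (β w) 0) - ∫ w in Disc, β w :=
        integral_sub (int_on hmc2) (int_on hβc)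
      rw [e0, hβ0, sub_zero, integral_const_mul]
    rw [e1, e2]
    have hsc : Continuous fun w : ℂ => C₁ * (∑ l, κ (ip w (u l)) ^ 2 + g ^ 2) :=
      continuous_const.mul
        ((continuous_finset_sum _ fun l _ => (hcl l).pow 2).add continuous_const)
    have e3 : ∫ w in Disc, max (β w) 0 ≤
        ∫ w in Disc, C₁ * (∑ l, κ (ip w (u l)) ^ 2 + g ^ 2) := by
      apply setIntegral_mono_on (int_on hmc) (int_on hsc) Metric.isClosed_closedBall.measurableSet
      intro w hw
      refine max_le (h1 w hw) ?_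
      exact mul_nonneg hC₁ (add_nonneg (Finset.sum_nonneg fun l _ => sq_nonneg _) (sq_nonneg _))
    have e4 : ∫ w in Disc, C₁ * (∑ l, κ (ip w (u l)) ^ 2 + g ^ 2) =
        C₁ * (Fintype.card ι * I + Real.pi * g ^ 2) := by
      have hc2 : ∀ l, Continuous fun w : ℂ => κ (ip w (u l)) ^ 2 := fun l => (hcl l).pow 2
      have hcs : Continuous fun w : ℂ => ∑ l, κ (ip w (u l)) ^ 2 :=
        continuous_finset_sum _ fun l _ => hc2 l
      have e0 : ∫ w in Disc, (∑ l, κ (ip w (u l)) ^ 2 + g ^ 2) =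
          (∫ w in Disc, ∑ l, κ (ip w (u l)) ^ 2) + ∫ w in Disc, g ^ 2 :=
        integral_add (int_on hcs) (int_on continuous_const)
      have e5 : ∫ w in Disc, ∑ l, κ (ip w (u l)) ^ 2 = ∑ l, ∫ w in Disc, κ (ip w (u l)) ^ 2 :=
        integral_finset_sum _ fun l _ => int_on (hc2 l)
      rw [integral_const_mul, e0, e5]
      simp_rw [hsq]
      rw [Finset.sum_const, setIntegral_const, Finset.card_univ, Measure.real, vol_disc]
      simp
    have := e3.trans_eq e4
    linarith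
  -- β² ≤ δ Ω |β|
  set Ω : ℝ := ∑ l, |ω l| with hΩ
  have hΩ0 : 0 ≤ Ω := Finset.sum_nonneg fun l _ => abs_nonneg _
  have hb : ∀ w ∈ Disc, |β w| ≤ δ * Ω := by
    intro w hw
    calc |β w| ≤ ∑ l, |ω l * κ (ip w (u l))| := Finset.abs_sum_le_sum_abs _ _
      _ ≤ ∑ l, |ω l| * δ := by
          apply Finset.sum_le_sum
          intro l _
          rw [abs_mul]
          exact mul_le_mul_of_nonneg_left (h4 _ (abs_ip_le hw (hu l))) (abs_nonneg _)
      _ = δ * Ω := by rw [← Finset.sum_mul, mul_comm]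
  have hsq2 : ∫ w in Disc, (∑ l, ω l * κ (ip w (u l))) ^ 2 ≤ δ * Ω * ∫ w in Disc, |β w| := by
    rw [← integral_const_mul]
    apply setIntegral_mono_on (int_on (hβc.pow 2)) (int_on (continuous_const.mul hβc.abs))
      Metric.isClosed_closedBall.measurableSet
    intro w hw
    show β w ^ 2 ≤ δ * Ω * |β w|
    rw [← sq_abs, sq]
    exact mul_le_mul_of_nonneg_right (hb w hw) (abs_nonneg _)
  have hIz : I = 0 := by
    by_contra hne
    have hIpos : 0 < I := lt_of_le_of_ne hI0 (Ne.symm hne)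
    have a1 : c * I ≤ δ * Ω * (2 * (C₁ * (Fintype.card ι * I + Real.pi * g ^ 2))) :=
      h2.trans (hsq2.trans (mul_le_mul_of_nonneg_left habs (mul_nonneg hδ hΩ0)))
    have a2 : Real.pi * g ^ 2 ≤ Real.pi * (C₂ * I) :=
      mul_le_mul_of_nonneg_left h3 Real.pi_pos.le
    have a3 : 2 * (C₁ * (Fintype.card ι * I + Real.pi * g ^ 2)) ≤
        2 * (C₁ * (Fintype.card ι * I + Real.pi * (C₂ * I))) := by
      have := mul_le_mul_of_nonneg_left (add_le_add_right a2 ((Fintype.card ι : ℝ) * I)) hC₁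
      linarith
    have a4 := a1.trans (mul_le_mul_of_nonneg_left a3 (mul_nonneg hδ hΩ0))
    have a5 : δ * Ω * (2 * (C₁ * (Fintype.card ι * I + Real.pi * (C₂ * I)))) =
        (δ * Ω * (2 * C₁ * (Fintype.card ι + Real.pi * C₂))) * I := by ring
    rw [a5] at a4
    exact absurd (le_of_mul_le_mul_right a4 hIpos) (not_le.2 h5)
  -- conclusion on the open interval
  have hopen : ∀ t, |t| < 1 → κ t = 0 := by
    intro t ht
    by_contra hne
    have hae : ∀ᵐ w ∂(volume.restrict Disc), κ (w : ℂ).re ^ 2 = 0 := by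
      have hint : IntegrableOn (fun w : ℂ => κ w.re ^ 2) Disc volume :=
        int_on ((hκ.comp Complex.continuous_re).pow 2)
      have := (integral_eq_zero_iff_of_nonneg (μ := volume.restrict Disc)
        (f := fun w : ℂ => κ w.re ^ 2) (fun w => sq_nonneg _) hint).1 (by rw [← hI]; exact hIz)
      exact this
    have hU : IsOpen ({w : ℂ | κ w.re ≠ 0} ∩ Metric.ball 0 1) := by
      apply IsOpen.inter _ Metric.isOpen_ball
      exact isOpen_ne_fun (hκ.comp Complex.continuous_re) continuous_const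
    have hUne : ({w : ℂ | κ w.re ≠ 0} ∩ Metric.ball 0 1).Nonempty := by
      refine ⟨(t : ℂ), ?_, ?_⟩
      · simpa using hne
      · simpa using ht
    have hpos := hU.measure_pos volume hUne
    rw [ae_restrict_iff' Metric.isClosed_closedBall.measurableSet] at hae
    have hzero : volume ({w : ℂ | κ w.re ≠ 0} ∩ Metric.ball 0 1) = 0 := by
      refine measure_mono_null ?_ hae
      rintro w ⟨hw1, hw2⟩
      simp only [Set.mem_compl_iff, Set.mem_setOf_eq]
      intro hw3
      have hw4 := hw3 (Metric.ball_subset_closedBall hw2)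
      exact hw1 (pow_eq_zero_iff (two_ne_zero) |>.1 hw4)
    exact hpos.ne' hzero
  intro t ht
  have hclosed : IsClosed {t : ℝ | κ t = 0} := isClosed_eq hκ continuous_const
  have hsub : Set.Ioo (-1 : ℝ) 1 ⊆ {t : ℝ | κ t = 0} := fun s hs => hopen s (abs_lt.2 hs)
  have hcl2 := closure_minimal hsub hclosed
  rw [closure_Ioo (by norm_num)] at hcl2
  exact hcl2 (abs_le.1 ht)

end P23F
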