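import Mathlib
import Pool.Agent.Lib.P23F.Defs

/-!
# Module P23F.Planar : affine dependences of a planar quadruple

PROOFS.
* `exists_dep`: `μ 0 = cr (a 2 - a 1) (a 3 - a 1)`, `μ 1 = - cr (a 2 - a 0) (a 3 - a 0)`,
  `μ 2 = cr (a 1 - a 0) (a 3 - a 0)`, `μ 3 = - cr (a 1 - a 0) (a 2 - a 0)`; nonzero by `Gen`; the
  sums vanish by `ring` (real and imaginary parts).  `ker`: given `c`, let `t = c 0 / μ 0`,
  `c' = c - t μ`; then `c' 0 = 0`, `c' 1 + c' 2 + c' 3 = 0` and
  `c' 2 (a 2 - a 1) + c' 3 (a 3 - a 1) = 0`; cross product with `a 3 - a 1` gives `c' 2 = 0`, with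
  `a 2 - a 1` gives `c' 3 = 0`, and then `c' 1 = 0`.
* `par_partner`: if `{k, l}` and `{i, j}` share exactly one index, `Gen` is contradicted
  (e.g. `k = i`, `l ≠ j`).  If they are equal we are in the first two cases.  If they are disjoint
  put `v = a i - a j` and take the cross product of `∑ μ m a m = 0` with `v`:
  with `p = cr v (a i) = cr v (a j)`, `q = cr v (a k) = cr v (a l)` (parallelism) we get
  `(μ i + μ j) p + (μ k + μ l) q = 0` and `(μ i + μ j) + (μ k + μ l) = 0`, so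
  `(μ i + μ j) (p - q) = 0`; and `p ≠ q`, since `cr (a j - a i) (a k - a i) = ± (q - p) ≠ 0` by
  `Gen`.
* `exists_same`: among `μ 0, μ 1, μ 2` (all nonzero) two have the same sign.
  `exists_opp`: the sum is zero and the entries are nonzero, so both signs occur.
* `gen_ne`: a repeated point makes a cross product zero.
-/

set_option autoImplicit false

namespace P23F

private theorem univ_eq4 : ∀ i j k l : Fin 4, i ≠ j → i ≠ k → i ≠ l → j ≠ k → j ≠ l → k ≠ l →
    (Finset.univ : Finset (Fin 4)) = {i, j, k, l} := by decide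

private theorem sum_eq4 {M : Type*} [AddCommMonoid M] (f : Fin 4 → M) {i j k l : Fin 4}
    (hij : i ≠ j) (hik : i ≠ k) (hil : i ≠ l) (hjk : j ≠ k) (hjl : j ≠ l) (hkl : k ≠ l) :
    ∑ m, f m = f i + (f j + (f k + f l)) := by
  rw [univ_eq4 i j k l hij hik hil hjk hjl hkl, Finset.sum_insert (by simp [hij, hik, hil]),
    Finset.sum_insert (by simp [hjk, hjl]), Finset.sum_insert (by simp [hkl]),
    Finset.sum_singleton]

theorem exists_dep (a : Fin 4 → ℂ) (hg : Gen a) : ∃ μ : Fin 4 → ℝ, Dep a μ := by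
  have g0 := hg 1 2 3 (by decide) (by decide) (by decide)
  have g1 := hg 0 2 3 (by decide) (by decide) (by decide)
  have g2 := hg 0 1 3 (by decide) (by decide) (by decide)
  have g3 := hg 0 1 2 (by decide) (by decide) (by decide)
  refine ⟨![cr (a 2 - a 1) (a 3 - a 1), -cr (a 2 - a 0) (a 3 - a 0),
    cr (a 1 - a 0) (a 3 - a 0), -cr (a 1 - a 0) (a 2 - a 0)], ?_, ?_, ?_, ?_⟩
  · intro i
    fin_cases i
    · exact g0
    · exact neg_ne_zero.2 g1
    · exact g2
    · exact neg_ne_zero.2 g3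
  · rw [Fin.sum_univ_four]
    show cr (a 2 - a 1) (a 3 - a 1) + -cr (a 2 - a 0) (a 3 - a 0) +
      cr (a 1 - a 0) (a 3 - a 0) + -cr (a 1 - a 0) (a 2 - a 0) = 0
    simp only [cr, Complex.sub_re, Complex.sub_im]
    ring
  · rw [Fin.sum_univ_four]
    show ((cr (a 2 - a 1) (a 3 - a 1) : ℝ) : ℂ) * a 0 +
      ((-cr (a 2 - a 0) (a 3 - a 0) : ℝ) : ℂ) * a 1 +
      ((cr (a 1 - a 0) (a 3 - a 0) : ℝ) : ℂ) * a 2 +
      ((-cr (a 1 - a 0) (a 2 - a 0) : ℝ) : ℂ) * a 3 = 0
    apply Complex.ext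
    · simp only [Complex.add_re, Complex.re_ofReal_mul, Complex.zero_re, cr, Complex.sub_re,
        Complex.sub_im]
      ring
    · simp only [Complex.add_im, Complex.im_ofReal_mul, Complex.zero_im, cr, Complex.sub_re,
        Complex.sub_im]
      ring
  · intro c hc hca
    rw [Fin.sum_univ_four] at hc hca
    have hx := congrArg Complex.re hca
    have hy := congrArg Complex.im hca
    simp only [Complex.add_re, Complex.re_ofReal_mul, Complex.zero_re] at hx
    simp only [Complex.add_im, Complex.im_ofReal_mul, Complex.zero_im] at hy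
    refine ⟨c 0 / cr (a 2 - a 1) (a 3 - a 1), fun i => ?_⟩
    rw [div_mul_eq_mul_div, eq_div_iff g0]
    have h2 : c 2 * cr (a 2 - a 1) (a 3 - a 1) = c 0 * cr (a 1 - a 0) (a 3 - a 0) := by
      simp only [cr, Complex.sub_re, Complex.sub_im]
      linear_combination ((a 3).im - (a 1).im) * hx - ((a 3).re - (a 1).re) * hy +
        (-(a 1).re * ((a 3).im - (a 1).im) + (a 1).im * ((a 3).re - (a 1).re)) * hc
    have h3 : c 3 * cr (a 2 - a 1) (a 3 - a 1) = c 0 * -cr (a 1 - a 0) (a 2 - a 0) := by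
      simp only [cr, Complex.sub_re, Complex.sub_im]
      linear_combination -(((a 2).im - (a 1).im) * hx - ((a 2).re - (a 1).re) * hy +
        (-(a 1).re * ((a 2).im - (a 1).im) + (a 1).im * ((a 2).re - (a 1).re)) * hc)
    have h1 : c 1 * cr (a 2 - a 1) (a 3 - a 1) = c 0 * -cr (a 2 - a 0) (a 3 - a 0) := by
      have h4 : cr (a 2 - a 1) (a 3 - a 1) + -cr (a 2 - a 0) (a 3 - a 0) +
          cr (a 1 - a 0) (a 3 - a 0) + -cr (a 1 - a 0) (a 2 - a 0) = 0 := by
        simp only [cr, Complex.sub_re, Complex.sub_im]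
        ring
      linear_combination cr (a 2 - a 1) (a 3 - a 1) * hc - h2 - h3 - c 0 * h4
    fin_cases i
    · show c 0 * cr (a 2 - a 1) (a 3 - a 1) = c 0 * cr (a 2 - a 1) (a 3 - a 1)
      rfl
    · exact h1
    · exact h2
    · exact h3

theorem gen_ne (a : Fin 4 → ℂ) (hg : Gen a) (i j : Fin 4) (h : i ≠ j) : a i ≠ a j := by
  intro he
  obtain ⟨k, hk1, hk2⟩ : ∃ k : Fin 4, i ≠ k ∧ j ≠ k :=
    (show ∀ i j : Fin 4, ∃ k : Fin 4, i ≠ k ∧ j ≠ k by decide) i j
  refine hg i j k h hk1 hk2 ?_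
  rw [he, sub_self]
  simp [cr]

theorem par_partner (a : Fin 4 → ℂ) (μ : Fin 4 → ℝ) (hg : Gen a) (hd : Dep a μ)
    (i j k l : Fin 4) (hij : i ≠ j) (hkl : k ≠ l) (h : cr (a i - a j) (a k - a l) = 0) :
    (k = i ∧ l = j) ∨ (k = j ∧ l = i) ∨ (μ i + μ j = 0 ∧ μ k + μ l = 0) := by
  have h' := h
  simp only [cr, Complex.sub_re, Complex.sub_im] at h'
  by_cases hki : k = i
  · subst hki
    by_cases hlj : l = j
    · exact Or.inl ⟨rfl, hlj⟩
    · exfalso
      refine hg k j l hij hkl (Ne.symm hlj) ?_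
      simp only [cr, Complex.sub_re, Complex.sub_im]
      linear_combination h'
  by_cases hkj : k = j
  · subst hkj
    by_cases hli : l = i
    · exact Or.inr (Or.inl ⟨rfl, hli⟩)
    · exfalso
      refine hg k i l (Ne.symm hij) hkl (Ne.symm hli) ?_
      simp only [cr, Complex.sub_re, Complex.sub_im]
      linear_combination -h'
  by_cases hli : l = i
  · subst hli
    exfalso
    refine hg l j k hij (Ne.symm hkl) (Ne.symm hkj) ?_
    simp only [cr, Complex.sub_re, Complex.sub_im]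
    linear_combination -h'
  by_cases hlj : l = j
  · subst hlj
    exfalso
    refine hg l i k (Ne.symm hij) (Ne.symm hkl) (Ne.symm hki) ?_
    simp only [cr, Complex.sub_re, Complex.sub_im]
    linear_combination h'
  refine Or.inr (Or.inr ?_)
  have hik : i ≠ k := Ne.symm hki
  have hjk : j ≠ k := Ne.symm hkj
  have hil : i ≠ l := Ne.symm hli
  have hjl : j ≠ l := Ne.symm hlj
  have hs := hd.sum
  have ha := hd.suma
  rw [sum_eq4 _ hij hik hil hjk hjl hkl] at hs ha
  have hx := congrArg Complex.re ha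
  have hy := congrArg Complex.im ha
  simp only [Complex.add_re, Complex.re_ofReal_mul, Complex.zero_re] at hx
  simp only [Complex.add_im, Complex.im_ofReal_mul, Complex.zero_im] at hy
  have hne := hg i j k hij hik hjk
  have h1 : (μ i + μ j) * cr (a j - a i) (a k - a i) = 0 := by
    simp only [cr, Complex.sub_re, Complex.sub_im]
    linear_combination ((a i).re - (a j).re) * hy - ((a i).im - (a j).im) * hx -
      (((a i).re - (a j).re) * (a k).im - ((a i).im - (a j).im) * (a k).re) * hs + μ l * h'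
  have h2 : μ i + μ j = 0 := (mul_eq_zero.1 h1).resolve_right hne
  exact ⟨h2, by linarith⟩

theorem exists_same (a : Fin 4 → ℂ) (μ : Fin 4 → ℝ) (hd : Dep a μ) :
    ∃ i j, i ≠ j ∧ 0 < μ i * μ j := by
  rcases lt_or_gt_of_ne (hd.ne 0) with h0 | h0 <;> rcases lt_or_gt_of_ne (hd.ne 1) with h1 | h1 <;>
    rcases lt_or_gt_of_ne (hd.ne 2) with h2 | h2
  · exact ⟨0, 1, by decide, mul_pos_of_neg_of_neg h0 h1⟩
  · exact ⟨0, 1, by decide, mul_pos_of_neg_of_neg h0 h1⟩
  · exact ⟨0, 2, by decide, mul_pos_of_neg_of_neg h0 h2⟩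
  · exact ⟨1, 2, by decide, mul_pos h1 h2⟩
  · exact ⟨1, 2, by decide, mul_pos_of_neg_of_neg h1 h2⟩
  · exact ⟨0, 2, by decide, mul_pos h0 h2⟩
  · exact ⟨0, 1, by decide, mul_pos h0 h1⟩
  · exact ⟨0, 1, by decide, mul_pos h0 h1⟩

theorem exists_opp (a : Fin 4 → ℂ) (μ : Fin 4 → ℝ) (hd : Dep a μ) :
    ∃ i j, i ≠ j ∧ μ i * μ j < 0 := by
  by_contra hcon
  push Not at hcon
  have h1 := hcon 0 1 (by decide)
  have h2 := hcon 0 2 (by decide)
  have h3 := hcon 0 3 (by decide)
  have hs := hd.sum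
  rw [Fin.sum_univ_four] at hs
  have h4 : μ 0 * μ 0 + (μ 0 * μ 1 + μ 0 * μ 2 + μ 0 * μ 3) = 0 := by
    linear_combination μ 0 * hs
  have h5 : 0 < μ 0 * μ 0 := mul_self_pos.2 (hd.ne 0)
  linarith

end P23F
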