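import Mathlib
import Pool.Agent.Lib.P23F.Planar

/-!
# Module P23F.Wts : weights and directions of the pairs

PROOFS (`hg : Gen a`, `hd : Dep a μ`).
* `dir_norm`: division by the (nonzero, `gen_ne`) norm.
* `wt_sum`: `∑_p wt p = ∑ μ i μ j ‖a i - a j‖²`; expand
  `‖a i - a j‖² = ‖a i‖² + ‖a j‖² - 2 ip (a i) (a j)`: the sum is
  `2 (∑ μ i ‖a i‖²) (∑ μ j) - 2 ‖∑ μ i a i‖² = 0`.
* `wt_dir2`: for `i ≠ j`, `‖a i - a j‖² (dir a i j)² = (a i - a j)²`, and both sides have factor `0`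
  for `i = j`; so the sum is `∑ μ i μ j (a i - a j)² = 2 (∑ μ i (a i)²)(∑ μ j) - 2 (∑ μ i a i)²
  = 0`.
* `wt_ip2`: `(ip w u)² = ‖w‖² ‖u‖² / 2 + Re (conj w ^ 2 u²) / 2`, with the two previous ones.
* `wt_ip4`: `(ip w u)⁴ = (3/8) ‖w‖⁴ ‖u‖⁴ + (1/2) ‖w‖² ‖u‖² Re (conj w ^ 2 u²) + (1/8) Re (conj w ^ 4 u⁴)`,
  with the hypothesis.
* `cls_sign`: by `par_partner` the pairs `q` (`q.1 ≠ q.2`) parallel to `p` are `p`, its reverse, and
  possibly pairs with `μ q.1 + μ q.2 = 0`, which exist only if `μ p.1 + μ p.2 = 0`.  So if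
  `0 < μ p.1 μ p.2` all members `q` of the class have `μ q.1 μ q.2 = μ p.1 μ p.2 > 0` and if
  `μ p.1 μ p.2 < 0` all members have `μ q.1 μ q.2 < 0`; hence the sign of `cls` (a sum of terms of one
  sign containing the nonzero term of `p`; `cr (dir p) (dir q) = 0` iff
  `cr (a p.1 - a p.2) (a q.1 - a q.2) = 0`).
* `class_sum`: for unit vectors `u, v`: `v² = u² ↔ v = u ∨ v = -u ↔ cr u v = 0`; diagonal pairs have
  weight `0`.
* `ip_lt`: for unit vectors `ip u v ^ 2 + cr u v ^ 2 = 1`; finitely many pairs.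
* `card_dir`: `dir a j i = - dir a i j` for `i ≠ j`, so the squares take at most `6` values on
  off-diagonal pairs, and `1` on the diagonal.  (E.g. the image is contained in
  `insert 1 (Finset.image (fun l => dir a (pi6 l) (pj6 l) ^ 2) univ)`.)
-/

set_option autoImplicit false

namespace P23F

variable {a : Fin 4 → ℂ} {μ : Fin 4 → ℝ}

namespace WtsAux

theorem npos (hg : Gen a) {i j : Fin 4} (h : i ≠ j) : 0 < ‖a i - a j‖ :=
  norm_pos_iff.2 (sub_ne_zero.2 (gen_ne a hg i j h))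

theorem dir_eq {i j : Fin 4} (h : i ≠ j) : dir a i j = (a i - a j) / (‖a i - a j‖ : ℂ) := by
  unfold dir
  rw [if_neg h]

theorem dir_neg (hg : Gen a) {i j : Fin 4} (h : i ≠ j) : dir a j i = -dir a i j := by
  rw [dir_eq h, dir_eq h.symm, norm_sub_rev (a j) (a i)]
  ring

theorem cr_dir {i j k l : Fin 4} (h : i ≠ j) (h' : k ≠ l) :
    cr (dir a i j) (dir a k l) =
      cr (a i - a j) (a k - a l) / (‖a i - a j‖ * ‖a k - a l‖) := by
  rw [dir_eq h, dir_eq h']
  unfold cr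
  rw [Complex.div_ofReal_re, Complex.div_ofReal_re, Complex.div_ofReal_im, Complex.div_ofReal_im,
    div_mul_div_comm, div_mul_div_comm, ← sub_div]

theorem cr_zero (hg : Gen a) {i j k l : Fin 4} (h : i ≠ j) (h' : k ≠ l)
    (hc : cr (dir a i j) (dir a k l) = 0) : cr (a i - a j) (a k - a l) = 0 := by
  rw [cr_dir h h'] at hc
  have h1 := npos hg h
  have h2 := npos hg h'
  rcases div_eq_zero_iff.1 hc with h3 | h3
  · exact h3
  · exact absurd h3 (mul_pos h1 h2).ne'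

theorem unit_sq {u : ℂ} (hu : ‖u‖ = 1) : u.re * u.re + u.im * u.im = 1 := by
  have h1 := Complex.sq_norm u
  rw [hu, Complex.normSq_apply] at h1
  linarith

theorem sq_iff {u v : ℂ} (hu : ‖u‖ = 1) (hv : ‖v‖ = 1) : v ^ 2 = u ^ 2 ↔ cr u v = 0 := by
  have h1 := unit_sq hu
  have h2 := unit_sq hv
  constructor
  · intro h
    rcases sq_eq_sq_iff_eq_or_eq_neg.1 h with h3 | h3
    · rw [h3]
      unfold cr
      ring
    · rw [h3]
      unfold cr
      simp
      ring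
  · intro h
    unfold cr at h
    apply Complex.ext
    · rw [pow_two, pow_two, Complex.mul_re, Complex.mul_re]
      have e1 : u.re * u.re - v.re * v.re = 0 := by
        linear_combination (u.re * v.im + u.im * v.re) * h - u.re * u.re * h2 + v.re * v.re * h1
      have e2 : u.im * u.im - v.im * v.im = 0 := by
        linear_combination -(u.re * v.im + u.im * v.re) * h - u.im * u.im * h2 + v.im * v.im * h1
      linarith
    · rw [pow_two, pow_two, Complex.mul_im, Complex.mul_im]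
      have e3 : u.re * u.im - v.re * v.im = 0 := by
        linear_combination (u.im * v.im - u.re * v.re) * h - u.re * u.im * h2 + v.re * v.im * h1
      linarith

theorem ip_sq (w u : ℂ) :
    ip w u ^ 2 = ‖w‖ ^ 2 * ‖u‖ ^ 2 / 2 + ((starRingEnd ℂ w) ^ 2 * u ^ 2).re / 2 := by
  rw [Complex.sq_norm, Complex.sq_norm, Complex.normSq_apply, Complex.normSq_apply]
  unfold ip
  simp only [pow_two, Complex.mul_re, Complex.mul_im, Complex.conj_re, Complex.conj_im]
  ring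

theorem ip_four (w u : ℂ) :
    ip w u ^ 4 = 3 / 8 * (‖w‖ ^ 2) ^ 2 * (‖u‖ ^ 2) ^ 2 +
      1 / 2 * ‖w‖ ^ 2 * ‖u‖ ^ 2 * ((starRingEnd ℂ w) ^ 2 * u ^ 2).re +
      1 / 8 * ((starRingEnd ℂ w) ^ 4 * u ^ 4).re := by
  have h4 : (starRingEnd ℂ w) ^ 4 * u ^ 4 =
      ((starRingEnd ℂ w) ^ 2 * u ^ 2) * ((starRingEnd ℂ w) ^ 2 * u ^ 2) := by ring
  rw [h4, Complex.sq_norm, Complex.sq_norm, Complex.normSq_apply, Complex.normSq_apply]
  unfold ip
  simp only [pow_two, Complex.mul_re, Complex.mul_im, Complex.conj_re, Complex.conj_im]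
  ring

theorem re_sum (c : ℂ) (f : Fin 4 × Fin 4 → ℝ) (g : Fin 4 × Fin 4 → ℂ)
    (h : ∑ p, (f p : ℂ) * g p = 0) : ∑ p, f p * (c * g p).re = 0 := by
  have h1 : (c * ∑ p, (f p : ℂ) * g p).re = 0 := by rw [h]; simp
  rw [Finset.mul_sum, Complex.re_sum] at h1
  rw [← h1]
  refine Finset.sum_congr rfl fun p _ => ?_
  have h2 : c * ((f p : ℂ) * g p) = (f p : ℂ) * (c * g p) := by ring
  rw [h2, Complex.re_ofReal_mul]

end WtsAux

open WtsAux

theorem dir_norm (hg : Gen a) (p : Fin 4 × Fin 4) : ‖dir a p.1 p.2‖ = 1 := by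
  by_cases h : p.1 = p.2
  · unfold dir
    rw [if_pos h]
    simp
  · rw [dir_eq h, norm_div, Complex.norm_real, norm_norm]
    exact div_self (npos hg h).ne'

theorem wt_sum (hd : Dep a μ) : ∑ p, wt a μ p = 0 := by
  have h0 := hd.sum
  have h1 := congrArg Complex.re hd.suma
  have h2 := congrArg Complex.im hd.suma
  rw [Fin.sum_univ_four] at h0 h1 h2
  simp only [Complex.add_re, Complex.add_im, Complex.re_ofReal_mul, Complex.im_ofReal_mul,
    Complex.zero_re, Complex.zero_im] at h1 h2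
  have hw : ∀ i j, wt a μ (i, j) = μ i * μ j *
      (((a i).re - (a j).re) * ((a i).re - (a j).re) +
        ((a i).im - (a j).im) * ((a i).im - (a j).im)) := by
    intro i j
    unfold wt
    rw [Complex.sq_norm, Complex.normSq_apply, Complex.sub_re, Complex.sub_im]
  rw [Fintype.sum_prod_type]
  simp only [Fin.sum_univ_four, hw]
  linear_combination
    2 * (μ 0 * ((a 0).re ^ 2 + (a 0).im ^ 2) + μ 1 * ((a 1).re ^ 2 + (a 1).im ^ 2) +
      μ 2 * ((a 2).re ^ 2 + (a 2).im ^ 2) + μ 3 * ((a 3).re ^ 2 + (a 3).im ^ 2)) * h0 -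
    2 * (μ 0 * (a 0).re + μ 1 * (a 1).re + μ 2 * (a 2).re + μ 3 * (a 3).re) * h1 -
    2 * (μ 0 * (a 0).im + μ 1 * (a 1).im + μ 2 * (a 2).im + μ 3 * (a 3).im) * h2

theorem wt_dir2 (hg : Gen a) (hd : Dep a μ) : ∑ p, (wt a μ p : ℂ) * dir a p.1 p.2 ^ 2 = 0 := by
  have h0 : ((∑ i, μ i : ℝ) : ℂ) = 0 := by rw [hd.sum]; simp
  have h1 := hd.suma
  rw [Fin.sum_univ_four] at h0 h1
  push_cast at h0
  have hw : ∀ i j, (wt a μ (i, j) : ℂ) * dir a i j ^ 2 = (μ i : ℂ) * μ j * (a i - a j) ^ 2 := by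
    intro i j
    unfold wt
    by_cases h : i = j
    · subst h
      simp
    · rw [dir_eq h]
      have h3 : ((‖a i - a j‖ : ℝ) : ℂ) ≠ 0 := by
        exact_mod_cast (npos hg h).ne'
      push_cast
      field_simp
  rw [Fintype.sum_prod_type]
  simp only [Fin.sum_univ_four, hw]
  linear_combination
    2 * (μ 0 * a 0 ^ 2 + μ 1 * a 1 ^ 2 + μ 2 * a 2 ^ 2 + μ 3 * a 3 ^ 2) * h0 -
    2 * (μ 0 * a 0 + μ 1 * a 1 + μ 2 * a 2 + μ 3 * a 3) * h1

theorem wt_ip2 (hg : Gen a) (hd : Dep a μ) (w : ℂ) :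
    ∑ p, wt a μ p * ip w (dir a p.1 p.2) ^ 2 = 0 := by
  have h1 := re_sum ((starRingEnd ℂ w) ^ 2) (wt a μ) (fun p => dir a p.1 p.2 ^ 2) (wt_dir2 hg hd)
  have h2 := wt_sum hd
  have h3 : ∀ p : Fin 4 × Fin 4, wt a μ p * ip w (dir a p.1 p.2) ^ 2 =
      ‖w‖ ^ 2 / 2 * wt a μ p +
        1 / 2 * (wt a μ p * ((starRingEnd ℂ w) ^ 2 * dir a p.1 p.2 ^ 2).re) := by
    intro p
    rw [ip_sq, dir_norm hg]
    ring
  rw [Finset.sum_congr rfl (fun p _ => h3 p), Finset.sum_add_distrib, ← Finset.mul_sum,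
    ← Finset.mul_sum, h1, h2]
  ring

theorem wt_ip4 (hg : Gen a) (hd : Dep a μ)
    (h4 : ∑ p, (wt a μ p : ℂ) * dir a p.1 p.2 ^ 4 = 0) (w : ℂ) :
    ∑ p, wt a μ p * ip w (dir a p.1 p.2) ^ 4 = 0 := by
  have h1 := re_sum ((starRingEnd ℂ w) ^ 2) (wt a μ) (fun p => dir a p.1 p.2 ^ 2) (wt_dir2 hg hd)
  have h1' := re_sum ((starRingEnd ℂ w) ^ 4) (wt a μ) (fun p => dir a p.1 p.2 ^ 4) h4
  have h2 := wt_sum hd
  have h3 : ∀ p : Fin 4 × Fin 4, wt a μ p * ip w (dir a p.1 p.2) ^ 4 =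
      3 / 8 * (‖w‖ ^ 2) ^ 2 * wt a μ p +
        (1 / 2 * ‖w‖ ^ 2 * (wt a μ p * ((starRingEnd ℂ w) ^ 2 * dir a p.1 p.2 ^ 2).re) +
        1 / 8 * (wt a μ p * ((starRingEnd ℂ w) ^ 4 * dir a p.1 p.2 ^ 4).re)) := by
    intro p
    rw [ip_four, dir_norm hg]
    ring
  rw [Finset.sum_congr rfl (fun p _ => h3 p), Finset.sum_add_distrib, Finset.sum_add_distrib,
    ← Finset.mul_sum, ← Finset.mul_sum, ← Finset.mul_sum, h1, h1', h2]
  ring

namespace WtsAux

theorem wt_symm (i j : Fin 4) : wt a μ (i, j) = wt a μ (j, i) := by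
  unfold wt
  simp only
  rw [norm_sub_rev (a i) (a j)]
  ring

theorem cr_self (u : ℂ) : cr u u = 0 := by
  unfold cr
  ring

end WtsAux

theorem cls_pos (hg : Gen a) (hd : Dep a μ) (p : Fin 4 × Fin 4) (hp : p.1 ≠ p.2)
    (h : 0 < μ p.1 * μ p.2) : 0 < cls a μ p := by
  have hwp : 0 < wt a μ p := by
    unfold wt
    exact mul_pos h (pow_pos (npos hg hp) 2)
  unfold cls
  apply Finset.sum_pos'
  · intro q _
    split_ifs with hq
    · have h1 := cr_zero hg hp hq.2 hq.1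
      rcases par_partner a μ hg hd p.1 p.2 q.1 q.2 hp hq.2 h1 with h2 | h2 | h2
      · have : q = p := Prod.ext h2.1 h2.2
        rw [this]
        exact hwp.le
      · have : q = (p.2, p.1) := Prod.ext h2.1 h2.2
        rw [this, wt_symm]
        exact hwp.le
      · exfalso
        have h3 : μ p.2 = -μ p.1 := by linarith [h2.1]
        rw [h3] at h
        nlinarith [mul_self_nonneg (μ p.1)]
    · exact le_refl 0
  · refine ⟨p, Finset.mem_univ _, ?_⟩
    rw [if_pos ⟨cr_self _, hp⟩]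
    exact hwp

theorem cls_neg (hg : Gen a) (hd : Dep a μ) (p : Fin 4 × Fin 4) (hp : p.1 ≠ p.2)
    (h : μ p.1 * μ p.2 < 0) : cls a μ p < 0 := by
  have hwp : wt a μ p < 0 := by
    unfold wt
    exact mul_neg_of_neg_of_pos h (pow_pos (npos hg hp) 2)
  have hpos : 0 < ∑ q : Fin 4 × Fin 4,
      -(if cr (dir a p.1 p.2) (dir a q.1 q.2) = 0 ∧ q.1 ≠ q.2 then wt a μ q else 0) := by
    apply Finset.sum_pos'
    · intro q _
      split_ifs with hq
      · have h1 := cr_zero hg hp hq.2 hq.1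
        rcases par_partner a μ hg hd p.1 p.2 q.1 q.2 hp hq.2 h1 with h2 | h2 | h2
        · have : q = p := Prod.ext h2.1 h2.2
          rw [this]
          linarith
        · have : q = (p.2, p.1) := Prod.ext h2.1 h2.2
          rw [this, wt_symm]
          have h5 : wt a μ (p.1, p.2) < 0 := hwp
          linarith
        · have h3 : μ q.2 = -μ q.1 := by linarith [h2.2]
          unfold wt
          rw [h3]
          have h6 := mul_self_nonneg (μ q.1)
          have h7 : 0 ≤ ‖a q.1 - a q.2‖ ^ 2 := by positivity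
          nlinarith [mul_nonneg h6 h7]
      · simp
    · refine ⟨p, Finset.mem_univ _, ?_⟩
      rw [if_pos ⟨cr_self _, hp⟩]
      linarith
  rw [Finset.sum_neg_distrib] at hpos
  unfold cls
  linarith

theorem class_sum (hg : Gen a) (p : Fin 4 × Fin 4) (hp : p.1 ≠ p.2) :
    (∑ q ∈ Finset.univ.filter (fun q : Fin 4 × Fin 4 =>
      dir a q.1 q.2 ^ 2 = dir a p.1 p.2 ^ 2), wt a μ q) = cls a μ p := by
  rw [Finset.sum_filter]
  unfold cls
  refine Finset.sum_congr rfl fun q _ => ?_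
  by_cases hq : q.1 = q.2
  · have h1 : wt a μ q = 0 := by
      unfold wt
      rw [hq]
      simp
    rw [h1]
    simp
  · have h1 := sq_iff (dir_norm hg p) (dir_norm hg q)
    by_cases h2 : dir a q.1 q.2 ^ 2 = dir a p.1 p.2 ^ 2
    · rw [if_pos h2, if_pos ⟨h1.1 h2, hq⟩]
    · rw [if_neg h2, if_neg]
      intro h3
      exact h2 (h1.2 h3.1)

theorem ip_lt (hg : Gen a) : ∃ c < 1, 0 ≤ c ∧ ∀ p q : Fin 4 × Fin 4, p.1 ≠ p.2 → q.1 ≠ q.2 →
    cr (dir a p.1 p.2) (dir a q.1 q.2) ≠ 0 → |ip (dir a p.1 p.2) (dir a q.1 q.2)| ≤ c := by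
  classical
  let f : (Fin 4 × Fin 4) × (Fin 4 × Fin 4) → ℝ := fun z =>
    if cr (dir a z.1.1 z.1.2) (dir a z.2.1 z.2.2) ≠ 0 then
      |ip (dir a z.1.1 z.1.2) (dir a z.2.1 z.2.2)| else 0
  obtain ⟨m, _, hm⟩ := Finset.exists_max_image (Finset.univ) f ⟨((0, 0), (0, 0)), Finset.mem_univ _⟩
  refine ⟨f m, ?_, ?_, ?_⟩
  · simp only [f]
    split_ifs with h
    · have h1 := unit_sq (dir_norm hg m.1)
      have h2 := unit_sq (dir_norm hg m.2)
      have h3 : ip (dir a m.1.1 m.1.2) (dir a m.2.1 m.2.2) ^ 2 +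
          cr (dir a m.1.1 m.1.2) (dir a m.2.1 m.2.2) ^ 2 = 1 := by
        unfold ip cr
        set u := dir a m.1.1 m.1.2
        set v := dir a m.2.1 m.2.2
        linear_combination (v.re * v.re + v.im * v.im) * h1 + h2
      have h4 : 0 < cr (dir a m.1.1 m.1.2) (dir a m.2.1 m.2.2) ^ 2 :=
        lt_of_le_of_ne (sq_nonneg _) (pow_ne_zero 2 h).symm
      have h5 : |ip (dir a m.1.1 m.1.2) (dir a m.2.1 m.2.2)| ^ 2 < 1 := by
        rw [sq_abs]
        linarith
      have h6 := abs_nonneg (ip (dir a m.1.1 m.1.2) (dir a m.2.1 m.2.2))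
      nlinarith
    · exact one_pos
  · simp only [f]
    split_ifs
    · exact abs_nonneg _
    · exact le_refl 0
  · intro p q _ _ hc
    have h1 := hm (p, q) (Finset.mem_univ _)
    have h2 : f (p, q) = |ip (dir a p.1 p.2) (dir a q.1 q.2)| := by
      simp only [f]
      rw [if_pos hc]
    rw [← h2]
    exact h1

theorem card_dir (hg : Gen a) :
    (Finset.univ.image fun p : Fin 4 × Fin 4 => dir a p.1 p.2 ^ 2).card ≤ 7 := by
  have hdec : ∀ i j : Fin 4, i ≠ j → ∃ l : Fin 6, (pi6 l = i ∧ pj6 l = j) ∨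
      (pi6 l = j ∧ pj6 l = i) := by
    unfold pi6 pj6
    decide
  have hsub : (Finset.univ.image fun p : Fin 4 × Fin 4 => dir a p.1 p.2 ^ 2) ⊆
      insert 1 (Finset.univ.image fun l : Fin 6 => dir a (pi6 l) (pj6 l) ^ 2) := by
    intro z hz
    rw [Finset.mem_image] at hz
    obtain ⟨p, _, rfl⟩ := hz
    rw [Finset.mem_insert]
    by_cases h : p.1 = p.2
    · left
      unfold dir
      rw [if_pos h]
      ring
    · right
      rw [Finset.mem_image]
      obtain ⟨l, hl⟩ := hdec p.1 p.2 h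
      refine ⟨l, Finset.mem_univ _, ?_⟩
      rcases hl with ⟨h1, h2⟩ | ⟨h1, h2⟩
      · rw [h1, h2]
      · rw [h1, h2, dir_neg hg h]
        ring
  refine (Finset.card_le_card hsub).trans ?_
  refine (Finset.card_insert_le _ _).trans ?_
  have h2 := Finset.card_image_le (s := (Finset.univ : Finset (Fin 6)))
    (f := fun l : Fin 6 => dir a (pi6 l) (pj6 l) ^ 2)
  rw [Finset.card_univ, Fintype.card_fin] at h2
  omega

end P23F
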