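import Mathlib
import Pool.Agent.Lib.P23F.Wts

/-!
# Module P23F.Alg6 : expansion of the quadratic form after displacement of `a 0`

Notation: `η = eta μ`, `y i j = ip w (dir a i j) + τ (η i - η j) / ‖a i - a j‖` (`i ≠ j`),
`f i j = α ((ip w (a i - a j) + τ (η i - η j))² - ip w (a i - a j)²)
  + ‖a i - a j‖² (γ (y i j)⁴ + κ (y i j))` for `i ≠ j`, and `0` for `i = j`.

PROOF of `alg_low`.  `∑ μ i μ j ((ip w a_ij + τ η_ij)² - (ip w a_ij)²) = -2 (∑ μ i (ip w (a i) +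
τ η i))² + 2 (∑ μ i ip w (a i))² = -2 τ²` (`∑ μ = 0`, `∑ μ i a i = 0`, `∑ μ i η i = 1`).
For the quartic term put `x = ip w (dir a i j)`, `e = (η i - η j) / ‖a i - a j‖` and expand
`(x + τ e)⁴ = x⁴ + 4 x³ τ e + 6 x² τ² e² + 4 x τ³ e³ + τ⁴ e⁴`.  The `x⁴` terms sum to `0` by
`wt_ip4`; `∑_{i≠j} μ i μ j ‖a i - a j‖² x³ e = ∑ μ i μ j ‖a i - a j‖⁻² (ip w a_ij)³ (η i - η j)
= LL a μ w` (only `i = 0` or `j = 0` contribute, `η 0 = 1/μ 0`, and the two halves are equal);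
the rest is bounded in absolute value by `K |γ| τ²` since `|x| ≤ 1`, `|τ| ≤ 1`.  So
`∑ μ μ f ≥ -2 |α| τ² + 4 γ τ LL - K |γ| τ² + ∑_{i≠j} μ μ ‖a_ij‖² κ(y i j)`.

PROOF of `alg_sq`.  `(p + q + r)² ≤ 3 (p² + q² + r²)`;
`|(ip w a_ij + τ η_ij)² - (ip w a_ij)²| = |τ| |η_ij| |2 ip w a_ij + τ η_ij| ≤ K' |τ|`, and
`|y i j|` is bounded.  `|f| ≤ K (|α| + |γ| + |κ(y)|)`: the same.
The constant `K` depends on `a`, `μ` only.
-/

set_option autoImplicit false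

namespace P23F

/-- the argument `y i j` -/
noncomputable def yy (a : Fin 4 → ℂ) (μ : Fin 4 → ℝ) (w : ℂ) (τ : ℝ) (i j : Fin 4) : ℝ :=
  ip w (dir a i j) + (eta μ i - eta μ j) / ‖a i - a j‖ * τ

/-- the perturbation `f i j` -/
noncomputable def ff (a : Fin 4 → ℂ) (μ : Fin 4 → ℝ) (α γ : ℝ) (κ : ℝ → ℝ) (w : ℂ) (τ : ℝ)
    (i j : Fin 4) : ℝ :=
  if i = j then 0 else
    α * ((ip w (a i - a j) + τ * (eta μ i - eta μ j)) ^ 2 - ip w (a i - a j) ^ 2) +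
      ‖a i - a j‖ ^ 2 * (γ * yy a μ w τ i j ^ 4 + κ (yy a μ w τ i j))

private lemma a6_ip_abs {w u : ℂ} (hw : ‖w‖ ≤ 1) (hu : ‖u‖ = 1) : |ip w u| ≤ 1 := by
  have h1 : ip w u ^ 2 ≤ ‖w‖ ^ 2 * ‖u‖ ^ 2 := by
    rw [Complex.sq_norm, Complex.sq_norm, Complex.normSq_apply, Complex.normSq_apply]
    unfold ip
    nlinarith [sq_nonneg (w.re * u.im - w.im * u.re)]
  rw [hu] at h1
  have h2 : ‖w‖ ^ 2 ≤ 1 := by nlinarith [norm_nonneg w]
  have h3 : ip w u ^ 2 ≤ 1 := by nlinarith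
  exact (sq_le_one_iff_abs_le_one _).1 h3

private lemma a6_ip_dir (a : Fin 4 → ℂ) (hg : Gen a) (w : ℂ) (i j : Fin 4) :
    ip w (a i - a j) = ‖a i - a j‖ * ip w (dir a i j) := by
  by_cases h : i = j
  · subst h
    simp [ip]
  · have hne : (‖a i - a j‖ : ℝ) ≠ 0 := by
      rw [norm_ne_zero_iff, sub_ne_zero]
      exact gen_ne a hg i j h
    unfold dir ip
    rw [if_neg h, Complex.div_ofReal_re, Complex.div_ofReal_im]
    field_simp

private lemma a6_sq (μ s : Fin 4 → ℝ) (h : ∑ i, μ i = 0) :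
    ∑ i, ∑ j, μ i * μ j * (s i - s j) ^ 2 = -2 * (∑ i, μ i * s i) ^ 2 := by
  simp only [Fin.sum_univ_four] at h ⊢
  have h3 : μ 3 = -(μ 0 + μ 1 + μ 2) := by linarith
  rw [h3]
  ring

private lemma a6_LL (a : Fin 4 → ℂ) (μ : Fin 4 → ℝ) (h0 : μ 0 ≠ 0) (w : ℂ) :
    ∑ i, ∑ j, μ i * μ j * (ip w (a i - a j) ^ 3 * (eta μ i - eta μ j) / ‖a i - a j‖ ^ 2) =
      LL a μ w := by
  have hs : ∀ i j, ip w (a i - a j) = - ip w (a j - a i) := by
    intro i j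
    simp only [ip, Complex.sub_re, Complex.sub_im]
    ring
  have hn : ∀ i j, ‖a i - a j‖ = ‖a j - a i‖ := fun i j => norm_sub_rev _ _
  have e0 : eta μ 0 = (μ 0)⁻¹ := by simp [eta]
  have e1 : eta μ 1 = 0 := by simp [eta]
  have e2 : eta μ 2 = 0 := by simp [eta]
  have e3 : eta μ 3 = 0 := by simp [eta]
  have i1 : ¬ ((1 : Fin 4) = 0) := by decide
  have i2 : ¬ ((2 : Fin 4) = 0) := by decide
  have i3 : ¬ ((3 : Fin 4) = 0) := by decide
  unfold LL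
  simp only [Fin.sum_univ_four, e0, e1, e2, e3, sub_self, mul_zero, zero_div, add_zero, zero_add,
    sub_zero, zero_sub, if_true, if_neg i1, if_neg i2, if_neg i3]
  rw [hs 1 0, hs 2 0, hs 3 0, hn 1 0, hn 2 0, hn 3 0]
  field_simp
  ring

private lemma a6_rest {x e τ B : ℝ} (hx : |x| ≤ 1) (hτ : |τ| ≤ 1) (he : |e| ≤ B) (hB : 1 ≤ B) :
    |6 * x ^ 2 * e ^ 2 + 4 * x * τ * e ^ 3 + τ ^ 2 * e ^ 4| ≤ 11 * B ^ 4 := by
  have hx0 := abs_nonneg x
  have hτ0 := abs_nonneg τ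
  have he0 := abs_nonneg e
  have hB0 : 0 ≤ B := by linarith
  have k2 : |e| ^ 2 ≤ B ^ 4 :=
    (pow_le_pow_left₀ he0 he 2).trans (pow_le_pow_right₀ hB (by norm_num))
  have k3 : |e| ^ 3 ≤ B ^ 4 :=
    (pow_le_pow_left₀ he0 he 3).trans (pow_le_pow_right₀ hB (by norm_num))
  have k4 : |e| ^ 4 ≤ B ^ 4 := pow_le_pow_left₀ he0 he 4
  have hx2 : |x| ^ 2 ≤ 1 := pow_le_one₀ hx0 hx
  have hτ2 : |τ| ^ 2 ≤ 1 := pow_le_one₀ hτ0 hτ
  have hxτ : |x| * |τ| ≤ 1 := mul_le_one₀ hx hτ0 hτ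
  have hb4 : 0 ≤ B ^ 4 := by positivity
  have t1 : |6 * x ^ 2 * e ^ 2| ≤ 6 * B ^ 4 := by
    have h1 : |6 * x ^ 2 * e ^ 2| = 6 * (|x| ^ 2 * |e| ^ 2) := by
      rw [abs_mul, abs_mul, abs_pow, abs_pow, abs_of_pos (by norm_num : (0 : ℝ) < 6)]
      ring
    rw [h1]
    have h2 : |x| ^ 2 * |e| ^ 2 ≤ 1 * B ^ 4 := mul_le_mul hx2 k2 (by positivity) (by norm_num)
    linarith
  have t2 : |4 * x * τ * e ^ 3| ≤ 4 * B ^ 4 := by
    have h1 : |4 * x * τ * e ^ 3| = 4 * ((|x| * |τ|) * |e| ^ 3) := by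
      rw [abs_mul, abs_mul, abs_mul, abs_pow, abs_of_pos (by norm_num : (0 : ℝ) < 4)]
      ring
    rw [h1]
    have h2 : (|x| * |τ|) * |e| ^ 3 ≤ 1 * B ^ 4 := mul_le_mul hxτ k3 (by positivity) (by norm_num)
    linarith
  have t3 : |τ ^ 2 * e ^ 4| ≤ B ^ 4 := by
    rw [abs_mul, abs_pow, abs_pow]
    have h2 : |τ| ^ 2 * |e| ^ 4 ≤ 1 * B ^ 4 := mul_le_mul hτ2 k4 (by positivity) (by norm_num)
    linarith
  have s1 := abs_add_le (6 * x ^ 2 * e ^ 2 + 4 * x * τ * e ^ 3) (τ ^ 2 * e ^ 4)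
  have s2 := abs_add_le (6 * x ^ 2 * e ^ 2) (4 * x * τ * e ^ 3)
  linarith

private lemma a6_y {x e τ B : ℝ} (hx : |x| ≤ 1) (hτ : |τ| ≤ 1) (he : |e| ≤ B) (hB : 1 ≤ B) :
    |x + e * τ| ≤ 2 * B := by
  have h1 := abs_add_le x (e * τ)
  have h2 : |e * τ| ≤ B * 1 := by
    rw [abs_mul]
    exact mul_le_mul he hτ (abs_nonneg _) (by linarith)
  linarith

private lemma a6_Q {P D τ B : ℝ} (hP : |P| ≤ B) (hD : |D| ≤ B) (hτ : |τ| ≤ 1) :
    |(P + τ * D) ^ 2 - P ^ 2| ≤ 3 * B ^ 2 * |τ| := by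
  have hB : 0 ≤ B := (abs_nonneg _).trans hP
  have h1 : (P + τ * D) ^ 2 - P ^ 2 = τ * (D * (2 * P + τ * D)) := by ring
  have h2 : |2 * P + τ * D| ≤ 3 * B := by
    have h3 := abs_add_le (2 * P) (τ * D)
    have h4 : |2 * P| = 2 * |P| := by rw [abs_mul, abs_of_pos (by norm_num : (0 : ℝ) < 2)]
    have h5 : |τ * D| ≤ 1 * B := by
      rw [abs_mul]
      exact mul_le_mul hτ hD (abs_nonneg _) (by norm_num)
    linarith
  rw [h1, abs_mul, abs_mul]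
  have h6 : |D| * |2 * P + τ * D| ≤ B * (3 * B) := mul_le_mul hD h2 (abs_nonneg _) hB
  have h7 : |τ| * (|D| * |2 * P + τ * D|) ≤ |τ| * (B * (3 * B)) :=
    mul_le_mul_of_nonneg_left h6 (abs_nonneg _)
  linarith

private lemma a6_f2 {α γ κ Q d y τ B : ℝ} (hB : 1 ≤ B) (hQ : |Q| ≤ 3 * B ^ 2 * |τ|)
    (hd0 : 0 ≤ d) (hd : d ≤ B) (hy : |y| ≤ 2 * B) :
    (α * Q + d ^ 2 * (γ * y ^ 4 + κ)) ^ 2 ≤ 768 * B ^ 12 * (α ^ 2 * τ ^ 2 + γ ^ 2 + κ ^ 2) := by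
  have h1 : (α * Q + d ^ 2 * (γ * y ^ 4 + κ)) ^ 2 ≤
      3 * ((α * Q) ^ 2 + (d ^ 2 * (γ * y ^ 4)) ^ 2 + (d ^ 2 * κ) ^ 2) := by
    nlinarith [sq_nonneg (α * Q - d ^ 2 * (γ * y ^ 4)), sq_nonneg (α * Q - d ^ 2 * κ),
      sq_nonneg (d ^ 2 * (γ * y ^ 4) - d ^ 2 * κ)]
  have hB0 : 0 ≤ B := by linarith
  have p4 : B ^ 4 ≤ B ^ 12 := pow_le_pow_right₀ hB (by norm_num)
  have hd4 : d ^ 4 ≤ B ^ 4 := pow_le_pow_left₀ hd0 hd 4
  have hQ2 : Q ^ 2 ≤ 9 * B ^ 4 * τ ^ 2 := by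
    have := pow_le_pow_left₀ (abs_nonneg _) hQ 2
    rw [sq_abs, mul_pow, sq_abs] at this
    nlinarith
  have hy8 : y ^ 8 ≤ 256 * B ^ 8 := by
    have := pow_le_pow_left₀ (abs_nonneg _) hy 8
    rw [mul_pow, ← abs_pow, abs_of_nonneg (by positivity)] at this
    linarith
  have e1 : (α * Q) ^ 2 ≤ 256 * B ^ 12 * (α ^ 2 * τ ^ 2) := by
    have h2 : (α * Q) ^ 2 = α ^ 2 * Q ^ 2 := by ring
    rw [h2]
    calc α ^ 2 * Q ^ 2 ≤ α ^ 2 * (9 * B ^ 4 * τ ^ 2) := mul_le_mul_of_nonneg_left hQ2 (sq_nonneg _)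
      _ = (9 * B ^ 4) * (α ^ 2 * τ ^ 2) := by ring
      _ ≤ (256 * B ^ 12) * (α ^ 2 * τ ^ 2) := by
          refine mul_le_mul_of_nonneg_right ?_ (by positivity)
          have : 0 ≤ B ^ 4 := by positivity
          linarith
  have e2 : (d ^ 2 * (γ * y ^ 4)) ^ 2 ≤ 256 * B ^ 12 * γ ^ 2 := by
    have h2 : (d ^ 2 * (γ * y ^ 4)) ^ 2 = (d ^ 4 * y ^ 8) * γ ^ 2 := by ring
    rw [h2]
    refine mul_le_mul_of_nonneg_right ?_ (sq_nonneg _)
    calc d ^ 4 * y ^ 8 ≤ B ^ 4 * (256 * B ^ 8) :=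
          mul_le_mul hd4 hy8 (by positivity) (by positivity)
      _ = 256 * B ^ 12 := by ring
  have e3 : (d ^ 2 * κ) ^ 2 ≤ 256 * B ^ 12 * κ ^ 2 := by
    have h2 : (d ^ 2 * κ) ^ 2 = d ^ 4 * κ ^ 2 := by ring
    rw [h2]
    refine mul_le_mul_of_nonneg_right ?_ (sq_nonneg _)
    have : 0 ≤ B ^ 12 := by positivity
    linarith
  linarith

private lemma a6_f1 {α γ κ Q d y τ B : ℝ} (hB : 1 ≤ B) (hQ : |Q| ≤ 3 * B ^ 2 * |τ|)
    (hτ : |τ| ≤ 1) (hd0 : 0 ≤ d) (hd : d ≤ B) (hy : |y| ≤ 2 * B) :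
    |α * Q + d ^ 2 * (γ * y ^ 4 + κ)| ≤ 12288 * B ^ 12 * (|α| + |γ| + |κ|) := by
  have hB0 : 0 ≤ B := by linarith
  have p2 : B ^ 2 ≤ B ^ 12 := pow_le_pow_right₀ hB (by norm_num)
  have p6 : B ^ 6 ≤ B ^ 12 := pow_le_pow_right₀ hB (by norm_num)
  have b2 : 0 ≤ B ^ 2 := by positivity
  have b6 : 0 ≤ B ^ 6 := by positivity
  have hd2 : d ^ 2 ≤ B ^ 2 := pow_le_pow_left₀ hd0 hd 2
  have hy4 : |y| ^ 4 ≤ 16 * B ^ 4 := by
    have := pow_le_pow_left₀ (abs_nonneg _) hy 4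
    rw [mul_pow] at this
    linarith
  have hQ1 : |Q| ≤ 12288 * B ^ 12 := by
    have : 3 * B ^ 2 * |τ| ≤ 3 * B ^ 2 * 1 := mul_le_mul_of_nonneg_left hτ (by positivity)
    linarith
  have e1 : |α * Q| ≤ 12288 * B ^ 12 * |α| := by
    rw [abs_mul, mul_comm]
    exact mul_le_mul_of_nonneg_right hQ1 (abs_nonneg _)
  have e2 : |d ^ 2 * (γ * y ^ 4)| ≤ 12288 * B ^ 12 * |γ| := by
    have h2 : |d ^ 2 * (γ * y ^ 4)| = (d ^ 2 * |y| ^ 4) * |γ| := by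
      rw [abs_mul, abs_mul, abs_pow, abs_pow, abs_of_nonneg hd0]
      ring
    rw [h2]
    refine mul_le_mul_of_nonneg_right ?_ (abs_nonneg _)
    calc d ^ 2 * |y| ^ 4 ≤ B ^ 2 * (16 * B ^ 4) :=
          mul_le_mul hd2 hy4 (by positivity) (by positivity)
      _ = 16 * B ^ 6 := by ring
      _ ≤ 12288 * B ^ 12 := by linarith
  have e3 : |d ^ 2 * κ| ≤ 12288 * B ^ 12 * |κ| := by
    rw [abs_mul, abs_pow, abs_of_nonneg hd0]
    refine mul_le_mul_of_nonneg_right ?_ (abs_nonneg _)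
    linarith
  have s1 := abs_add_le (α * Q) (d ^ 2 * (γ * y ^ 4) + d ^ 2 * κ)
  have s2 := abs_add_le (d ^ 2 * (γ * y ^ 4)) (d ^ 2 * κ)
  have s3 : α * Q + d ^ 2 * (γ * y ^ 4 + κ) =
      α * Q + (d ^ 2 * (γ * y ^ 4) + d ^ 2 * κ) := by ring
  rw [s3]
  linarith

private lemma a6_B (a : Fin 4 → ℂ) (μ : Fin 4 → ℝ) : ∃ B : ℝ, 1 ≤ B ∧ (∀ i, |μ i| ≤ B) ∧
    (∀ i j, ‖a i - a j‖ ≤ B) ∧ (∀ i j, |eta μ i - eta μ j| ≤ B) ∧
    (∀ i j, |(eta μ i - eta μ j) / ‖a i - a j‖| ≤ B) := by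
  have n1 : 0 ≤ ∑ i, |μ i| := Finset.sum_nonneg fun i _ => abs_nonneg _
  have n2 : 0 ≤ ∑ p : Fin 4 × Fin 4, ‖a p.1 - a p.2‖ := Finset.sum_nonneg fun i _ => norm_nonneg _
  have n3 : 0 ≤ ∑ p : Fin 4 × Fin 4, |eta μ p.1 - eta μ p.2| :=
    Finset.sum_nonneg fun i _ => abs_nonneg _
  have n4 : 0 ≤ ∑ p : Fin 4 × Fin 4, |(eta μ p.1 - eta μ p.2) / ‖a p.1 - a p.2‖| :=
    Finset.sum_nonneg fun i _ => abs_nonneg _
  refine ⟨1 + ∑ i, |μ i| + ∑ p : Fin 4 × Fin 4, ‖a p.1 - a p.2‖ +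
    ∑ p : Fin 4 × Fin 4, |eta μ p.1 - eta μ p.2| +
    ∑ p : Fin 4 × Fin 4, |(eta μ p.1 - eta μ p.2) / ‖a p.1 - a p.2‖|, by linarith, ?_, ?_, ?_, ?_⟩
  · intro i
    have := Finset.single_le_sum (f := fun i => |μ i|) (fun i _ => abs_nonneg _)
      (Finset.mem_univ i)
    linarith
  · intro i j
    have := Finset.single_le_sum (f := fun p : Fin 4 × Fin 4 => ‖a p.1 - a p.2‖)
      (fun i _ => norm_nonneg _) (Finset.mem_univ (i, j))
    simp only at this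
    linarith
  · intro i j
    have := Finset.single_le_sum (f := fun p : Fin 4 × Fin 4 => |eta μ p.1 - eta μ p.2|)
      (fun i _ => abs_nonneg _) (Finset.mem_univ (i, j))
    simp only at this
    linarith
  · intro i j
    have := Finset.single_le_sum
      (f := fun p : Fin 4 × Fin 4 => |(eta μ p.1 - eta μ p.2) / ‖a p.1 - a p.2‖|)
      (fun i _ => abs_nonneg _) (Finset.mem_univ (i, j))
    simp only at this
    linarith

private lemma a6_ff (a : Fin 4 → ℂ) (μ : Fin 4 → ℝ) (α γ : ℝ) (κ : ℝ → ℝ) (w : ℂ) (τ : ℝ)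
    (i j : Fin 4) : ff a μ α γ κ w τ i j =
      α * ((ip w (a i - a j) + τ * (eta μ i - eta μ j)) ^ 2 - ip w (a i - a j) ^ 2) +
      ‖a i - a j‖ ^ 2 * (γ * yy a μ w τ i j ^ 4 + κ (yy a μ w τ i j)) := by
  unfold ff
  by_cases h : i = j
  · subst h
    rw [if_pos rfl]
    simp
  · rw [if_neg h]

theorem alg6 (a : Fin 4 → ℂ) (μ : Fin 4 → ℝ) (hg : Gen a) (hd : Dep a μ)
    (h4 : ∑ p, (wt a μ p : ℂ) * dir a p.1 p.2 ^ 4 = 0) :
    ∃ K > 0, ∀ (α γ : ℝ) (κ : ℝ → ℝ) (w : ℂ) (τ : ℝ), w ∈ Disc → |τ| ≤ 1 →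
      (4 * γ * τ * LL a μ w - K * (|α| + |γ|) * τ ^ 2 +
          ∑ i, ∑ j, (if i = j then 0 else μ i * μ j * ‖a i - a j‖ ^ 2 * κ (yy a μ w τ i j)) ≤
        ∑ i, ∑ j, μ i * μ j * ff a μ α γ κ w τ i j) ∧
      (∑ i, ∑ j, ff a μ α γ κ w τ i j ^ 2 ≤
        K * (α ^ 2 * τ ^ 2 + γ ^ 2 +
          ∑ i, ∑ j, (if i = j then 0 else κ (yy a μ w τ i j) ^ 2))) ∧
      (∀ i j, |ff a μ α γ κ w τ i j| ≤
        K * (|α| + |γ| + (if i = j then 0 else |κ (yy a μ w τ i j)|))) := by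
  obtain ⟨B, hB, hBμ, hBd, hBD, hBe⟩ := a6_B a μ
  have hB0 : 0 ≤ B := by linarith
  have hB12 : 1 ≤ B ^ 12 := one_le_pow₀ hB
  refine ⟨12288 * B ^ 12, by positivity, ?_⟩
  intro α γ κ w τ hw hτ
  have hw1 : ‖w‖ ≤ 1 := by simpa using hw
  have hx : ∀ i j, |ip w (dir a i j)| ≤ 1 := fun i j => a6_ip_abs hw1 (dir_norm hg (i, j))
  have hP : ∀ i j, |ip w (a i - a j)| ≤ B := by
    intro i j
    rw [a6_ip_dir a hg w i j, abs_mul, abs_of_nonneg (norm_nonneg _)]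
    calc ‖a i - a j‖ * |ip w (dir a i j)| ≤ B * 1 :=
          mul_le_mul (hBd i j) (hx i j) (abs_nonneg _) hB0
      _ = B := mul_one B
  have hy : ∀ i j, |yy a μ w τ i j| ≤ 2 * B := fun i j => a6_y (hx i j) hτ (hBe i j) hB
  have hQ := fun i j => a6_Q (hP i j) (hBD i j) hτ
  refine ⟨?_, ?_, ?_⟩
  · have hμ0 : μ 0 ≠ 0 := hd.ne 0
    have hS1 : ∑ i, ∑ j, μ i * μ j *
        ((ip w (a i - a j) + τ * (eta μ i - eta μ j)) ^ 2 - ip w (a i - a j) ^ 2) =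
        -2 * τ ^ 2 := by
      have hip : ∀ i j, ip w (a i - a j) = ip w (a i) - ip w (a j) := by
        intro i j
        simp only [ip, Complex.sub_re, Complex.sub_im]
        ring
      have hz : ∑ i, μ i * ip w (a i) = 0 := by
        have h1 := congrArg Complex.re hd.suma
        have h2 := congrArg Complex.im hd.suma
        simp only [Fin.sum_univ_four, Complex.add_re, Complex.re_ofReal_mul, Complex.zero_re,
          Complex.add_im, Complex.im_ofReal_mul, Complex.zero_im] at h1 h2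
        simp only [Fin.sum_univ_four, ip]
        linear_combination w.re * h1 + w.im * h2
      have he : ∑ i, μ i * eta μ i = 1 := by
        simp [eta, hμ0]
      have h1 := a6_sq μ (fun i => ip w (a i) + τ * eta μ i) hd.sum
      have h2 := a6_sq μ (fun i => ip w (a i)) hd.sum
      have h3 : ∑ i, μ i * (ip w (a i) + τ * eta μ i) = τ := by
        have : ∀ i, μ i * (ip w (a i) + τ * eta μ i) = μ i * ip w (a i) + τ * (μ i * eta μ i) :=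
          fun i => by ring
        simp only [this, Finset.sum_add_distrib, ← Finset.mul_sum, hz, he]
        ring
      rw [h3] at h1
      rw [hz] at h2
      have h4 : ∀ i j, μ i * μ j *
          ((ip w (a i - a j) + τ * (eta μ i - eta μ j)) ^ 2 - ip w (a i - a j) ^ 2) =
          μ i * μ j * ((ip w (a i) + τ * eta μ i) - (ip w (a j) + τ * eta μ j)) ^ 2 -
          μ i * μ j * (ip w (a i) - ip w (a j)) ^ 2 := by
        intro i j
        rw [hip]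
        ring
      simp only [h4, Finset.sum_sub_distrib]
      rw [h1, h2]
      ring
    have hS2 : ∑ i, ∑ j, μ i * μ j * (‖a i - a j‖ ^ 2 * ip w (dir a i j) ^ 4) = 0 := by
      have h1 := wt_ip4 hg hd h4 w
      rw [Fintype.sum_prod_type] at h1
      rw [← h1]
      refine Finset.sum_congr rfl fun i _ => Finset.sum_congr rfl fun j _ => ?_
      unfold wt
      ring
    have hS3 : ∑ i, ∑ j, μ i * μ j * (‖a i - a j‖ ^ 2 * (ip w (dir a i j) ^ 3 *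
        ((eta μ i - eta μ j) / ‖a i - a j‖))) = LL a μ w := by
      rw [← a6_LL a μ hμ0 w]
      refine Finset.sum_congr rfl fun i _ => Finset.sum_congr rfl fun j _ => ?_
      by_cases h : i = j
      · subst h
        simp
      · have hne : (‖a i - a j‖ : ℝ) ≠ 0 := by
          rw [norm_ne_zero_iff, sub_ne_zero]
          exact gen_ne a hg i j h
        rw [a6_ip_dir a hg w i j]
        field_simp
    set R : Fin 4 → Fin 4 → ℝ := fun i j => μ i * μ j * (‖a i - a j‖ ^ 2 *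
      (6 * ip w (dir a i j) ^ 2 * ((eta μ i - eta μ j) / ‖a i - a j‖) ^ 2 +
        4 * ip w (dir a i j) * τ * ((eta μ i - eta μ j) / ‖a i - a j‖) ^ 3 +
        τ ^ 2 * ((eta μ i - eta μ j) / ‖a i - a j‖) ^ 4)) with hR
    have hRb : ∀ i j, |R i j| ≤ 11 * B ^ 8 := by
      intro i j
      simp only [hR]
      rw [abs_mul, abs_mul, abs_mul, abs_pow, abs_of_nonneg (norm_nonneg (a i - a j))]
      have h1 := a6_rest (hx i j) hτ (hBe i j) hB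
      have h2 : |μ i| * |μ j| ≤ B * B := mul_le_mul (hBμ i) (hBμ j) (abs_nonneg _) hB0
      have h3 : ‖a i - a j‖ ^ 2 ≤ B ^ 2 := pow_le_pow_left₀ (norm_nonneg _) (hBd i j) 2
      calc _ ≤ (B * B) * (B ^ 2 * (11 * B ^ 4)) :=
            mul_le_mul h2 (mul_le_mul h3 h1 (abs_nonneg _) (by positivity)) (by positivity)
              (by positivity)
        _ = 11 * B ^ 8 := by ring
    have hRsum : |∑ i, ∑ j, R i j| ≤ 176 * B ^ 8 := by
      calc |∑ i, ∑ j, R i j| ≤ ∑ i, |∑ j, R i j| := Finset.abs_sum_le_sum_abs _ _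
        _ ≤ ∑ i : Fin 4, ∑ j : Fin 4, |R i j| :=
            Finset.sum_le_sum fun i _ => Finset.abs_sum_le_sum_abs _ _
        _ ≤ ∑ _i : Fin 4, ∑ _j : Fin 4, 11 * B ^ 8 :=
            Finset.sum_le_sum fun i _ => Finset.sum_le_sum fun j _ => hRb i j
        _ = 176 * B ^ 8 := by
            simp only [Finset.sum_const, Finset.card_univ, Fintype.card_fin, nsmul_eq_mul]
            push_cast
            ring
    have hkap : ∑ i, ∑ j, (if i = j then 0 else μ i * μ j * ‖a i - a j‖ ^ 2 *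
        κ (yy a μ w τ i j)) = ∑ i, ∑ j, μ i * μ j * (‖a i - a j‖ ^ 2 * κ (yy a μ w τ i j)) := by
      refine Finset.sum_congr rfl fun i _ => Finset.sum_congr rfl fun j _ => ?_
      by_cases h : i = j
      · subst h
        simp
      · rw [if_neg h]
        ring
    have hdec : ∑ i, ∑ j, μ i * μ j * ff a μ α γ κ w τ i j =
        α * (-2 * τ ^ 2) + γ * (0 + 4 * τ * LL a μ w + τ ^ 2 * ∑ i, ∑ j, R i j) +
          ∑ i, ∑ j, μ i * μ j * (‖a i - a j‖ ^ 2 * κ (yy a μ w τ i j)) := by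
      rw [← hS1, ← hS2, ← hS3]
      simp only [Finset.mul_sum, ← Finset.sum_add_distrib]
      refine Finset.sum_congr rfl fun i _ => Finset.sum_congr rfl fun j _ => ?_
      rw [a6_ff]
      simp only [hR, yy]
      ring
    rw [hkap, hdec]
    have h8 : B ^ 8 ≤ B ^ 12 := pow_le_pow_right₀ hB (by norm_num)
    have hτ2 : 0 ≤ τ ^ 2 := sq_nonneg _
    have i1 : -(2 * |α| * τ ^ 2) ≤ α * (-2 * τ ^ 2) := by
      nlinarith [le_abs_self α]
    have i2 : -(|γ| * (τ ^ 2 * (176 * B ^ 8))) ≤ γ * (τ ^ 2 * ∑ i, ∑ j, R i j) := by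
      have h1 : |γ * (τ ^ 2 * ∑ i, ∑ j, R i j)| ≤ |γ| * (τ ^ 2 * (176 * B ^ 8)) := by
        rw [abs_mul, abs_mul, abs_of_nonneg hτ2]
        exact mul_le_mul_of_nonneg_left (mul_le_mul_of_nonneg_left hRsum hτ2) (abs_nonneg _)
      linarith [neg_abs_le (γ * (τ ^ 2 * ∑ i, ∑ j, R i j))]
    have i3 : 2 * |α| * τ ^ 2 ≤ 12288 * B ^ 12 * |α| * τ ^ 2 := by
      refine mul_le_mul_of_nonneg_right ?_ hτ2
      refine mul_le_mul_of_nonneg_right ?_ (abs_nonneg _)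
      linarith
    have i4 : |γ| * (τ ^ 2 * (176 * B ^ 8)) ≤ 12288 * B ^ 12 * |γ| * τ ^ 2 := by
      have h1 : |γ| * (τ ^ 2 * (176 * B ^ 8)) = 176 * B ^ 8 * |γ| * τ ^ 2 := by ring
      rw [h1]
      refine mul_le_mul_of_nonneg_right ?_ hτ2
      refine mul_le_mul_of_nonneg_right ?_ (abs_nonneg _)
      have : 0 ≤ B ^ 8 := by positivity
      linarith
    linarith
  · have hpt : ∀ i j, ff a μ α γ κ w τ i j ^ 2 ≤ 768 * B ^ 12 * (α ^ 2 * τ ^ 2 + γ ^ 2 +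
        (if i = j then 0 else κ (yy a μ w τ i j) ^ 2)) := by
      intro i j
      by_cases h : i = j
      · unfold ff
        rw [if_pos h, if_pos h]
        have : 0 ≤ 768 * B ^ 12 * (α ^ 2 * τ ^ 2 + γ ^ 2 + 0) := by positivity
        simpa using this
      · rw [if_neg h, a6_ff]
        exact a6_f2 hB (hQ i j) (norm_nonneg _) (hBd i j) (hy i j)
    calc ∑ i, ∑ j, ff a μ α γ κ w τ i j ^ 2 ≤ ∑ i : Fin 4, ∑ j : Fin 4, 768 * B ^ 12 *
          (α ^ 2 * τ ^ 2 + γ ^ 2 + (if i = j then 0 else κ (yy a μ w τ i j) ^ 2)) :=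
          Finset.sum_le_sum fun i _ => Finset.sum_le_sum fun j _ => hpt i j
      _ = 768 * B ^ 12 * (16 * (α ^ 2 * τ ^ 2 + γ ^ 2) +
          ∑ i, ∑ j, (if i = j then 0 else κ (yy a μ w τ i j) ^ 2)) := by
          simp only [← Finset.mul_sum, Finset.sum_add_distrib, Finset.sum_const, Finset.card_univ,
            Fintype.card_fin, nsmul_eq_mul]
          push_cast
          ring
      _ ≤ 12288 * B ^ 12 * (α ^ 2 * τ ^ 2 + γ ^ 2 +
          ∑ i, ∑ j, (if i = j then 0 else κ (yy a μ w τ i j) ^ 2)) := by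
          have hk : 0 ≤ ∑ i, ∑ j, (if i = j then 0 else κ (yy a μ w τ i j) ^ 2) := by
            refine Finset.sum_nonneg fun i _ => Finset.sum_nonneg fun j _ => ?_
            split_ifs
            · exact le_rfl
            · exact sq_nonneg _
          have h1 : 0 ≤ B ^ 12 *
            ∑ i, ∑ j, (if i = j then 0 else κ (yy a μ w τ i j) ^ 2) := by positivity
          linarith
  · intro i j
    by_cases h : i = j
    · unfold ff
      rw [if_pos h, if_pos h, abs_zero]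
      positivity
    · rw [if_neg h, a6_ff]
      exact a6_f1 hB (hQ i j) hτ (norm_nonneg _) (hBd i j) (hy i j)

end P23F
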