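import Mathlib
import Pool.Agent.Lib.P23F.Defs

/-!
# Module P23F.PDlem : positive definite perturbations of a planar quadruple

PROOF.  For `c` with `∑ c i = 0` let `z(c) = ∑ (c i : ℂ) * a i`.  Then
`∑ i, ∑ j, c i c j ‖a i - a j‖² = -2 ‖z(c)‖²` and
`∑ i, ∑ j, c i c j (ip w (a i - a j))² = -2 (ip w (z c))²` (expand; `∑ c i = 0`).  With
`B(c, c') = ∑ i, ∑ j, c i c' j f i j` (symmetric) the claim is
`2 ((1 - c0) ‖z‖² - α (ip w z)²) + B(c, c) > 0`, and by hypothesis the first term is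
`≥ 2 m ‖z(c)‖² ≥ m ‖z(c)‖²`.
By compactness (unit sphere of `V' = {c | ∑ c i = 0, ∑ c i μ i = 0}`) and `Dep.ker` (if `z(c) = 0`
then `c = t μ`, so `c ∈ V'` forces `t ∑ μ i² = 0`, `c = 0`) there is `κ > 0` with
`κ |c|² ≤ m ‖z(c)‖²` on `V'` (`|c|² = ∑ c i²`).
For general `c ≠ 0` with `∑ c i = 0` write `c = c' + t μ`, `t = (c·μ)/|μ|²`, `c' ∈ V'`
(`∑ μ i = 0`), `z(c) = z(c')` (`Dep.suma`).  With `φ² = ∑ f i j²` Cauchy-Schwarz gives
`|B(c', c')| ≤ φ |c'|²`, `|B(c', μ)| ≤ φ |c'| |μ|`, so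
`form ≥ (κ - φ) |c'|² - 2 |t| φ |c'| |μ| + t² B(μ, μ)`.
Take `η = κ / 8` (then `φ ≤ 4 η = κ/2`) and `C = 2 |μ|² / κ + 1`: if `C φ² < B(μ, μ)` then
`(φ |μ|)² < (κ/2) B(μ, μ)` unless `φ = 0`; in all cases the quadratic form
`(κ/2) u² - 2 φ |μ| u v + B(μ, μ) v²` in `(u, v) = (|c'|, |t|)` is positive definite
(`κ/2 > 0`, `B(μ,μ) > C φ² ≥ 0` and discriminant `φ² |μ|² < (κ/2) B(μ, μ)`: indeed
`(κ/2) B > (κ/2) C φ² ≥ |μ|² φ²`).  Since `(c', t) ≠ 0` it is positive.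
-/

set_option autoImplicit false

namespace P23F

private theorem pd_norm (a : Fin 4 → ℂ) (c : Fin 4 → ℝ) (hc : ∑ i, c i = 0) :
    ∑ i, ∑ j, c i * c j * ‖a i - a j‖ ^ 2 = -2 * ‖∑ i, (c i : ℂ) * a i‖ ^ 2 := by
  simp only [Complex.sq_norm, Complex.normSq_apply, Complex.sub_re, Complex.sub_im,
    Complex.re_sum, Complex.im_sum, Complex.re_ofReal_mul, Complex.im_ofReal_mul]
  simp only [Fin.sum_univ_four] at hc ⊢
  linear_combination (2 * (c 0 * ((a 0).re ^ 2 + (a 0).im ^ 2) +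
    c 1 * ((a 1).re ^ 2 + (a 1).im ^ 2) + c 2 * ((a 2).re ^ 2 + (a 2).im ^ 2) +
    c 3 * ((a 3).re ^ 2 + (a 3).im ^ 2))) * hc

private theorem pd_ip (a : Fin 4 → ℂ) (w : ℂ) (c : Fin 4 → ℝ) (hc : ∑ i, c i = 0) :
    ∑ i, ∑ j, c i * c j * ip w (a i - a j) ^ 2 = -2 * ip w (∑ i, (c i : ℂ) * a i) ^ 2 := by
  simp only [ip, Complex.sub_re, Complex.sub_im,
    Complex.re_sum, Complex.im_sum, Complex.re_ofReal_mul, Complex.im_ofReal_mul]
  simp only [Fin.sum_univ_four] at hc ⊢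
  linear_combination (2 * (c 0 * (w.re * (a 0).re + w.im * (a 0).im) ^ 2 +
    c 1 * (w.re * (a 1).re + w.im * (a 1).im) ^ 2 + c 2 * (w.re * (a 2).re + w.im * (a 2).im) ^ 2 +
    c 3 * (w.re * (a 3).re + w.im * (a 3).im) ^ 2)) * hc

private theorem pd_lower (a : Fin 4 → ℂ) (μ : Fin 4 → ℝ) (h : Dep a μ) :
    ∃ K : ℝ, 0 < K ∧ ∀ c : Fin 4 → ℝ, ∑ i, c i = 0 → ∑ i, c i * μ i = 0 →
      ∑ i, c i ^ 2 ≤ K * ‖∑ i, (c i : ℂ) * a i‖ ^ 2 := by
  let f : (Fin 4 → ℝ) →ₗ[ℝ] (ℂ × ℝ × ℝ) :=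
    { toFun := fun c => (∑ i, (c i : ℂ) * a i, ∑ i, c i, ∑ i, c i * μ i)
      map_add' := by
        intro c d
        simp only [Pi.add_apply, Complex.ofReal_add, add_mul, Finset.sum_add_distrib,
          Prod.mk_add_mk]
      map_smul' := by
        intro r c
        simp only [Pi.smul_apply, smul_eq_mul, Complex.ofReal_mul, RingHom.id_apply,
          Prod.smul_mk, Finset.mul_sum, Complex.real_smul, mul_assoc] }
  have hker : LinearMap.ker f = ⊥ := by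
    rw [LinearMap.ker_eq_bot']
    intro c hc
    have h1 : (∑ i, (c i : ℂ) * a i, ∑ i, c i, ∑ i, c i * μ i) = ((0, 0, 0) : ℂ × ℝ × ℝ) := hc
    rw [Prod.mk.injEq, Prod.mk.injEq] at h1
    obtain ⟨t, ht⟩ := h.ker c h1.2.1 h1.1
    have h2 : t * ∑ i, μ i ^ 2 = 0 := by
      rw [Finset.mul_sum, ← h1.2.2]
      apply Finset.sum_congr rfl
      intro i _
      rw [ht i]
      ring
    have h3 : 0 < ∑ i, μ i ^ 2 :=
      Finset.sum_pos (fun i _ => by have := h.ne i; positivity) ⟨0, Finset.mem_univ _⟩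
    have h4 : t = 0 := by
      rcases mul_eq_zero.1 h2 with h5 | h5
      · exact h5
      · exact absurd h5 h3.ne'
    funext i
    rw [ht i, h4, zero_mul]
    rfl
  obtain ⟨K, hK, hf⟩ := LinearMap.exists_antilipschitzWith f hker
  have hK' : (0 : ℝ) < K := hK
  refine ⟨4 * (K : ℝ) ^ 2, by positivity, ?_⟩
  intro c hc0 hc1
  have h1 : ‖c‖ ≤ K * ‖f c‖ := by
    have := hf.le_mul_dist c 0
    rwa [map_zero, dist_zero_right, dist_zero_right] at this
  have h2 : ‖f c‖ = ‖∑ i, (c i : ℂ) * a i‖ := by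
    show ‖((∑ i, (c i : ℂ) * a i, ∑ i, c i, ∑ i, c i * μ i) : ℂ × ℝ × ℝ)‖ = _
    rw [hc0, hc1, Prod.norm_def, Prod.norm_def]
    simp
  rw [h2] at h1
  have h3 : ∀ i, c i ^ 2 ≤ (K * ‖∑ i, (c i : ℂ) * a i‖) ^ 2 := by
    intro i
    rw [← sq_abs]
    apply pow_le_pow_left₀ (abs_nonneg _)
    exact (norm_le_pi_norm c i).trans h1
  calc ∑ i, c i ^ 2 ≤ ∑ _i : Fin 4, (K * ‖∑ i, (c i : ℂ) * a i‖) ^ 2 :=
        Finset.sum_le_sum fun i _ => h3 i
    _ = 4 * (K : ℝ) ^ 2 * ‖∑ i, (c i : ℂ) * a i‖ ^ 2 := by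
        rw [Finset.sum_const, Finset.card_univ, Fintype.card_fin]
        ring

theorem pd_lemma (a : Fin 4 → ℂ) (μ : Fin 4 → ℝ) (h : Dep a μ) (m : ℝ) (hm : 0 < m) :
    ∃ η > 0, ∃ C > 0, ∀ (c0 α : ℝ) (w : ℂ),
      (∀ z : ℂ, m * ‖z‖ ^ 2 ≤ (1 - c0) * ‖z‖ ^ 2 - α * ip w z ^ 2) →
      ∀ f : Fin 4 → Fin 4 → ℝ, (∀ i j, f i j = f j i) → (∀ i j, |f i j| ≤ η) →
        C * ∑ i, ∑ j, f i j ^ 2 < ∑ i, ∑ j, μ i * μ j * f i j →
        Pos4 fun i j => (1 - c0) * ‖a i - a j‖ ^ 2 - α * ip w (a i - a j) ^ 2 - f i j := by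
  obtain ⟨K, hK, hlow⟩ := pd_lower a μ h
  set κ : ℝ := m / K with hκ
  have hκ0 : 0 < κ := div_pos hm hK
  set M : ℝ := ∑ i, μ i ^ 2 with hM
  have hM0 : 0 < M :=
    Finset.sum_pos (fun i _ => by have := h.ne i; positivity) ⟨0, Finset.mem_univ _⟩
  refine ⟨κ / 8, by positivity, M / κ + 1, by positivity, ?_⟩
  intro c0 α w hq f hsym hfη hB c hc hc0
  set z : ℂ := ∑ i, (c i : ℂ) * a i with hz
  set t : ℝ := (∑ i, c i * μ i) / M with ht
  set c' : Fin 4 → ℝ := fun i => c i - t * μ i with hc'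
  have hcc : ∀ i, c i = c' i + t * μ i := fun i => by simp only [hc']; ring
  have hc'0 : ∑ i, c' i = 0 := by
    simp only [hc']
    rw [Finset.sum_sub_distrib, ← Finset.mul_sum, hc, h.sum]
    ring
  have hc'1 : ∑ i, c' i * μ i = 0 := by
    have e1 : ∀ i, c' i * μ i = c i * μ i - t * μ i ^ 2 := fun i => by simp only [hc']; ring
    rw [Finset.sum_congr rfl (fun i _ => e1 i), Finset.sum_sub_distrib, ← Finset.mul_sum, ← hM,
      ht, div_mul_cancel₀ _ hM0.ne', sub_self]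
  have hz' : ∑ i, (c' i : ℂ) * a i = z := by
    have e1 : ∀ i, (c' i : ℂ) * a i = (c i : ℂ) * a i - (t : ℂ) * ((μ i : ℂ) * a i) := fun i => by
      simp only [hc']
      push_cast
      ring
    rw [Finset.sum_congr rfl (fun i _ => e1 i), Finset.sum_sub_distrib, ← Finset.mul_sum, h.suma,
      mul_zero, sub_zero]
  set N : ℝ := ∑ i, c' i ^ 2 with hN
  have hN0 : 0 ≤ N := Finset.sum_nonneg fun i _ => sq_nonneg _
  have hlow' : κ * N ≤ m * ‖z‖ ^ 2 := by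
    have h1 := hlow c' hc'0 hc'1
    rw [hz', ← hN] at h1
    have h2 : κ * K = m := by rw [hκ]; field_simp
    calc κ * N ≤ κ * (K * ‖z‖ ^ 2) := mul_le_mul_of_nonneg_left h1 hκ0.le
      _ = m * ‖z‖ ^ 2 := by rw [← mul_assoc, h2]
  set S : ℝ := ∑ i, ∑ j, f i j ^ 2 with hS
  have hS0 : 0 ≤ S := Finset.sum_nonneg fun i _ => Finset.sum_nonneg fun j _ => sq_nonneg _
  set Bm : ℝ := ∑ i, ∑ j, μ i * μ j * f i j with hBm
  set b : ℝ := ∑ i, ∑ j, c' i * μ j * f i j with hb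
  set Bc : ℝ := ∑ i, ∑ j, c' i * c' j * f i j with hBc
  have hbb : b ^ 2 ≤ S * (N * M) := by
    have e1 : b = ∑ p : Fin 4 × Fin 4, f p.1 p.2 * (c' p.1 * μ p.2) := by
      rw [hb, Fintype.sum_prod_type]
      exact Finset.sum_congr rfl fun i _ => Finset.sum_congr rfl fun j _ => by ring
    have e2 : S = ∑ p : Fin 4 × Fin 4, f p.1 p.2 ^ 2 := by
      rw [hS, Fintype.sum_prod_type]
    have e3 : N * M = ∑ p : Fin 4 × Fin 4, (c' p.1 * μ p.2) ^ 2 := by
      rw [hN, hM, Finset.sum_mul_sum, Fintype.sum_prod_type]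
      exact Finset.sum_congr rfl fun i _ => Finset.sum_congr rfl fun j _ => by ring
    rw [e1, e2, e3]
    exact Finset.sum_mul_sq_le_sq_mul_sq _ _ _
  have hBc1 : -(κ / 2) * N ≤ Bc := by
    have e1 : ∀ i j, -(κ / 16) * (c' i ^ 2 + c' j ^ 2) ≤ c' i * c' j * f i j := by
      intro i j
      have h1 := abs_le.1 (hfη i j)
      have h2 : |c' i * c' j| ≤ (c' i ^ 2 + c' j ^ 2) / 2 := by
        rw [abs_le]
        constructor <;> nlinarith [sq_nonneg (c' i + c' j), sq_nonneg (c' i - c' j)]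
      have h3 : |c' i * c' j * f i j| ≤ (c' i ^ 2 + c' j ^ 2) / 2 * (κ / 8) := by
        rw [abs_mul]
        exact mul_le_mul h2 (hfη i j) (abs_nonneg _) (by positivity)
      have h4 := (abs_le.1 h3).1
      linarith
    have e2 : ∑ i, ∑ j, (-(κ / 16) * (c' i ^ 2 + c' j ^ 2)) ≤ Bc :=
      Finset.sum_le_sum fun i _ => Finset.sum_le_sum fun j _ => e1 i j
    have e3 : ∑ i, ∑ j, (-(κ / 16) * (c' i ^ 2 + c' j ^ 2)) = -(κ / 2) * N := by
      rw [hN]
      simp only [Fin.sum_univ_four]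
      ring
    linarith
  have hexp : ∑ i, ∑ j, c i * c j * f i j = Bc + 2 * t * b + t ^ 2 * Bm := by
    have e1 : ∑ i, ∑ j, μ i * c' j * f i j = b := by
      rw [hb, Finset.sum_comm]
      exact Finset.sum_congr rfl fun i _ => Finset.sum_congr rfl fun j _ => by
        rw [hsym j i]; ring
    have e2 : ∑ i, ∑ j, c i * c j * f i j =
        Bc + t * b + t * ∑ i, ∑ j, μ i * c' j * f i j + t ^ 2 * Bm := by
      rw [hBc, hb, hBm, Finset.mul_sum, Finset.mul_sum, Finset.mul_sum, ← Finset.sum_add_distrib,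
        ← Finset.sum_add_distrib, ← Finset.sum_add_distrib]
      apply Finset.sum_congr rfl
      intro i _
      rw [Finset.mul_sum, Finset.mul_sum, Finset.mul_sum, ← Finset.sum_add_distrib,
        ← Finset.sum_add_distrib, ← Finset.sum_add_distrib]
      apply Finset.sum_congr rfl
      intro j _
      rw [hcc i, hcc j]
      ring
    rw [e2, e1]
    ring
  have htot : ∑ i, ∑ j, c i * c j *
      ((1 - c0) * ‖a i - a j‖ ^ 2 - α * ip w (a i - a j) ^ 2 - f i j) =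
      -(2 * ((1 - c0) * ‖z‖ ^ 2 - α * ip w z ^ 2) + (Bc + 2 * t * b + t ^ 2 * Bm)) := by
    have e1 := pd_norm a c hc
    have e2 := pd_ip a w c hc
    have e3 : ∑ i, ∑ j, c i * c j *
        ((1 - c0) * ‖a i - a j‖ ^ 2 - α * ip w (a i - a j) ^ 2 - f i j) =
        (1 - c0) * ∑ i, ∑ j, c i * c j * ‖a i - a j‖ ^ 2 -
          α * ∑ i, ∑ j, c i * c j * ip w (a i - a j) ^ 2 - ∑ i, ∑ j, c i * c j * f i j := by
      rw [Finset.mul_sum, Finset.mul_sum, ← Finset.sum_sub_distrib, ← Finset.sum_sub_distrib]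
      apply Finset.sum_congr rfl
      intro i _
      rw [Finset.mul_sum, Finset.mul_sum, ← Finset.sum_sub_distrib, ← Finset.sum_sub_distrib]
      apply Finset.sum_congr rfl
      intro j _
      ring
    rw [e3, e1, e2, hexp, ← hz]
    ring
  show ∑ i, ∑ j, c i * c j *
      ((1 - c0) * ‖a i - a j‖ ^ 2 - α * ip w (a i - a j) ^ 2 - f i j) < 0
  rw [htot]
  have hqz := hq z
  have hBm0 : 0 < Bm := lt_of_le_of_lt (by positivity) hB
  have hSM : S * M < 3 / 2 * κ * Bm := by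
    have h1 : κ * ((M / κ + 1) * S) < κ * Bm := mul_lt_mul_of_pos_left hB hκ0
    have h2 : κ * ((M / κ + 1) * S) = M * S + κ * S := by field_simp
    have h3 : 0 ≤ κ * S := by positivity
    have h4 : 0 < κ * Bm := by positivity
    nlinarith
  have hE : 0 < 3 / 2 * κ * N + 2 * t * b + t ^ 2 * Bm := by
    rcases hN0.eq_or_lt with h0 | h0
    · have hc'z : ∀ i, c' i = 0 := by
        intro i
        have h1 : c' i ^ 2 ≤ N :=
          Finset.single_le_sum (f := fun i => c' i ^ 2) (fun i _ => sq_nonneg _)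
            (Finset.mem_univ i)
        rw [← h0] at h1
        exact pow_eq_zero_iff two_ne_zero |>.1 (le_antisymm h1 (sq_nonneg _))
      have hb0 : b = 0 := by
        rw [hb]
        apply Finset.sum_eq_zero
        intro i _
        apply Finset.sum_eq_zero
        intro j _
        rw [hc'z i]
        ring
      have ht0 : t ≠ 0 := by
        intro ht0
        apply hc0
        funext i
        rw [hcc i, hc'z i, ht0]
        simp
      rw [← h0, hb0]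
      have : 0 < t ^ 2 * Bm := by positivity
      linarith
    · have h1 : 0 < Bm * (3 / 2 * κ * N + 2 * t * b + t ^ 2 * Bm) := by
        have h2 : Bm * (3 / 2 * κ * N + 2 * t * b + t ^ 2 * Bm) =
            (t * Bm + b) ^ 2 + (3 / 2 * κ * Bm * N - b ^ 2) := by ring
        have h3 : S * M * N < 3 / 2 * κ * Bm * N := mul_lt_mul_of_pos_right hSM h0
        rw [h2]
        nlinarith [sq_nonneg (t * Bm + b)]
      exact (mul_pos_iff_of_pos_left hBm0).1 h1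
  have h5 : κ * N ≤ (1 - c0) * ‖z‖ ^ 2 - α * ip w z ^ 2 := hlow'.trans hqz
  linarith

end P23F
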