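import Mathlib
import Pool.Agent.Lib.P23F.Defs

/-!
# Module P23F.Chord : Chebyshev polynomials of the second kind on chords

PROOF.  Let `b = √(1 - t²)`.  If `sin φ = 0` then `cos φ = 1` or `-1`, the integrand is constant
`U_n(± t) = (±1)^n U_n(t)`, the integral is `2 b U_n(± t)`, and `U_n(±1) = (±1)^n (n + 1)`.
If `sin φ ≠ 0`: `T_{n+1}' = (n + 1) U_n`, so the integral is
`(T_{n+1}(t cos φ + b sin φ) - T_{n+1}(t cos φ - b sin φ)) / ((n + 1) sin φ)`.  Write
`t = cos ψ`, `b = sin ψ` (`ψ = arccos t ∈ [0, π]`): the arguments are `cos (ψ - φ)` and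
`cos (ψ + φ)`, so the difference is
`cos ((n+1)(ψ - φ)) - cos ((n+1)(ψ + φ)) = 2 sin ((n+1)ψ) sin ((n+1)φ)`
`= 2 (U_n(t) b) (U_n(cos φ) sin φ)` (`U_real_cos`, `T_real_cos`).  Dividing gives the claim.
(Mathlib: `Polynomial.Chebyshev.T_derivative_eq_U` or similar.)
-/

set_option autoImplicit false

open Polynomial

namespace P23F

namespace ChordAux

theorem int_cos (k : ℝ) (hk : k ≠ 0) (hs : Real.sin (k * Real.pi) = 0) :
    ∫ x in (0 : ℝ)..Real.pi, Real.cos (k * x) = 0 := by
  rw [intervalIntegral.integral_comp_mul_left (fun x => Real.cos x) hk, integral_cos]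
  simp [hs]

theorem T_deriv (n : ℕ) (x : ℝ) :
    HasDerivAt (fun y => (Chebyshev.T ℝ ((n : ℤ) + 1)).eval y)
      (((n : ℝ) + 1) * (Chebyshev.U ℝ n).eval x) x := by
  have h := (Chebyshev.T ℝ ((n : ℤ) + 1)).hasDerivAt x
  rw [Chebyshev.T_derivative_eq_U] at h
  simpa using h

end ChordAux

open ChordAux

theorem U_at_one (n : ℕ) : (Chebyshev.U ℝ n).eval 1 = n + 1 := by
  rw [Chebyshev.U_eval_one]
  simp

theorem chord_integral (n : ℕ) (t φ : ℝ) (ht : |t| ≤ 1) :
    ∫ s in (-√(1 - t ^ 2))..√(1 - t ^ 2),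
      (Chebyshev.U ℝ n).eval (t * Real.cos φ + s * Real.sin φ) =
    2 / (n + 1) * √(1 - t ^ 2) * (Chebyshev.U ℝ n).eval t * (Chebyshev.U ℝ n).eval (Real.cos φ) := by
  have hn : (n : ℝ) + 1 ≠ 0 := by positivity
  by_cases hφ : Real.sin φ = 0
  · have hc : Real.cos φ = 1 ∨ Real.cos φ = -1 := by
      have h := Real.sin_sq_add_cos_sq φ
      rw [hφ] at h
      have : (Real.cos φ - 1) * (Real.cos φ + 1) = 0 := by nlinarith
      rcases mul_eq_zero.1 this with h1 | h1
      · left; linarith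
      · right; linarith
    rcases hc with hc | hc
    · rw [hφ, hc, U_at_one]
      simp only [mul_one, mul_zero, add_zero, intervalIntegral.integral_const, smul_eq_mul]
      field_simp
      ring
    · have e1 : (Chebyshev.U ℝ n).eval (-1) = ((n : ℤ).negOnePow : ℝ) * ((n : ℝ) + 1) := by
        rw [Chebyshev.U_eval_neg, U_at_one]
      have e2 : (Chebyshev.U ℝ n).eval (-t) = ((n : ℤ).negOnePow : ℝ) * (Chebyshev.U ℝ n).eval t := by
        rw [Chebyshev.U_eval_neg]
      rw [hφ, hc, e1]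
      simp only [mul_neg, mul_one, mul_zero, add_zero, intervalIntegral.integral_const, smul_eq_mul]
      rw [e2]
      field_simp
      ring
  · set b : ℝ := √(1 - t ^ 2) with hb
    have habs := abs_le.1 ht
    set ψ : ℝ := Real.arccos t with hψ
    have hcos : Real.cos ψ = t := Real.cos_arccos habs.1 habs.2
    have hsin : Real.sin ψ = b := Real.sin_arccos t
    have hder : ∀ s : ℝ, HasDerivAt
        (fun s => (Chebyshev.T ℝ ((n : ℤ) + 1)).eval (t * Real.cos φ + s * Real.sin φ) /
          (((n : ℝ) + 1) * Real.sin φ))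
        ((Chebyshev.U ℝ n).eval (t * Real.cos φ + s * Real.sin φ)) s := by
      intro s
      have h1 : HasDerivAt (fun s : ℝ => t * Real.cos φ + s * Real.sin φ) (Real.sin φ) s := by
        simpa using ((hasDerivAt_id s).mul_const (Real.sin φ)).const_add (t * Real.cos φ)
      have h2 := (T_deriv n (t * Real.cos φ + s * Real.sin φ)).comp s h1
      have h3 := h2.div_const (((n : ℝ) + 1) * Real.sin φ)
      refine h3.congr_deriv ?_
      field_simp
    have hint : IntervalIntegrable
        (fun s => (Chebyshev.U ℝ n).eval (t * Real.cos φ + s * Real.sin φ))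
        MeasureTheory.volume (-b) b := by
      apply Continuous.intervalIntegrable
      fun_prop
    rw [intervalIntegral.integral_eq_sub_of_hasDerivAt (fun s _ => hder s) hint]
    have a1 : t * Real.cos φ + b * Real.sin φ = Real.cos (ψ - φ) := by
      rw [Real.cos_sub, hcos, hsin]
    have a2 : t * Real.cos φ + -b * Real.sin φ = Real.cos (ψ + φ) := by
      rw [Real.cos_add, hcos, hsin]; ring
    simp only [a1, a2]
    rw [Chebyshev.T_real_cos, Chebyshev.T_real_cos]
    have u1 := Chebyshev.U_real_cos ψ n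
    have u2 := Chebyshev.U_real_cos φ n
    rw [hcos, hsin] at u1
    push_cast at u1 u2 ⊢
    have key : Real.cos (((n : ℝ) + 1) * (ψ - φ)) - Real.cos (((n : ℝ) + 1) * (ψ + φ)) =
        2 * (((Chebyshev.U ℝ n).eval t * b) * ((Chebyshev.U ℝ n).eval (Real.cos φ) * Real.sin φ)) := by
      rw [u1, u2, mul_sub, mul_add, Real.cos_sub, Real.cos_add]
      ring
    rw [← sub_div, key]
    field_simp

theorem U_orth (m n : ℕ) :
    ∫ t in (-1 : ℝ)..1, (Chebyshev.U ℝ m).eval t * (Chebyshev.U ℝ n).eval t * √(1 - t ^ 2) =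
      if m = n then Real.pi / 2 else 0 := by
  set g : ℝ → ℝ := fun t => (Chebyshev.U ℝ m).eval t * (Chebyshev.U ℝ n).eval t * √(1 - t ^ 2)
    with hg
  have hgc : Continuous g := by
    rw [hg]; fun_prop
  have h1 : (∫ x in (0 : ℝ)..Real.pi, (g ∘ Real.cos) x * (-Real.sin x)) =
      ∫ x in Real.cos 0..Real.cos Real.pi, g x :=
    intervalIntegral.integral_comp_mul_deriv (fun x _ => Real.hasDerivAt_cos x)
      (by fun_prop) hgc
  rw [Real.cos_zero, Real.cos_pi] at h1
  rw [intervalIntegral.integral_symm, ← h1, ← intervalIntegral.integral_neg]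
  have h2 : (∫ x in (0 : ℝ)..Real.pi, -((g ∘ Real.cos) x * (-Real.sin x))) =
      ∫ x in (0 : ℝ)..Real.pi, (Real.cos (((m : ℝ) - n) * x) - Real.cos (((m : ℝ) + n + 2) * x)) / 2 := by
    apply intervalIntegral.integral_congr
    intro x hx
    rw [Set.uIcc_of_le Real.pi_pos.le] at hx
    have hs : 0 ≤ Real.sin x := Real.sin_nonneg_of_mem_Icc hx
    have hsq : √(1 - Real.cos x ^ 2) = Real.sin x := by
      rw [← Real.sin_sq, Real.sqrt_sq hs]
    have u1 := Chebyshev.U_real_cos x m
    have u2 := Chebyshev.U_real_cos x n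
    push_cast at u1 u2
    simp only [hg, Function.comp]
    rw [hsq]
    have e1 : -((Chebyshev.U ℝ m).eval (Real.cos x) * (Chebyshev.U ℝ n).eval (Real.cos x) *
        Real.sin x * -Real.sin x) =
        ((Chebyshev.U ℝ m).eval (Real.cos x) * Real.sin x) *
          ((Chebyshev.U ℝ n).eval (Real.cos x) * Real.sin x) := by ring
    rw [e1, u1, u2]
    have e2 : ((m : ℝ) - n) * x = ((m : ℝ) + 1) * x - ((n : ℝ) + 1) * x := by ring
    have e3 : ((m : ℝ) + n + 2) * x = ((m : ℝ) + 1) * x + ((n : ℝ) + 1) * x := by ring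
    rw [e2, e3, Real.cos_sub, Real.cos_add]
    ring
  rw [h2, intervalIntegral.integral_div, intervalIntegral.integral_sub
    (Continuous.intervalIntegrable (by fun_prop) _ _)
    (Continuous.intervalIntegrable (by fun_prop) _ _)]
  have h3 : ∫ x in (0 : ℝ)..Real.pi, Real.cos (((m : ℝ) + n + 2) * x) = 0 := by
    apply int_cos
    · positivity
    · have : ((m : ℝ) + n + 2) = ((m + n + 2 : ℕ) : ℝ) := by push_cast; ring
      rw [this]
      exact Real.sin_nat_mul_pi _
  rw [h3]
  split_ifs with hmn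
  · subst hmn
    simp
  · have h4 : ∫ x in (0 : ℝ)..Real.pi, Real.cos (((m : ℝ) - n) * x) = 0 := by
      apply int_cos
      · rw [sub_ne_zero]
        exact_mod_cast hmn
      · have : ((m : ℝ) - n) = (((m : ℤ) - n : ℤ) : ℝ) := by push_cast; ring
        rw [this]
        exact Real.sin_int_mul_pi _
    rw [h4]
    simp

theorem U_abs_le (n : ℕ) (t : ℝ) (ht : |t| ≤ 1) : |(Chebyshev.U ℝ n).eval t| ≤ n + 1 := by
  induction n using Nat.twoStepInduction with
  | zero => simp
  | one =>
    simp only [Nat.cast_one, Chebyshev.U_one, eval_mul, eval_ofNat, eval_X, abs_mul]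
    norm_num
    linarith
  | more n ih _ =>
    have h : Chebyshev.U ℝ ((n + 2 : ℕ) : ℤ) =
        2 * Chebyshev.T ℝ ((n : ℤ) + 2) + Chebyshev.U ℝ n := by
      have := Chebyshev.U_eq_two_mul_T_add_U ℝ (n : ℤ)
      push_cast
      exact this
    rw [h]
    simp only [eval_add, eval_mul, eval_ofNat]
    have hT := Chebyshev.abs_eval_T_real_le_one ((n : ℤ) + 2) ht
    calc |2 * (Chebyshev.T ℝ ((n : ℤ) + 2)).eval t + (Chebyshev.U ℝ n).eval t|
        ≤ |2 * (Chebyshev.T ℝ ((n : ℤ) + 2)).eval t| + |(Chebyshev.U ℝ n).eval t| := abs_add_le _ _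
      _ ≤ 2 * 1 + ((n : ℝ) + 1) := by
          rw [abs_mul, abs_two]
          gcongr
      _ = ((n + 2 : ℕ) : ℝ) + 1 := by push_cast; ring

end P23F
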