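import Mathlib
import Pool.Agent.Lib.P23F.Chord

/-!
# Module P23F.Proj : the projections to the span of `U_0, U_2, U_4`

PROOFS.  `U_0 = 1`, `U_2 = 4 t² - 1`, `U_4 = 16 t⁴ - 12 t² + 1` (recurrence).
* `cb_bound`: `|h U_n √(1-t²)| ≤ δ (n+1) √(1-t²)` on `[-1,1]` (`U_abs_le`), and
  `∫_{-1}^1 √(1-t²) = π/2` (`U_orth 0 0`).
* `proj4`, `proj6`: expand the sums over `range 2`, `range 3`.
* `bounds4`, `bounds6`: from `cb_bound` with `n = 0, 2, 4` (factors `1, 3, 5`):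
  `|c6| ≤ δ + 3δ + 5δ`, `|al6| ≤ 12 δ + 60 δ`, `|ga6| ≤ 80 δ`, `|ka6 t| ≤ (1 + 9 + 72 + 80) δ`;
  `|c4| ≤ 4 δ`, `|al4| ≤ 12 δ`, `|ka4 t| ≤ 17 δ`.
* `hh`: for `0 < ρ < 1` the argument `ρ max(-1) (min 1 t)` is in `[-ρ, ρ] ⊂ (-1, 1)`; the clamp is
  continuous and odd; `k` is continuous on `(-1, 1)`, even, `k 0 = 0`.
* `hh_small`: continuity of `k` at `0`.
-/

set_option autoImplicit false

open Polynomial

namespace P23F

private theorem pj_U0 (t : ℝ) : (Chebyshev.U ℝ ((2 * 0 : ℕ) : ℤ)).eval t = 1 := by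
  norm_num

private theorem pj_U2 (t : ℝ) : (Chebyshev.U ℝ ((2 * 1 : ℕ) : ℤ)).eval t = 4 * t ^ 2 - 1 := by
  have h : ((2 * 1 : ℕ) : ℤ) = 0 + 2 := by norm_num
  rw [h, Chebyshev.U_add_two]
  norm_num
  ring

private theorem pj_U4 (t : ℝ) : (Chebyshev.U ℝ ((2 * 2 : ℕ) : ℤ)).eval t =
    16 * t ^ 4 - 12 * t ^ 2 + 1 := by
  have h : ((2 * 2 : ℕ) : ℤ) = 2 + 2 := by norm_num
  have h3 : (2 + 1 : ℤ) = 1 + 2 := by norm_num
  have h2 : (1 + 1 : ℤ) = 0 + 2 := by norm_num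
  have h20 : (2 : ℤ) = 0 + 2 := by norm_num
  have e2 : (Chebyshev.U ℝ (0 + 2 : ℤ)).eval t = 4 * t ^ 2 - 1 := by
    rw [Chebyshev.U_add_two]
    norm_num
    ring
  have e2' : (Chebyshev.U ℝ (2 : ℤ)).eval t = 4 * t ^ 2 - 1 := by
    rw [h20]
    exact e2
  have e3 : (Chebyshev.U ℝ (1 + 2 : ℤ)).eval t = 8 * t ^ 3 - 4 * t := by
    rw [Chebyshev.U_add_two, h2]
    rw [eval_sub, eval_mul, e2]
    norm_num
    ring
  rw [h, Chebyshev.U_add_two, h3, eval_sub, eval_mul, e3, e2']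
  norm_num
  ring

private theorem pj_int : ∫ t in (-1 : ℝ)..1, √(1 - t ^ 2) = Real.pi / 2 := by
  have h := U_orth 0 0
  rw [if_pos rfl] at h
  rw [← h]
  apply intervalIntegral.integral_congr
  intro t _
  simp

theorem cb_bound (h : ℝ → ℝ) (hc : Continuous h) (δ : ℝ) (hδ : ∀ t, |t| ≤ 1 → |h t| ≤ δ)
    (n : ℕ) : |cb h n| ≤ (n + 1) * δ := by
  have h1 : ‖∫ t in (-1 : ℝ)..1, h t * (Chebyshev.U ℝ n).eval t * √(1 - t ^ 2)‖ ≤
      ∫ t in (-1 : ℝ)..1, (n + 1) * δ * √(1 - t ^ 2) := by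
    apply intervalIntegral.norm_integral_le_of_norm_le (by norm_num)
    · apply Filter.Eventually.of_forall
      intro t ht
      have ht1 : |t| ≤ 1 := abs_le.2 ⟨ht.1.le, ht.2⟩
      rw [Real.norm_eq_abs, abs_mul, abs_mul, abs_of_nonneg (Real.sqrt_nonneg _)]
      apply mul_le_mul_of_nonneg_right _ (Real.sqrt_nonneg _)
      rw [mul_comm ((n : ℝ) + 1) δ]
      exact mul_le_mul (hδ t ht1) (U_abs_le n t ht1) (abs_nonneg _)
        ((abs_nonneg _).trans (hδ t ht1))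
    · apply Continuous.intervalIntegrable
      fun_prop
  rw [intervalIntegral.integral_const_mul, pj_int, Real.norm_eq_abs] at h1
  unfold cb
  rw [abs_mul, abs_of_pos (div_pos two_pos Real.pi_pos)]
  calc 2 / Real.pi * |∫ t in (-1 : ℝ)..1, h t * (Chebyshev.U ℝ n).eval t * √(1 - t ^ 2)|
      ≤ 2 / Real.pi * ((n + 1) * δ * (Real.pi / 2)) :=
        mul_le_mul_of_nonneg_left h1 (div_pos two_pos Real.pi_pos).le
    _ = (n + 1) * δ := by
        have := Real.pi_ne_zero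
        field_simp

theorem proj4 (h : ℝ → ℝ) (t : ℝ) : h t - ∑ k ∈ Finset.range 2,
    cb h (2 * k) * (Chebyshev.U ℝ ((2 * k : ℕ) : ℤ)).eval t = ka4 h t := by
  rw [Finset.sum_range_succ, Finset.sum_range_succ, Finset.sum_range_zero, pj_U0, pj_U2]
  unfold ka4 c4 al4
  norm_num
  ring

theorem proj6 (h : ℝ → ℝ) (t : ℝ) : h t - ∑ k ∈ Finset.range 3,
    cb h (2 * k) * (Chebyshev.U ℝ ((2 * k : ℕ) : ℤ)).eval t = ka6 h t := by
  rw [Finset.sum_range_succ, Finset.sum_range_succ, Finset.sum_range_succ,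
    Finset.sum_range_zero, pj_U0, pj_U2, pj_U4]
  unfold ka6 c6 al6 ga6
  norm_num
  ring

theorem bounds4 (h : ℝ → ℝ) (hc : Continuous h) (δ : ℝ) (hδ : ∀ t, |t| ≤ 1 → |h t| ≤ δ) :
    |c4 h| ≤ 4 * δ ∧ |al4 h| ≤ 12 * δ ∧ ∀ t, |t| ≤ 1 → |ka4 h t| ≤ 17 * δ := by
  have b0 := abs_le.1 (cb_bound h hc δ hδ 0)
  have b2 := abs_le.1 (cb_bound h hc δ hδ 2)
  norm_num at b0 b2
  have h1 : |c4 h| ≤ 4 * δ := by
    unfold c4
    rw [abs_le]
    constructor <;> linarith [b0.1, b0.2, b2.1, b2.2]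
  have h2 : |al4 h| ≤ 12 * δ := by
    unfold al4
    rw [abs_le]
    constructor <;> linarith [b2.1, b2.2]
  refine ⟨h1, h2, ?_⟩
  intro t ht
  have ht2 : t ^ 2 ≤ 1 := by
    rw [← sq_abs]
    exact pow_le_one₀ (abs_nonneg t) ht
  have h3 : |al4 h * t ^ 2| ≤ 12 * δ := by
    rw [abs_mul, abs_of_nonneg (sq_nonneg t)]
    calc |al4 h| * t ^ 2 ≤ |al4 h| * 1 := mul_le_mul_of_nonneg_left ht2 (abs_nonneg _)
      _ ≤ 12 * δ := by linarith
  have h4 := abs_le.1 (hδ t ht)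
  have h5 := abs_le.1 h1
  have h6 := abs_le.1 h3
  unfold ka4
  rw [abs_le]
  constructor <;> linarith [h4.1, h4.2, h5.1, h5.2, h6.1, h6.2]

theorem bounds6 (h : ℝ → ℝ) (hc : Continuous h) (δ : ℝ) (hδ : ∀ t, |t| ≤ 1 → |h t| ≤ δ) :
    |c6 h| ≤ 9 * δ ∧ |al6 h| ≤ 72 * δ ∧ |ga6 h| ≤ 80 * δ ∧ ∀ t, |t| ≤ 1 → |ka6 h t| ≤ 162 * δ := by
  have b0 := abs_le.1 (cb_bound h hc δ hδ 0)
  have b2 := abs_le.1 (cb_bound h hc δ hδ 2)
  have b4 := abs_le.1 (cb_bound h hc δ hδ 4)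
  norm_num at b0 b2 b4
  have h1 : |c6 h| ≤ 9 * δ := by
    unfold c6
    rw [abs_le]
    constructor <;> linarith [b0.1, b0.2, b2.1, b2.2, b4.1, b4.2]
  have h2 : |al6 h| ≤ 72 * δ := by
    unfold al6
    rw [abs_le]
    constructor <;> linarith [b2.1, b2.2, b4.1, b4.2]
  have h2' : |ga6 h| ≤ 80 * δ := by
    unfold ga6
    rw [abs_le]
    constructor <;> linarith [b4.1, b4.2]
  refine ⟨h1, h2, h2', ?_⟩
  intro t ht
  have ht2 : t ^ 2 ≤ 1 := by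
    rw [← sq_abs]
    exact pow_le_one₀ (abs_nonneg t) ht
  have ht4 : t ^ 4 ≤ 1 := by
    have : t ^ 4 = (t ^ 2) ^ 2 := by ring
    rw [this]
    exact pow_le_one₀ (sq_nonneg t) ht2
  have h3 : |al6 h * t ^ 2| ≤ 72 * δ := by
    rw [abs_mul, abs_of_nonneg (sq_nonneg t)]
    calc |al6 h| * t ^ 2 ≤ |al6 h| * 1 := mul_le_mul_of_nonneg_left ht2 (abs_nonneg _)
      _ ≤ 72 * δ := by linarith
  have h3' : |ga6 h * t ^ 4| ≤ 80 * δ := by
    rw [abs_mul, abs_of_nonneg (by positivity : (0 : ℝ) ≤ t ^ 4)]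
    calc |ga6 h| * t ^ 4 ≤ |ga6 h| * 1 := mul_le_mul_of_nonneg_left ht4 (abs_nonneg _)
      _ ≤ 80 * δ := by linarith
  have h4 := abs_le.1 (hδ t ht)
  have h5 := abs_le.1 h1
  have h6 := abs_le.1 h3
  have h7 := abs_le.1 h3'
  unfold ka6
  rw [abs_le]
  constructor <;> linarith [h4.1, h4.2, h5.1, h5.2, h6.1, h6.2, h7.1, h7.2]

theorem ka4_cont (h : ℝ → ℝ) (hc : Continuous h) : Continuous (ka4 h) := by
  unfold ka4
  fun_prop

theorem ka6_cont (h : ℝ → ℝ) (hc : Continuous h) : Continuous (ka6 h) := by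
  unfold ka6
  fun_prop

theorem ka4_even (h : ℝ → ℝ) (he : ∀ t, h (-t) = h t) (t : ℝ) : ka4 h (-t) = ka4 h t := by
  unfold ka4
  rw [he, neg_sq]

theorem ka6_even (h : ℝ → ℝ) (he : ∀ t, h (-t) = h t) (t : ℝ) : ka6 h (-t) = ka6 h t := by
  unfold ka6
  rw [he, neg_sq]
  ring

private theorem clamp_abs (t : ℝ) : |max (-1) (min 1 t)| ≤ 1 := by
  rw [abs_le]
  constructor
  · exact le_max_left _ _
  · exact max_le (by norm_num) (min_le_left _ _)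

theorem hh_cont (k : ℝ → ℝ) (hk : ContinuousOn k (Set.Ioo (-1) 1)) (ρ : ℝ) (h0 : 0 < ρ)
    (h1 : ρ < 1) : Continuous (hh k ρ) := by
  unfold hh
  apply hk.comp_continuous
  · fun_prop
  · intro t
    have h2 : |ρ * max (-1) (min 1 t)| < 1 := by
      rw [abs_mul, abs_of_pos h0]
      calc ρ * |max (-1) (min 1 t)| ≤ ρ * 1 := mul_le_mul_of_nonneg_left (clamp_abs t) h0.le
        _ < 1 := by linarith
    exact abs_lt.1 h2

theorem hh_even (k : ℝ → ℝ) (hk : ∀ y, k (-y) = k y) (ρ t : ℝ) : hh k ρ (-t) = hh k ρ t := by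
  unfold hh
  have h : max (-1) (min 1 (-t)) = -max (-1) (min 1 t) := by
    rcases le_total t (-1) with h1 | h1
    · rw [min_eq_left (by linarith : (1 : ℝ) ≤ -t), min_eq_right (by linarith : t ≤ 1),
        max_eq_right (by norm_num : (-1 : ℝ) ≤ 1), max_eq_left h1, neg_neg]
    · rcases le_total t 1 with h2 | h2
      · rw [min_eq_right (by linarith : -t ≤ 1), min_eq_right h2,
          max_eq_right (by linarith : (-1 : ℝ) ≤ -t), max_eq_right h1]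
      · rw [min_eq_right (by linarith : -t ≤ 1), min_eq_left h2,
          max_eq_left (by linarith : -t ≤ -1), max_eq_right (by norm_num : (-1 : ℝ) ≤ 1)]
  rw [h, mul_neg, hk]

theorem hh_eq (k : ℝ → ℝ) (ρ t : ℝ) (ht : |t| ≤ 1) : hh k ρ t = k (ρ * t) := by
  unfold hh
  have h := abs_le.1 ht
  rw [min_eq_right h.2, max_eq_right h.1]

theorem hh_small (k : ℝ → ℝ) (hk : ContinuousOn k (Set.Ioo (-1) 1)) (h0 : k 0 = 0) (δ : ℝ)
    (hδ : 0 < δ) : ∃ ρ₀ > 0, ρ₀ < 1 ∧ ∀ ρ, 0 < ρ → ρ ≤ ρ₀ → ∀ t, |hh k ρ t| ≤ δ := by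
  have hc : ContinuousAt k 0 := hk.continuousAt (Ioo_mem_nhds (by norm_num) (by norm_num))
  obtain ⟨η, hη, H⟩ := Metric.continuousAt_iff.1 hc δ hδ
  refine ⟨min (η / 2) (1 / 2), by positivity, lt_of_le_of_lt (min_le_right _ _) (by norm_num), ?_⟩
  intro ρ hρ hρ1 t
  have h1 : |ρ * max (-1) (min 1 t)| < η := by
    rw [abs_mul, abs_of_pos hρ]
    calc ρ * |max (-1) (min 1 t)| ≤ ρ * 1 := mul_le_mul_of_nonneg_left (clamp_abs t) hρ.le
      _ ≤ η / 2 := by linarith [min_le_left (η / 2) (1 / 2 : ℝ)]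
      _ < η := by linarith
  have h2 := H (x := ρ * max (-1) (min 1 t)) (by
    rw [Real.dist_eq, sub_zero]
    exact h1)
  rw [Real.dist_eq, h0, sub_zero] at h2
  exact h2.le

end P23F
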