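import Mathlib
import Pool.Agent.Lib.P23F.Alg6
import Pool.Agent.Lib.P23F.Proj
import Pool.Agent.Lib.P23F.PDlem

/-!
# Module P23F.Bad6 : the pointwise inequality (orthocentric case)

PROOF.  `pd_lemma` with `m = 1/2` gives `η > 0`, `C > 0`; `K` from `alg6`.  Choose `δ₀ > 0` with
`9 δ₀ + 72 δ₀ ≤ 1/2` and `K (72 + 80 + 162) δ₀ ≤ η`, and `ρ₀ < 1` from
`hh_small k δ₀` (note: the statement allows any `δ ≤ δ₀` given as bound of `hh k ρ`).
Let `h = hh k ρ`, `c0 = c6 h`, `α = al6 h`, `γ = ga6 h`, `κ = ka6 h` (`bounds6`), so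
`h t = c0 + α t² + γ t⁴ + κ t`.  For `w ∈ Disc`, `|τ| ≤ 1` with
`|yy a μ w τ i j| ≤ 1` for all `i ≠ j` let `s i = ρ (ip w (a i) + τ eta μ i)`.  For `i ≠ j`,
`(s i - s j) / ‖a i - a j‖ = ρ * yy a μ w τ i j`, so `|s i - s j| ≤ ρ ‖a i - a j‖ < ‖a i - a j‖` and
`Rk a k s i j = ‖a i - a j‖² (1 - h (yy i j))
= (1 - c0) ‖a i - a j‖² - α ip w (a i - a j)² - ff a μ α γ κ w τ i j`
(`‖a i - a j‖² yy² = (ip w (a i - a j) + τ (η i - η j))²`).  `ff` is symmetric (`κ` even), bounded by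
`K (|α| + |γ| + sup |κ|) ≤ η`, and `hk.bad` with `pd_lemma` gives the inequality.
-/

set_option autoImplicit false

namespace P23F

private theorem ip_sub (w u v : ℂ) : ip w (u - v) = ip w u - ip w v := by
  unfold ip
  simp only [Complex.sub_re, Complex.sub_im]
  ring

private theorem ip_neg (w u : ℂ) : ip w (-u) = -ip w u := by
  unfold ip
  simp only [Complex.neg_re, Complex.neg_im]
  ring

private theorem ip_div (w u : ℂ) (r : ℝ) : ip w (u / (r : ℂ)) = ip w u / r := by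
  unfold ip
  rw [Complex.div_ofReal_re, Complex.div_ofReal_im]
  ring

private theorem ip_sq_le (w z : ℂ) (hw : w ∈ Disc) : ip w z ^ 2 ≤ ‖z‖ ^ 2 := by
  have h1 : ‖w‖ ^ 2 ≤ 1 := by
    have h2 : ‖w‖ ≤ 1 := by simpa [Disc] using hw
    nlinarith [norm_nonneg w]
  have h2 : ip w z ^ 2 ≤ ‖w‖ ^ 2 * ‖z‖ ^ 2 := by
    rw [← Complex.normSq_eq_norm_sq, ← Complex.normSq_eq_norm_sq, Complex.normSq_apply,
      Complex.normSq_apply]
    unfold ip
    nlinarith [sq_nonneg (w.re * z.im - w.im * z.re)]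
  nlinarith [sq_nonneg ‖z‖]

private theorem exists_third (i j : Fin 4) : ∃ k, i ≠ k ∧ j ≠ k := by
  revert i j
  decide

private theorem ne_of_gen {a : Fin 4 → ℂ} (hg : Gen a) {i j : Fin 4} (hij : i ≠ j) :
    a i - a j ≠ 0 := by
  intro h
  obtain ⟨k, hik, hjk⟩ := exists_third i j
  apply hg i j k hij hik hjk
  have h1 : a j - a i = 0 := by rw [← neg_sub, h, neg_zero]
  rw [h1]
  unfold cr
  simp

private theorem ip_dir {a : Fin 4 → ℂ} (w : ℂ) {i j : Fin 4} (hij : i ≠ j) :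
    ip w (dir a i j) = ip w (a i - a j) / ‖a i - a j‖ := by
  unfold dir
  rw [if_neg hij, ip_div]

private theorem yy_eq {a : Fin 4 → ℂ} (μ : Fin 4 → ℝ) (w : ℂ) (τ : ℝ) {i j : Fin 4}
    (hij : i ≠ j) : yy a μ w τ i j =
      (ip w (a i - a j) + τ * (eta μ i - eta μ j)) / ‖a i - a j‖ := by
  unfold yy
  rw [ip_dir w hij]
  ring

private theorem yy_swap {a : Fin 4 → ℂ} (μ : Fin 4 → ℝ) (w : ℂ) (τ : ℝ) {i j : Fin 4}
    (hij : i ≠ j) : yy a μ w τ j i = -yy a μ w τ i j := by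
  rw [yy_eq μ w τ hij, yy_eq μ w τ hij.symm, ← neg_sub (a i) (a j), ip_neg, norm_neg]
  ring

private theorem ff_symm {a : Fin 4 → ℂ} (μ : Fin 4 → ℝ) (α γ : ℝ) {κ : ℝ → ℝ}
    (hκ : ∀ t, κ (-t) = κ t) (w : ℂ) (τ : ℝ) (i j : Fin 4) :
    ff a μ α γ κ w τ i j = ff a μ α γ κ w τ j i := by
  by_cases hij : i = j
  · rw [hij]
  · unfold ff
    rw [if_neg hij, if_neg (Ne.symm hij), yy_swap μ w τ hij, hκ, ← neg_sub (a i) (a j), ip_neg,
      norm_neg]
    ring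

theorem bad6 (a : Fin 4 → ℂ) (μ : Fin 4 → ℝ) (hg : Gen a) (hd : Dep a μ)
    (h4 : ∑ p, (wt a μ p : ℂ) * dir a p.1 p.2 ^ 4 = 0) :
    ∃ δ₀ > 0, ∃ C > 0, ∀ (k : ℝ → ℝ), Bad a k → ∀ ρ, 0 < ρ → ρ < 1 →
      (∀ t, |hh k ρ t| ≤ δ₀) → ∀ (w : ℂ) (τ : ℝ), w ∈ Disc → |τ| ≤ 1 →
      (∀ i j, i ≠ j → |yy a μ w τ i j| ≤ 1) →
      ∑ i, ∑ j, μ i * μ j *
        ff a μ (al6 (hh k ρ)) (ga6 (hh k ρ)) (ka6 (hh k ρ)) w τ i j ≤
      C * ∑ i, ∑ j, ff a μ (al6 (hh k ρ)) (ga6 (hh k ρ)) (ka6 (hh k ρ)) w τ i j ^ 2 := by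
  obtain ⟨η, hη, C, hC, hpd⟩ := pd_lemma a μ hd (1 / 2) (by norm_num)
  obtain ⟨K, hK, hal⟩ := alg6 a μ hg hd h4
  refine ⟨min (1 / 162) (η / (314 * K)), by positivity, C, hC, ?_⟩
  intro k hk ρ hρ0 hρ1 hh1 w τ hw hτ hyy
  set δ := min (1 / 162) (η / (314 * K)) with hδ
  have hδ0 : 0 < δ := by positivity
  have hδ1 : δ ≤ 1 / 162 := min_le_left _ _
  have hδ2 : 314 * K * δ ≤ η := by
    have h1 : δ ≤ η / (314 * K) := min_le_right _ _
    rw [le_div_iff₀ (by positivity)] at h1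
    linarith
  set h := hh k ρ with hh
  have hcont : Continuous h := hh_cont k hk.cont ρ hρ0 hρ1
  obtain ⟨b1, b2, b3, b4⟩ := bounds6 h hcont δ (fun t _ => hh1 t)
  set c0 := c6 h with hc0
  set α := al6 h with hα
  set γ := ga6 h with hγ
  set κ := ka6 h with hκ
  have hκe : ∀ t, κ (-t) = κ t := ka6_even h (fun t => hh_even k hk.even ρ t)
  have hht : ∀ t, h t = c0 + α * t ^ 2 + γ * t ^ 4 + κ t := by
    intro t
    rw [hκ, hc0, hα, hγ]
    unfold ka6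
    ring
  by_contra hcon
  push Not at hcon
  have hpos := hpd c0 α w (fun z => by
    have h1 := ip_sq_le w z hw
    have h2 : α * ip w z ^ 2 ≤ 72 * δ * ‖z‖ ^ 2 := by
      calc α * ip w z ^ 2 ≤ |α| * ip w z ^ 2 :=
            mul_le_mul_of_nonneg_right (le_abs_self α) (sq_nonneg _)
        _ ≤ 72 * δ * ‖z‖ ^ 2 := mul_le_mul b2 h1 (sq_nonneg _) (by positivity)
    have h3 : c0 * ‖z‖ ^ 2 ≤ 9 * δ * ‖z‖ ^ 2 :=
      mul_le_mul_of_nonneg_right ((le_abs_self c0).trans b1) (sq_nonneg _)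
    have h4 : 81 * δ * ‖z‖ ^ 2 ≤ 1 / 2 * ‖z‖ ^ 2 :=
      mul_le_mul_of_nonneg_right (by linarith) (sq_nonneg _)
    nlinarith)
    (ff a μ α γ κ w τ) (ff_symm μ α γ hκe w τ)
    (fun i j => by
      refine ((hal α γ κ w τ hw hτ).2.2 i j).trans ?_
      have h1 : (if i = j then (0 : ℝ) else |κ (yy a μ w τ i j)|) ≤ 162 * δ := by
        by_cases hij : i = j
        · rw [if_pos hij]; positivity
        · rw [if_neg hij]
          exact b4 _ (hyy i j hij)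
      calc K * (|α| + |γ| + (if i = j then (0 : ℝ) else |κ (yy a μ w τ i j)|)) ≤
            K * (72 * δ + 80 * δ + 162 * δ) :=
            mul_le_mul_of_nonneg_left (add_le_add (add_le_add b2 b3) h1) hK.le
        _ = 314 * K * δ := by ring
        _ ≤ η := hδ2)
    hcon
  have hs : ∀ i j, i ≠ j → (ρ * (ip w (a i) + τ * eta μ i) - ρ * (ip w (a j) + τ * eta μ j)) =
      ρ * yy a μ w τ i j * ‖a i - a j‖ := by
    intro i j hij
    have hn : ‖a i - a j‖ ≠ 0 := norm_ne_zero_iff.2 (ne_of_gen hg hij)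
    rw [yy_eq μ w τ hij, ip_sub]
    field_simp
    ring
  refine hk.bad (fun i => ρ * (ip w (a i) + τ * eta μ i)) ?_ ?_
  · intro i j hij
    have hn : 0 < ‖a i - a j‖ := norm_pos_iff.2 (ne_of_gen hg hij)
    show |ρ * (ip w (a i) + τ * eta μ i) - ρ * (ip w (a j) + τ * eta μ j)| < ‖a i - a j‖
    rw [hs i j hij, abs_mul, abs_mul, abs_of_pos hρ0, abs_of_pos hn]
    have h1 := hyy i j hij
    have h2 : ρ * |yy a μ w τ i j| < 1 := by
      calc ρ * |yy a μ w τ i j| ≤ ρ * 1 := mul_le_mul_of_nonneg_left h1 hρ0.le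
        _ < 1 := by linarith
    nlinarith
  · have hfun : (fun i j => (1 - c0) * ‖a i - a j‖ ^ 2 - α * ip w (a i - a j) ^ 2 -
        ff a μ α γ κ w τ i j) = Rk a k (fun i => ρ * (ip w (a i) + τ * eta μ i)) := by
      funext i j
      by_cases hij : i = j
      · subst hij
        unfold ff Rk
        rw [if_pos rfl]
        simp [ip]
      · have hn : ‖a i - a j‖ ≠ 0 := norm_ne_zero_iff.2 (ne_of_gen hg hij)
        show _ = ‖a i - a j‖ ^ 2 * (1 - k ((ρ * (ip w (a i) + τ * eta μ i) -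
          ρ * (ip w (a j) + τ * eta μ j)) / ‖a i - a j‖))
        rw [hs i j hij, mul_div_assoc, div_self hn, mul_one, ← hh_eq k ρ _ (hyy i j hij), ← hh,
          hht]
        unfold ff
        rw [if_neg hij]
        have h5 : ‖a i - a j‖ * yy a μ w τ i j =
            ip w (a i - a j) + τ * (eta μ i - eta μ j) := by
          rw [yy_eq μ w τ hij]
          field_simp
        rw [← h5]
        ring
    rw [← hfun]
    exact hpos

end P23F
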