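import Mathlib
import Pool.Agent.Lib.P23F.Defs

/-!
# Module P23F.Chol : four points of `ℝ³` from their squared distances, continuously

PROOF of `chol`.  For a good `R` put (indices `1, 2, 3`)
`g i j = (R 0 i + R 0 j - R i j) / 2`.  For `c` with `∑ c i = 0` (so `c 0 = -(c 1 + c 2 + c 3)`) one
has `- ∑ i, ∑ j, c i c j R i j = 2 ∑_{i,j ∈ {1,2,3}} c i c j g i j` (zero diagonal, symmetry), so
the `3 × 3` matrix `g` is positive definite.  Let
`a = √(g11)`, `b = g12 / a`, `e = √(g22 - b²)`, `f = g13 / a`, `h = (g23 - b f) / e`,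
`w = √(g33 - f² - h²)`; the three radicands are positive: `g11 > 0`;
`g22 - b² = (g11 g22 - g12²)/g11 > 0`; and `g33 - f² - h² > 0`: it is the value of the form `g` at
`(c1, c2, 1)` where `c2 = -h / e`, `c1 = -(f + c2 b) / a` (then the rows give
`a c1 + b c2 + f = 0`, `e c2 + h = 0`, and the form is
`(a c1 + b c2 + f)² + (e c2 + h)² + (g33 - f² - h²)`).
`q R 0 = 0`, `q R 1 = (a, 0, 0)`, `q R 2 = (b, e, 0)`, `q R 3 = (f, h, w)`.  Then
`⟪q i, q j⟫ = g i j`, `‖q i - q 0‖² = g i i = R 0 i` and `‖q i - q j‖² = g i i + g j j - 2 g i j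
= R i j`.  Continuity on the set of good `R`: all operations are continuous where the radicands are
positive (`ContinuousOn` with `Real.sqrt`, division by nonzero functions).

PROOF of `pos4_open`.  The set of unit vectors `c` (`∑ c i ^ 2 = 1`) with `∑ c i = 0` is compact, the
form is continuous there and negative, so it is `≤ -ε`; changing the entries of `R` by at most `δ`
changes the form by at most `16 δ` on unit vectors (`|c i| ≤ 1`); take `δ = ε / 32`.  Scaling gives
all `c ≠ 0`.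
-/

set_option autoImplicit false

namespace P23F

namespace CholAux

/-- the form of the Gram matrix -/
theorem form_pos {R : Fin 4 → Fin 4 → ℝ} (hR : Good R) (x y z : ℝ)
    (h : ¬ (x = 0 ∧ y = 0 ∧ z = 0)) :
    0 < x ^ 2 * R 0 1 + y ^ 2 * R 0 2 + z ^ 2 * R 0 3
      + x * y * (R 0 1 + R 0 2 - R 1 2) + x * z * (R 0 1 + R 0 3 - R 1 3)
      + y * z * (R 0 2 + R 0 3 - R 2 3) := by
  have h1 := hR.pos ![-(x + y + z), x, y, z]
    (by simp [Fin.sum_univ_four]; ring)
    (by
      intro h0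
      apply h
      refine ⟨?_, ?_, ?_⟩
      · exact congrFun h0 1
      · exact congrFun h0 2
      · exact congrFun h0 3)
  simp only [Fin.sum_univ_four] at h1
  have e0 : (![-(x + y + z), x, y, z] : Fin 4 → ℝ) 0 = -(x + y + z) := rfl
  have e1 : (![-(x + y + z), x, y, z] : Fin 4 → ℝ) 1 = x := rfl
  have e2 : (![-(x + y + z), x, y, z] : Fin 4 → ℝ) 2 = y := rfl
  have e3 : (![-(x + y + z), x, y, z] : Fin 4 → ℝ) 3 = z := rfl
  rw [e0, e1, e2, e3, hR.diag 0, hR.diag 1, hR.diag 2, hR.diag 3, hR.symm 1 0, hR.symm 2 0,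
    hR.symm 3 0, hR.symm 2 1, hR.symm 3 1, hR.symm 3 2] at h1
  nlinarith [h1]

variable (R : Fin 4 → Fin 4 → ℝ)

noncomputable def g12 : ℝ := (R 0 1 + R 0 2 - R 1 2) / 2
noncomputable def g13 : ℝ := (R 0 1 + R 0 3 - R 1 3) / 2
noncomputable def g23 : ℝ := (R 0 2 + R 0 3 - R 2 3) / 2
noncomputable def fa : ℝ := √(R 0 1)
noncomputable def fb : ℝ := g12 R / fa R
noncomputable def fe : ℝ := √(R 0 2 - fb R ^ 2)
noncomputable def ff : ℝ := g13 R / fa R
noncomputable def fh : ℝ := (g23 R - fb R * ff R) / fe R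
noncomputable def fw : ℝ := √(R 0 3 - ff R ^ 2 - fh R ^ 2)

noncomputable def qq (i : Fin 4) : EuclideanSpace ℝ (Fin 3) :=
  match i with
  | 0 => !₂[0, 0, 0]
  | 1 => !₂[fa R, 0, 0]
  | 2 => !₂[fb R, fe R, 0]
  | 3 => !₂[ff R, fh R, fw R]

variable {R}

theorem r1 (hR : Good R) : 0 < R 0 1 := by
  have := form_pos hR 1 0 0 (by norm_num)
  linarith

theorem fa_pos (hR : Good R) : 0 < fa R := Real.sqrt_pos.2 (r1 hR)

theorem fa_sq (hR : Good R) : fa R ^ 2 = R 0 1 := Real.sq_sqrt (r1 hR).le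

theorem fa_fb (hR : Good R) : fa R * fb R = g12 R := by
  unfold fb
  exact mul_div_cancel₀ _ (fa_pos hR).ne'

theorem fa_ff (hR : Good R) : fa R * ff R = g13 R := by
  unfold ff
  exact mul_div_cancel₀ _ (fa_pos hR).ne'

theorem r2 (hR : Good R) : 0 < R 0 2 - fb R ^ 2 := by
  have ha := fa_pos hR
  have h1 := form_pos hR (-(fb R / fa R)) 1 0 (by norm_num)
  have h2 := fa_fb hR
  have h3 := fa_sq hR
  unfold g12 at h2
  have h4 : (fb R / fa R) ^ 2 * R 0 1 = fb R ^ 2 := by
    rw [← h3, div_pow]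
    field_simp
  have h5 : fb R / fa R * (R 0 1 + R 0 2 - R 1 2) = 2 * fb R ^ 2 := by
    have : R 0 1 + R 0 2 - R 1 2 = 2 * (fa R * fb R) := by linarith
    rw [this]
    field_simp
  nlinarith [h1, h4, h5]

theorem fe_pos (hR : Good R) : 0 < fe R := Real.sqrt_pos.2 (r2 hR)

theorem fe_sq (hR : Good R) : fe R ^ 2 = R 0 2 - fb R ^ 2 := Real.sq_sqrt (r2 hR).le

theorem fe_fh (hR : Good R) : fe R * fh R = g23 R - fb R * ff R := by
  unfold fh
  exact mul_div_cancel₀ _ (fe_pos hR).ne'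

theorem r3 (hR : Good R) : 0 < R 0 3 - ff R ^ 2 - fh R ^ 2 := by
  have ha := fa_pos hR
  have he := fe_pos hR
  obtain ⟨y, hy⟩ : ∃ y : ℝ, fe R * y + fh R = 0 := ⟨-(fh R / fe R), by field_simp; ring⟩
  obtain ⟨x, hx⟩ : ∃ x : ℝ, fa R * x + fb R * y + ff R = 0 :=
    ⟨-((fb R * y + ff R) / fa R), by field_simp; ring⟩
  have h1 := form_pos hR x y 1 (by norm_num)
  have h12 : R 0 1 + R 0 2 - R 1 2 = 2 * (fa R * fb R) := by
    rw [fa_fb hR]; unfold g12; ring
  have h13 : R 0 1 + R 0 3 - R 1 3 = 2 * (fa R * ff R) := by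
    rw [fa_ff hR]; unfold g13; ring
  have h23 : R 0 2 + R 0 3 - R 2 3 = 2 * (fe R * fh R + fb R * ff R) := by
    rw [fe_fh hR]; unfold g23; ring
  rw [h12, h13, h23] at h1
  have h2 : R 0 2 = fe R ^ 2 + fb R ^ 2 := by rw [fe_sq hR]; ring
  rw [← fa_sq hR, h2] at h1
  have h3 : x ^ 2 * fa R ^ 2 + y ^ 2 * (fe R ^ 2 + fb R ^ 2) + 1 ^ 2 * R 0 3 +
      x * y * (2 * (fa R * fb R)) + x * 1 * (2 * (fa R * ff R)) +
      y * 1 * (2 * (fe R * fh R + fb R * ff R)) =
      (fa R * x + fb R * y + ff R) ^ 2 + (fe R * y + fh R) ^ 2 +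
        (R 0 3 - ff R ^ 2 - fh R ^ 2) := by ring
  rw [h3, hx, hy] at h1
  linarith

theorem fw_sq (hR : Good R) : fw R ^ 2 = R 0 3 - ff R ^ 2 - fh R ^ 2 :=
  Real.sq_sqrt (r3 hR).le

theorem norm_sub (hR : Good R) (i j : Fin 4) : ‖qq R i - qq R j‖ ^ 2 = R i j := by
  have ha2 := fa_sq hR
  have hab := fa_fb hR
  have haf := fa_ff hR
  have he2 := fe_sq hR
  have heh := fe_fh hR
  have hw2 := fw_sq hR
  unfold g12 at hab
  unfold g13 at haf
  unfold g23 at heh
  rw [EuclideanSpace.real_norm_sq_eq, Fin.sum_univ_three]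
  have d := hR.diag
  fin_cases i <;> fin_cases j <;> simp [qq, d]
  · linear_combination ha2
  · linear_combination he2
  · linear_combination hw2
  · rw [hR.symm 1 0]; linear_combination ha2
  · linear_combination ha2 - 2 * hab + he2
  · linear_combination ha2 - 2 * haf + hw2
  · rw [hR.symm 2 0]; linear_combination he2
  · rw [hR.symm 2 1]; linear_combination ha2 - 2 * hab + he2
  · linear_combination he2 - 2 * heh + hw2
  · rw [hR.symm 3 0]; linear_combination hw2
  · rw [hR.symm 3 1]; linear_combination ha2 - 2 * haf + hw2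
  · rw [hR.symm 3 2]; linear_combination he2 - 2 * heh + hw2

theorem cont_entry (i j : Fin 4) : ContinuousOn (fun R : Fin 4 → Fin 4 → ℝ => R i j)
    {R | Good R} :=
  ((continuous_apply j).comp (continuous_apply i)).continuousOn

theorem cont_g12 : ContinuousOn g12 {R | Good R} := by
  unfold g12
  exact (((cont_entry 0 1).add (cont_entry 0 2)).sub (cont_entry 1 2)).div_const 2

theorem cont_g13 : ContinuousOn g13 {R | Good R} := by
  unfold g13
  exact (((cont_entry 0 1).add (cont_entry 0 3)).sub (cont_entry 1 3)).div_const 2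

theorem cont_g23 : ContinuousOn g23 {R | Good R} := by
  unfold g23
  exact (((cont_entry 0 2).add (cont_entry 0 3)).sub (cont_entry 2 3)).div_const 2

theorem cont_fa : ContinuousOn fa {R | Good R} := (cont_entry 0 1).sqrt

theorem cont_fb : ContinuousOn fb {R | Good R} :=
  cont_g12.div cont_fa fun _ hR => (fa_pos hR).ne'

theorem cont_fe : ContinuousOn fe {R | Good R} := ((cont_entry 0 2).sub (cont_fb.pow 2)).sqrt

theorem cont_ff : ContinuousOn ff {R | Good R} :=
  cont_g13.div cont_fa fun _ hR => (fa_pos hR).ne'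

theorem cont_fh : ContinuousOn fh {R | Good R} :=
  (cont_g23.sub (cont_fb.mul cont_ff)).div cont_fe fun _ hR => (fe_pos hR).ne'

theorem cont_fw : ContinuousOn fw {R | Good R} :=
  (((cont_entry 0 3).sub (cont_ff.pow 2)).sub (cont_fh.pow 2)).sqrt

theorem cont_vec {u v w : (Fin 4 → Fin 4 → ℝ) → ℝ} {S : Set (Fin 4 → Fin 4 → ℝ)}
    (hu : ContinuousOn u S) (hv : ContinuousOn v S) (hw : ContinuousOn w S) :
    ContinuousOn (fun R => (!₂[u R, v R, w R] : EuclideanSpace ℝ (Fin 3))) S := by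
  refine (PiLp.continuous_toLp 2 _).comp_continuousOn (continuousOn_pi.2 fun i => ?_)
  fin_cases i
  · exact hu
  · exact hv
  · exact hw

theorem cont_qq : ContinuousOn qq {R | Good R} := by
  refine continuousOn_pi.2 fun i => ?_
  fin_cases i
  · exact cont_vec continuousOn_const continuousOn_const continuousOn_const
  · exact cont_vec cont_fa continuousOn_const continuousOn_const
  · exact cont_vec cont_fb cont_fe continuousOn_const
  · exact cont_vec cont_ff cont_fh cont_fw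

end CholAux

theorem chol : ∃ q : (Fin 4 → Fin 4 → ℝ) → Fin 4 → EuclideanSpace ℝ (Fin 3),
    ContinuousOn q {R | Good R} ∧ ∀ R, Good R → ∀ i j, ‖q R i - q R j‖ ^ 2 = R i j :=
  ⟨CholAux.qq, CholAux.cont_qq, fun _ hR i j => CholAux.norm_sub hR i j⟩

namespace CholAux

theorem exists_eps (R₀ : Fin 4 → Fin 4 → ℝ) (h : Pos4 R₀) :
    ∃ ε > 0, ∀ c : Fin 4 → ℝ, ∑ i, c i = 0 →
      ∑ i, ∑ j, c i * c j * R₀ i j ≤ -ε * ∑ i, c i ^ 2 := by
  set S : Set (Fin 4 → ℝ) := {c | ∑ i, c i = 0 ∧ ∑ i, c i ^ 2 = 1} with hS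
  have hclosed : IsClosed S := by
    refine IsClosed.inter (isClosed_eq (by fun_prop) continuous_const)
      (isClosed_eq (by fun_prop) continuous_const)
  have hbdd : Bornology.IsBounded S := by
    refine (Metric.isBounded_closedBall (x := (0 : Fin 4 → ℝ)) (r := 1)).subset ?_
    intro c hc
    rw [mem_closedBall_zero_iff, pi_norm_le_iff_of_nonneg zero_le_one]
    intro i
    have h1 : c i ^ 2 ≤ 1 := by
      rw [← hc.2]
      exact Finset.single_le_sum (f := fun i => c i ^ 2) (fun i _ => sq_nonneg _)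
        (Finset.mem_univ i)
    rw [Real.norm_eq_abs]
    exact abs_le_one_iff_mul_self_le_one.2 (by nlinarith)
  have hcomp : IsCompact S := Metric.isCompact_of_isClosed_isBounded hclosed hbdd
  have hne : S.Nonempty := by
    refine ⟨![√(1 / 2), -√(1 / 2), 0, 0], ?_, ?_⟩
    · simp [Fin.sum_univ_four]
    · have : (√(1 / 2) : ℝ) ^ 2 = 1 / 2 := Real.sq_sqrt (by norm_num)
      simp only [Fin.sum_univ_four]
      show √(1 / 2) ^ 2 + (-√(1 / 2)) ^ 2 + 0 ^ 2 + 0 ^ 2 = (1 : ℝ)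
      rw [neg_sq, this]
      norm_num
  obtain ⟨m, hm, hmax⟩ := hcomp.exists_isMaxOn hne
    (f := fun c : Fin 4 → ℝ => ∑ i, ∑ j, c i * c j * R₀ i j) (by fun_prop)
  have hmneg : ∑ i, ∑ j, m i * m j * R₀ i j < 0 := by
    refine h m hm.1 ?_
    intro h0
    have := hm.2
    rw [h0] at this
    simp at this
  refine ⟨-(∑ i, ∑ j, m i * m j * R₀ i j), by linarith, fun c hc => ?_⟩
  rw [neg_neg]
  by_cases hc0 : ∑ i, c i ^ 2 = 0
  · have h1 : ∀ i, c i = 0 := by
      intro i
      have := (Finset.sum_eq_zero_iff_of_nonneg (fun i _ => sq_nonneg (c i))).1 hc0 i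
        (Finset.mem_univ i)
      exact pow_eq_zero_iff (two_ne_zero) |>.1 this
    rw [hc0]
    simp [h1]
  · have hpos : 0 < ∑ i, c i ^ 2 :=
      lt_of_le_of_ne (Finset.sum_nonneg fun i _ => sq_nonneg _) (Ne.symm hc0)
    set n : ℝ := √(∑ i, c i ^ 2) with hn
    have hn0 : 0 < n := Real.sqrt_pos.2 hpos
    have hn2 : n ^ 2 = ∑ i, c i ^ 2 := Real.sq_sqrt hpos.le
    have hmem : (fun i => c i / n) ∈ S := by
      refine ⟨?_, ?_⟩
      · rw [← Finset.sum_div, hc, zero_div]
      · have : ∀ i, (c i / n) ^ 2 = c i ^ 2 / n ^ 2 := fun i => div_pow _ _ _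
        simp only [this]
        rw [← Finset.sum_div, ← hn2, div_self (by positivity)]
    have h1 := hmax hmem
    simp only [Set.mem_setOf_eq] at h1
    have h2 : ∑ i, ∑ j, c i / n * (c j / n) * R₀ i j =
        (∑ i, ∑ j, c i * c j * R₀ i j) / n ^ 2 := by
      rw [Finset.sum_div]
      refine Finset.sum_congr rfl fun i _ => ?_
      rw [Finset.sum_div]
      refine Finset.sum_congr rfl fun j _ => ?_
      field_simp
    rw [h2, div_le_iff₀ (by positivity), hn2] at h1
    exact h1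

end CholAux

theorem pos4_open (R₀ : Fin 4 → Fin 4 → ℝ) (h : Pos4 R₀) :
    ∃ δ > 0, ∀ R : Fin 4 → Fin 4 → ℝ, (∀ i j, |R i j - R₀ i j| ≤ δ) → Pos4 R := by
  obtain ⟨ε, hε, hb⟩ := CholAux.exists_eps R₀ h
  refine ⟨ε / 8, by positivity, fun R hR c hc hc0 => ?_⟩
  have hpos : 0 < ∑ i, c i ^ 2 := by
    refine lt_of_le_of_ne (Finset.sum_nonneg fun i _ => sq_nonneg _) ?_
    intro h0
    apply hc0
    funext i
    have := (Finset.sum_eq_zero_iff_of_nonneg (fun i _ => sq_nonneg (c i))).1 h0.symm i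
      (Finset.mem_univ i)
    exact pow_eq_zero_iff (two_ne_zero) |>.1 this
  have h1 := hb c hc
  have h2 : ∑ i, ∑ j, c i * c j * R i j - ∑ i, ∑ j, c i * c j * R₀ i j ≤
      ε / 8 * (∑ i, |c i|) ^ 2 := by
    rw [← Finset.sum_sub_distrib, sq, Finset.sum_mul_sum, Finset.mul_sum]
    refine Finset.sum_le_sum fun i _ => ?_
    rw [← Finset.sum_sub_distrib, Finset.mul_sum]
    refine Finset.sum_le_sum fun j _ => ?_
    calc c i * c j * R i j - c i * c j * R₀ i j = c i * c j * (R i j - R₀ i j) := by ring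
      _ ≤ |c i * c j * (R i j - R₀ i j)| := le_abs_self _
      _ = |c i| * |c j| * |R i j - R₀ i j| := by rw [abs_mul, abs_mul]
      _ ≤ |c i| * |c j| * (ε / 8) :=
          mul_le_mul_of_nonneg_left (hR i j) (by positivity)
      _ = ε / 8 * (|c i| * |c j|) := by ring
  have h3 : (∑ i, |c i|) ^ 2 ≤ 4 * ∑ i, c i ^ 2 := by
    have := sq_sum_le_card_mul_sum_sq (s := (Finset.univ : Finset (Fin 4)))
      (f := fun i => |c i|)
    simpa [sq_abs] using this
  nlinarith [h1, h2, h3, hpos, hε]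

end P23F
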