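import Mathlib
import Pool.Agent.Lib.P23F.TypeBasic
import Pool.Agent.Lib.P23F.PMir

/-!
# Module P23F.Family : exact embeddings from a family in the limit space

PROOF.  Let `Q` be the cube.  For each `l` the set `{τ ∈ Q | τ l = -1}` is compact and
`τ ↦ Φ (p τ i - p τ j) ‖q τ i - q τ j‖ - d l` is continuous on `Q` and negative on it, so it is
`≤ -ε` there for some `ε > 0`; similarly `≥ ε` on `{τ l = 1}`.  Take one `ε > 0` for all `l`
(`Fin m` is finite).  Let `K` be the union over `l` of the images of `Q` under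
`τ ↦ p τ (pi l) - p τ (pj l)` (compact), and `R` a bound of `‖q τ (pi l) - q τ (pj l)‖` on `Q`.
`hΦ.approx K k R ε` gives `T`.  Put `P τ i := p τ i + T (q τ i)` and
`F τ l := ‖P τ (pi l) - P τ (pj l)‖ - d l`; `P τ (pi l) - P τ (pj l) = (p τ i - p τ j) +
T (q τ i - q τ j)`, so `|F τ l - (Φ (p τ i - p τ j) ‖q τ i - q τ j‖ - d l)| ≤ ε` on `Q`, `F` is
continuous on `Q` (`T` is continuous, finite dimension) and satisfies the sign conditions of
`poincare_miranda`; a zero `τ` gives `P τ`.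
-/

set_option autoImplicit false

namespace P23F

/-- a continuous function that is less than `a` on a compact set is at most `a - ε` there -/
private theorem exists_gap {α : Type*} [TopologicalSpace α] {S : Set α} (hS : IsCompact S)
    {f : α → ℝ} (hf : ContinuousOn f S) {a : ℝ} (h : ∀ x ∈ S, f x < a) :
    ∃ ε > 0, ∀ x ∈ S, f x ≤ a - ε := by
  rcases S.eq_empty_or_nonempty with rfl | hne
  · exact ⟨1, one_pos, by simp⟩
  · obtain ⟨x0, hx0, hmax⟩ := hS.exists_isMaxOn hne hf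
    refine ⟨a - f x0, by linarith [h x0 hx0], fun x hx => ?_⟩
    have h1 : f x ≤ f x0 := hmax hx
    linarith

private theorem exists_lower {m : ℕ} (f : Fin m → ℝ) (hf : ∀ l, 0 < f l) :
    ∃ ε > 0, ∀ l, ε ≤ f l := by
  have h : ∀ᶠ ε in nhdsWithin (0 : ℝ) (Set.Ioi 0), ∀ l, ε ≤ f l := by
    refine Filter.eventually_all.2 fun l => ?_
    filter_upwards [Ioo_mem_nhdsGT (hf l)] with ε hε
    exact hε.2.le
  obtain ⟨ε, h1, h2⟩ := (h.and self_mem_nhdsWithin).exists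
  exact ⟨ε, h2, h1⟩

theorem embed_of_family {X : Type*} [NormedAddCommGroup X] [NormedSpace ℝ X] {Φ : X → ℝ → ℝ}
    (hΦ : IsType Φ) {m k : ℕ} (pi pj : Fin m → Fin 4) (d : Fin m → ℝ)
    (p : (Fin m → ℝ) → Fin 4 → X) (q : (Fin m → ℝ) → Fin 4 → EuclideanSpace ℝ (Fin k))
    (hp : ContinuousOn p (Set.Icc (fun _ => -1) (fun _ => 1)))
    (hq : ContinuousOn q (Set.Icc (fun _ => -1) (fun _ => 1)))
    (hneg : ∀ τ ∈ Set.Icc (fun _ => (-1 : ℝ)) (fun _ => (1 : ℝ)), ∀ l : Fin m, τ l = -1 →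
      Φ (p τ (pi l) - p τ (pj l)) ‖q τ (pi l) - q τ (pj l)‖ < d l)
    (hpos : ∀ τ ∈ Set.Icc (fun _ => (-1 : ℝ)) (fun _ => (1 : ℝ)), ∀ l : Fin m, τ l = 1 →
      d l < Φ (p τ (pi l) - p τ (pj l)) ‖q τ (pi l) - q τ (pj l)‖) :
    ∃ P : Fin 4 → X, ∀ l, ‖P (pi l) - P (pj l)‖ = d l := by
  classical
  set Q : Set (Fin m → ℝ) := Set.Icc (fun _ => (-1 : ℝ)) (fun _ => (1 : ℝ)) with hQdef
  have hQ : IsCompact Q := isCompact_Icc
  have hp' : ∀ i, ContinuousOn (fun τ => p τ i) Q := fun i => (continuousOn_pi.1 hp) i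
  have hq' : ∀ i, ContinuousOn (fun τ => q τ i) Q := fun i => (continuousOn_pi.1 hq) i
  have hG : ∀ l, ContinuousOn
      (fun τ => Φ (p τ (pi l) - p τ (pj l)) ‖q τ (pi l) - q τ (pj l)‖) Q := by
    intro l
    exact hΦ.cont.comp_continuousOn
      (((hp' (pi l)).sub (hp' (pj l))).prodMk ((hq' (pi l)).sub (hq' (pj l))).norm)
  have hcl : ∀ (l : Fin m) (a : ℝ), IsCompact (Q ∩ {τ | τ l = a}) := fun l a =>
    hQ.inter_right (isClosed_eq (continuous_apply l) continuous_const)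
  have h1 : ∀ l, ∃ ε > 0, ∀ τ ∈ Q ∩ {τ | τ l = -1},
      Φ (p τ (pi l) - p τ (pj l)) ‖q τ (pi l) - q τ (pj l)‖ ≤ d l - ε := by
    intro l
    exact exists_gap (hcl l (-1)) ((hG l).mono Set.inter_subset_left)
      (fun τ hτ => hneg τ hτ.1 l hτ.2)
  have h2 : ∀ l, ∃ ε > 0, ∀ τ ∈ Q ∩ {τ | τ l = 1},
      -Φ (p τ (pi l) - p τ (pj l)) ‖q τ (pi l) - q τ (pj l)‖ ≤ -d l - ε := by
    intro l
    exact exists_gap (hcl l 1) (((hG l).mono Set.inter_subset_left).neg)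
      (fun τ hτ => neg_lt_neg (hpos τ hτ.1 l hτ.2))
  choose e1 he1 he1' using h1
  choose e2 he2 he2' using h2
  obtain ⟨ε1, hε1, hε1'⟩ := exists_lower e1 he1
  obtain ⟨ε2, hε2, hε2'⟩ := exists_lower e2 he2
  have hK : IsCompact (⋃ l, (fun τ => p τ (pi l) - p τ (pj l)) '' Q) :=
    isCompact_iUnion fun l => hQ.image_of_continuousOn ((hp' (pi l)).sub (hp' (pj l)))
  have hR : ∀ l, ∃ C : ℝ, ∀ τ ∈ Q, ‖q τ (pi l) - q τ (pj l)‖ ≤ C := fun l =>
    hQ.exists_bound_of_continuousOn ((hq' (pi l)).sub (hq' (pj l)))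
  choose C hC using hR
  obtain ⟨T, hT⟩ := hΦ.approx _ hK k (∑ l, |C l|) (min ε1 ε2) (lt_min hε1 hε2)
  have hTc : Continuous T := T.continuous_of_finiteDimensional
  have hkey : ∀ τ ∈ Q, ∀ l, |‖(p τ (pi l) + T (q τ (pi l))) - (p τ (pj l) + T (q τ (pj l)))‖ -
      Φ (p τ (pi l) - p τ (pj l)) ‖q τ (pi l) - q τ (pj l)‖| ≤ min ε1 ε2 := by
    intro τ hτ l
    have e : (p τ (pi l) + T (q τ (pi l))) - (p τ (pj l) + T (q τ (pj l))) =
        (p τ (pi l) - p τ (pj l)) + T (q τ (pi l) - q τ (pj l)) := by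
      rw [map_sub]
      abel
    rw [e]
    refine hT _ (Set.mem_iUnion.2 ⟨l, ⟨τ, hτ, rfl⟩⟩) _ ?_
    refine (hC l τ hτ).trans ((le_abs_self _).trans ?_)
    exact Finset.single_le_sum (f := fun l => |C l|) (fun i _ => abs_nonneg _)
      (Finset.mem_univ l)
  obtain ⟨τ, hτ, hz⟩ := poincare_miranda
    (fun τ l => ‖(p τ (pi l) + T (q τ (pi l))) - (p τ (pj l) + T (q τ (pj l)))‖ - d l)
    (by
      refine continuousOn_pi.2 fun l => ?_
      exact ((((hp' (pi l)).add (hTc.comp_continuousOn (hq' (pi l)))).sub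
        ((hp' (pj l)).add (hTc.comp_continuousOn (hq' (pj l))))).norm).sub continuousOn_const)
    (by
      intro τ hτ l hl
      have h3 := he1' l τ ⟨hτ, hl⟩
      have h4 := (abs_le.1 (hkey τ hτ l)).2
      have h5 := min_le_left ε1 ε2
      have h6 := hε1' l
      show _ - d l ≤ 0
      linarith)
    (by
      intro τ hτ l hl
      have h3 := he2' l τ ⟨hτ, hl⟩
      have h4 := (abs_le.1 (hkey τ hτ l)).1
      have h5 := min_le_right ε1 ε2
      have h6 := hε2' l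
      show 0 ≤ _ - d l
      linarith)
  exact ⟨fun i => p τ i + T (q τ i), fun l => by linarith [hz l]⟩

end P23F
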