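import Mathlib
import Pool.Agent.Lib.P23F.Family
import Pool.Agent.Lib.P23F.Chol

/-!
# Module P23F.VarA : interior solutions

PROOF.  Use `embed_of_family` with `m = 6`, `pi6`, `pj6`, `k = 3`, `d' l = d (pi6 l) (pj6 l)`.  For
`i ≠ j` we have `0 < R i j` (`Pos4` with `c = e_i - e_j`: the form is `-2 R i j < 0`).
Let `q₀` be the map of `chol`.  For `δ > 0` small and `τ` in the cube define the symmetric matrix
`Rτ i j = (√(R i j) + δ τ l)²` if `{i, j} = {pi6 l, pj6 l}`, `Rτ i i = 0`; it depends continuously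
on `τ`, and for small `δ` it is good (`pos4_open`) and `√(R i j) - δ > 0`.  Put `p τ = p`,
`q τ = q₀ Rτ`; `‖q τ i - q τ j‖ = √(R i j) + δ τ l`.
Sign conditions, with `x = p i - p j`, `r = √(R i j) > 0`, `Φ x r = d i j > ‖x‖`: for `τ l = -1`
`Φ x (r - δ) < Φ x r` by `IsType.strict`; for `τ l = 1` `Φ x r < Φ x (r + δ)` by
`IsType.strict'`.  The output of `embed_of_family` gives the claim for the six pairs, and the
symmetric ones follow from `norm_sub_rev` and `hd`.
(Every pair `i ≠ j` is `(pi6 l, pj6 l)` or `(pj6 l, pi6 l)` for some `l`: `decide`/`fin_cases`.)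
-/

set_option autoImplicit false

namespace P23F

namespace VarAAux

/-- the number of a pair -/
def ix : Fin 4 → Fin 4 → Fin 6 :=
  ![![0, 0, 1, 2], ![0, 0, 3, 4], ![1, 3, 0, 5], ![2, 4, 5, 0]]

theorem ix_symm : ∀ i j, ix i j = ix j i := by decide

theorem ix_pi : ∀ l, ix (pi6 l) (pj6 l) = l := by decide

theorem pi_ne : ∀ l, pi6 l ≠ pj6 l := by decide

theorem ix_cases : ∀ i j, i ≠ j →
    (pi6 (ix i j) = i ∧ pj6 (ix i j) = j) ∨ (pi6 (ix i j) = j ∧ pj6 (ix i j) = i) := by decide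

theorem pos_of_good {R : Fin 4 → Fin 4 → ℝ} (hR : Good R) {i j : Fin 4} (h : i ≠ j) :
    0 < R i j := by
  have h1 := hR.pos (fun k => (if k = i then 1 else 0) - (if k = j then 1 else 0)) ?_ ?_
  · have h2 : ∑ a, ∑ b, ((if a = i then (1 : ℝ) else 0) - (if a = j then 1 else 0)) *
        ((if b = i then (1 : ℝ) else 0) - (if b = j then 1 else 0)) * R a b =
        R i i - R i j - (R j i - R j j) := by
      simp only [sub_mul, mul_sub, Finset.sum_sub_distrib, ite_mul, one_mul, zero_mul,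
        Finset.sum_ite_eq', Finset.mem_univ, if_true, mul_ite, mul_one, mul_zero]
      ring
    rw [h2, hR.diag i, hR.diag j, hR.symm j i] at h1
    linarith
  · simp
  · intro h0
    have := congrFun h0 i
    simp [h] at this

/-- the deformed matrix -/
noncomputable def Rt (R : Fin 4 → Fin 4 → ℝ) (δ : ℝ) (τ : Fin 6 → ℝ) (i j : Fin 4) : ℝ :=
  if i = j then 0 else (√(R i j) + δ * τ (ix i j)) ^ 2

theorem continuous_Rt (R : Fin 4 → Fin 4 → ℝ) (δ : ℝ) : Continuous (Rt R δ) := by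
  refine continuous_pi fun i => continuous_pi fun j => ?_
  unfold Rt
  by_cases h : i = j
  · simp only [h, if_true]
    exact continuous_const
  · simp only [h, if_false]
    fun_prop

end VarAAux

open VarAAux in
theorem embed_A {X : Type*} [NormedAddCommGroup X] [NormedSpace ℝ X] {Φ : X → ℝ → ℝ}
    (hΦ : IsType Φ) (p : Fin 4 → X) (R : Fin 4 → Fin 4 → ℝ) (hR : Good R)
    (d : Fin 4 → Fin 4 → ℝ) (hd : ∀ i j, d i j = d j i)
    (h1 : ∀ i j, i ≠ j → Φ (p i - p j) √(R i j) = d i j)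
    (h2 : ∀ i j, i ≠ j → ‖p i - p j‖ < d i j) :
    ∃ P : Fin 4 → X, ∀ i j, i ≠ j → ‖P i - P j‖ = d i j := by
  obtain ⟨q₀, hq0c, hq0⟩ := chol
  obtain ⟨δ₁, hδ₁, hop⟩ := pos4_open R hR.pos
  have hRpos : ∀ i j, i ≠ j → 0 < R i j := fun i j h => pos_of_good hR h
  -- a lower bound for the square roots
  obtain ⟨l₀, -, hl₀⟩ := Finset.exists_min_image (Finset.univ : Finset (Fin 6))
    (fun l => √(R (pi6 l) (pj6 l))) ⟨0, Finset.mem_univ _⟩
  have hδ₂ : 0 < √(R (pi6 l₀) (pj6 l₀)) := Real.sqrt_pos.2 (hRpos _ _ (pi_ne l₀))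
  have hlow : ∀ i j, i ≠ j → √(R (pi6 l₀) (pj6 l₀)) ≤ √(R i j) := by
    intro i j hij
    have h3 := hl₀ (ix i j) (Finset.mem_univ _)
    rcases ix_cases i j hij with ⟨h4, h5⟩ | ⟨h4, h5⟩
    · simpa only [h4, h5] using h3
    · simp only [h4, h5] at h3
      rwa [hR.symm j i] at h3
  -- an upper bound
  set M : ℝ := ∑ i, ∑ j, √(R i j) with hM
  have hM0 : 0 ≤ M := Finset.sum_nonneg fun i _ => Finset.sum_nonneg fun j _ => Real.sqrt_nonneg _
  have hup : ∀ i j, √(R i j) ≤ M := by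
    intro i j
    have h3 : √(R i j) ≤ ∑ j, √(R i j) :=
      Finset.single_le_sum (f := fun j => √(R i j)) (fun j _ => Real.sqrt_nonneg _)
        (Finset.mem_univ j)
    have h4 : ∑ j, √(R i j) ≤ M :=
      Finset.single_le_sum (f := fun i => ∑ j, √(R i j))
        (fun i _ => Finset.sum_nonneg fun j _ => Real.sqrt_nonneg _) (Finset.mem_univ i)
    linarith
  obtain ⟨δ, hδ, hδa, hδb, hδc⟩ : ∃ δ : ℝ, 0 < δ ∧ δ ≤ 1 ∧ δ * (2 * M + 1) ≤ δ₁ ∧
      δ ≤ √(R (pi6 l₀) (pj6 l₀)) := by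
    have h3 : 0 < 2 * M + 1 := by linarith
    refine ⟨min 1 (min (δ₁ / (2 * M + 1)) √(R (pi6 l₀) (pj6 l₀))), ?_, min_le_left _ _, ?_, ?_⟩
    · exact lt_min one_pos (lt_min (div_pos hδ₁ h3) hδ₂)
    · rw [← le_div_iff₀ h3]
      exact (min_le_right _ _).trans (min_le_left _ _)
    · exact (min_le_right _ _).trans (min_le_right _ _)
  have hτ : ∀ τ ∈ Set.Icc (fun _ => (-1 : ℝ)) (fun _ : Fin 6 => (1 : ℝ)), ∀ l, |τ l| ≤ 1 := by
    intro τ hτ l
    exact abs_le.2 ⟨hτ.1 l, hτ.2 l⟩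
  have hgood : ∀ τ ∈ Set.Icc (fun _ => (-1 : ℝ)) (fun _ : Fin 6 => (1 : ℝ)),
      Good (Rt R δ τ) := by
    intro τ h
    refine ⟨fun i => by simp [Rt], fun i j => ?_, hop _ fun i j => ?_⟩
    · by_cases hij : i = j
      · simp [Rt, hij]
      · simp only [Rt, hij, Ne.symm hij, if_false]
        rw [hR.symm i j, ix_symm i j]
    · by_cases hij : i = j
      · subst hij
        simp [Rt, hR.diag i, hδ₁.le]
      · simp only [Rt, hij, if_false]
        have h3 : (√(R i j) + δ * τ (ix i j)) ^ 2 - R i j =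
            δ * (2 * √(R i j) * τ (ix i j) + δ * τ (ix i j) ^ 2) := by
          have h4 := Real.sq_sqrt (hRpos i j hij).le
          linear_combination h4
        have h5 := hτ τ h (ix i j)
        rw [h3, abs_mul, abs_of_pos hδ]
        have h6 : |2 * √(R i j) * τ (ix i j) + δ * τ (ix i j) ^ 2| ≤ 2 * M + 1 := by
          have h7 : |2 * √(R i j) * τ (ix i j)| ≤ 2 * M := by
            rw [abs_mul, abs_of_nonneg (by positivity)]
            have h8 := hup i j
            have h9 := Real.sqrt_nonneg (R i j)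
            nlinarith [abs_nonneg (τ (ix i j))]
          have h10 : |δ * τ (ix i j) ^ 2| ≤ 1 := by
            rw [abs_mul, abs_of_pos hδ, abs_pow]
            have h11 : |τ (ix i j)| ^ 2 ≤ 1 := pow_le_one₀ (abs_nonneg _) h5
            nlinarith [pow_nonneg (abs_nonneg (τ (ix i j))) 2]
          exact (abs_add_le _ _).trans (add_le_add h7 h10)
        exact (mul_le_mul_of_nonneg_left h6 hδ.le).trans hδb
  have hnorm : ∀ τ ∈ Set.Icc (fun _ => (-1 : ℝ)) (fun _ : Fin 6 => (1 : ℝ)), ∀ l,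
      ‖q₀ (Rt R δ τ) (pi6 l) - q₀ (Rt R δ τ) (pj6 l)‖ =
        √(R (pi6 l) (pj6 l)) + δ * τ l := by
    intro τ h l
    have h3 := hq0 _ (hgood τ h) (pi6 l) (pj6 l)
    simp only [Rt, pi_ne l, if_false, ix_pi l] at h3
    have h4 : 0 ≤ √(R (pi6 l) (pj6 l)) + δ * τ l := by
      have h5 := hlow _ _ (pi_ne l)
      have h6 := (abs_le.1 (hτ τ h l)).1
      nlinarith
    exact (sq_eq_sq₀ (norm_nonneg _) h4).1 h3
  obtain ⟨P, hP⟩ := embed_of_family hΦ (m := 6) (k := 3) pi6 pj6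
    (fun l => d (pi6 l) (pj6 l)) (fun _ => p) (fun τ => q₀ (Rt R δ τ)) continuousOn_const
    (hq0c.comp (continuous_Rt R δ).continuousOn fun τ h => hgood τ h)
    (by
      intro τ h l hl
      rw [hnorm τ h l, hl, ← h1 _ _ (pi_ne l)]
      have h5 := hlow _ _ (pi_ne l)
      have h6 : ‖p (pi6 l) - p (pj6 l)‖ < Φ (p (pi6 l) - p (pj6 l)) √(R (pi6 l) (pj6 l)) := by
        rw [h1 _ _ (pi_ne l)]
        exact h2 _ _ (pi_ne l)
      exact hΦ.strict _ (by linarith) (by linarith) h6)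
    (by
      intro τ h l hl
      rw [hnorm τ h l, hl, ← h1 _ _ (pi_ne l)]
      have h6 : ‖p (pi6 l) - p (pj6 l)‖ < Φ (p (pi6 l) - p (pj6 l)) √(R (pi6 l) (pj6 l)) := by
        rw [h1 _ _ (pi_ne l)]
        exact h2 _ _ (pi_ne l)
      exact hΦ.strict' _ (Real.sqrt_nonneg _) (by linarith) h6)
  refine ⟨P, fun i j hij => ?_⟩
  have h3 := hP (ix i j)
  rcases ix_cases i j hij with ⟨h4, h5⟩ | ⟨h4, h5⟩
  · simpa only [h4, h5] using h3
  · simp only [h4, h5] at h3
    rw [norm_sub_rev, h3, hd]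

end P23F
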