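import Mathlib
import Pool.Agent.Lib.P23F.Wts
import Pool.Agent.Lib.P23F.PDlem
import Pool.Agent.Lib.P23F.VarA
import Pool.Agent.Lib.P23d34e.EmbedY

/-!
# Module P23F.CaseA : all sections Euclidean, non-embedding implies the parallelogram law

PROOF.  (1) For every real linear `T : ℂ →ₗ[ℝ] X`: `β(T) := ∑ i, ∑ j, μ i μ j ‖T (a i - a j)‖² ≤ 0`.
Suppose `β(T) > 0`.  For small `ε > 0` let `p i = ε • T (a i)`,
`R i j = ‖a_ij‖² - ε² ‖T a_ij‖²`; `pd_lemma` with `m = 1`, `c0 = α = 0`, `w = 0`,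
`f i j = ε² ‖T a_ij‖²`: `|f| ≤ η` for small `ε`, `C ∑ f² = ε⁴ (..) < ε² β(T) = ∑ μ μ f` for small `ε`.
So `R` is `Good`; it is positive off the diagonal, `Φ (p i - p j) √(R i j) = ‖a_ij‖` by `hE`
(square: `‖p i - p j‖² + R i j = ‖a_ij‖²`) and `‖p i - p j‖ < ‖a_ij‖` because `R i j > 0`.
`embed_A` gives an embedding, contradicting `hno`.
(2) `β(T) = 0` for all `T`.  For `θ` let `T_θ z = T (exp (i θ) z)`.  With `a_ij = ‖a_ij‖ exp (i φ_ij)`
`∫_0^{2π} ‖T_θ a_ij‖² dθ = ‖a_ij‖² ∫_0^{2π} ‖T (exp (i θ))‖² dθ` (periodicity), so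
`∫_0^{2π} β(T_θ) dθ = (∑ μ i μ j ‖a_ij‖²) * (..) = 0` (`wt_sum`).  `θ ↦ β(T_θ)` is continuous and
`≤ 0` by (1) with integral `0`, so it is `0` everywhere; `θ = 0`.
(3) Suppose the parallelogram law fails.  `flexible_two` (namespace `Pool.Agent.Lib.P23d34e`,
file EmbedY) gives `Flexible 2 X`, i.e. `x, y : X` such that `t ↦ ‖x + t y‖ ^ 2` is not a polynomial
(real power `2 = (2:ℝ≥0∞).toReal`).  Let `i₀ ≠ j₀` with `0 < μ i₀ μ j₀`, `v₀ = a i₀ - a j₀`.  By (2) with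
`T z = ip ξ z • x + ip ζ z • y` (`ξ, ζ ∈ ℂ`):
`∑ i, ∑ j, μ i μ j ‖ip ξ a_ij • x + ip ζ a_ij • y‖² = 0` for all `ξ, ζ`.  Choose `ξ` with
`ip ξ v₀ = 1`.  By `par_partner` only the pairs `(i₀, j₀)`, `(j₀, i₀)` are parallel to `v₀`; together they
contribute `2 μ i₀ μ j₀ ‖x + ip ζ v₀ • y‖²`.  All other terms with `a_ij ≠ 0` are functions of
`ip ζ w`, `w = a_ij` not parallel to `v₀`; collect them by the value of `w` (finite set `W` of
vectors) and apply `diff_zero` (file Frechet; `E = ℂ`, real inner product `⟪ζ, w⟫ = ip ζ w`,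
`d = v₀`; for every `w ∈ W` there is `e` with `⟪e, w⟫ = 0`, `⟪e, v₀⟫ = 1`) and `frechet` to
`G t = 2 μ i₀ μ j₀ ‖x + t y‖²`: it is a polynomial; divide by `2 μ i₀ μ j₀ ≠ 0`: contradiction.
(The proof of `indepY` in file Frechet is the model.)
-/

set_option autoImplicit false

namespace P23F

open Finset Set MeasureTheory intervalIntegral
open scoped InnerProductSpace RealInnerProductSpace ENNReal

private theorem type_nonneg {X : Type*} [NormedAddCommGroup X] [NormedSpace ℝ X] {Φ : X → ℝ → ℝ}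
    (hΦ : IsType Φ) (x : X) (r : ℝ) : 0 ≤ Φ x r := by
  have h1 := hΦ.add_le x (-x) r (-r)
  have h2 := hΦ.smul (-1) x r
  have h3 := hΦ.zero_right (0 : X)
  rw [neg_one_smul, neg_one_mul, abs_neg, abs_one, one_mul] at h2
  rw [add_neg_cancel, add_neg_cancel, h2, h3, norm_zero] at h1
  linarith

private theorem pos_off {R : Fin 4 → Fin 4 → ℝ} (hR : Good R) {i j : Fin 4} (hij : i ≠ j) :
    0 < R i j := by
  have h1 := hR.pos (Pi.single i 1 - Pi.single j 1) (by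
    simp [Finset.sum_sub_distrib]) (by
    intro h
    have h2 := congrFun h i
    rw [Pi.sub_apply, Pi.single_eq_same, Pi.single_eq_of_ne hij] at h2
    simp at h2)
  have h2 : ∑ a, ∑ b, (Pi.single i 1 - Pi.single j 1 : Fin 4 → ℝ) a *
      (Pi.single i 1 - Pi.single j 1 : Fin 4 → ℝ) b * R a b =
      R i i - R i j - R j i + R j j := by
    simp only [Pi.sub_apply, Pi.single_apply, sub_mul, mul_sub, Finset.sum_sub_distrib,
      ite_mul, one_mul, zero_mul, mul_ite, mul_one, mul_zero, Finset.sum_ite_eq',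
      Finset.sum_ite_eq, Finset.mem_univ, if_true]
    ring
  rw [h2, hR.diag, hR.diag, hR.symm j i] at h1
  linarith

private theorem beta_le {X : Type*} [NormedAddCommGroup X] [NormedSpace ℝ X] {Φ : X → ℝ → ℝ}
    (hΦ : IsType Φ) (hE : ∀ x r, Φ x r ^ 2 = ‖x‖ ^ 2 + r ^ 2) (a : Fin 4 → ℂ) (μ : Fin 4 → ℝ)
    (hd : Dep a μ)
    (hno : ¬ ∃ P : Fin 4 → X, ∀ i j, i ≠ j → ‖P i - P j‖ = ‖a i - a j‖) (T : ℂ →ₗ[ℝ] X) :
    ∑ i, ∑ j, μ i * μ j * ‖T (a i - a j)‖ ^ 2 ≤ 0 := by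
  by_contra hcon
  rw [not_le] at hcon
  obtain ⟨β, hβ⟩ : ∃ β, β = ∑ i, ∑ j, μ i * μ j * ‖T (a i - a j)‖ ^ 2 := ⟨_, rfl⟩
  rw [← hβ] at hcon
  obtain ⟨η, hη, C, hC, hpd⟩ := pd_lemma a μ hd 1 one_pos
  obtain ⟨S1, hS1⟩ : ∃ S1, S1 = ∑ i, ∑ j, ‖T (a i - a j)‖ ^ 2 := ⟨_, rfl⟩
  obtain ⟨S2, hS2⟩ : ∃ S2, S2 = ∑ i, ∑ j, (‖T (a i - a j)‖ ^ 2) ^ 2 := ⟨_, rfl⟩
  have hS10 : 0 ≤ S1 := by
    rw [hS1]
    exact Finset.sum_nonneg fun i _ => Finset.sum_nonneg fun j _ => sq_nonneg _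
  have hS20 : 0 ≤ S2 := by
    rw [hS2]
    exact Finset.sum_nonneg fun i _ => Finset.sum_nonneg fun j _ => sq_nonneg _
  have hle1 : ∀ i j, ‖T (a i - a j)‖ ^ 2 ≤ S1 := by
    intro i j
    rw [hS1]
    refine le_trans ?_ (Finset.single_le_sum (f := fun i => ∑ j, ‖T (a i - a j)‖ ^ 2)
      (fun i _ => Finset.sum_nonneg fun j _ => sq_nonneg _) (Finset.mem_univ i))
    exact Finset.single_le_sum (f := fun j => ‖T (a i - a j)‖ ^ 2) (fun j _ => sq_nonneg _)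
      (Finset.mem_univ j)
  have hCS : 0 ≤ C * S2 := mul_nonneg hC.le hS20
  obtain ⟨t, ht0, ht1, ht2⟩ : ∃ t : ℝ, 0 < t ∧ t * S1 ≤ η ∧ t * (C * S2) < β := by
    refine ⟨min (η / (S1 + 1)) (β / (C * S2 + 1)), lt_min (by positivity) (by positivity), ?_, ?_⟩
    · refine (mul_le_mul_of_nonneg_right (min_le_left _ _) hS10).trans ?_
      rw [div_mul_eq_mul_div, div_le_iff₀ (by positivity)]
      nlinarith
    · refine (mul_le_mul_of_nonneg_right (min_le_right _ _) hCS).trans_lt ?_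
      rw [div_mul_eq_mul_div, div_lt_iff₀ (by positivity)]
      nlinarith
  have hpos := hpd 0 0 0 (fun z => by simp) (fun i j => t * ‖T (a i - a j)‖ ^ 2)
    (fun i j => by rw [← neg_sub (a j) (a i), map_neg, norm_neg])
    (fun i j => by
      rw [abs_of_nonneg (mul_nonneg ht0.le (sq_nonneg _))]
      exact (mul_le_mul_of_nonneg_left (hle1 i j) ht0.le).trans ht1)
    (by
      have e1 : ∑ i, ∑ j, (t * ‖T (a i - a j)‖ ^ 2) ^ 2 = t ^ 2 * S2 := by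
        rw [hS2, Finset.mul_sum]
        refine Finset.sum_congr rfl fun i _ => ?_
        rw [Finset.mul_sum]
        refine Finset.sum_congr rfl fun j _ => ?_
        ring
      have e2 : ∑ i, ∑ j, μ i * μ j * (t * ‖T (a i - a j)‖ ^ 2) = t * β := by
        rw [hβ, Finset.mul_sum]
        refine Finset.sum_congr rfl fun i _ => ?_
        rw [Finset.mul_sum]
        refine Finset.sum_congr rfl fun j _ => ?_
        ring
      rw [e1, e2]
      nlinarith)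
  obtain ⟨R, hRdef⟩ : ∃ R : Fin 4 → Fin 4 → ℝ, R = fun i j =>
    ‖a i - a j‖ ^ 2 - t * ‖T (a i - a j)‖ ^ 2 := ⟨_, rfl⟩
  have hR : Good R := by
    refine ⟨fun i => ?_, fun i j => ?_, ?_⟩
    · rw [hRdef]
      simp
    · rw [hRdef]
      show ‖a i - a j‖ ^ 2 - t * ‖T (a i - a j)‖ ^ 2 = ‖a j - a i‖ ^ 2 - t * ‖T (a j - a i)‖ ^ 2
      rw [← neg_sub (a j) (a i), map_neg, norm_neg, norm_neg]
    · rw [hRdef]
      have e : (fun i j => ‖a i - a j‖ ^ 2 - t * ‖T (a i - a j)‖ ^ 2) =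
          fun i j => (1 - 0) * ‖a i - a j‖ ^ 2 - 0 * ip 0 (a i - a j) ^ 2 -
            (fun i j => t * ‖T (a i - a j)‖ ^ 2) i j := by
        funext i j
        ring
      rw [e]
      exact hpos
  have hp : ∀ i j, (√t • T (a i) - √t • T (a j)) = √t • T (a i - a j) := by
    intro i j
    rw [map_sub, smul_sub]
  have hpn : ∀ i j, ‖√t • T (a i) - √t • T (a j)‖ ^ 2 = t * ‖T (a i - a j)‖ ^ 2 := by
    intro i j
    rw [hp, norm_smul, mul_pow, Real.norm_eq_abs, sq_abs, Real.sq_sqrt ht0.le]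
  apply hno
  refine embed_A hΦ (fun i => √t • T (a i)) R hR (fun i j => ‖a i - a j‖)
    (fun i j => norm_sub_rev _ _) ?_ ?_
  · intro i j hij
    have h0 := pos_off hR hij
    refine (sq_eq_sq₀ (type_nonneg hΦ _ _) (norm_nonneg _)).1 ?_
    rw [hE, Real.sq_sqrt h0.le, hpn, hRdef]
    ring
  · intro i j hij
    have h0 := pos_off hR hij
    refine lt_of_pow_lt_pow_left₀ 2 (norm_nonneg _) ?_
    rw [hpn]
    rw [hRdef] at h0
    simp only at h0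
    linarith

private theorem circle_int {X : Type*} [NormedAddCommGroup X] [NormedSpace ℝ X] (T : ℂ →ₗ[ℝ] X)
    (v : ℂ) :
    ∫ θ in (0 : ℝ)..2 * Real.pi, ‖T (Complex.exp (θ * Complex.I) * v)‖ ^ 2 =
      ‖v‖ ^ 2 * ∫ θ in (0 : ℝ)..2 * Real.pi, ‖T (Complex.exp (θ * Complex.I))‖ ^ 2 := by
  have hv : v = (‖v‖ : ℂ) * Complex.exp (Complex.arg v * Complex.I) :=
    (Complex.norm_mul_exp_arg_mul_I v).symm
  have h1 : ∀ θ : ℝ, ‖T (Complex.exp (θ * Complex.I) * v)‖ ^ 2 =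
      ‖v‖ ^ 2 * ‖T (Complex.exp ((θ + Complex.arg v : ℝ) * Complex.I))‖ ^ 2 := by
    intro θ
    have h2 : Complex.exp (θ * Complex.I) * v =
        ‖v‖ • Complex.exp ((θ + Complex.arg v : ℝ) * Complex.I) := by
      rw [Complex.real_smul]
      conv_lhs => rw [hv]
      push_cast
      rw [add_mul, Complex.exp_add]
      ring
    rw [h2, map_smul, norm_smul, mul_pow, norm_norm]
  simp only [h1]
  rw [intervalIntegral.integral_const_mul]
  congr 1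
  have hper : Function.Periodic (fun θ : ℝ => ‖T (Complex.exp (θ * Complex.I))‖ ^ 2)
      (2 * Real.pi) := by
    intro θ
    simp only
    congr 3
    have h3 : ((θ + 2 * Real.pi : ℝ) : ℂ) * Complex.I = θ * Complex.I + 2 * Real.pi * Complex.I := by
      push_cast
      ring
    rw [h3, Complex.exp_periodic]
  rw [intervalIntegral.integral_comp_add_right
    (fun θ : ℝ => ‖T (Complex.exp (θ * Complex.I))‖ ^ 2)]
  rw [zero_add, add_comm (2 * Real.pi)]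
  have h4 := hper.intervalIntegral_add_eq (Complex.arg v) 0
  rw [zero_add] at h4
  exact h4

private theorem beta_zero {X : Type*} [NormedAddCommGroup X] [NormedSpace ℝ X] {Φ : X → ℝ → ℝ}
    (hΦ : IsType Φ) (hE : ∀ x r, Φ x r ^ 2 = ‖x‖ ^ 2 + r ^ 2) (a : Fin 4 → ℂ) (μ : Fin 4 → ℝ)
    (hd : Dep a μ)
    (hno : ¬ ∃ P : Fin 4 → X, ∀ i j, i ≠ j → ‖P i - P j‖ = ‖a i - a j‖) (T : ℂ →ₗ[ℝ] X) :
    ∑ i, ∑ j, μ i * μ j * ‖T (a i - a j)‖ ^ 2 = 0 := by
  have hTc : Continuous T := T.continuous_of_finiteDimensional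
  obtain ⟨g, hg⟩ : ∃ g : ℝ → ℝ, g = fun θ : ℝ => ∑ i, ∑ j, μ i * μ j *
    ‖T (Complex.exp ((θ : ℂ) * Complex.I) * (a i - a j))‖ ^ 2 := ⟨_, rfl⟩
  have hterm : ∀ v : ℂ, Continuous fun θ : ℝ => ‖T (Complex.exp (θ * Complex.I) * v)‖ ^ 2 := by
    intro v
    fun_prop
  have hgc : Continuous g := by
    rw [hg]
    refine continuous_finset_sum _ fun i _ => continuous_finset_sum _ fun j _ => ?_
    exact continuous_const.mul (hterm _)
  have hgle : ∀ θ, g θ ≤ 0 := by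
    intro θ
    have h1 := beta_le hΦ hE a μ hd hno (T ∘ₗ LinearMap.mulLeft ℝ (Complex.exp (θ * Complex.I)))
    rw [hg]
    exact h1
  have hint : ∫ θ in (0 : ℝ)..2 * Real.pi, g θ = 0 := by
    rw [hg]
    rw [intervalIntegral.integral_finset_sum]
    · have h1 : ∀ i ∈ (Finset.univ : Finset (Fin 4)), ∫ θ in (0 : ℝ)..2 * Real.pi,
          ∑ j, μ i * μ j * ‖T (Complex.exp (θ * Complex.I) * (a i - a j))‖ ^ 2 =
          ∑ j, (μ i * μ j * ‖a i - a j‖ ^ 2) *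
            ∫ θ in (0 : ℝ)..2 * Real.pi, ‖T (Complex.exp (θ * Complex.I))‖ ^ 2 := by
        intro i _
        rw [intervalIntegral.integral_finset_sum]
        · refine Finset.sum_congr rfl fun j _ => ?_
          rw [intervalIntegral.integral_const_mul, circle_int]
          ring
        · intro j _
          exact (continuous_const.mul (hterm _)).intervalIntegrable _ _
      rw [Finset.sum_congr rfl h1]
      simp only [← Finset.sum_mul]
      have h2 := wt_sum hd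
      rw [Fintype.sum_prod_type] at h2
      unfold wt at h2
      simp only at h2
      rw [h2, zero_mul]
    · intro i _
      exact (continuous_finset_sum _ fun j _ =>
        continuous_const.mul (hterm _)).intervalIntegrable _ _
  have hg0 : g 0 = 0 := by
    by_contra hne
    have hlt : g 0 < 0 := lt_of_le_of_ne (hgle 0) hne
    have hp : (0 : ℝ) < 2 * Real.pi := by positivity
    have h2 : 0 < ∫ θ in (0 : ℝ)..2 * Real.pi, -g θ :=
      intervalIntegral.integral_pos hp hgc.neg.continuousOn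
        (fun θ _ => by have := hgle θ; linarith)
        ⟨0, ⟨le_refl _, hp.le⟩, by linarith⟩
    rw [intervalIntegral.integral_neg, hint, neg_zero] at h2
    exact lt_irrefl _ h2
  rw [hg] at hg0
  simp only [Complex.ofReal_zero, zero_mul, Complex.exp_zero, one_mul] at hg0
  exact hg0

/-- the linear map `z ↦ ⟪ξ, z⟫ x + ⟪ζ, z⟫ y` -/
private noncomputable def tmap {X : Type*} [NormedAddCommGroup X] [NormedSpace ℝ X] (ξ ζ : ℂ)
    (x y : X) : ℂ →ₗ[ℝ] X where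
  toFun z := ⟪ξ, z⟫ • x + ⟪ζ, z⟫ • y
  map_add' z w := by
    rw [inner_add_right, inner_add_right, add_smul, add_smul]
    abel
  map_smul' c z := by
    rw [inner_smul_right, inner_smul_right, RingHom.id_apply, smul_add, smul_smul, smul_smul]

theorem case_A {X : Type*} [NormedAddCommGroup X] [NormedSpace ℝ X] {Φ : X → ℝ → ℝ}
    (hΦ : IsType Φ) (hE : ∀ x r, Φ x r ^ 2 = ‖x‖ ^ 2 + r ^ 2) (a : Fin 4 → ℂ) (μ : Fin 4 → ℝ)
    (hg : Gen a) (hd : Dep a μ)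
    (hno : ¬ ∃ P : Fin 4 → X, ∀ i j, i ≠ j → ‖P i - P j‖ = ‖a i - a j‖) (x y : X) :
    ‖x + y‖ ^ 2 + ‖x - y‖ ^ 2 = 2 * (‖x‖ ^ 2 + ‖y‖ ^ 2) := by
  classical
  by_contra hpar
  obtain ⟨x, y, hxy⟩ : ∃ x y : X, ¬ ∃ P : Polynomial ℝ, ∀ t : ℝ, ‖x + t • y‖ ^ 2 = P.eval t := by
    rcases Pool.Agent.Lib.P23d34e.flexible_two ⟨x, y, hpar⟩ with ⟨h, -⟩ | ⟨-, x, y, h⟩
    · exact absurd h (by norm_num)
    · refine ⟨x, y, fun ⟨P, hP⟩ => h ⟨P, fun t => ?_⟩⟩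
      rw [← hP t, show (2 : ℝ≥0∞).toReal = ((2 : ℕ) : ℝ) by norm_num, Real.rpow_natCast]
  obtain ⟨i₀, j₀, hij, hμ⟩ := exists_same a μ hd
  have hv0 : a i₀ - a j₀ ≠ 0 := sub_ne_zero.2 (gen_ne a hg i₀ j₀ hij)
  obtain ⟨ξ₀, hξ₀⟩ : ∃ e : ℂ, ⟪e, a i₀ - a j₀⟫ = 1 := by
    refine ⟨(‖a i₀ - a j₀‖ ^ 2)⁻¹ • (a i₀ - a j₀), ?_⟩
    rw [inner_smul_left, real_inner_self_eq_norm_sq]
    have : 0 < ‖a i₀ - a j₀‖ := norm_pos_iff.2 hv0
    exact inv_mul_cancel₀ (by positivity)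
  obtain ⟨D0, hD0⟩ : ∃ D0 : Finset (Fin 4 × Fin 4), D0 = Finset.univ.filter fun q =>
    q.1 ≠ q.2 ∧ q ≠ (i₀, j₀) ∧ q ≠ (j₀, i₀) := ⟨_, rfl⟩
  obtain ⟨W, hW⟩ : ∃ W : Finset ℂ, W = D0.image fun q => a q.1 - a q.2 := ⟨_, rfl⟩
  have hdual : ∀ w ∈ W, ∃ e : ℂ, ⟪e, w⟫ = 0 ∧ ⟪e, a i₀ - a j₀⟫ = 1 := by
    intro w hw
    refine Pool.Agent.Lib.P23d34e.exists_dual hv0 fun c hc => ?_
    rw [hW] at hw
    obtain ⟨⟨k, l⟩, hq, hqw⟩ := Finset.mem_image.1 hw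
    rw [hD0] at hq
    obtain ⟨-, hkl, hq1, hq2⟩ := Finset.mem_filter.1 hq
    simp only at hkl hqw
    have hcr : cr (a i₀ - a j₀) (a k - a l) = 0 := by
      rw [hqw, hc]
      simp only [cr, Complex.smul_re, Complex.smul_im, smul_eq_mul]
      ring
    rcases par_partner a μ hg hd i₀ j₀ k l hij hkl hcr with ⟨h1, h2⟩ | ⟨h1, h2⟩ | ⟨h1, -⟩
    · exact hq1 (by rw [h1, h2])
    · exact hq2 (by rw [h1, h2])
    · have h3 : μ j₀ = -μ i₀ := by linarith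
      rw [h3] at hμ
      nlinarith [sq_nonneg (μ i₀)]
  have hkey : ∀ ζ : ℂ, (fun t : ℝ => 2 * (μ i₀ * μ j₀) * ‖x + t • y‖ ^ 2) ⟪ζ, a i₀ - a j₀⟫ +
      ∑ w ∈ W, (fun (w : ℂ) (t : ℝ) => ∑ q ∈ D0.filter (fun q => a q.1 - a q.2 = w),
        μ q.1 * μ q.2 * ‖⟪ξ₀, w⟫ • x + t • y‖ ^ 2) w ⟪ζ, w⟫ = 0 := by
    intro ζ
    have h1 := beta_zero hΦ hE a μ hd hno (tmap ξ₀ ζ x y)
    have h2 : ∑ i, ∑ j, μ i * μ j * ‖tmap ξ₀ ζ x y (a i - a j)‖ ^ 2 =
        ∑ q : Fin 4 × Fin 4, μ q.1 * μ q.2 * ‖tmap ξ₀ ζ x y (a q.1 - a q.2)‖ ^ 2 := by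
      rw [Fintype.sum_prod_type]
    rw [h2] at h1
    have h3 : ∑ w ∈ W, (fun (w : ℂ) (t : ℝ) => ∑ q ∈ D0.filter (fun q => a q.1 - a q.2 = w),
        μ q.1 * μ q.2 * ‖⟪ξ₀, w⟫ • x + t • y‖ ^ 2) w ⟪ζ, w⟫ =
        ∑ q ∈ D0, μ q.1 * μ q.2 * ‖tmap ξ₀ ζ x y (a q.1 - a q.2)‖ ^ 2 := by
      have hmaps : ∀ q ∈ D0, a q.1 - a q.2 ∈ W := fun q hq => by
        rw [hW]
        exact Finset.mem_image.2 ⟨q, hq, rfl⟩
      rw [← Finset.sum_fiberwise_of_maps_to hmaps]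
      refine Finset.sum_congr rfl fun w _ => ?_
      refine Finset.sum_congr rfl fun q hq => ?_
      rw [← (Finset.mem_filter.1 hq).2]
      rfl
    rw [h3]
    have hne : ((i₀, j₀) : Fin 4 × Fin 4) ≠ (j₀, i₀) := fun h => hij (congrArg Prod.fst h)
    have h4 : (Finset.univ : Finset (Fin 4 × Fin 4)) =
        ((D0 ∪ Finset.univ.filter fun q => q.1 = q.2) ∪ {(i₀, j₀), (j₀, i₀)}) := by
      ext q
      simp only [Finset.mem_univ, Finset.mem_union, Finset.mem_filter, Finset.mem_insert,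
        Finset.mem_singleton, true_and, true_iff, hD0]
      tauto
    have hdisj1 : Disjoint D0 (Finset.univ.filter fun q : Fin 4 × Fin 4 => q.1 = q.2) := by
      rw [hD0]
      refine Finset.disjoint_left.2 fun q hq hq' => ?_
      exact (Finset.mem_filter.1 hq).2.1 (Finset.mem_filter.1 hq').2
    have hdisj2 : Disjoint (D0 ∪ Finset.univ.filter fun q : Fin 4 × Fin 4 => q.1 = q.2)
        {(i₀, j₀), (j₀, i₀)} := by
      refine Finset.disjoint_left.2 fun q hq hq' => ?_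
      rw [Finset.mem_insert, Finset.mem_singleton] at hq'
      rcases Finset.mem_union.1 hq with hq | hq
      · rw [hD0] at hq
        have h5 := (Finset.mem_filter.1 hq).2
        rcases hq' with h6 | h6
        · exact h5.2.1 h6
        · exact h5.2.2 h6
      · have h5 := (Finset.mem_filter.1 hq).2
        rcases hq' with h6 | h6
        · rw [h6] at h5
          exact hij h5
        · rw [h6] at h5
          exact hij h5.symm
    rw [h4, Finset.sum_union hdisj2, Finset.sum_union hdisj1, Finset.sum_pair hne] at h1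
    have h5 : ∑ q ∈ Finset.univ.filter (fun q : Fin 4 × Fin 4 => q.1 = q.2),
        μ q.1 * μ q.2 * ‖tmap ξ₀ ζ x y (a q.1 - a q.2)‖ ^ 2 = 0 := by
      refine Finset.sum_eq_zero fun q hq => ?_
      rw [(Finset.mem_filter.1 hq).2, sub_self, map_zero, norm_zero]
      ring
    have h6 : tmap ξ₀ ζ x y (a i₀ - a j₀) = x + ⟪ζ, a i₀ - a j₀⟫ • y := by
      show ⟪ξ₀, a i₀ - a j₀⟫ • x + ⟪ζ, a i₀ - a j₀⟫ • y = _
      rw [hξ₀, one_smul]
    have h7 : ‖tmap ξ₀ ζ x y (a j₀ - a i₀)‖ = ‖x + ⟪ζ, a i₀ - a j₀⟫ • y‖ := by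
      rw [← neg_sub (a i₀) (a j₀), map_neg, norm_neg, h6]
    simp only [h5, h6, h7, add_zero] at h1
    simp only
    linarith
  have h1 := fun s => Pool.Agent.Lib.P23d34e.diff_zero ⟨ξ₀, hξ₀⟩ s W hdual
    (fun (w : ℂ) (t : ℝ) => ∑ q ∈ D0.filter (fun q => a q.1 - a q.2 = w),
        μ q.1 * μ q.2 * ‖⟪ξ₀, w⟫ • x + t • y‖ ^ 2)
    (fun t : ℝ => 2 * (μ i₀ * μ j₀) * ‖x + t • y‖ ^ 2) hkey
  obtain ⟨P, hP⟩ := Pool.Agent.Lib.P23d34e.frechet
    (G := fun t : ℝ => 2 * (μ i₀ * μ j₀) * ‖x + t • y‖ ^ 2) (by fun_prop) h1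
  apply hxy
  refine ⟨Polynomial.C (2 * (μ i₀ * μ j₀))⁻¹ * P, fun t => ?_⟩
  have h2 : 2 * (μ i₀ * μ j₀) ≠ 0 := by positivity
  rw [Polynomial.eval_mul, Polynomial.eval_C, ← hP t, inv_mul_cancel_left₀ h2]

end P23F
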