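import Mathlib
import Pool.Agent.Lib.P23F.Chord
import Pool.Agent.Lib.P23F.DiscInt

/-!
# Module P23F.DiscOrth : ridge Chebyshev polynomials on the disc

PROOF.  `disc_slices` with the unit vector `u`: for `w = (t + i s) u` one has `ip w u = t` and
`ip w v = t ip u v + s ip (i u) v = t cos φ + s sin φ` where `cos φ = ip u v`,
`sin φ = ip (i u) v` (the two numbers are the coordinates of the unit vector `v` in the orthonormal
basis `u, i u`; choose `φ` by `Complex.arg` or existence of an angle).  By `chord_integral` the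
inner integral is `U_m(t) * 2/(n+1) √(1-t²) U_n(t) U_n(cos φ)`, and `U_orth` gives
`2/(n+1) * (π/2) U_n(ip u v)` if `m = n`, else `0`.
-/

set_option autoImplicit false

open MeasureTheory Polynomial

namespace P23F

theorem disc_orth (u v : ℂ) (hu : ‖u‖ = 1) (hv : ‖v‖ = 1) (m n : ℕ) :
    ∫ w in Disc, (Chebyshev.U ℝ m).eval (ip w u) * (Chebyshev.U ℝ n).eval (ip w v) =
      if m = n then Real.pi / (n + 1) * (Chebyshev.U ℝ n).eval (ip u v) else 0 := by
  -- the angle
  have hz : ‖v * (starRingEnd ℂ) u‖ = 1 := by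
    rw [norm_mul, RCLike.norm_conj, hu, hv, mul_one]
  have hre : (v * (starRingEnd ℂ) u).re = ip u v := by
    simp [ip]
    ring
  have him : (v * (starRingEnd ℂ) u).im = u.re * v.im - u.im * v.re := by
    simp
    ring
  obtain ⟨φ, hφ⟩ : ∃ φ : ℝ, φ = Complex.arg (v * (starRingEnd ℂ) u) := ⟨_, rfl⟩
  have hzne : v * (starRingEnd ℂ) u ≠ 0 := by
    rw [← norm_ne_zero_iff, hz]
    exact one_ne_zero
  have hc : Real.cos φ = ip u v := by
    rw [hφ, Complex.cos_arg hzne, hz, div_one, hre]
  have hs : Real.sin φ = u.re * v.im - u.im * v.re := by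
    rw [hφ, Complex.sin_arg, hz, div_one, him]
  have hu2 : u.re * u.re + u.im * u.im = 1 := by
    have h1 : Complex.normSq u = 1 := by rw [Complex.normSq_eq_norm_sq, hu, one_pow]
    rw [Complex.normSq_apply] at h1
    exact h1
  have e1 : ∀ t s : ℝ, ip ((t + s * Complex.I) * u) u = t := by
    intro t s
    have : ip ((t + s * Complex.I) * u) u = t * (u.re * u.re + u.im * u.im) := by
      simp [ip]
      ring
    rw [this, hu2, mul_one]
  have e2 : ∀ t s : ℝ, ip ((t + s * Complex.I) * u) v = t * Real.cos φ + s * Real.sin φ := by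
    intro t s
    rw [hc, hs]
    simp [ip]
    ring
  have hcont : Continuous fun w : ℂ => (Chebyshev.U ℝ m).eval (ip w u) *
      (Chebyshev.U ℝ n).eval (ip w v) := by
    have h1 : ∀ u : ℂ, Continuous fun w : ℂ => ip w u := by
      intro u
      unfold ip
      fun_prop
    exact ((Chebyshev.U ℝ m).continuous.comp (h1 u)).mul
      ((Chebyshev.U ℝ n).continuous.comp (h1 v))
  rw [disc_slices _ hcont u hu]
  have e3 : ∀ t ∈ Set.uIcc (-1 : ℝ) 1, (∫ s in (-√(1 - t ^ 2))..√(1 - t ^ 2),
      (Chebyshev.U ℝ m).eval (ip ((t + s * Complex.I) * u) u) *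
        (Chebyshev.U ℝ n).eval (ip ((t + s * Complex.I) * u) v)) =
      (2 / (n + 1) * (Chebyshev.U ℝ n).eval (ip u v)) *
        ((Chebyshev.U ℝ m).eval t * (Chebyshev.U ℝ n).eval t * √(1 - t ^ 2)) := by
    intro t ht
    rw [Set.uIcc_of_le (by norm_num)] at ht
    have h1 := chord_integral n t φ (abs_le.2 ⟨ht.1, ht.2⟩)
    simp only [e1, e2]
    rw [intervalIntegral.integral_const_mul, h1, hc]
    ring
  rw [intervalIntegral.integral_congr e3, intervalIntegral.integral_const_mul, U_orth]
  split_ifs with h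
  · ring
  · rw [mul_zero]

end P23F
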