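import Mathlib
import Pool.Agent.Lib.P23F.Defs

/-!
# Module P23F.Vand : exponential sums of finitely many unit numbers

PROOF.  Let `Z` be the finite set of values of `z`, `#Z ≤ n`, and let `P` be the Lagrange basis
polynomial of `Z` at `z l₀` (`Lagrange.basis`): degree `< #Z ≤ n`, `P (z l₀) = 1`, `P = 0` at the
other points of `Z`; `P = ∑_{j < n} p_j X^j`.  For every `k : ℤ`
`∑_{j<n} p_j (∑ l, ω l z_l^(k + j)) = ∑ l, ω l z_l^k P(z_l) = (z l₀)^k W`,
`W = ∑_{z l = z l₀} ω l ≠ 0`.  Taking absolute values, Cauchy-Schwarz: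
`W² ≤ (∑ |p_j|²) (∑_{j<n} ‖∑ l, ω l z_l^(k+j)‖²)`; `c = W² / ∑ |p_j|²` (`P ≠ 0`).
-/

set_option autoImplicit false

namespace P23F

theorem vand_lower {ι : Type*} [Fintype ι] (ω : ι → ℝ) (z : ι → ℂ) (hz : ∀ l, ‖z l‖ = 1)
    (l₀ : ι) (hl : (∑ l ∈ Finset.univ.filter (fun l => z l = z l₀), ω l) ≠ 0) (n : ℕ)
    (hn : (Finset.univ.image z).card ≤ n) :
    ∃ c > 0, ∀ k : ℤ, c ≤ ∑ j ∈ Finset.range n, ‖∑ l, (ω l : ℂ) * z l ^ (k + j)‖ ^ 2 := by
  classical
  set Z : Finset ℂ := Finset.univ.image z with hZ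
  have hmem : ∀ l, z l ∈ Z := fun l => Finset.mem_image_of_mem z (Finset.mem_univ l)
  set P : Polynomial ℂ := Lagrange.basis Z id (z l₀) with hP
  have hinj : Set.InjOn (id : ℂ → ℂ) (Z : Set ℂ) := Function.injective_id.injOn
  have hP1 : P.eval (z l₀) = 1 := by
    have := Lagrange.eval_basis_self hinj (hmem l₀)
    simpa using this
  have hP0 : ∀ l, z l ≠ z l₀ → P.eval (z l) = 0 := by
    intro l hl'
    have := Lagrange.eval_basis_of_ne (v := (id : ℂ → ℂ)) (s := Z) (Ne.symm hl') (hmem l)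
    simpa using this
  have hdeg : P.natDegree < n := by
    have h1 : P.degree = ((Z.card - 1 : ℕ) : WithBot ℕ) := Lagrange.degree_basis hinj (hmem l₀)
    have h2 : P.natDegree = Z.card - 1 := Polynomial.natDegree_eq_of_degree_eq_some h1
    have h3 : 0 < Z.card := Finset.card_pos.2 ⟨z l₀, hmem l₀⟩
    omega
  have hz0 : ∀ l, z l ≠ 0 := by
    intro l h
    have := hz l
    rw [h, norm_zero] at this
    norm_num at this
  set W : ℝ := ∑ l ∈ Finset.univ.filter (fun l => z l = z l₀), ω l with hW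
  set A : ℝ := ∑ j ∈ Finset.range n, ‖P.coeff j‖ ^ 2 with hA
  have hA0 : 0 ≤ A := Finset.sum_nonneg fun j _ => sq_nonneg _
  refine ⟨W ^ 2 / (A + 1), div_pos (by positivity) (by positivity), ?_⟩
  intro k
  set T : ℕ → ℂ := fun j => ∑ l, (ω l : ℂ) * z l ^ (k + (j : ℤ)) with hT
  have key : ∑ j ∈ Finset.range n, P.coeff j * T j = z l₀ ^ k * (W : ℂ) := by
    have e1 : ∀ l, ∑ j ∈ Finset.range n, P.coeff j * ((ω l : ℂ) * z l ^ (k + (j : ℤ))) =
        (ω l : ℂ) * z l ^ k * P.eval (z l) := by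
      intro l
      rw [Polynomial.eval_eq_sum_range' hdeg, Finset.mul_sum]
      apply Finset.sum_congr rfl
      intro j _
      rw [zpow_add₀ (hz0 l), zpow_natCast]
      ring
    have e2 : ∑ j ∈ Finset.range n, P.coeff j * T j =
        ∑ l, (ω l : ℂ) * z l ^ k * P.eval (z l) := by
      simp only [hT, Finset.mul_sum]
      rw [Finset.sum_comm]
      exact Finset.sum_congr rfl fun l _ => e1 l
    rw [e2]
    have e3 : ∀ l, (ω l : ℂ) * z l ^ k * P.eval (z l) =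
        if z l = z l₀ then z l₀ ^ k * (ω l : ℂ) else 0 := by
      intro l
      by_cases h : z l = z l₀
      · rw [if_pos h, h, hP1]
        ring
      · rw [if_neg h, hP0 l h, mul_zero]
    rw [Finset.sum_congr rfl (fun l _ => e3 l), ← Finset.sum_filter, ← Finset.mul_sum, hW]
    push_cast
    rfl
  have hn1 : ‖z l₀ ^ k * (W : ℂ)‖ = |W| := by
    rw [norm_mul, norm_zpow, hz l₀, one_zpow, one_mul, Complex.norm_real, Real.norm_eq_abs]
  have h4 : |W| ≤ ∑ j ∈ Finset.range n, ‖P.coeff j‖ * ‖T j‖ := by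
    rw [← hn1, ← key]
    refine (norm_sum_le _ _).trans (le_of_eq ?_)
    exact Finset.sum_congr rfl fun j _ => norm_mul _ _
  have h5 : W ^ 2 ≤ A * ∑ j ∈ Finset.range n, ‖T j‖ ^ 2 := by
    have h6 := Finset.sum_mul_sq_le_sq_mul_sq (Finset.range n) (fun j => ‖P.coeff j‖)
      (fun j => ‖T j‖)
    have h7 : W ^ 2 ≤ (∑ j ∈ Finset.range n, ‖P.coeff j‖ * ‖T j‖) ^ 2 := by
      rw [← sq_abs W]
      exact pow_le_pow_left₀ (abs_nonneg _) h4 2
    exact h7.trans h6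
  have h8 : 0 ≤ ∑ j ∈ Finset.range n, ‖T j‖ ^ 2 := Finset.sum_nonneg fun j _ => sq_nonneg _
  rw [div_le_iff₀ (by positivity)]
  calc W ^ 2 ≤ A * ∑ j ∈ Finset.range n, ‖T j‖ ^ 2 := h5
    _ ≤ (∑ j ∈ Finset.range n, ‖T j‖ ^ 2) * (A + 1) := by nlinarith

end P23F
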