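import Mathlib
import Pool.Agent.Lib.P23F.Vand

/-!
# Module P23F.Lam : the numbers `lam ω u n`

PROOF of `lam_expand`.  For unit numbers `u, v` put `q = u * conj v = u * v⁻¹` (`‖q‖ = 1`), then
`ip u v = q.re` and `U_{2n}(q.re) = ∑_{j=0}^{2n} q^(2 (j - n))` (zpow; real, invariant under
`j → 2n - j`).  (Prove `U_n((q + q⁻¹)/2) = ∑_{j=0}^{n} q^(2 j - n)` by the recurrence
`U_{n+2}(t) = 2 t U_{n+1}(t) - U_n(t)`, or from `U_complex_cos` with `q = exp (i θ)` when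
`sin θ ≠ 0`.)  Hence, with `u_m⁻¹ = conj u_m`,
`lam ω u (2n) = ∑_j ∑_{l,m} ω l ω m u_l^(2(j-n)) conj(u_m^(2(j-n)))
= ∑_j ‖∑ l, ω l u_l^(2(j-n))‖²`.

`lam_nonneg` is immediate.  PROOF of `lam_lower`.  Apply `vand_lower` to `z l = u l ^ 2` with
`n := N = #ι ≥ 1` (bound for the image card): every block of `N` consecutive exponents contributes
at least `c₁`.  The exponents `j - n`, `j = 0..2n`, are `2n + 1` consecutive integers, so
`lam ω u (2n) ≥ c₁ ⌊(2n+1)/N⌋ ≥ c₁ (2n+1)/(2N)` if `2n + 1 ≥ N`.  For `n₀ ≤ n` with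
`2n + 1 < N` use the single exponent `j - n = k` (`0 ≤ k ≤ n₀ ≤ n`):
`lam ω u (2n) ≥ ‖∑ ω l u_l^(2k)‖² =: c₂ > 0 ≥ ... `, so `lam ≥ (c₂ / N) (2n + 1)`.
`c = min (c₁/(2N)) (c₂/N)`.
-/

set_option autoImplicit false

namespace P23F

namespace LamAux

theorem U_expand (q : ℂ) (hq : ‖q‖ = 1) (n : ℕ) :
    (((Polynomial.Chebyshev.U ℝ n).eval q.re : ℝ) : ℂ) =
      ∑ j ∈ Finset.range (n + 1), q ^ (2 * (j : ℤ) - n) := by
  have hq0 : q ≠ 0 := by
    intro h
    rw [h, norm_zero] at hq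
    norm_num at hq
  have h2 : (2 * q.re : ℂ) = q + q⁻¹ := by
    rw [Complex.inv_eq_conj hq, Complex.add_conj]
    push_cast
    ring
  have key : ∀ n : ℕ, (((Polynomial.Chebyshev.U ℝ n).eval q.re : ℝ) : ℂ) =
      ∑ j ∈ Finset.range (n + 1), q ^ (2 * (j : ℤ) - n) ∧
      (((Polynomial.Chebyshev.U ℝ (n + 1)).eval q.re : ℝ) : ℂ) =
      ∑ j ∈ Finset.range (n + 1 + 1), q ^ (2 * (j : ℤ) - (n + 1 : ℕ)) := by
    intro n
    induction n with
    | zero =>
      constructor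
      · simp
      · simp only [Nat.cast_zero, zero_add, Polynomial.Chebyshev.U_one]
        rw [Finset.sum_range_succ, Finset.sum_range_one]
        simp only [Polynomial.eval_mul, Polynomial.eval_ofNat, Polynomial.eval_X,
          Complex.ofReal_mul, Complex.ofReal_ofNat, h2]
        norm_num
        ring
    | succ n ih =>
      refine ⟨?_, ?_⟩
      · have := ih.2
        push_cast at this ⊢
        exact this
      · have e : ((n + 1 : ℕ) : ℤ) + 1 = (n : ℤ) + 2 := by push_cast; ring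
        rw [e, Polynomial.Chebyshev.U_add_two]
        simp only [Polynomial.eval_sub, Polynomial.eval_mul, Polynomial.eval_ofNat,
          Polynomial.eval_X, Complex.ofReal_sub, Complex.ofReal_mul, Complex.ofReal_ofNat, h2]
        rw [ih.2, ih.1]
        have a1 : (q + q⁻¹) * ∑ j ∈ Finset.range (n + 1 + 1), q ^ (2 * (j : ℤ) - (n + 1 : ℕ)) =
            ∑ j ∈ Finset.range (n + 1 + 1), q ^ (2 * (j : ℤ) - n) +
            ∑ j ∈ Finset.range (n + 1 + 1), q ^ (2 * (j : ℤ) - (n + 1 + 1 : ℕ)) := by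
          rw [Finset.mul_sum, ← Finset.sum_add_distrib]
          refine Finset.sum_congr rfl fun j _ => ?_
          have b1 : q ^ (2 * (j : ℤ) - n) = q * q ^ (2 * (j : ℤ) - (n + 1 : ℕ)) := by
            rw [← zpow_one_add₀ hq0]
            congr 1
            push_cast
            ring
          have b2 : q ^ (2 * (j : ℤ) - (n + 1 + 1 : ℕ)) =
              q⁻¹ * q ^ (2 * (j : ℤ) - (n + 1 : ℕ)) := by
            rw [← zpow_neg_one, ← zpow_add₀ hq0]
            congr 1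
            push_cast
            ring
          rw [b1, b2]
          ring
        rw [a1, Finset.sum_range_succ (fun j : ℕ => q ^ (2 * (j : ℤ) - n)) (n + 1),
          Finset.sum_range_succ (fun j : ℕ => q ^ (2 * (j : ℤ) - (n + 1 + 1 : ℕ))) (n + 1 + 1)]
        have a2 : q ^ (2 * ((n + 1 : ℕ) : ℤ) - n) =
            q ^ (2 * ((n + 1 + 1 : ℕ) : ℤ) - (n + 1 + 1 : ℕ)) := by
          congr 1
          push_cast
          ring
        rw [a2]
        ring
  exact (key n).1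

theorem U_pair (a b : ℂ) (ha : ‖a‖ = 1) (hb : ‖b‖ = 1) (n : ℕ) :
    (((Polynomial.Chebyshev.U ℝ ((2 * n : ℕ) : ℤ)).eval (ip a b) : ℝ) : ℂ) =
      ∑ j ∈ Finset.range (2 * n + 1),
        (a ^ 2) ^ ((j : ℤ) - n) * (starRingEnd ℂ) ((b ^ 2) ^ ((j : ℤ) - n)) := by
  have h1 : ip a b = (a * (starRingEnd ℂ) b).re := by
    unfold ip
    simp [Complex.mul_re]
  have h2 : ‖a * (starRingEnd ℂ) b‖ = 1 := by
    rw [norm_mul, Complex.norm_conj, ha, hb, one_mul]
  rw [h1, U_expand _ h2]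
  refine Finset.sum_congr rfl fun j _ => ?_
  have h3 : (2 * (j : ℤ) - ((2 * n : ℕ) : ℤ)) = 2 * ((j : ℤ) - n) := by
    push_cast
    ring
  rw [h3, zpow_mul, map_zpow₀, map_pow, ← mul_zpow]
  congr 1
  rw [← mul_pow]
  norm_cast

end LamAux

theorem lam_expand {ι : Type*} [Fintype ι] (ω : ι → ℝ) (u : ι → ℂ) (hu : ∀ l, ‖u l‖ = 1)
    (n : ℕ) : lam ω u (2 * n) =
      ∑ j ∈ Finset.range (2 * n + 1), ‖∑ l, (ω l : ℂ) * (u l ^ 2) ^ ((j : ℤ) - n)‖ ^ 2 := by
  apply Complex.ofReal_injective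
  unfold lam
  rw [Complex.ofReal_sum, Complex.ofReal_sum]
  have h1 : ∀ l, ((∑ m, ω l * ω m *
      (Polynomial.Chebyshev.U ℝ ((2 * n : ℕ) : ℤ)).eval (ip (u l) (u m)) : ℝ) : ℂ) =
      ∑ j ∈ Finset.range (2 * n + 1), ∑ m, ((ω l : ℂ) * (u l ^ 2) ^ ((j : ℤ) - n)) *
        (starRingEnd ℂ) ((ω m : ℂ) * (u m ^ 2) ^ ((j : ℤ) - n)) := by
    intro l
    rw [Finset.sum_comm, Complex.ofReal_sum]
    refine Finset.sum_congr rfl fun m _ => ?_
    rw [Complex.ofReal_mul, LamAux.U_pair (u l) (u m) (hu l) (hu m) n, Complex.ofReal_mul,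
      Finset.mul_sum]
    refine Finset.sum_congr rfl fun j _ => ?_
    rw [map_mul, Complex.conj_ofReal]
    ring
  rw [Finset.sum_congr rfl (fun l _ => h1 l), Finset.sum_comm]
  refine Finset.sum_congr rfl fun j _ => ?_
  rw [Complex.ofReal_pow, ← Complex.mul_conj', map_sum, Finset.sum_mul_sum]

theorem lam_nonneg {ι : Type*} [Fintype ι] (ω : ι → ℝ) (u : ι → ℂ) (hu : ∀ l, ‖u l‖ = 1)
    (n : ℕ) : 0 ≤ lam ω u (2 * n) := by
  rw [lam_expand ω u hu n]
  exact Finset.sum_nonneg fun j _ => by positivity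

theorem lam_lower {ι : Type*} [Fintype ι] (ω : ι → ℝ) (u : ι → ℂ) (hu : ∀ l, ‖u l‖ = 1)
    (l₀ : ι) (hl : (∑ l ∈ Finset.univ.filter (fun l => u l ^ 2 = u l₀ ^ 2), ω l) ≠ 0)
    (n₀ k : ℕ) (hk : k ≤ n₀) (hne : ∑ l, (ω l : ℂ) * u l ^ (2 * k) ≠ 0) :
    ∃ c > 0, ∀ n : ℕ, n₀ ≤ n → c * (2 * n + 1) ≤ lam ω u (2 * n) := by
  have hz : ∀ l, ‖u l ^ 2‖ = 1 := fun l => by rw [norm_pow, hu l, one_pow]
  obtain ⟨c₁, hc₁, h₁⟩ := vand_lower ω (fun l => u l ^ 2) hz l₀ hl (Fintype.card ι)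
    (le_trans Finset.card_image_le (le_of_eq Finset.card_univ))
  have hN : 0 < Fintype.card ι := Fintype.card_pos_iff.mpr ⟨l₀⟩
  set N := Fintype.card ι with hNdef
  set g : ℤ → ℝ := fun e => ‖∑ l, (ω l : ℂ) * (u l ^ 2) ^ e‖ ^ 2 with hg
  have hg0 : ∀ e, 0 ≤ g e := fun e => sq_nonneg _
  have hblock : ∀ (e : ℤ) (M : ℕ), M * c₁ ≤ ∑ j ∈ Finset.range (M * N), g ((j : ℤ) - e) := by
    intro e M
    induction M with
    | zero => simp
    | succ M ih =>
      rw [Nat.succ_mul, Finset.sum_range_add]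
      have h2 := h₁ (((M * N : ℕ) : ℤ) - e)
      have h3 : ∑ j ∈ Finset.range N, g (((M * N + j : ℕ) : ℤ) - e) =
          ∑ j ∈ Finset.range N, ‖∑ l, (ω l : ℂ) * (u l ^ 2) ^ (((M * N : ℕ) : ℤ) - e + j)‖ ^ 2 := by
        refine Finset.sum_congr rfl fun j _ => ?_
        have h4 : (((M * N + j : ℕ) : ℤ) - e) = (((M * N : ℕ) : ℤ) - e + j) := by
          push_cast
          ring
        rw [h4]
      rw [h3]
      push_cast at h2 ih ⊢
      linarith
  set c₂ : ℝ := ‖∑ l, (ω l : ℂ) * u l ^ (2 * k)‖ ^ 2 with hc₂def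
  have hc₂ : 0 < c₂ := by
    have : 0 < ‖∑ l, (ω l : ℂ) * u l ^ (2 * k)‖ := norm_pos_iff.mpr hne
    positivity
  have hNR : (0 : ℝ) < N := by exact_mod_cast hN
  refine ⟨min (c₁ / (2 * N)) (c₂ / N), lt_min (by positivity) (by positivity), ?_⟩
  intro n hn
  rw [lam_expand ω u hu n]
  change _ ≤ ∑ j ∈ Finset.range (2 * n + 1), g ((j : ℤ) - n)
  by_cases hcase : N ≤ 2 * n + 1
  · set M := (2 * n + 1) / N with hM
    have h5 : M * N ≤ 2 * n + 1 := Nat.div_mul_le_self _ _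
    have h6 : ∑ j ∈ Finset.range (M * N), g ((j : ℤ) - n) ≤
        ∑ j ∈ Finset.range (2 * n + 1), g ((j : ℤ) - n) :=
      Finset.sum_le_sum_of_subset_of_nonneg (Finset.range_mono h5) fun j _ _ => hg0 _
    have h7 := hblock n M
    have hM1 : 1 ≤ M := (Nat.one_le_div_iff hN).mpr hcase
    have h8 : 2 * n + 1 < N * (M + 1) := Nat.lt_mul_div_succ _ hN
    have h9 : 2 * n + 1 ≤ 2 * (M * N) := by nlinarith
    have h10 : (2 * (n : ℝ) + 1) ≤ 2 * (M * N) := by exact_mod_cast h9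
    calc min (c₁ / (2 * N)) (c₂ / N) * (2 * n + 1) ≤ c₁ / (2 * N) * (2 * n + 1) :=
          mul_le_mul_of_nonneg_right (min_le_left _ _) (by positivity)
      _ ≤ c₁ / (2 * N) * (2 * (M * N)) := mul_le_mul_of_nonneg_left h10 (by positivity)
      _ = M * c₁ := by field_simp
      _ ≤ _ := h7.trans h6
  · push Not at hcase
    have h5 : g (((n + k : ℕ) : ℤ) - n) ≤ ∑ j ∈ Finset.range (2 * n + 1), g ((j : ℤ) - n) :=
      Finset.single_le_sum (f := fun j : ℕ => g ((j : ℤ) - n)) (fun j _ => hg0 _)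
        (Finset.mem_range.mpr (by omega))
    have h6 : g (((n + k : ℕ) : ℤ) - n) = c₂ := by
      have h7 : (((n + k : ℕ) : ℤ) - n) = (k : ℤ) := by
        push_cast
        ring
      rw [h7, hg, hc₂def]
      simp only [zpow_natCast, ← pow_mul]
    have h8 : (2 * (n : ℝ) + 1) ≤ N := by exact_mod_cast hcase.le
    calc min (c₁ / (2 * N)) (c₂ / N) * (2 * n + 1) ≤ c₂ / N * (2 * n + 1) :=
          mul_le_mul_of_nonneg_right (min_le_right _ _) (by positivity)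
      _ ≤ c₂ / N * N := mul_le_mul_of_nonneg_left h8 (by positivity)
      _ = c₂ := by field_simp
      _ = g (((n + k : ℕ) : ℤ) - n) := h6.symm
      _ ≤ _ := h5

end P23F
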