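import Mathlib
import Pool.Agent.Lib.P23F.Lam
import Pool.Agent.Lib.P23F.DiscOrth

/-!
# Module P23F.CoerPoly : coercivity for finite Chebyshev sums

PROOF.  `h = ∑_{k<K} b k U_{2k}`.  By `disc_orth` (bilinearity)
`∫_{Disc} (∑ l, ω l h(ip w (u l)))² = ∑_k b_k² (π/(2k+1)) ∑_{l,m} ω l ω m U_{2k}(ip (u l) (u m))
= ∑_{k<K} b_k² π/(2k+1) lam ω u (2k)`.
By `U_orth`, `cb h (2k) = b k` for `k < K` and `= 0` for `k ≥ K`; so
`h - ∑_{k<n₀} cb h (2k) U_{2k} = ∑_{n₀ ≤ k < K} b_k U_{2k}` and (with `u = v = 1`, `ip w 1 = w.re`,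
`U_{2k}(1) = 2k+1`) `∫_{Disc} (..)² = ∑_{n₀ ≤ k < K} b_k² π`.  The claim follows from
`hlam` for `k ≥ n₀` and `lam_nonneg` for `k < n₀`.
-/

set_option autoImplicit false

open MeasureTheory Polynomial

namespace P23F

private theorem cont_ip (v : ℂ) : Continuous fun w : ℂ => ip w v := by
  unfold ip
  fun_prop

private theorem cont_V (k : ℕ) : Continuous fun t : ℝ =>
    (Chebyshev.U ℝ ((2 * k : ℕ) : ℤ)).eval t := Polynomial.continuous _

private theorem ridge_sq {ι : Type*} [Fintype ι] (ω : ι → ℝ) (u : ι → ℂ) (hu : ∀ l, ‖u l‖ = 1)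
    (K : ℕ) (b : ℕ → ℝ) :
    ∫ w in Disc, (∑ k ∈ Finset.range K, b k *
      ∑ l, ω l * (Chebyshev.U ℝ ((2 * k : ℕ) : ℤ)).eval (ip w (u l))) ^ 2 =
    ∑ k ∈ Finset.range K, b k ^ 2 * (Real.pi / (2 * k + 1)) * lam ω u (2 * k) := by
  have e1 : ∀ w : ℂ, (∑ k ∈ Finset.range K, b k *
      ∑ l, ω l * (Chebyshev.U ℝ ((2 * k : ℕ) : ℤ)).eval (ip w (u l))) ^ 2 =
      ∑ k ∈ Finset.range K, ∑ k' ∈ Finset.range K, ∑ l, ∑ m, (b k * b k' * ω l * ω m) *
        ((Chebyshev.U ℝ ((2 * k : ℕ) : ℤ)).eval (ip w (u l)) *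
          (Chebyshev.U ℝ ((2 * k' : ℕ) : ℤ)).eval (ip w (u m))) := by
    intro w
    rw [sq, Finset.sum_mul_sum]
    refine Finset.sum_congr rfl fun k _ => Finset.sum_congr rfl fun k' _ => ?_
    rw [mul_mul_mul_comm, Finset.sum_mul_sum, Finset.mul_sum]
    refine Finset.sum_congr rfl fun l _ => ?_
    rw [Finset.mul_sum]
    refine Finset.sum_congr rfl fun m _ => ?_
    ring
  have I : ∀ (k k' : ℕ) (l m : ι), Integrable (fun w : ℂ => (b k * b k' * ω l * ω m) *
        ((Chebyshev.U ℝ ((2 * k : ℕ) : ℤ)).eval (ip w (u l)) *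
          (Chebyshev.U ℝ ((2 * k' : ℕ) : ℤ)).eval (ip w (u m)))) (volume.restrict Disc) := by
    intro k k' l m
    have hc : Continuous (fun w : ℂ => (b k * b k' * ω l * ω m) *
        ((Chebyshev.U ℝ ((2 * k : ℕ) : ℤ)).eval (ip w (u l)) *
          (Chebyshev.U ℝ ((2 * k' : ℕ) : ℤ)).eval (ip w (u m)))) :=
      continuous_const.mul (((cont_V k).comp (cont_ip (u l))).mul
        ((cont_V k').comp (cont_ip (u m))))
    exact hc.continuousOn.integrableOn_compact (isCompact_closedBall 0 1)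
  simp_rw [e1]
  rw [integral_finsetSum _ (fun k _ => integrable_finsetSum _ fun k' _ =>
    integrable_finsetSum _ fun l _ => integrable_finsetSum _ fun m _ => I k k' l m)]
  refine Finset.sum_congr rfl fun k hk => ?_
  rw [integral_finsetSum _ (fun k' _ =>
    integrable_finsetSum _ fun l _ => integrable_finsetSum _ fun m _ => I k k' l m)]
  have e2 : ∀ k' ∈ Finset.range K, (∫ w in Disc, ∑ l, ∑ m, (b k * b k' * ω l * ω m) *
        ((Chebyshev.U ℝ ((2 * k : ℕ) : ℤ)).eval (ip w (u l)) *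
          (Chebyshev.U ℝ ((2 * k' : ℕ) : ℤ)).eval (ip w (u m)))) =
      if k = k' then b k ^ 2 * (Real.pi / (2 * k + 1)) * lam ω u (2 * k) else 0 := by
    intro k' _
    have e3 : (∫ w in Disc, ∑ l, ∑ m, (b k * b k' * ω l * ω m) *
        ((Chebyshev.U ℝ ((2 * k : ℕ) : ℤ)).eval (ip w (u l)) *
          (Chebyshev.U ℝ ((2 * k' : ℕ) : ℤ)).eval (ip w (u m)))) =
        ∑ l, ∑ m, (b k * b k' * ω l * ω m) * (if 2 * k = 2 * k' then
          Real.pi / (((2 * k' : ℕ) : ℝ) + 1) *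
            (Chebyshev.U ℝ ((2 * k' : ℕ) : ℤ)).eval (ip (u l) (u m)) else 0) := by
      rw [integral_finsetSum _ (fun l _ => integrable_finsetSum _ fun m _ => I k k' l m)]
      refine Finset.sum_congr rfl fun l _ => ?_
      rw [integral_finsetSum _ (fun m _ => I k k' l m)]
      refine Finset.sum_congr rfl fun m _ => ?_
      rw [integral_const_mul, disc_orth (u l) (u m) (hu l) (hu m) (2 * k) (2 * k')]
    rw [e3]
    by_cases h : k = k'
    · subst h
      rw [if_pos rfl]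
      unfold lam
      rw [Finset.mul_sum]
      refine Finset.sum_congr rfl fun l _ => ?_
      rw [Finset.mul_sum]
      refine Finset.sum_congr rfl fun m _ => ?_
      rw [if_pos rfl]
      push_cast
      ring
    · have h' : ¬ 2 * k = 2 * k' := by omega
      simp only [if_neg h, if_neg h', mul_zero, Finset.sum_const_zero]
  rw [Finset.sum_congr rfl e2, Finset.sum_ite_eq, if_pos hk]

theorem coer_poly {ι : Type*} [Fintype ι] (ω : ι → ℝ) (u : ι → ℂ) (hu : ∀ l, ‖u l‖ = 1)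
    (n₀ : ℕ) (c : ℝ) (hlam : ∀ n : ℕ, n₀ ≤ n → c * (2 * n + 1) ≤ lam ω u (2 * n))
    (K : ℕ) (b : ℕ → ℝ) (h : ℝ → ℝ)
    (hh : ∀ t, h t = ∑ k ∈ Finset.range K, b k * (Chebyshev.U ℝ ((2 * k : ℕ) : ℤ)).eval t) :
    c * ∫ w in Disc, (h w.re - ∑ k ∈ Finset.range n₀,
        cb h (2 * k) * (Chebyshev.U ℝ ((2 * k : ℕ) : ℤ)).eval w.re) ^ 2 ≤
      ∫ w in Disc, (∑ l, ω l * h (ip w (u l))) ^ 2 := by
  classical
  have hcb : ∀ k, cb h (2 * k) = if k < K then b k else 0 := by
    intro k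
    unfold cb
    have e1 : (∫ t in (-1 : ℝ)..1, h t * (Chebyshev.U ℝ ((2 * k : ℕ) : ℤ)).eval t *
        √(1 - t ^ 2)) = ∑ j ∈ Finset.range K, b j * (if 2 * j = 2 * k then Real.pi / 2 else 0) := by
      have e2 : (fun t : ℝ => h t * (Chebyshev.U ℝ ((2 * k : ℕ) : ℤ)).eval t * √(1 - t ^ 2)) =
          fun t => ∑ j ∈ Finset.range K, b j * ((Chebyshev.U ℝ ((2 * j : ℕ) : ℤ)).eval t *
            (Chebyshev.U ℝ ((2 * k : ℕ) : ℤ)).eval t * √(1 - t ^ 2)) := by
        funext t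
        rw [hh t, Finset.sum_mul, Finset.sum_mul]
        refine Finset.sum_congr rfl fun j _ => ?_
        ring
      rw [e2, intervalIntegral.integral_finsetSum]
      · refine Finset.sum_congr rfl fun j _ => ?_
        rw [intervalIntegral.integral_const_mul, U_orth (2 * j) (2 * k)]
      · intro j _
        refine Continuous.intervalIntegrable ?_ _ _
        exact continuous_const.mul (((cont_V j).mul (cont_V k)).mul (by fun_prop))
    rw [e1]
    by_cases hk : k < K
    · rw [if_pos hk, Finset.sum_eq_single k]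
      · rw [if_pos rfl]
        have := Real.pi_pos
        field_simp
      · intro j _ hj
        rw [if_neg (by omega), mul_zero]
      · intro hk'
        exact absurd (Finset.mem_range.2 hk) hk'
    · rw [if_neg hk, Finset.sum_eq_zero, mul_zero]
      intro j hj
      rw [Finset.mem_range] at hj
      rw [if_neg (by omega), mul_zero]
  have hsum : ∀ t, h t - ∑ k ∈ Finset.range n₀,
      cb h (2 * k) * (Chebyshev.U ℝ ((2 * k : ℕ) : ℤ)).eval t =
      ∑ k ∈ Finset.range K, (if n₀ ≤ k then b k else 0) *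
        (Chebyshev.U ℝ ((2 * k : ℕ) : ℤ)).eval t := by
    intro t
    have e1 : ∑ k ∈ Finset.range n₀, cb h (2 * k) * (Chebyshev.U ℝ ((2 * k : ℕ) : ℤ)).eval t =
        ∑ k ∈ Finset.range K, if k < n₀ then
          b k * (Chebyshev.U ℝ ((2 * k : ℕ) : ℤ)).eval t else 0 := by
      have e2 : ∑ k ∈ Finset.range n₀, cb h (2 * k) *
          (Chebyshev.U ℝ ((2 * k : ℕ) : ℤ)).eval t =
          ∑ k ∈ Finset.range n₀, if k < K then
            b k * (Chebyshev.U ℝ ((2 * k : ℕ) : ℤ)).eval t else 0 := by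
        refine Finset.sum_congr rfl fun k _ => ?_
        rw [hcb k]
        split_ifs <;> simp
      rw [e2, ← Finset.sum_filter, ← Finset.sum_filter]
      refine Finset.sum_congr ?_ fun _ _ => rfl
      ext k
      simp only [Finset.mem_filter, Finset.mem_range]
      exact and_comm
    rw [e1, hh t, ← Finset.sum_sub_distrib]
    refine Finset.sum_congr rfl fun k _ => ?_
    by_cases hk : n₀ ≤ k
    · rw [if_pos hk, if_neg (by omega), sub_zero]
    · rw [if_neg hk, if_pos (by omega), sub_self, zero_mul]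
  have hL : (∫ w in Disc, (h w.re - ∑ k ∈ Finset.range n₀,
        cb h (2 * k) * (Chebyshev.U ℝ ((2 * k : ℕ) : ℤ)).eval w.re) ^ 2) =
      ∑ k ∈ Finset.range K, (if n₀ ≤ k then b k else 0) ^ 2 * Real.pi := by
    have e1 := ridge_sq (ι := Unit) (fun _ => 1) (fun _ => 1) (fun _ => by simp) K
      (fun k => if n₀ ≤ k then b k else 0)
    have e2 : ∀ w : ℂ, (h w.re - ∑ k ∈ Finset.range n₀,
        cb h (2 * k) * (Chebyshev.U ℝ ((2 * k : ℕ) : ℤ)).eval w.re) =
        ∑ k ∈ Finset.range K, (if n₀ ≤ k then b k else 0) *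
          ∑ _l : Unit, 1 * (Chebyshev.U ℝ ((2 * k : ℕ) : ℤ)).eval (ip w 1) := by
      intro w
      rw [hsum w.re]
      have : ip w 1 = w.re := by simp [ip]
      simp [this]
    simp_rw [e2]
    rw [e1]
    refine Finset.sum_congr rfl fun k _ => ?_
    have e3 : lam (ι := Unit) (fun _ => 1) (fun _ => 1) (2 * k) = 2 * k + 1 := by
      have : ip 1 1 = 1 := by simp [ip]
      unfold lam
      rw [Fintype.sum_unique, Fintype.sum_unique, this, U_at_one (2 * k)]
      push_cast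
      ring
    rw [e3]
    have : (0 : ℝ) < 2 * k + 1 := by positivity
    field_simp
  have hR : (∫ w in Disc, (∑ l, ω l * h (ip w (u l))) ^ 2) =
      ∑ k ∈ Finset.range K, b k ^ 2 * (Real.pi / (2 * k + 1)) * lam ω u (2 * k) := by
    rw [← ridge_sq ω u hu K b]
    have e2 : ∀ w : ℂ, (∑ l, ω l * h (ip w (u l))) = ∑ k ∈ Finset.range K, b k *
        ∑ l, ω l * (Chebyshev.U ℝ ((2 * k : ℕ) : ℤ)).eval (ip w (u l)) := by
      intro w
      simp_rw [hh, Finset.mul_sum]
      rw [Finset.sum_comm]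
      refine Finset.sum_congr rfl fun k _ => Finset.sum_congr rfl fun l _ => ?_
      ring
    simp_rw [e2]
  rw [hL, hR, Finset.mul_sum]
  refine Finset.sum_le_sum fun k _ => ?_
  have h1 : (0 : ℝ) < 2 * k + 1 := by positivity
  have h2 : 0 ≤ b k ^ 2 * (Real.pi / (2 * k + 1)) := by
    have := Real.pi_pos
    positivity
  by_cases hk : n₀ ≤ k
  · rw [if_pos hk]
    have h3 := mul_le_mul_of_nonneg_left (hlam k hk) h2
    refine le_trans (le_of_eq ?_) h3
    field_simp
  · rw [if_neg hk]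
    have h3 := mul_nonneg h2 (lam_nonneg ω u hu k)
    simpa using h3

end P23F
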