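import Mathlib
import Pool.Agent.Lib.P23F.CoerPoly

/-!
# Module P23F.Coer : coercivity for continuous even functions

PROOF.  (1) Every even polynomial is a finite sum `∑_{k<K} b k U_{2k}` (`U_{2k}` is an even
polynomial of degree `2k`; induction on the degree), so `coer_poly` applies to it.
(2) Let `h` be continuous and even, `δ > 0`.  Weierstrass: a polynomial `p` with `|p - h| ≤ δ` on
`[-1, 1]`; `q(t) = (p(t) + p(-t))/2` is even and `|q - h| ≤ δ` on `[-1,1]`.  `cb` is linear and
`|cb q n - cb h n| ≤ (n+1) δ` (`U_abs_le`, `∫ √(1-t²) = π/2`).  For `w ∈ Disc` all the arguments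
`w.re`, `ip w (u l)` are in `[-1, 1]`.  So both sides of the inequality for `q` differ from those for
`h` by at most `M δ` with `M` depending on `sup |h|`, `ω`, `n₀` (`|x² - y²| ≤ |x - y| (|x| + |y|)`,
the volume of the disc is finite).  Let `δ → 0`.
-/

set_option autoImplicit false

open MeasureTheory Polynomial

namespace P23F

namespace CoerAux

/-- the even Chebyshev polynomials as functions -/
noncomputable def V (k : ℕ) (t : ℝ) : ℝ := (Chebyshev.U ℝ ((2 * k : ℕ) : ℤ)).eval t

theorem V_zero (t : ℝ) : V 0 t = 1 := by simp [V]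

theorem V_one (t : ℝ) : V 1 t = 4 * t ^ 2 - 1 := by
  simp [V, Chebyshev.U_two]

theorem V_rec (k : ℕ) (t : ℝ) :
    4 * t ^ 2 * V (k + 1) t = V (k + 2) t + 2 * V (k + 1) t + V k t := by
  have c1 : ((2 * (k + 1) : ℕ) : ℤ) = ((2 * k : ℕ) : ℤ) + 2 := by push_cast; ring
  have c2 : ((2 * (k + 2) : ℕ) : ℤ) = ((2 * k : ℕ) : ℤ) + 4 := by push_cast; ring
  unfold V
  rw [c1, c2]
  generalize ((2 * k : ℕ) : ℤ) = n
  have e1 := congrArg (fun q : ℝ[X] => q.eval t) (Chebyshev.U_add_two ℝ n)
  have e2 := congrArg (fun q : ℝ[X] => q.eval t) (Chebyshev.U_add_two ℝ (n + 1))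
  have e3 := congrArg (fun q : ℝ[X] => q.eval t) (Chebyshev.U_add_two ℝ (n + 2))
  have d1 : n + 1 + 2 = n + 3 := by ring
  have d2 : n + 1 + 1 = n + 2 := by ring
  have d3 : n + 2 + 2 = n + 4 := by ring
  have d4 : n + 2 + 1 = n + 3 := by ring
  rw [d1, d2] at e2
  rw [d3, d4] at e3
  simp only [eval_sub, eval_mul, eval_ofNat, eval_X] at e1 e2 e3
  have e4 : 4 * t ^ 2 * (Chebyshev.U ℝ (n + 2)).eval t =
      2 * t * (2 * t * (Chebyshev.U ℝ (n + 2)).eval t) := by ring
  have e5 : 2 * t * (Chebyshev.U ℝ (n + 2)).eval t =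
      (Chebyshev.U ℝ (n + 3)).eval t + (Chebyshev.U ℝ (n + 1)).eval t := by linarith
  rw [e4, e5, mul_add]
  linarith

theorem sq_mem {f : ℝ → ℝ} (hf : f ∈ Submodule.span ℝ (Set.range V)) :
    (fun t => t ^ 2 * f t) ∈ Submodule.span ℝ (Set.range V) := by
  induction hf using Submodule.span_induction with
  | mem f hf =>
    obtain ⟨k, rfl⟩ := hf
    have hV : ∀ j, V j ∈ Submodule.span ℝ (Set.range V) := fun j =>
      Submodule.subset_span ⟨j, rfl⟩
    rcases k with _ | k
    · have : (fun t => t ^ 2 * V 0 t) = (1 / 4 : ℝ) • (V 1 + V 0) := by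
        funext t
        simp only [Pi.smul_apply, Pi.add_apply, smul_eq_mul]
        rw [V_one, V_zero]
        ring
      rw [this]
      exact Submodule.smul_mem _ _ (Submodule.add_mem _ (hV _) (hV _))
    · have : (fun t => t ^ 2 * V (k + 1) t) =
          (1 / 4 : ℝ) • (V (k + 2) + (2 : ℝ) • V (k + 1) + V k) := by
        funext t
        simp only [Pi.smul_apply, Pi.add_apply, smul_eq_mul]
        have := V_rec k t
        linarith
      rw [this]
      exact Submodule.smul_mem _ _ (Submodule.add_mem _ (Submodule.add_mem _ (hV _)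
        (Submodule.smul_mem _ _ (hV _))) (hV _))
  | zero =>
    have : (fun t : ℝ => t ^ 2 * (0 : ℝ → ℝ) t) = 0 := by
      funext t
      simp
    rw [this]
    exact Submodule.zero_mem _
  | add f g _ _ hf hg =>
    have : (fun t : ℝ => t ^ 2 * (f + g) t) =
        (fun t => t ^ 2 * f t) + (fun t => t ^ 2 * g t) := by
      funext t
      simp only [Pi.add_apply]
      ring
    rw [this]
    exact Submodule.add_mem _ hf hg
  | smul c f _ hf =>
    have : (fun t : ℝ => t ^ 2 * (c • f) t) = c • (fun t => t ^ 2 * f t) := by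
      funext t
      simp only [Pi.smul_apply, smul_eq_mul]
      ring
    rw [this]
    exact Submodule.smul_mem _ _ hf

theorem pow_mem (i : ℕ) : (fun t : ℝ => t ^ (2 * i)) ∈ Submodule.span ℝ (Set.range V) := by
  induction i with
  | zero =>
    have : (fun t : ℝ => t ^ (2 * 0)) = V 0 := by
      funext t
      rw [V_zero]
      simp
    rw [this]
    exact Submodule.subset_span ⟨0, rfl⟩
  | succ i ih =>
    have : (fun t : ℝ => t ^ (2 * (i + 1))) = fun t => t ^ 2 * t ^ (2 * i) := by
      funext t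
      ring
    rw [this]
    exact sq_mem ih

theorem even_mem (p : ℝ[X]) :
    (fun t : ℝ => p.eval t + p.eval (-t)) ∈ Submodule.span ℝ (Set.range V) := by
  induction p using Polynomial.induction_on' with
  | add p q hp hq =>
    have : (fun t : ℝ => (p + q).eval t + (p + q).eval (-t)) =
        (fun t : ℝ => p.eval t + p.eval (-t)) + (fun t : ℝ => q.eval t + q.eval (-t)) := by
      funext t
      simp only [eval_add, Pi.add_apply]
      ring
    rw [this]
    exact Submodule.add_mem _ hp hq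
  | monomial n a =>
    rcases Nat.even_or_odd n with hn | hn
    · obtain ⟨i, hi⟩ := hn
      have : (fun t : ℝ => (monomial n a).eval t + (monomial n a).eval (-t)) =
          (2 * a) • (fun t : ℝ => t ^ (2 * i)) := by
        funext t
        simp only [eval_monomial, Pi.smul_apply, smul_eq_mul]
        have h1 : n = 2 * i := by omega
        subst h1
        rw [Even.neg_pow ⟨i, by ring⟩]
        ring
      rw [this]
      exact Submodule.smul_mem _ _ (pow_mem i)
    · have : (fun t : ℝ => (monomial n a).eval t + (monomial n a).eval (-t)) = 0 := by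
        funext t
        simp only [eval_monomial, Pi.zero_apply]
        rw [Odd.neg_pow hn]
        ring
      rw [this]
      exact Submodule.zero_mem _

theorem rep {f : ℝ → ℝ} (hf : f ∈ Submodule.span ℝ (Set.range V)) :
    ∃ (K : ℕ) (b : ℕ → ℝ), ∀ t, f t = ∑ k ∈ Finset.range K, b k * V k t := by
  obtain ⟨c, hc⟩ := Finsupp.mem_span_range_iff_exists_finsupp.mp hf
  refine ⟨c.support.sup id + 1, c, fun t => ?_⟩
  rw [← hc, Finsupp.sum, Finset.sum_apply]
  refine Finset.sum_subset_zero_on_sdiff (fun k hk => ?_) (fun k hk => ?_) (fun k _ => rfl)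
  · rw [Finset.mem_range]
    exact Nat.lt_succ_of_le (Finset.le_sup (f := id) hk)
  · rw [Finset.mem_sdiff, Finsupp.notMem_support_iff] at hk
    rw [hk.2, zero_mul]

theorem abs_ip_le {w u : ℂ} (hw : w ∈ Disc) (hu : ‖u‖ = 1) : ip w u ∈ Set.Icc (-1 : ℝ) 1 := by
  have h1 : ‖w‖ ≤ 1 := by simpa using hw
  have h2 : w.re ^ 2 + w.im ^ 2 ≤ 1 := by
    have h3 : w.re * w.re + w.im * w.im = ‖w‖ ^ 2 := by
      rw [← Complex.normSq_apply, Complex.normSq_eq_norm_sq]
    nlinarith [norm_nonneg w]
  have h4 : u.re ^ 2 + u.im ^ 2 = 1 := by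
    have h3 : u.re * u.re + u.im * u.im = ‖u‖ ^ 2 := by
      rw [← Complex.normSq_apply, Complex.normSq_eq_norm_sq]
    rw [hu] at h3
    nlinarith
  have h5 : (ip w u) ^ 2 ≤ 1 := by
    unfold ip
    nlinarith [sq_nonneg (w.re * u.im - w.im * u.re)]
  exact abs_le.mp (by
    rw [← sq_abs] at h5
    nlinarith [abs_nonneg (ip w u)])

theorem abs_re_le {w : ℂ} (hw : w ∈ Disc) : w.re ∈ Set.Icc (-1 : ℝ) 1 := by
  have h1 : ‖w‖ ≤ 1 := by simpa using hw
  exact abs_le.mp (le_trans (Complex.abs_re_le_norm w) h1)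

theorem continuous_ip (u : ℂ) : Continuous fun w : ℂ => ip w u := by
  unfold ip
  fun_prop

/-- convergence of the Chebyshev coefficients -/
theorem tendsto_cb {q : ℕ → ℝ → ℝ} {h : ℝ → ℝ} {M : ℝ} (hq : ∀ n, Continuous (q n))
    (hM : ∀ n, ∀ t ∈ Set.Icc (-1 : ℝ) 1, |q n t| ≤ M)
    (hlim : ∀ t ∈ Set.Icc (-1 : ℝ) 1, Filter.Tendsto (fun n => q n t) Filter.atTop (nhds (h t)))
    (k : ℕ) : Filter.Tendsto (fun n => cb (q n) k) Filter.atTop (nhds (cb h k)) := by
  unfold cb
  refine Filter.Tendsto.const_mul _ ?_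
  refine intervalIntegral.tendsto_integral_filter_of_dominated_convergence
    (fun t => M * |(Chebyshev.U ℝ (k : ℤ)).eval t| * √(1 - t ^ 2)) ?_ ?_ ?_ ?_
  · refine Filter.Eventually.of_forall fun n => ?_
    refine Continuous.aestronglyMeasurable ?_
    have := hq n
    fun_prop
  · refine Filter.Eventually.of_forall fun n => Filter.Eventually.of_forall fun t ht => ?_
    rw [Set.uIoc_of_le (by norm_num)] at ht
    have h1 := hM n t ⟨ht.1.le, ht.2⟩
    rw [norm_mul, norm_mul, Real.norm_eq_abs, Real.norm_eq_abs,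
      Real.norm_of_nonneg (Real.sqrt_nonneg _)]
    exact mul_le_mul_of_nonneg_right (mul_le_mul_of_nonneg_right h1 (abs_nonneg _))
      (Real.sqrt_nonneg _)
  · refine Continuous.intervalIntegrable ?_ _ _
    fun_prop
  · refine Filter.Eventually.of_forall fun t ht => ?_
    rw [Set.uIoc_of_le (by norm_num)] at ht
    exact ((hlim t ⟨ht.1.le, ht.2⟩).mul_const _).mul_const _

theorem tendsto_disc {F : ℕ → ℂ → ℝ} {f bound : ℂ → ℝ} (hF : ∀ n, Continuous (F n))
    (hb : Continuous bound) (hle : ∀ n, ∀ w ∈ Disc, |F n w| ≤ bound w)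
    (hlim : ∀ w ∈ Disc, Filter.Tendsto (fun n => F n w) Filter.atTop (nhds (f w))) :
    Filter.Tendsto (fun n => ∫ w in Disc, F n w) Filter.atTop (nhds (∫ w in Disc, f w)) := by
  refine tendsto_integral_of_dominated_convergence bound (fun n => ?_) ?_ (fun n => ?_) ?_
  · exact (hF n).aestronglyMeasurable
  · exact hb.continuousOn.integrableOn_compact (isCompact_closedBall _ _)
  · rw [ae_restrict_iff' measurableSet_closedBall]
    exact Filter.Eventually.of_forall fun w hw => hle n w hw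
  · rw [ae_restrict_iff' measurableSet_closedBall]
    exact Filter.Eventually.of_forall fun w hw => hlim w hw

end CoerAux

theorem coer {ι : Type*} [Fintype ι] (ω : ι → ℝ) (u : ι → ℂ) (hu : ∀ l, ‖u l‖ = 1)
    (n₀ : ℕ) (c : ℝ) (hlam : ∀ n : ℕ, n₀ ≤ n → c * (2 * n + 1) ≤ lam ω u (2 * n))
    (h : ℝ → ℝ) (hc : Continuous h) (he : ∀ t, h (-t) = h t) :
    c * ∫ w in Disc, (h w.re - ∑ k ∈ Finset.range n₀,
        cb h (2 * k) * (Chebyshev.U ℝ ((2 * k : ℕ) : ℤ)).eval w.re) ^ 2 ≤
      ∫ w in Disc, (∑ l, ω l * h (ip w (u l))) ^ 2 := by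
  -- even polynomials converging to `h`
  have hp : ∀ n : ℕ, ∃ p : ℝ[X], ∀ t ∈ Set.Icc (-1 : ℝ) 1, |p.eval t - h t| < 1 / ((n : ℝ) + 1) :=
    fun n => exists_polynomial_near_of_continuousOn (-1) 1 h hc.continuousOn _ (by positivity)
  choose p hp using hp
  obtain ⟨q, hq⟩ : ∃ q : ℕ → ℝ → ℝ, ∀ n t, q n t = ((p n).eval t + (p n).eval (-t)) / 2 :=
    ⟨_, fun _ _ => rfl⟩
  have hqc : ∀ n, Continuous (q n) := by
    intro n
    have : q n = fun t => ((p n).eval t + (p n).eval (-t)) / 2 := funext fun t => hq n t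
    rw [this]
    have h1 : Continuous fun t : ℝ => (p n).eval t := (p n).continuous
    have h2 : Continuous fun t : ℝ => (p n).eval (-t) := h1.comp continuous_neg
    exact (h1.add h2).div_const 2
  have hqh : ∀ n, ∀ t ∈ Set.Icc (-1 : ℝ) 1, |q n t - h t| ≤ 1 / ((n : ℝ) + 1) := by
    intro n t ht
    have h1 := hp n t ht
    have h2 := hp n (-t) ⟨by linarith [ht.2], by linarith [ht.1]⟩
    rw [he t] at h2
    rw [hq, abs_le]
    rw [abs_lt] at h1 h2
    constructor <;> linarith [h1.1, h1.2, h2.1, h2.2]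
  obtain ⟨M, hM⟩ := (isCompact_Icc (a := (-1 : ℝ)) (b := 1)).exists_bound_of_continuousOn
    hc.continuousOn
  have hqM : ∀ n, ∀ t ∈ Set.Icc (-1 : ℝ) 1, |q n t| ≤ M + 1 := by
    intro n t ht
    have h1 := hqh n t ht
    have h2 := hM t ht
    rw [Real.norm_eq_abs] at h2
    have h3 : 1 / ((n : ℝ) + 1) ≤ 1 := by
      rw [div_le_one (by positivity)]
      have : (0 : ℝ) ≤ n := Nat.cast_nonneg n
      linarith
    have h4 : |q n t| ≤ |q n t - h t| + |h t| := by
      have := abs_add_le (q n t - h t) (h t)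
      simpa using this
    linarith
  have hlim : ∀ t ∈ Set.Icc (-1 : ℝ) 1,
      Filter.Tendsto (fun n => q n t) Filter.atTop (nhds (h t)) := by
    intro t ht
    rw [tendsto_iff_norm_sub_tendsto_zero]
    refine squeeze_zero (fun _ => norm_nonneg _) (fun n => ?_)
      tendsto_one_div_add_atTop_nhds_zero_nat
    exact hqh n t ht
  have hcb := fun k => CoerAux.tendsto_cb hqc hqM hlim k
  -- the inequality for the polynomials
  have hineq : ∀ n, c * ∫ w in Disc, (q n w.re - ∑ k ∈ Finset.range n₀,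
        cb (q n) (2 * k) * (Chebyshev.U ℝ ((2 * k : ℕ) : ℤ)).eval w.re) ^ 2 ≤
      ∫ w in Disc, (∑ l, ω l * q n (ip w (u l))) ^ 2 := by
    intro n
    have h1 : q n ∈ Submodule.span ℝ (Set.range CoerAux.V) := by
      have : q n = (1 / 2 : ℝ) • fun t : ℝ => (p n).eval t + (p n).eval (-t) := by
        funext t
        rw [hq]
        simp only [Pi.smul_apply, smul_eq_mul]
        ring
      rw [this]
      exact Submodule.smul_mem _ _ (CoerAux.even_mem _)
    obtain ⟨K, b, hKb⟩ := CoerAux.rep h1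
    exact coer_poly ω u hu n₀ c hlam K b (q n) hKb
  -- limits
  have hR : Filter.Tendsto (fun n => ∫ w in Disc, (∑ l, ω l * q n (ip w (u l))) ^ 2)
      Filter.atTop (nhds (∫ w in Disc, (∑ l, ω l * h (ip w (u l))) ^ 2)) := by
    refine CoerAux.tendsto_disc (bound := fun _ => (∑ l, |ω l| * (M + 1)) ^ 2) (fun n => ?_)
      continuous_const (fun n w hw => ?_) (fun w hw => ?_)
    · refine Continuous.pow (continuous_finsetSum _ fun l _ => ?_) 2
      exact continuous_const.mul ((hqc n).comp (CoerAux.continuous_ip (u l)))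
    · rw [abs_pow]
      refine pow_le_pow_left₀ (abs_nonneg _) ?_ 2
      refine le_trans (Finset.abs_sum_le_sum_abs _ _) (Finset.sum_le_sum fun l _ => ?_)
      rw [abs_mul]
      exact mul_le_mul_of_nonneg_left (hqM n _ (CoerAux.abs_ip_le hw (hu l))) (abs_nonneg _)
    · refine Filter.Tendsto.pow (tendsto_finsetSum _ fun l _ => ?_) 2
      exact (hlim _ (CoerAux.abs_ip_le hw (hu l))).const_mul _
  have hL : Filter.Tendsto (fun n => ∫ w in Disc, (q n w.re - ∑ k ∈ Finset.range n₀,
        cb (q n) (2 * k) * (Chebyshev.U ℝ ((2 * k : ℕ) : ℤ)).eval w.re) ^ 2)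
      Filter.atTop (nhds (∫ w in Disc, (h w.re - ∑ k ∈ Finset.range n₀,
        cb h (2 * k) * (Chebyshev.U ℝ ((2 * k : ℕ) : ℤ)).eval w.re) ^ 2)) := by
    have hC : ∀ k : ℕ, ∃ C : ℝ, ∀ n, |cb (q n) (2 * k)| ≤ C := by
      intro k
      obtain ⟨C, hC⟩ := (Metric.isBounded_range_of_tendsto _ (hcb (2 * k))).exists_norm_le
      exact ⟨C, fun n => hC _ ⟨n, rfl⟩⟩
    choose C hC using hC
    refine CoerAux.tendsto_disc (bound := fun w => ((M + 1) + ∑ k ∈ Finset.range n₀,
      C k * |(Chebyshev.U ℝ ((2 * k : ℕ) : ℤ)).eval w.re|) ^ 2) (fun n => ?_) ?_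
      (fun n w hw => ?_) (fun w hw => ?_)
    · have h1 := (hqc n).comp Complex.continuous_re
      refine Continuous.pow (Continuous.sub h1 (continuous_finsetSum _ fun k _ => ?_)) 2
      exact continuous_const.mul ((Chebyshev.U ℝ ((2 * k : ℕ) : ℤ)).continuous.comp
        Complex.continuous_re)
    · refine Continuous.pow (Continuous.add continuous_const
        (continuous_finsetSum _ fun k _ => ?_)) 2
      exact continuous_const.mul ((Chebyshev.U ℝ ((2 * k : ℕ) : ℤ)).continuous.comp
        Complex.continuous_re).abs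
    · rw [abs_pow]
      refine pow_le_pow_left₀ (abs_nonneg _) ?_ 2
      refine le_trans (abs_sub _ _) (add_le_add (hqM n _ (CoerAux.abs_re_le hw)) ?_)
      refine le_trans (Finset.abs_sum_le_sum_abs _ _) (Finset.sum_le_sum fun k _ => ?_)
      rw [abs_mul]
      exact mul_le_mul_of_nonneg_right (hC k n) (abs_nonneg _)
    · refine Filter.Tendsto.pow (Filter.Tendsto.sub (hlim _ (CoerAux.abs_re_le hw))
        (tendsto_finsetSum _ fun k _ => ?_)) 2
      exact (hcb (2 * k)).mul_const _
  exact le_of_tendsto_of_tendsto' (hL.const_mul c) hR hineq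

end P23F
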