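import Mathlib
import Pool.Agent.Lib.P23F.Wts
import Pool.Agent.Lib.P23F.PDlem

/-!
# Module P23F.Extend : from a neighbourhood of zero to `(-1, 1)`

PROOF.  Let `S = {ρ ∈ (0, 1) | ∀ y, |y| ≤ ρ → k y = α y²}`, nonempty (`ρ₀`), `ρ₁ = sup S`.  Then
`k y = α y²` for `|y| < ρ₁`.  If `ρ₁ = 1` we are done.  Suppose `ρ₁ < 1`.  By continuity
`k ρ₁ = α ρ₁²` (so `k y = α y²` for `|y| ≤ ρ₁`), `0 ≤ α ρ₁² < 1`, so `0 ≤ α`.
`ip_lt` gives `c < 1`, `0 ≤ c`.  Let `m = (1 - α ρ₁²)/2 > 0`; `pd_lemma` with `m` gives `η`, `C`.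
By exists_same / exists_opp there are off-diagonal pairs `p₊`, `p₋` with `cls a μ p₊ > 0`,
`cls a μ p₋ < 0` (`cls_pos`, `cls_neg`).
Let `ρ' ∈ (ρ₁, 1)` be so close to `ρ₁` that `c ρ' ≤ ρ₁`, `α ρ'² ≤ 1 - m`, and
`ε' := k ρ' - α ρ'²` (which tends to `0`) satisfies `|ε'| D ≤ η` and
`C |ε'| ∑_{i,j} ‖a i - a j‖⁴ < min (cls p₊) (- cls p₋)`; and, because `ρ₁ = sup S < 1` and `k` is even,
such `ρ'` exists with `ε' ≠ 0` (otherwise `k y = α y²` up to a larger radius).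
Choose `p = p₊` if `ε' > 0`, `p = p₋` if `ε' < 0`, so `ε' * cls a μ p = |ε'| |cls a μ p| > 0`.
Let `w = ρ' dir a p.1 p.2`, `s i = ip w (a i)`.  For `i ≠ j` let
`t = (s i - s j) / ‖a i - a j‖ = ρ' ip (dir a p.1 p.2) (dir a i j)`; `|t| ≤ ρ' < 1`.
If `cr (dir p) (dir i j) = 0` then `|ip| = 1`, `|t| = ρ'`, `k t = α t² + ε'`; otherwise
`|t| ≤ c ρ' ≤ ρ₁`, `k t = α t²`.  So
`Rk a k s i j = ‖a_ij‖² - α (ip w a_ij)² - f i j` with `f i j = ε' ‖a_ij‖²` for the pairs `i ≠ j`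
parallel to `p` and `0` otherwise.  `pd_lemma` with `c0 = 0`, this `w`, `α`
(`α (ip w z)² ≤ α ρ'² ‖z‖² ≤ (1 - m) ‖z‖²`) applies: `∑ μ μ f = ε' cls a μ p`,
`∑ f² ≤ ε'² ∑ ‖a_ij‖⁴`, so `C ∑ f² < ∑ μ μ f`.  Hence `Rk a k s` is `Pos4`, contradicting `hk.bad`.
-/

set_option autoImplicit false

namespace P23F

open Set Filter Topology

namespace ExtendAux

theorem ip_sq_add_cr_sq (u v : ℂ) : ip u v ^ 2 + cr u v ^ 2 = ‖u‖ ^ 2 * ‖v‖ ^ 2 := by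
  unfold ip cr
  rw [← Complex.normSq_eq_norm_sq, ← Complex.normSq_eq_norm_sq, Complex.normSq_apply,
    Complex.normSq_apply]
  ring

theorem ip_sub (w u v : ℂ) : ip w (u - v) = ip w u - ip w v := by
  unfold ip
  simp only [Complex.sub_re, Complex.sub_im]
  ring

theorem ip_smul_left (r : ℝ) (w u : ℂ) : ip ((r : ℂ) * w) u = r * ip w u := by
  unfold ip
  simp only [Complex.mul_re, Complex.mul_im, Complex.ofReal_re, Complex.ofReal_im]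
  ring

theorem ip_div (w u : ℂ) (d : ℝ) : ip w (u / (d : ℂ)) = ip w u / d := by
  unfold ip
  rw [Complex.div_ofReal_re, Complex.div_ofReal_im]
  ring

theorem dir_swap {a : Fin 4 → ℂ} {i j : Fin 4} (h : i ≠ j) : dir a j i = -dir a i j := by
  unfold dir
  rw [if_neg h, if_neg h.symm, norm_sub_rev, ← neg_div, neg_sub]

theorem cr_neg (u v : ℂ) : cr u (-v) = -cr u v := by
  unfold cr
  simp only [Complex.neg_re, Complex.neg_im]
  ring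

open Classical in
/-- the perturbation -/
noncomputable def ff (a : Fin 4 → ℂ) (p : Fin 4 × Fin 4) (e : ℝ) (i j : Fin 4) : ℝ :=
  if cr (dir a p.1 p.2) (dir a i j) = 0 ∧ i ≠ j then e * ‖a i - a j‖ ^ 2 else 0

theorem ff_symm (a : Fin 4 → ℂ) (p : Fin 4 × Fin 4) (e : ℝ) (i j : Fin 4) :
    ff a p e i j = ff a p e j i := by
  unfold ff
  by_cases hij : i = j
  · rw [hij]
  · rw [dir_swap hij, cr_neg, norm_sub_rev]
    by_cases hc : cr (dir a p.1 p.2) (dir a i j) = 0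
    · rw [if_pos ⟨hc, hij⟩, if_pos ⟨by rw [hc, neg_zero], Ne.symm hij⟩]
    · rw [if_neg (fun hh => hc hh.1), if_neg (fun hh => hc (neg_eq_zero.1 hh.1))]

theorem ff_sum (a : Fin 4 → ℂ) (μ : Fin 4 → ℝ) (p : Fin 4 × Fin 4) (e : ℝ) :
    ∑ i, ∑ j, μ i * μ j * ff a p e i j = e * cls a μ p := by
  unfold cls
  rw [Fintype.sum_prod_type, Finset.mul_sum]
  refine Finset.sum_congr rfl fun i _ => ?_
  rw [Finset.mul_sum]
  refine Finset.sum_congr rfl fun j _ => ?_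
  unfold ff wt
  by_cases h : cr (dir a p.1 p.2) (dir a i j) = 0 ∧ i ≠ j
  · rw [if_pos h, if_pos h]
    ring
  · rw [if_neg h, if_neg h]
    ring

theorem ff_abs (a : Fin 4 → ℂ) (p : Fin 4 × Fin 4) (e : ℝ) (i j : Fin 4) :
    |ff a p e i j| ≤ |e| * ‖a i - a j‖ ^ 2 := by
  unfold ff
  split_ifs
  · rw [abs_mul, abs_of_nonneg (sq_nonneg ‖a i - a j‖)]
  · rw [abs_zero]
    positivity

theorem ff_sq_sum (a : Fin 4 → ℂ) (p : Fin 4 × Fin 4) (e : ℝ) :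
    ∑ i, ∑ j, ff a p e i j ^ 2 ≤ |e| ^ 2 * ∑ i, ∑ j, ‖a i - a j‖ ^ 4 := by
  rw [Finset.mul_sum]
  refine Finset.sum_le_sum fun i _ => ?_
  rw [Finset.mul_sum]
  refine Finset.sum_le_sum fun j _ => ?_
  have h := ff_abs a p e i j
  calc ff a p e i j ^ 2 = |ff a p e i j| ^ 2 := (sq_abs _).symm
    _ ≤ (|e| * ‖a i - a j‖ ^ 2) ^ 2 := pow_le_pow_left₀ (abs_nonneg _) h 2
    _ = |e| ^ 2 * ‖a i - a j‖ ^ 4 := by ring

/-- the main step -/
theorem step {a : Fin 4 → ℂ} {μ : Fin 4 → ℝ} (hg : Gen a) {k : ℝ → ℝ}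
    (hk : Bad a k) {ρ₁ ρ α c m η C : ℝ} (hα : 0 ≤ α)
    (hin : ∀ y, |y| ≤ ρ₁ → k y = α * y ^ 2)
    (hc : ∀ p q : Fin 4 × Fin 4, p.1 ≠ p.2 → q.1 ≠ q.2 →
      cr (dir a p.1 p.2) (dir a q.1 q.2) ≠ 0 → |ip (dir a p.1 p.2) (dir a q.1 q.2)| ≤ c)
    (hpd : ∀ (c0 α : ℝ) (w : ℂ),
      (∀ z : ℂ, m * ‖z‖ ^ 2 ≤ (1 - c0) * ‖z‖ ^ 2 - α * ip w z ^ 2) →
      ∀ f : Fin 4 → Fin 4 → ℝ, (∀ i j, f i j = f j i) → (∀ i j, |f i j| ≤ η) →
        C * ∑ i, ∑ j, f i j ^ 2 < ∑ i, ∑ j, μ i * μ j * f i j →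
        Pos4 fun i j => (1 - c0) * ‖a i - a j‖ ^ 2 - α * ip w (a i - a j) ^ 2 - f i j)
    (hC : 0 < C) (hρ0 : 0 ≤ ρ) (hρ : ρ < 1) (hcρ : c * ρ ≤ ρ₁) (hαρ : α * ρ ^ 2 ≤ 1 - m)
    (hη : |k ρ - α * ρ ^ 2| * (∑ i, ∑ j, ‖a i - a j‖ ^ 2) ≤ η)
    (p : Fin 4 × Fin 4) (hp : p.1 ≠ p.2)
    (hpos : C * (|k ρ - α * ρ ^ 2| ^ 2 * ∑ i, ∑ j, ‖a i - a j‖ ^ 4) <
      (k ρ - α * ρ ^ 2) * cls a μ p) : False := by
  obtain ⟨e, he⟩ : ∃ e, e = k ρ - α * ρ ^ 2 := ⟨_, rfl⟩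
  rw [← he] at hη hpos
  obtain ⟨w, hw⟩ : ∃ w : ℂ, w = (ρ : ℂ) * dir a p.1 p.2 := ⟨_, rfl⟩
  have hd1 : ∀ q : Fin 4 × Fin 4, ‖dir a q.1 q.2‖ = 1 := fun q => dir_norm hg q
  have hwn : ‖w‖ = ρ := by
    rw [hw, norm_mul, hd1 p, mul_one, Complex.norm_real, Real.norm_eq_abs, abs_of_nonneg hρ0]
  have hipsq : ∀ q : Fin 4 × Fin 4, ip (dir a p.1 p.2) (dir a q.1 q.2) ^ 2 +
      cr (dir a p.1 p.2) (dir a q.1 q.2) ^ 2 = 1 := by
    intro q
    rw [ip_sq_add_cr_sq, hd1 p, hd1 q]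
    norm_num
  have habs1 : ∀ q : Fin 4 × Fin 4, |ip (dir a p.1 p.2) (dir a q.1 q.2)| ≤ 1 := by
    intro q
    rw [← sq_le_one_iff_abs_le_one]
    have := hipsq q
    nlinarith [sq_nonneg (cr (dir a p.1 p.2) (dir a q.1 q.2))]
  have hne : ∀ i j, i ≠ j → 0 < ‖a i - a j‖ := by
    intro i j hij
    rw [norm_pos_iff, sub_ne_zero]
    exact gen_ne a hg i j hij
  -- value of t
  have ht : ∀ i j, i ≠ j → (ip w (a i) - ip w (a j)) / ‖a i - a j‖ =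
      ρ * ip (dir a p.1 p.2) (dir a i j) := by
    intro i j hij
    rw [← ip_sub, hw, ip_smul_left]
    have : dir a i j = (a i - a j) / ((‖a i - a j‖ : ℝ) : ℂ) := by
      unfold dir
      rw [if_neg hij]
    rw [this, ip_div]
    ring
  have hs : ∀ i j, i ≠ j → |ip w (a i) - ip w (a j)| < ‖a i - a j‖ := by
    intro i j hij
    have h1 : |(ip w (a i) - ip w (a j)) / ‖a i - a j‖| < 1 := by
      rw [ht i j hij, abs_mul, abs_of_nonneg hρ0]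
      have h2 := habs1 (i, j)
      calc ρ * |ip (dir a p.1 p.2) (dir a i j)| ≤ ρ * 1 := mul_le_mul_of_nonneg_left h2 hρ0
        _ < 1 := by linarith
    rwa [abs_div, abs_of_pos (hne i j hij), div_lt_one (hne i j hij)] at h1
  refine hk.bad (fun i => ip w (a i)) hs ?_
  have heq : Rk a k (fun i => ip w (a i)) =
      fun i j => (1 - 0) * ‖a i - a j‖ ^ 2 - α * ip w (a i - a j) ^ 2 - ff a p e i j := by
    funext i j
    unfold Rk
    by_cases hij : i = j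
    · subst hij
      have h0 : ip w 0 = 0 := by
        unfold ip
        simp
      have h1 : ff a p e i i = 0 := by
        unfold ff
        rw [if_neg]
        simp
      rw [h1, sub_self (a i), norm_zero, h0]
      norm_num
    · have hd0 := hne i j hij
      have htt := ht i j hij
      obtain ⟨t, htd⟩ : ∃ t, t = (ip w (a i) - ip w (a j)) / ‖a i - a j‖ := ⟨_, rfl⟩
      have hdt : ip w (a i - a j) = ‖a i - a j‖ * t := by
        rw [ip_sub, htd]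
        field_simp
      rw [← htd] at htt
      simp only
      rw [← htd, hdt]
      unfold ff
      by_cases hcr : cr (dir a p.1 p.2) (dir a i j) = 0
      · rw [if_pos ⟨hcr, hij⟩]
        have h2 := hipsq (i, j)
        simp only at h2
        rw [hcr] at h2
        have h3 : t ^ 2 = ρ ^ 2 := by
          rw [htt, mul_pow]
          have : ip (dir a p.1 p.2) (dir a i j) ^ 2 = 1 := by linarith
          rw [this, mul_one]
        have h4 : k t = k ρ := by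
          rcases sq_eq_sq_iff_eq_or_eq_neg.1 h3 with h5 | h5
          · rw [h5]
          · rw [h5, hk.even]
        have h5 : k t = α * t ^ 2 + e := by
          rw [h4, h3, he]
          ring
        rw [h5]
        ring
      · rw [if_neg (fun hh => hcr hh.1)]
        have h2 : |t| ≤ ρ₁ := by
          rw [htt, abs_mul, abs_of_nonneg hρ0]
          have h3 := hc p (i, j) hp hij hcr
          calc ρ * |ip (dir a p.1 p.2) (dir a i j)| ≤ ρ * c := mul_le_mul_of_nonneg_left h3 hρ0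
            _ = c * ρ := mul_comm _ _
            _ ≤ ρ₁ := hcρ
        rw [hin t h2]
        ring
  rw [heq]
  refine hpd 0 α w ?_ (ff a p e) (ff_symm a p e) ?_ ?_
  · intro z
    have h1 := ip_sq_add_cr_sq w z
    have h2 : ip w z ^ 2 ≤ ρ ^ 2 * ‖z‖ ^ 2 := by
      rw [hwn] at h1
      nlinarith [sq_nonneg (cr w z)]
    have h3 : α * ip w z ^ 2 ≤ α * (ρ ^ 2 * ‖z‖ ^ 2) := mul_le_mul_of_nonneg_left h2 hα
    have h4 : α * ρ ^ 2 * ‖z‖ ^ 2 ≤ (1 - m) * ‖z‖ ^ 2 :=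
      mul_le_mul_of_nonneg_right hαρ (sq_nonneg _)
    nlinarith
  · intro i j
    refine (ff_abs a p e i j).trans (le_trans ?_ hη)
    refine mul_le_mul_of_nonneg_left ?_ (abs_nonneg e)
    have h1 : ‖a i - a j‖ ^ 2 ≤ ∑ j, ‖a i - a j‖ ^ 2 :=
      Finset.single_le_sum (f := fun j => ‖a i - a j‖ ^ 2) (fun j _ => sq_nonneg _)
        (Finset.mem_univ j)
    refine h1.trans (Finset.single_le_sum (f := fun i => ∑ j, ‖a i - a j‖ ^ 2)
      (fun i _ => Finset.sum_nonneg fun j _ => sq_nonneg _) (Finset.mem_univ i))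
  · rw [ff_sum]
    exact (mul_le_mul_of_nonneg_left (ff_sq_sum a p e) hC.le).trans_lt hpos

end ExtendAux

open ExtendAux

theorem extend (a : Fin 4 → ℂ) (μ : Fin 4 → ℝ) (hg : Gen a) (hd : Dep a μ) (k : ℝ → ℝ)
    (hk : Bad a k) (ρ₀ α : ℝ) (h0 : 0 < ρ₀) (h1 : ρ₀ < 1)
    (h : ∀ y, |y| ≤ ρ₀ → k y = α * y ^ 2) : ∀ y, |y| < 1 → k y = α * y ^ 2 := by
  by_contra hcon
  rw [not_forall] at hcon
  obtain ⟨y0, hy0⟩ := hcon
  rw [Classical.not_imp] at hy0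
  obtain ⟨hy0a, hy0b⟩ := hy0
  obtain ⟨y1, hy1⟩ : ∃ y1, y1 = |y0| := ⟨_, rfl⟩
  have hy1n : 0 ≤ y1 := by rw [hy1]; exact abs_nonneg _
  have hy1l : y1 < 1 := by rw [hy1]; exact hy0a
  have hky1 : k y1 ≠ α * y1 ^ 2 := by
    rw [hy1, sq_abs]
    rcases abs_choice y0 with h2 | h2
    · rw [h2]
      exact hy0b
    · rw [h2, hk.even]
      exact hy0b
  obtain ⟨S, hS⟩ : ∃ S : Set ℝ, S = {ρ | ρ < 1 ∧ ∀ y, |y| ≤ ρ → k y = α * y ^ 2} := ⟨_, rfl⟩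
  have hρS : ρ₀ ∈ S := by
    rw [hS]
    exact ⟨h1, h⟩
  have hub : ∀ ρ ∈ S, ρ ≤ y1 := by
    intro ρ hρ
    rw [hS] at hρ
    by_contra hlt
    exact hky1 (hρ.2 y1 (by rw [abs_of_nonneg hy1n]; exact (not_le.1 hlt).le))
  have hbdd : BddAbove S := ⟨y1, hub⟩
  obtain ⟨ρ₁, hρ₁⟩ : ∃ ρ₁, ρ₁ = sSup S := ⟨_, rfl⟩
  have hρ1le : ρ₁ ≤ y1 := by
    rw [hρ₁]
    exact csSup_le ⟨ρ₀, hρS⟩ hub
  have hρ1ge : ρ₀ ≤ ρ₁ := by
    rw [hρ₁]
    exact le_csSup hbdd hρS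
  have hρ1pos : 0 < ρ₁ := h0.trans_le hρ1ge
  have hρ1lt : ρ₁ < 1 := hρ1le.trans_lt hy1l
  have hlt : ∀ y, |y| < ρ₁ → k y = α * y ^ 2 := by
    intro y hy
    rw [hρ₁] at hy
    obtain ⟨ρ, hρ, hyρ⟩ := exists_lt_of_lt_csSup ⟨ρ₀, hρS⟩ hy
    rw [hS] at hρ
    exact hρ.2 y hyρ.le
  have hcont1 : ContinuousAt k ρ₁ :=
    hk.cont.continuousAt (Ioo_mem_nhds (by linarith) hρ1lt)
  have hgc : ContinuousAt (fun y => k y - α * y ^ 2) ρ₁ :=
    hcont1.sub (continuousAt_const.mul (continuousAt_id.pow 2))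
  have hg0 : k ρ₁ - α * ρ₁ ^ 2 = 0 := by
    have ht1 : Tendsto (fun y => k y - α * y ^ 2) (𝓝[<] ρ₁) (𝓝 (k ρ₁ - α * ρ₁ ^ 2)) :=
      hgc.tendsto.mono_left nhdsWithin_le_nhds
    have ht2 : Tendsto (fun y => k y - α * y ^ 2) (𝓝[<] ρ₁) (𝓝 0) := by
      refine tendsto_const_nhds.congr' ?_
      filter_upwards [Ioo_mem_nhdsLT hρ1pos] with y hy
      rw [hlt y (by rw [abs_of_pos hy.1]; exact hy.2), sub_self]
    exact tendsto_nhds_unique ht1 ht2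
  have hin : ∀ y, |y| ≤ ρ₁ → k y = α * y ^ 2 := by
    intro y hy
    rcases lt_or_eq_of_le hy with h2 | h2
    · exact hlt y h2
    · rcases abs_choice y with h3 | h3
      · rw [h3] at h2
        rw [h2]
        linarith
      · rw [h3] at h2
        have h4 : y = -ρ₁ := by linarith
        rw [h4, hk.even, neg_sq]
        linarith
  -- frequently nonzero
  have hfreq : ∃ᶠ ρ in 𝓝[>] ρ₁, k ρ - α * ρ ^ 2 ≠ 0 := by
    intro hev
    have hev' : ∀ᶠ ρ in 𝓝[>] ρ₁, k ρ - α * ρ ^ 2 = 0 := by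
      filter_upwards [hev] with ρ hρ
      exact not_not.1 hρ
    obtain ⟨r, hr, hsub⟩ := (mem_nhdsGT_iff_exists_Ioo_subset' hρ1lt).1 hev'
    obtain ⟨r', hr'⟩ : ∃ r', r' = min ((ρ₁ + r) / 2) ((ρ₁ + 1) / 2) := ⟨_, rfl⟩
    have hr0 : ρ₁ < r := hr
    have hr1 : ρ₁ < r' := by
      rw [hr']
      exact lt_min (by linarith) (by linarith)
    have hr2 : r' < r := by
      rw [hr']
      exact (min_le_left _ _).trans_lt (by linarith)
    have hr3 : r' < 1 := by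
      rw [hr']
      exact (min_le_right _ _).trans_lt (by linarith)
    have hmem : r' ∈ S := by
      rw [hS]
      refine ⟨hr3, fun y hy => ?_⟩
      by_cases hy2 : |y| ≤ ρ₁
      · exact hin y hy2
      · have h5 : k |y| - α * |y| ^ 2 = 0 := hsub ⟨not_le.1 hy2, hy.trans_lt hr2⟩
        rw [sq_abs] at h5
        rcases abs_choice y with h3 | h3
        · rw [h3] at h5
          linarith
        · rw [h3, hk.even] at h5
          linarith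
    have := le_csSup hbdd hmem
    rw [← hρ₁] at this
    linarith
  -- parameters
  have hk1 : k ρ₁ = α * ρ₁ ^ 2 := by linarith
  have habs : |ρ₁| < 1 := by rw [abs_of_pos hρ1pos]; exact hρ1lt
  have hα : 0 ≤ α := by
    have h2 := hk.nonneg ρ₁ habs
    rw [hk1] at h2
    by_contra hneg
    have h3 : α * ρ₁ ^ 2 < 0 := mul_neg_of_neg_of_pos (not_le.1 hneg) (pow_pos hρ1pos 2)
    linarith
  have hα1 : α * ρ₁ ^ 2 < 1 := by
    rw [← hk1]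
    exact hk.lt_one ρ₁ habs
  obtain ⟨c, hc1, hc0, hc⟩ := ip_lt hg
  obtain ⟨m, hm⟩ : ∃ m, m = (1 - α * ρ₁ ^ 2) / 2 := ⟨_, rfl⟩
  have hmpos : 0 < m := by
    rw [hm]
    linarith
  obtain ⟨η, hη, C, hC, hpd⟩ := pd_lemma a μ hd m hmpos
  obtain ⟨i, j, hij, hpos⟩ := exists_same a μ hd
  obtain ⟨i', j', hij', hneg⟩ := exists_opp a μ hd
  have hcp := cls_pos hg hd (i, j) hij hpos
  have hcn := cls_neg hg hd (i', j') hij' hneg
  obtain ⟨D, hD⟩ : ∃ D : ℝ, D = ∑ i, ∑ j, ‖a i - a j‖ ^ 2 := ⟨_, rfl⟩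
  obtain ⟨E, hE⟩ : ∃ E : ℝ, E = ∑ i, ∑ j, ‖a i - a j‖ ^ 4 := ⟨_, rfl⟩
  obtain ⟨M, hM⟩ : ∃ M : ℝ, M = min (cls a μ (i, j)) (-cls a μ (i', j')) := ⟨_, rfl⟩
  have hMpos : 0 < M := by
    rw [hM]
    exact lt_min hcp (by linarith)
  have e1 : ∀ᶠ ρ in 𝓝 ρ₁, |k ρ - α * ρ ^ 2| * D < η := by
    have hcA : ContinuousAt (fun ρ => |k ρ - α * ρ ^ 2| * D) ρ₁ :=
      hgc.abs.mul continuousAt_const
    refine hcA.eventually_lt continuousAt_const ?_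
    rw [hg0, abs_zero, zero_mul]
    exact hη
  have e2 : ∀ᶠ ρ in 𝓝 ρ₁, C * (|k ρ - α * ρ ^ 2| * E) < M := by
    have hcA : ContinuousAt (fun ρ => C * (|k ρ - α * ρ ^ 2| * E)) ρ₁ :=
      continuousAt_const.mul (hgc.abs.mul continuousAt_const)
    refine hcA.eventually_lt continuousAt_const ?_
    rw [hg0, abs_zero, zero_mul, mul_zero]
    exact hMpos
  have e3 : ∀ᶠ ρ in 𝓝 ρ₁, c * ρ < ρ₁ := by
    have hcA : ContinuousAt (fun ρ => c * ρ) ρ₁ := continuousAt_const.mul continuousAt_id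
    refine hcA.eventually_lt continuousAt_const ?_
    nlinarith
  have e4 : ∀ᶠ ρ in 𝓝 ρ₁, α * ρ ^ 2 < 1 - m := by
    have hcA : ContinuousAt (fun ρ => α * ρ ^ 2) ρ₁ :=
      continuousAt_const.mul (continuousAt_id.pow 2)
    refine hcA.eventually_lt continuousAt_const ?_
    rw [hm]
    linarith
  have e5 : ∀ᶠ ρ in 𝓝 ρ₁, ρ < 1 := eventually_lt_nhds hρ1lt
  have e6 : ∀ᶠ ρ in 𝓝 ρ₁, 0 < ρ := eventually_gt_nhds hρ1pos
  obtain ⟨ρ, hne, ⟨f1, f2, f3⟩, f4, f5, f6⟩ := (hfreq.and_eventually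
    (((e1.and (e2.and e3)).and (e4.and (e5.and e6))).filter_mono nhdsWithin_le_nhds)).exists
  have hηρ : |k ρ - α * ρ ^ 2| * (∑ i, ∑ j, ‖a i - a j‖ ^ 2) ≤ η := by
    rw [← hD]
    exact f1.le
  have hbd : C * (|k ρ - α * ρ ^ 2| ^ 2 * E) < |k ρ - α * ρ ^ 2| * M := by
    have h7 : 0 < |k ρ - α * ρ ^ 2| := abs_pos.2 hne
    have h8 := mul_lt_mul_of_pos_left f2 h7
    have h9 : |k ρ - α * ρ ^ 2| * (C * (|k ρ - α * ρ ^ 2| * E)) =
      C * (|k ρ - α * ρ ^ 2| ^ 2 * E) := by ring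
    rw [h9] at h8
    exact h8
  rcases lt_or_gt_of_ne hne with hlt0 | hgt0
  · refine step (μ := μ) hg hk hα hin hc hpd hC f6.le f5 f3.le f4.le hηρ (i', j') hij' ?_
    rw [← hE]
    refine hbd.trans_le ?_
    rw [abs_of_neg hlt0]
    have h10 : M ≤ -cls a μ (i', j') := by
      rw [hM]
      exact min_le_right _ _
    nlinarith
  · refine step (μ := μ) hg hk hα hin hc hpd hC f6.le f5 f3.le f4.le hηρ (i, j) hij ?_
    rw [← hE]
    refine hbd.trans_le ?_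
    rw [abs_of_pos hgt0]
    have h10 : M ≤ cls a μ (i, j) := by
      rw [hM]
      exact min_le_left _ _
    nlinarith

end P23F
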