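import Mathlib
import Pool.Agent.Lib.P23F.Defs

/-!
# Module P23F.Hilb : spaces with the parallelogram law

PROOF.  Let `x, y ∈ X` be linearly independent (infinite dimension).  `InnerProductSpace.ofNorm`
(from the parallelogram law) gives an inner product inducing the norm; Gram-Schmidt gives
`e₁, e₂ ∈ span {x, y}` orthonormal, and `P i = (a i).re • e₁ + (a i).im • e₂` works:
`‖P i - P j‖² = (a i - a j).re² + (a i - a j).im²`.
(Elementary alternative without `ofNorm`: define `b u v = (‖u + v‖² - ‖u - v‖²)/4`.)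
Beware of instance diamonds: work in a lemma with a general `InnerProductSpace ℝ X` argument and
apply it with the structure from `ofNorm` (`letI`), whose `NormedAddCommGroup` is the given one.
-/

set_option autoImplicit false

namespace P23F

theorem hilbert_embed_aux {X : Type*} [NormedAddCommGroup X] [InnerProductSpace ℝ X]
    (hX : ¬ FiniteDimensional ℝ X) (a : Fin 4 → ℂ) :
    ∃ P : Fin 4 → X, ∀ i j, ‖P i - P j‖ = ‖a i - a j‖ := by
  obtain ⟨x, hx⟩ : ∃ x : X, x ≠ 0 := by
    by_contra hc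
    push Not at hc
    apply hX
    have : Subsingleton X := ⟨fun u v => by rw [hc u, hc v]⟩
    infer_instance
  obtain ⟨y, hy⟩ : ∃ y : X, y ∉ Submodule.span ℝ {x} := by
    by_contra hc
    push Not at hc
    apply hX
    refine ⟨⟨{x}, ?_⟩⟩
    rw [Finset.coe_singleton]
    exact eq_top_iff.2 fun y _ => hc y
  have hxn : ‖x‖ ≠ 0 := norm_ne_zero_iff.2 hx
  set u : X := (‖x‖)⁻¹ • x with hu
  have hu1 : ‖u‖ = 1 := by
    rw [hu, norm_smul, norm_inv, norm_norm, inv_mul_cancel₀ hxn]
  set v : X := y - (inner ℝ u y) • u with hv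
  have huv : inner ℝ u v = 0 := by
    rw [hv, inner_sub_right, inner_smul_right, real_inner_self_eq_norm_sq, hu1]
    ring
  have hv0 : v ≠ 0 := by
    intro h
    apply hy
    rw [hv, sub_eq_zero] at h
    rw [h, hu, smul_smul]
    exact Submodule.smul_mem _ _ (Submodule.mem_span_singleton_self x)
  have hvn : ‖v‖ ≠ 0 := norm_ne_zero_iff.2 hv0
  set w : X := (‖v‖)⁻¹ • v with hw
  have hw1 : ‖w‖ = 1 := by
    rw [hw, norm_smul, norm_inv, norm_norm, inv_mul_cancel₀ hvn]
  have huw : inner ℝ u w = 0 := by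
    rw [hw, inner_smul_right, huv, mul_zero]
  have hnorm : ∀ α β : ℝ, ‖α • u + β • w‖ ^ 2 = α ^ 2 + β ^ 2 := by
    intro α β
    rw [norm_add_sq_real, inner_smul_left, inner_smul_right, huw, norm_smul α u, norm_smul β w,
      hu1, hw1]
    simp
  refine ⟨fun i => (a i).re • u + (a i).im • w, ?_⟩
  intro i j
  have e : (a i).re • u + (a i).im • w - ((a j).re • u + (a j).im • w) =
      ((a i - a j).re) • u + ((a i - a j).im) • w := by
    rw [Complex.sub_re, Complex.sub_im, sub_smul, sub_smul]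
    abel
  show ‖(a i).re • u + (a i).im • w - ((a j).re • u + (a j).im • w)‖ = _
  rw [e]
  have h1 := hnorm (a i - a j).re (a i - a j).im
  have h2 : ‖a i - a j‖ ^ 2 = (a i - a j).re ^ 2 + (a i - a j).im ^ 2 := by
    rw [Complex.sq_norm, Complex.normSq_apply]
    ring
  have h3 : ‖((a i - a j).re) • u + ((a i - a j).im) • w‖ ^ 2 = ‖a i - a j‖ ^ 2 := by
    rw [h1, h2]
  exact (pow_left_inj₀ (norm_nonneg _) (norm_nonneg _) two_ne_zero).1 h3

theorem hilbert_embed {X : Type*} [NormedAddCommGroup X] [NormedSpace ℝ X]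
    (hX : ¬ FiniteDimensional ℝ X)
    (hp : ∀ x y : X, ‖x + y‖ ^ 2 + ‖x - y‖ ^ 2 = 2 * (‖x‖ ^ 2 + ‖y‖ ^ 2)) (a : Fin 4 → ℂ) :
    ∃ P : Fin 4 → X, ∀ i j, ‖P i - P j‖ = ‖a i - a j‖ := by
  let _ : InnerProductSpace ℝ X := InnerProductSpace.ofNorm (𝕜 := ℝ) (by
    intro x y
    have := hp x y
    nlinarith)
  exact hilbert_embed_aux hX a

end P23F
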