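import Mathlib
import Pool.Agent.Lib.P23F.Wts

/-!
# Module P23F.LNe : the cubic form of the displacement is not zero

PROOF.  Suppose `LL a μ w = 0` for all `w`.  Let `b j = a 0 - a j` (`j = 1, 2, 3`), pairwise
non-parallel by `Gen` (`cr (b i) (b j) ≠ 0`).  Let `w₁ = i * b 1`, `w₂ = i * b 2` (orthogonal to
`b 1`, `b 2`; `ip (i z) z = 0`).  The second difference
`LL(w + w₁ + w₂) - LL(w + w₁) - LL(w + w₂) + LL(w)` kills the terms `j = 1` and `j = 2`, and for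
`j = 3`, with `x = ip w (b 3)`, `p = ip w₁ (b 3) ≠ 0`, `q = ip w₂ (b 3) ≠ 0`:
`(x+p+q)³ - (x+p)³ - (x+q)³ + x³ = 6 p q x + 3 p q (p + q)`, times `2 μ 3 / ‖b 3‖² ≠ 0`; it is zero
for all `x` (take `w` with two different values of `x`), a contradiction.
Then `ψ w = LL a μ w * (1 - ‖w‖²)` and `LL² (1 - ‖w‖²)` is continuous, nonnegative on the disc and
positive somewhere in the open disc (homogeneity: `LL (t w) = t³ LL w`), so its integral is
positive.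
-/

set_option autoImplicit false

open MeasureTheory

namespace P23F

private theorem LL_expand (a : Fin 4 → ℂ) (μ : Fin 4 → ℝ) (w : ℂ) :
    LL a μ w = 2 * (μ 1 / ‖a 0 - a 1‖ ^ 2 * ip w (a 0 - a 1) ^ 3 +
      μ 2 / ‖a 0 - a 2‖ ^ 2 * ip w (a 0 - a 2) ^ 3 +
      μ 3 / ‖a 0 - a 3‖ ^ 2 * ip w (a 0 - a 3) ^ 3) := by
  unfold LL
  rw [Fin.sum_univ_four]
  simp

private theorem ip_comb (s t : ℝ) (u v b : ℂ) :
    ip ((s : ℂ) * (Complex.I * u) + (t : ℂ) * (Complex.I * v)) b = s * cr u b + t * cr v b := by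
  unfold ip cr
  simp
  ring

theorem LL_ne (a : Fin 4 → ℂ) (μ : Fin 4 → ℝ) (hg : Gen a) (hd : Dep a μ) :
    ∃ w, LL a μ w ≠ 0 := by
  by_contra hcon
  push Not at hcon
  have h13 : cr (a 0 - a 1) (a 0 - a 3) ≠ 0 := by
    have h := hg 0 1 3 (by decide) (by decide) (by decide)
    have e : cr (a 0 - a 1) (a 0 - a 3) = cr (a 1 - a 0) (a 3 - a 0) := by
      unfold cr; simp; ring
    rw [e]; exact h
  have h23 : cr (a 0 - a 2) (a 0 - a 3) ≠ 0 := by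
    have h := hg 0 2 3 (by decide) (by decide) (by decide)
    have e : cr (a 0 - a 2) (a 0 - a 3) = cr (a 2 - a 0) (a 3 - a 0) := by
      unfold cr; simp; ring
    rw [e]; exact h
  have hn : ‖a 0 - a 3‖ ≠ 0 := by
    have := gen_ne a hg 0 3 (by decide)
    exact norm_ne_zero_iff.mpr (sub_ne_zero.mpr this)
  have hA : μ 3 / ‖a 0 - a 3‖ ^ 2 ≠ 0 := div_ne_zero (hd.ne 3) (pow_ne_zero 2 hn)
  have key : ∀ s t : ℝ, μ 1 / ‖a 0 - a 1‖ ^ 2 * (t * cr (a 0 - a 2) (a 0 - a 1)) ^ 3 +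
      μ 2 / ‖a 0 - a 2‖ ^ 2 * (s * cr (a 0 - a 1) (a 0 - a 2)) ^ 3 +
      μ 3 / ‖a 0 - a 3‖ ^ 2 *
        (s * cr (a 0 - a 1) (a 0 - a 3) + t * cr (a 0 - a 2) (a 0 - a 3)) ^ 3 = 0 := by
    intro s t
    have h := hcon ((s : ℂ) * (Complex.I * (a 0 - a 1)) + (t : ℂ) * (Complex.I * (a 0 - a 2)))
    rw [LL_expand, ip_comb, ip_comb, ip_comb] at h
    have e1 : cr (a 0 - a 1) (a 0 - a 1) = 0 := by unfold cr; ring
    have e2 : cr (a 0 - a 2) (a 0 - a 2) = 0 := by unfold cr; ring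
    rw [e1, e2] at h
    simp only [mul_zero, zero_add, add_zero] at h
    linarith
  have e21 := key 2 1
  have e20 := key 2 0
  have e11 := key 1 1
  have e10 := key 1 0
  have e01 := key 0 1
  have e00 := key 0 0
  have hfin : μ 3 / ‖a 0 - a 3‖ ^ 2 *
      (6 * cr (a 0 - a 1) (a 0 - a 3) ^ 2 * cr (a 0 - a 2) (a 0 - a 3)) = 0 := by
    linear_combination e21 - e20 - 2 * e11 + 2 * e10 + e01 - e00
  exact mul_ne_zero hA (mul_ne_zero (mul_ne_zero (by norm_num) (pow_ne_zero 2 h13)) h23) hfin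

theorem LL_int_pos (a : Fin 4 → ℂ) (μ : Fin 4 → ℝ) (hg : Gen a) (hd : Dep a μ) :
    0 < ∫ w in Disc, LL a μ w ^ 2 * (1 - ‖w‖ ^ 2) := by
  obtain ⟨w, hw⟩ := LL_ne a μ hg hd
  have hcont : Continuous (fun w : ℂ => LL a μ w ^ 2 * (1 - ‖w‖ ^ 2)) := by
    have h1 : (fun w : ℂ => LL a μ w ^ 2 * (1 - ‖w‖ ^ 2)) = fun w : ℂ =>
        (2 * (μ 1 / ‖a 0 - a 1‖ ^ 2 * ip w (a 0 - a 1) ^ 3 +
      μ 2 / ‖a 0 - a 2‖ ^ 2 * ip w (a 0 - a 2) ^ 3 +
      μ 3 / ‖a 0 - a 3‖ ^ 2 * ip w (a 0 - a 3) ^ 3)) ^ 2 * (1 - ‖w‖ ^ 2) := by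
      funext w
      rw [LL_expand]
    rw [h1]
    unfold ip
    have hre : Continuous fun w : ℂ => w.re := Complex.continuous_re
    have him : Continuous fun w : ℂ => w.im := Complex.continuous_im
    fun_prop
  have hnonneg : ∀ z ∈ Disc, 0 ≤ LL a μ z ^ 2 * (1 - ‖z‖ ^ 2) := by
    intro z hz
    have hz1 : ‖z‖ ≤ 1 := by simpa using hz
    have : ‖z‖ ^ 2 ≤ 1 := by nlinarith [norm_nonneg z]
    exact mul_nonneg (sq_nonneg _) (by linarith)
  -- a point of the open disc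
  have hhom : ∀ t : ℝ, LL a μ ((t : ℂ) * w) = t ^ 3 * LL a μ w := by
    intro t
    have hip : ∀ b : ℂ, ip ((t : ℂ) * w) b = t * ip w b := by
      intro b; unfold ip; simp; ring
    rw [LL_expand, LL_expand, hip, hip, hip]
    ring
  obtain ⟨z, hz1, hz2⟩ : ∃ z : ℂ, ‖z‖ < 1 ∧ LL a μ z ≠ 0 := by
    refine ⟨(((2 * (1 + ‖w‖))⁻¹ : ℝ) : ℂ) * w, ?_, ?_⟩
    · rw [norm_mul, Complex.norm_real, Real.norm_eq_abs, abs_of_pos (by positivity)]
      have hpos : 0 < 2 * (1 + ‖w‖) := by positivity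
      rw [inv_mul_lt_iff₀ hpos]
      nlinarith [norm_nonneg w]
    · rw [hhom]
      exact mul_ne_zero (pow_ne_zero 3 (by positivity)) hw
  have hzpos : 0 < LL a μ z ^ 2 * (1 - ‖z‖ ^ 2) := by
    have h1 : 0 < LL a μ z ^ 2 := by positivity
    have h2 : 0 < 1 - ‖z‖ ^ 2 := by nlinarith [norm_nonneg z]
    exact mul_pos h1 h2
  have hint : IntegrableOn (fun w : ℂ => LL a μ w ^ 2 * (1 - ‖w‖ ^ 2)) Disc :=
    hcont.continuousOn.integrableOn_compact (isCompact_closedBall _ _)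
  rw [setIntegral_pos_iff_support_of_nonneg_ae]
  · -- the support contains an open set
    have hopen : IsOpen ({v : ℂ | 0 < LL a μ v ^ 2 * (1 - ‖v‖ ^ 2)} ∩ Metric.ball 0 1) :=
      (isOpen_lt continuous_const hcont).inter Metric.isOpen_ball
    have hne : ({v : ℂ | 0 < LL a μ v ^ 2 * (1 - ‖v‖ ^ 2)} ∩ Metric.ball 0 1).Nonempty :=
      ⟨z, hzpos, by simpa using hz1⟩
    refine lt_of_lt_of_le (hopen.measure_pos volume hne) (measure_mono ?_)
    intro v hv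
    exact ⟨ne_of_gt hv.1, Metric.ball_subset_closedBall hv.2⟩
  · filter_upwards [self_mem_ae_restrict (measurableSet_closedBall)] with v hv
    exact hnonneg v hv
  · exact hint

end P23F
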