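import Mathlib
import Pool.Agent.Lib.P23F.AbsNear
import Pool.Agent.Lib.P23F.Coer
import Pool.Agent.Lib.P23F.Proj
import Pool.Agent.Lib.P23F.Wts
import Pool.Agent.Lib.P23F.PDlem

/-!
# Module P23F.Near4 : the non-orthocentric case near zero

PROOF.  Index type `ι = Fin 4 × Fin 4`, `ω = wt a μ`, `u p = dir a p.1 p.2`.
(1) `lam_lower` (with `l₀ = p₀` any off-diagonal pair: `class_sum`, and `cls ≠ 0` by `cls_pos` or
`cls_neg`; `n₀ = 2`, `k = 2`, `hne = h4`) gives `c > 0` with `c (2n+1) ≤ lam ω u (2n)` for `n ≥ 2`.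
(2) `pd_lemma` with `m = 1/2` gives `η > 0`, `C > 0`.
(3) Let `D ≥ 1` with `‖a i - a j‖² ≤ D` for all `i, j`.  Put `C₁ = C D²`, `C₂ = 0`, `g = 0`.
Choose `δ > 0` so small that `4δ + 12δ ≤ 1/2`, `17 δ D ≤ η` and
`17 δ (∑ |ω|) (2 C₁ (16 + 0)) < c`.  Let `ρ = ρ₀` from `hh_small k δ`, `h = hh k ρ`.
(4) `κ = ka4 h`, `c0 = c4 h`, `α = al4 h`; `h t = c0 + α t² + κ t`; bounds `bounds4`.
For `w ∈ Disc` let `s i = ρ * ip w (a i)`.  For `i ≠ j`: `s i - s j = ρ ip w (a i - a j)`,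
`|s i - s j| ≤ ρ ‖a i - a j‖ < ‖a i - a j‖`, and
`(s i - s j) / ‖a i - a j‖ = ρ t`, `t = ip w (dir a i j)`, `|t| ≤ 1`, so
`Rk a k s i j = ‖a i - a j‖² (1 - h t)`
`= (1 - c0) ‖a i - a j‖² - α ip w (a i - a j)² - f i j`, `f i j = ‖a i - a j‖² κ(t)`
(`‖a i - a j‖² t² = ip w (a i - a j)²`).  For `i = j` both sides are `0` with `f i i = 0`.
The hypothesis `m ‖z‖² ≤ (1 - c0)‖z‖² - α (ip w z)²` holds as `|c0| + |α| ≤ 1/2`, `‖w‖ ≤ 1`.
`f` is symmetric (`κ` even, `dir a j i = - dir a i j`), `|f| ≤ D 17 δ ≤ η`.  Since `Rk a k s` is not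
`Pos4` (`hk.bad`), `pd_lemma` gives
`∑ μ i μ j f i j ≤ C ∑ f i j²`, i.e.
`∑_p ω p κ(ip w (u p)) ≤ C D² ∑_p κ(ip w (u p))²`: this is `h1` of `abs_near`.
(5) `h2` of `abs_near`: `coer` for `h` with `n₀ = 2`, `proj4`, and
`∑_p ω p h(ip w (u p)) = ∑_p ω p κ(ip w (u p))` by `wt_sum`, `wt_ip2`.
(6) `abs_near` gives `κ = 0` on `[-1, 1]`: `k (ρ t) = c0 + α t²` for `|t| ≤ 1`; `t = 0`:
`c0 = 0`.  So `k y = (α / ρ²) y²` for `|y| ≤ ρ`.
-/

set_option autoImplicit false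

open MeasureTheory

namespace P23F

namespace Near4Aux

theorem ip_eq (w z : ℂ) : ip w z = ((starRingEnd ℂ) w * z).re := by
  simp [ip]

theorem ip_abs_le (w z : ℂ) : |ip w z| ≤ ‖w‖ * ‖z‖ := by
  rw [ip_eq]
  refine (Complex.abs_re_le_norm _).trans (le_of_eq ?_)
  rw [norm_mul, Complex.norm_conj]

theorem ip_sub (w z z' : ℂ) : ip w (z - z') = ip w z - ip w z' := by
  simp only [ip, Complex.sub_re, Complex.sub_im]; ring

theorem ip_neg (w z : ℂ) : ip w (-z) = - ip w z := by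
  simp only [ip, Complex.neg_re, Complex.neg_im]; ring

theorem ip_zero (w : ℂ) : ip w 0 = 0 := by simp [ip]

theorem ip_div (w z : ℂ) (r : ℝ) : ip w (z / (r : ℂ)) = ip w z / r := by
  simp only [ip, Complex.div_ofReal_re, Complex.div_ofReal_im]; ring

theorem dir_symm (a : Fin 4 → ℂ) {i j : Fin 4} (h : i ≠ j) : dir a j i = - dir a i j := by
  unfold dir
  rw [if_neg h, if_neg (Ne.symm h), norm_sub_rev (a j) (a i), ← neg_div]
  congr 1
  ring

end Near4Aux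

open Near4Aux

theorem near4 (a : Fin 4 → ℂ) (μ : Fin 4 → ℝ) (hg : Gen a) (hd : Dep a μ)
    (h4 : ∑ p, (wt a μ p : ℂ) * dir a p.1 p.2 ^ 4 ≠ 0) (k : ℝ → ℝ) (hk : Bad a k) :
    ∃ ρ > 0, ρ < 1 ∧ ∃ α : ℝ, ∀ y, |y| ≤ ρ → k y = α * y ^ 2 := by
  set ω : Fin 4 × Fin 4 → ℝ := wt a μ with hωdef
  set u : Fin 4 × Fin 4 → ℂ := fun p => dir a p.1 p.2 with hudef
  have hu : ∀ p, ‖u p‖ = 1 := fun p => dir_norm hg p
  obtain ⟨i₀, j₀, hij₀, hpos₀⟩ := exists_same a μ hd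
  have hcls := cls_pos hg hd (i₀, j₀) hij₀ hpos₀
  have hl : (∑ l ∈ Finset.univ.filter (fun l => u l ^ 2 = u (i₀, j₀) ^ 2), ω l) ≠ 0 := by
    have h1 := class_sum (μ := μ) hg (i₀, j₀) hij₀
    rw [← h1] at hcls
    exact hcls.ne'
  obtain ⟨c, hc, hlam⟩ := lam_lower ω u hu (i₀, j₀) hl 2 2 le_rfl (by
    simpa [hωdef, hudef] using h4)
  obtain ⟨η, hη, C, hC, hpd⟩ := pd_lemma a μ hd (1 / 2) (by norm_num)
  obtain ⟨D, hD1, hD⟩ : ∃ D : ℝ, 1 ≤ D ∧ ∀ i j, ‖a i - a j‖ ^ 2 ≤ D := by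
    refine ⟨1 + ∑ i, ∑ j, ‖a i - a j‖ ^ 2, ?_, fun i j => ?_⟩
    · have : 0 ≤ ∑ i, ∑ j, ‖a i - a j‖ ^ 2 := by positivity
      linarith
    · have h1 : ‖a i - a j‖ ^ 2 ≤ ∑ j, ‖a i - a j‖ ^ 2 :=
        Finset.single_le_sum (f := fun j => ‖a i - a j‖ ^ 2) (fun _ _ => by positivity)
          (Finset.mem_univ j)
      have h2 : ∑ j, ‖a i - a j‖ ^ 2 ≤ ∑ i, ∑ j, ‖a i - a j‖ ^ 2 :=
        Finset.single_le_sum (f := fun i => ∑ j, ‖a i - a j‖ ^ 2) (fun _ _ => by positivity)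
          (Finset.mem_univ i)
      linarith
  set C₁ : ℝ := C * D ^ 2 with hC₁
  have hC₁0 : 0 < C₁ := by positivity
  set W : ℝ := ∑ l, |ω l| with hW
  have hW0 : 0 ≤ W := by positivity
  set Q : ℝ := 17 * (W + 1) * (32 * C₁ + 1) with hQ
  have hQ0 : 0 < Q := by positivity
  obtain ⟨δ, hδ0, hδ1, hδ2, hδ3⟩ : ∃ δ : ℝ, 0 < δ ∧ δ ≤ 1 / 32 ∧ δ ≤ η / (17 * D) ∧
      δ ≤ c / (2 * Q) :=
    ⟨min (1 / 32) (min (η / (17 * D)) (c / (2 * Q))), by positivity, min_le_left _ _,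
      (min_le_right _ _).trans (min_le_left _ _), (min_le_right _ _).trans (min_le_right _ _)⟩
  rw [le_div_iff₀ (by positivity)] at hδ2 hδ3
  obtain ⟨ρ, hρ0, hρ1, hsm⟩ := hh_small k hk.cont hk.zero δ hδ0
  replace hsm := hsm ρ hρ0 le_rfl
  set h : ℝ → ℝ := hh k ρ with hh
  have hcont : Continuous h := hh_cont k hk.cont ρ hρ0 hρ1
  have heven : ∀ t, h (-t) = h t := hh_even k hk.even ρ
  obtain ⟨hb0, hb1, hb2⟩ := bounds4 h hcont δ (fun t _ => hsm t)
  set κ : ℝ → ℝ := ka4 h with hκ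
  set c0 : ℝ := c4 h with hc0
  set α : ℝ := al4 h with hα
  have hdec : ∀ t, h t = c0 + α * t ^ 2 + κ t := by
    intro t
    rw [hκ, hc0, hα, ka4]
    ring
  have hκc : Continuous κ := ka4_cont h hcont
  have hκe : ∀ t, κ (-t) = κ t := ka4_even h heven
  have hip1 : ∀ w ∈ Disc, ∀ p, |ip w (u p)| ≤ 1 := by
    intro w hw p
    have h1 := ip_abs_le w (u p)
    rw [hu p, mul_one] at h1
    exact h1.trans (mem_closedBall_zero_iff.1 hw)
  have key : ∀ w ∈ Disc, ∑ l, ω l * κ (ip w (u l)) ≤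
      C₁ * (∑ l, κ (ip w (u l)) ^ 2 + (0 : ℝ) ^ 2) := by
    intro w hw
    have hw1 : ‖w‖ ≤ 1 := mem_closedBall_zero_iff.1 hw
    by_contra hcon
    push Not at hcon
    rw [zero_pow two_ne_zero, add_zero] at hcon
    set f : Fin 4 → Fin 4 → ℝ := fun i j => ‖a i - a j‖ ^ 2 * κ (ip w (dir a i j)) with hf
    have hquad : ∀ z : ℂ, 1 / 2 * ‖z‖ ^ 2 ≤ (1 - c0) * ‖z‖ ^ 2 - α * ip w z ^ 2 := by
      intro z
      have h1 : |ip w z| ≤ ‖z‖ := by
        refine (ip_abs_le w z).trans ?_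
        calc ‖w‖ * ‖z‖ ≤ 1 * ‖z‖ := mul_le_mul_of_nonneg_right hw1 (norm_nonneg _)
          _ = ‖z‖ := one_mul _
      have h2 : ip w z ^ 2 ≤ ‖z‖ ^ 2 := by
        rw [← sq_abs (ip w z)]
        exact pow_le_pow_left₀ (abs_nonneg _) h1 2
      have h3 : α * ip w z ^ 2 ≤ 12 * δ * ‖z‖ ^ 2 :=
        mul_le_mul ((le_abs_self α).trans hb1) h2 (sq_nonneg _) (by positivity)
      have h4 : c0 * ‖z‖ ^ 2 ≤ 4 * δ * ‖z‖ ^ 2 :=
        mul_le_mul_of_nonneg_right ((le_abs_self c0).trans hb0) (sq_nonneg _)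
      have h5 : 16 * δ * ‖z‖ ^ 2 ≤ 1 / 2 * ‖z‖ ^ 2 :=
        mul_le_mul_of_nonneg_right (by linarith) (sq_nonneg _)
      linarith
    have hfs : ∀ i j, f i j = f j i := by
      intro i j
      by_cases hij : i = j
      · rw [hij]
      · simp only [hf]
        rw [dir_symm a hij, ip_neg, hκe, norm_sub_rev]
    have hfb : ∀ i j, |f i j| ≤ η := by
      intro i j
      simp only [hf]
      rw [abs_mul, abs_of_nonneg (sq_nonneg _)]
      have h1 := hb2 _ (hip1 w hw (i, j))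
      calc ‖a i - a j‖ ^ 2 * |κ (ip w (dir a i j))| ≤ D * (17 * δ) :=
            mul_le_mul (hD i j) h1 (abs_nonneg _) (by linarith)
        _ = δ * (17 * D) := by ring
        _ ≤ η := hδ2
    have hlt : C * ∑ i, ∑ j, f i j ^ 2 < ∑ i, ∑ j, μ i * μ j * f i j := by
      have h1 : ∑ i, ∑ j, f i j ^ 2 ≤ D ^ 2 * ∑ l, κ (ip w (u l)) ^ 2 := by
        rw [Fintype.sum_prod_type, Finset.mul_sum]
        refine Finset.sum_le_sum fun i _ => ?_
        rw [Finset.mul_sum]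
        refine Finset.sum_le_sum fun j _ => ?_
        simp only [hf]
        rw [mul_pow]
        exact mul_le_mul_of_nonneg_right (pow_le_pow_left₀ (sq_nonneg _) (hD i j) 2)
          (sq_nonneg _)
      have h2 : ∑ l, ω l * κ (ip w (u l)) = ∑ i, ∑ j, μ i * μ j * f i j := by
        rw [Fintype.sum_prod_type]
        refine Finset.sum_congr rfl fun i _ => Finset.sum_congr rfl fun j _ => ?_
        simp only [hf, hωdef, hudef, wt]
        ring
      calc C * ∑ i, ∑ j, f i j ^ 2 ≤ C * (D ^ 2 * ∑ l, κ (ip w (u l)) ^ 2) :=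
            mul_le_mul_of_nonneg_left h1 hC.le
        _ = C₁ * ∑ l, κ (ip w (u l)) ^ 2 := by rw [hC₁]; ring
        _ < _ := hcon
        _ = _ := h2
    have hpos := hpd c0 α w hquad f hfs hfb hlt
    refine hk.bad (fun i => ρ * ip w (a i)) ?_ ?_
    · intro i j hij
      have hne : a i - a j ≠ 0 := sub_ne_zero.2 (gen_ne a hg i j hij)
      have hnp : 0 < ‖a i - a j‖ := norm_pos_iff.2 hne
      have h1 : ρ * ip w (a i) - ρ * ip w (a j) = ρ * ip w (a i - a j) := by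
        rw [ip_sub]; ring
      beta_reduce
      rw [h1, abs_mul, abs_of_pos hρ0]
      have h2 : |ip w (a i - a j)| ≤ ‖a i - a j‖ := by
        refine (ip_abs_le _ _).trans ?_
        calc ‖w‖ * ‖a i - a j‖ ≤ 1 * ‖a i - a j‖ :=
              mul_le_mul_of_nonneg_right hw1 (norm_nonneg _)
          _ = _ := one_mul _
      calc ρ * |ip w (a i - a j)| ≤ ρ * ‖a i - a j‖ := mul_le_mul_of_nonneg_left h2 hρ0.le
        _ < 1 * ‖a i - a j‖ := mul_lt_mul_of_pos_right hρ1 hnp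
        _ = _ := one_mul _
    · have hR : Rk a k (fun i => ρ * ip w (a i)) =
          fun i j => (1 - c0) * ‖a i - a j‖ ^ 2 - α * ip w (a i - a j) ^ 2 - f i j := by
        funext i j
        by_cases hij : i = j
        · subst hij
          simp [Rk, hf, ip_zero]
        · have hne : a i - a j ≠ 0 := sub_ne_zero.2 (gen_ne a hg i j hij)
          have hnp : 0 < ‖a i - a j‖ := norm_pos_iff.2 hne
          have hdir : dir a i j = (a i - a j) / ((‖a i - a j‖ : ℝ) : ℂ) := by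
            unfold dir
            rw [if_neg hij]
          have ht : ip w (dir a i j) = ip w (a i - a j) / ‖a i - a j‖ := by
            rw [hdir, ip_div]
          have harg : (ρ * ip w (a i) - ρ * ip w (a j)) / ‖a i - a j‖ =
              ρ * ip w (dir a i j) := by
            rw [ht, ip_sub]; ring
          have ht1 := hip1 w hw (i, j)
          have hkt : k (ρ * ip w (dir a i j)) = c0 + α * ip w (dir a i j) ^ 2 +
              κ (ip w (dir a i j)) := by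
            rw [← hdec, hh]
            exact (hh_eq k ρ _ ht1).symm
          have h3 : ‖a i - a j‖ ^ 2 * ip w (dir a i j) ^ 2 = ip w (a i - a j) ^ 2 := by
            rw [ht, div_pow, mul_div_cancel₀ _ (by positivity)]
          simp only [Rk, hf]
          rw [harg, hkt, ← h3]
          ring
      rw [hR]
      exact hpos
  have h2 : c * ∫ w in Disc, κ w.re ^ 2 ≤ ∫ w in Disc, (∑ l, ω l * κ (ip w (u l))) ^ 2 := by
    have h3 := coer ω u hu 2 c hlam h hcont heven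
    simp only [proj4] at h3
    have h4 : ∀ w : ℂ, ∑ l, ω l * h (ip w (u l)) = ∑ l, ω l * κ (ip w (u l)) := by
      intro w
      have e1 : ∑ l, ω l = 0 := wt_sum hd
      have e2 : ∑ l, ω l * ip w (u l) ^ 2 = 0 := wt_ip2 hg hd w
      calc ∑ l, ω l * h (ip w (u l))
          = ∑ l, (c0 * ω l + α * (ω l * ip w (u l) ^ 2) + ω l * κ (ip w (u l))) := by
            refine Finset.sum_congr rfl fun l _ => ?_
            rw [hdec]; ring
        _ = c0 * ∑ l, ω l + α * ∑ l, ω l * ip w (u l) ^ 2 + ∑ l, ω l * κ (ip w (u l)) := by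
            rw [Finset.sum_add_distrib, Finset.sum_add_distrib, Finset.mul_sum, Finset.mul_sum]
        _ = _ := by rw [e1, e2]; ring
    simp only [h4] at h3
    exact h3
  have hzero := abs_near ω u hu κ hκc c C₁ 0 (17 * δ) 0 hC₁0.le le_rfl (wt_sum hd) key h2
    (by simp) hb2 (by
      have h6 : (Fintype.card (Fin 4 × Fin 4) : ℝ) = 16 := by simp
      rw [h6, mul_zero, add_zero, ← hW]
      have h7 : 17 * δ * W * (2 * C₁ * 16) ≤ δ * Q := by
        rw [hQ]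
        have h8 : W * (32 * C₁) ≤ (W + 1) * (32 * C₁ + 1) := by nlinarith
        nlinarith [mul_le_mul_of_nonneg_left h8 (by positivity : (0 : ℝ) ≤ 17 * δ)]
      linarith)
  have hkρ : ∀ t, |t| ≤ 1 → k (ρ * t) = c0 + α * t ^ 2 := by
    intro t ht
    rw [← hh_eq k ρ t ht]
    show h t = _
    rw [hdec, hzero t ht, add_zero]
  have hc00 : c0 = 0 := by
    have h1 := hkρ 0 (by simp)
    rw [mul_zero, hk.zero] at h1
    linarith
  refine ⟨ρ, hρ0, hρ1, α / ρ ^ 2, fun y hy => ?_⟩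
  have h1 := hkρ (y / ρ) (by rw [abs_div, abs_of_pos hρ0, div_le_one hρ0]; exact hy)
  rw [mul_div_cancel₀ y hρ0.ne', hc00, zero_add] at h1
  rw [h1, div_pow]
  ring

end P23F
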