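import Mathlib
import Pool.Agent.Lib.P23F.AbsNear
import Pool.Agent.Lib.P23F.Coer
import Pool.Agent.Lib.P23F.Bad6

/-!
# Module P23F.Near6a : orthocentric case, the rest dominates the quartic coefficient

PROOF.  `ι = Fin 4 × Fin 4`, `ω = wt a μ`, `u p = dir a p.1 p.2`.
(1) `∑ ω u⁶ ≠ 0`: otherwise `∑ ω (u²)^j = 0` for `j = -3, ..., 3`: `j = 0` is `wt_sum`, `j = 1` is
`wt_dir2`, `j = 2` is `h4`, `j = 3` the assumption, negative `j` by conjugation (`ω` real, `u` unit);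
this contradicts `vand_lower` (with `k = -3`, `n = 7`, `card_dir`, and `l₀` an off-diagonal pair,
`class_sum`, `cls_pos`/`cls_neg`).  So `lam_lower` with `n₀ = 3`, `k = 3` gives `c > 0`.
(2) Let `δ₀`, `C` from `bad6`, `D ≥ 1` with `‖a i - a j‖² ≤ D`.  With `τ = 0`:
`yy a μ w 0 i j = ip w (dir a i j)`, `ff = ‖a i - a j‖² (γ t⁴ + κ t)`, `t = ip w (dir a i j)`,
`|t| ≤ 1`.  `∑ μ i μ j ff i j = ∑_p ω p κ(ip w (u p))` since `∑ ω p (ip w (u p))⁴ = 0` (`wt_ip4`), and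
`∑ ff² ≤ D² ∑_{i≠j} 2 (γ² + κ²) ≤ 32 D² (γ² + ∑_p κ(ip w (u p))²)`.  So `h1` of `abs_near` holds
with `C₁ = 32 D² C`, `g = γ`.
(3) `h2`: `coer` for `h` with `n₀ = 3`, `proj6`, and `∑ ω h(ip w u) = ∑ ω κ(ip w u)` by `wt_sum`,
`wt_ip2`, `wt_ip4`.  `h3` is the hypothesis, `h4`: `bounds6`, `|κ| ≤ 162 δ`; choose `δ ≤ δ₀` with
`162 δ (∑ |ω|) (2 C₁ (16 + π C₂)) < c`.
Conclusion: `κ = 0` on `[-1, 1]`; then `∫ κ² = 0` and `γ² ≤ C₂ * 0`, so `γ = 0`.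
-/

set_option autoImplicit false

open MeasureTheory

namespace P23F

namespace Near6aAux

theorem conj_zero {ι : Type*} [Fintype ι] (ω : ι → ℝ) (z : ι → ℂ) (hz : ∀ l, ‖z l‖ = 1) (m : ℤ)
    (h : ∑ l, (ω l : ℂ) * z l ^ m = 0) : ∑ l, (ω l : ℂ) * z l ^ (-m) = 0 := by
  have h1 : ∀ l, (ω l : ℂ) * z l ^ (-m) = (starRingEnd ℂ) ((ω l : ℂ) * z l ^ m) := by
    intro l
    rw [map_mul, Complex.conj_ofReal, map_zpow₀, ← Complex.inv_eq_conj (hz l), inv_zpow, zpow_neg]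
  rw [Finset.sum_congr rfl (fun l _ => h1 l), ← map_sum, h, map_zero]

theorem cls_ne {a : Fin 4 → ℂ} {μ : Fin 4 → ℝ} (hg : Gen a) (hd : Dep a μ) (p : Fin 4 × Fin 4)
    (hp : p.1 ≠ p.2) : cls a μ p ≠ 0 := by
  rcases lt_trichotomy (μ p.1 * μ p.2) 0 with h | h | h
  · exact (cls_neg hg hd p hp h).ne
  · exact absurd h (mul_ne_zero (hd.ne _) (hd.ne _))
  · exact (cls_pos hg hd p hp h).ne'

theorem six_ne {a : Fin 4 → ℂ} {μ : Fin 4 → ℝ} (hg : Gen a) (hd : Dep a μ)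
    (h4 : ∑ p, (wt a μ p : ℂ) * dir a p.1 p.2 ^ 4 = 0) :
    ∑ p : Fin 4 × Fin 4, (wt a μ p : ℂ) * dir a p.1 p.2 ^ (2 * 3) ≠ 0 := by
  intro h6
  have hz : ∀ p : Fin 4 × Fin 4, ‖dir a p.1 p.2 ^ 2‖ = 1 := by
    intro p
    rw [norm_pow, dir_norm hg, one_pow]
  have hl := cls_ne hg hd (0, 1) (by decide)
  rw [← class_sum hg (0, 1) (by decide)] at hl
  obtain ⟨c, hc, H⟩ := vand_lower (wt a μ) (fun p => dir a p.1 p.2 ^ 2) hz (0, 1) hl 7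
    (card_dir hg)
  have H3 := H (-3)
  have e0 : ∑ p : Fin 4 × Fin 4, (wt a μ p : ℂ) * (dir a p.1 p.2 ^ 2) ^ (0 : ℤ) = 0 := by
    have := wt_sum hd
    simp only [zpow_zero, mul_one]
    rw [← Complex.ofReal_sum, this, Complex.ofReal_zero]
  have e1 : ∑ p : Fin 4 × Fin 4, (wt a μ p : ℂ) * (dir a p.1 p.2 ^ 2) ^ (1 : ℤ) = 0 := by
    simp only [zpow_one]
    exact wt_dir2 hg hd
  have e2 : ∑ p : Fin 4 × Fin 4, (wt a μ p : ℂ) * (dir a p.1 p.2 ^ 2) ^ (2 : ℤ) = 0 := by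
    rw [← h4]
    refine Finset.sum_congr rfl fun p _ => ?_
    rw [show (2 : ℤ) = ((2 : ℕ) : ℤ) by norm_num, zpow_natCast, ← pow_mul]
  have e3 : ∑ p : Fin 4 × Fin 4, (wt a μ p : ℂ) * (dir a p.1 p.2 ^ 2) ^ (3 : ℤ) = 0 := by
    rw [← h6]
    refine Finset.sum_congr rfl fun p _ => ?_
    rw [show (3 : ℤ) = ((3 : ℕ) : ℤ) by norm_num, zpow_natCast, ← pow_mul]
  have f1 := conj_zero (wt a μ) (fun p => dir a p.1 p.2 ^ 2) hz 1 e1
  have f2 := conj_zero (wt a μ) (fun p => dir a p.1 p.2 ^ 2) hz 2 e2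
  have f3 := conj_zero (wt a μ) (fun p => dir a p.1 p.2 ^ 2) hz 3 e3
  have hall : ∀ j ∈ Finset.range 7, ‖∑ p : Fin 4 × Fin 4,
      (wt a μ p : ℂ) * (dir a p.1 p.2 ^ 2) ^ ((-3 : ℤ) + (j : ℤ))‖ ^ 2 = 0 := by
    intro j hj
    have hj7 : j < 7 := Finset.mem_range.1 hj
    have : ∑ p : Fin 4 × Fin 4,
      (wt a μ p : ℂ) * (dir a p.1 p.2 ^ 2) ^ ((-3 : ℤ) + (j : ℤ)) = 0 := by
      interval_cases j
      · exact f3
      · exact f2
      · exact f1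
      · exact e0
      · exact e1
      · exact e2
      · exact e3
    rw [this, norm_zero]
    norm_num
  have h0 : ∑ j ∈ Finset.range 7, ‖∑ p : Fin 4 × Fin 4,
      (wt a μ p : ℂ) * (dir a p.1 p.2 ^ 2) ^ ((-3 : ℤ) + (j : ℤ))‖ ^ 2 = 0 :=
    Finset.sum_eq_zero hall
  exact absurd (H3.trans_eq h0) (not_le.2 hc)

theorem abs_ip {w u : ℂ} (hw : w ∈ Disc) (hu : ‖u‖ = 1) : |ip w u| ≤ 1 :=
  abs_le.2 ⟨(CoerAux.abs_ip_le hw hu).1, (CoerAux.abs_ip_le hw hu).2⟩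

theorem yy0 (a : Fin 4 → ℂ) (μ : Fin 4 → ℝ) (w : ℂ) (i j : Fin 4) :
    yy a μ w 0 i j = ip w (dir a i j) := by
  unfold yy
  ring

theorem ff0 (a : Fin 4 → ℂ) (μ : Fin 4 → ℝ) (α γ : ℝ) (κ : ℝ → ℝ) (w : ℂ) (i j : Fin 4) :
    ff a μ α γ κ w 0 i j =
      ‖a i - a j‖ ^ 2 * (γ * ip w (dir a i j) ^ 4 + κ (ip w (dir a i j))) := by
  unfold ff
  by_cases h : i = j
  · rw [if_pos h, h, sub_self]
    simp
  · rw [if_neg h, yy0]
    ring

theorem bound_ff (a : Fin 4 → ℂ) (μ : Fin 4 → ℝ) (α γ : ℝ) (κ : ℝ → ℝ) (w : ℂ) (hg : Gen a)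
    (hw : w ∈ Disc) (D : ℝ) (hD : ∀ i j, ‖a i - a j‖ ^ 2 ≤ D) (i j : Fin 4) :
    ff a μ α γ κ w 0 i j ^ 2 ≤ D ^ 2 * (2 * (γ ^ 2 + κ (ip w (dir a i j)) ^ 2)) := by
  rw [ff0, mul_pow]
  have h0 : 0 ≤ ‖a i - a j‖ ^ 2 := by positivity
  have h1 : (‖a i - a j‖ ^ 2) ^ 2 ≤ D ^ 2 := pow_le_pow_left₀ h0 (hD i j) 2
  have ht := abs_ip hw (dir_norm hg (i, j))
  simp only at ht
  have ht4 : (ip w (dir a i j) ^ 4) ^ 2 ≤ 1 := by
    have e : (ip w (dir a i j) ^ 4) ^ 2 = |ip w (dir a i j)| ^ 8 := by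
      rw [← abs_pow, ← abs_of_nonneg (by positivity : 0 ≤ (ip w (dir a i j) ^ 4) ^ 2)]
      congr 1
      ring
    rw [e]
    exact pow_le_one₀ (abs_nonneg _) ht
  have h2 : (γ * ip w (dir a i j) ^ 4 + κ (ip w (dir a i j))) ^ 2 ≤
      2 * (γ ^ 2 + κ (ip w (dir a i j)) ^ 2) := by
    have h3 : (γ * ip w (dir a i j) ^ 4) ^ 2 ≤ γ ^ 2 := by
      rw [mul_pow]
      nlinarith [sq_nonneg γ]
    nlinarith [sq_nonneg (γ * ip w (dir a i j) ^ 4 - κ (ip w (dir a i j)))]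
  exact mul_le_mul h1 h2 (sq_nonneg _) (sq_nonneg _)

end Near6aAux

open Near6aAux in
theorem near6a (a : Fin 4 → ℂ) (μ : Fin 4 → ℝ) (hg : Gen a) (hd : Dep a μ)
    (h4 : ∑ p, (wt a μ p : ℂ) * dir a p.1 p.2 ^ 4 = 0) (C₂ : ℝ) (hC₂ : 0 ≤ C₂) :
    ∃ δ > 0, ∀ (k : ℝ → ℝ), Bad a k → ∀ ρ, 0 < ρ → ρ < 1 → (∀ t, |hh k ρ t| ≤ δ) →
      ga6 (hh k ρ) ^ 2 ≤ C₂ * ∫ w in Disc, ka6 (hh k ρ) w.re ^ 2 →
      ga6 (hh k ρ) = 0 ∧ ∀ t, |t| ≤ 1 → ka6 (hh k ρ) t = 0 := by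
  have hne := six_ne hg hd h4
  have hl := cls_ne hg hd (0, 1) (by decide)
  rw [← class_sum hg (0, 1) (by decide)] at hl
  obtain ⟨c, hc, hlam⟩ := lam_lower (wt a μ) (fun p => dir a p.1 p.2) (dir_norm hg) (0, 1) hl 3 3
    le_rfl hne
  obtain ⟨δ₀, hδ₀, C, hC, hbad⟩ := bad6 a μ hg hd h4
  obtain ⟨D, hD⟩ : ∃ D : ℝ, ∀ i j, ‖a i - a j‖ ^ 2 ≤ D := by
    refine ⟨∑ i, ∑ j, ‖a i - a j‖ ^ 2, fun i j => ?_⟩
    have h1 : ‖a i - a j‖ ^ 2 ≤ ∑ j, ‖a i - a j‖ ^ 2 :=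
      Finset.single_le_sum (f := fun j => ‖a i - a j‖ ^ 2) (fun _ _ => by positivity)
        (Finset.mem_univ j)
    have h2 : ∑ j, ‖a i - a j‖ ^ 2 ≤ ∑ i, ∑ j, ‖a i - a j‖ ^ 2 :=
      Finset.single_le_sum (f := fun i => ∑ j, ‖a i - a j‖ ^ 2)
        (fun _ _ => Finset.sum_nonneg fun _ _ => by positivity) (Finset.mem_univ i)
    exact h1.trans h2
  set C₁ : ℝ := 32 * D ^ 2 * C with hC₁
  have hC₁0 : 0 ≤ C₁ := by positivity
  set Ω : ℝ := ∑ p, |wt a μ p| with hΩ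
  have hΩ0 : 0 ≤ Ω := Finset.sum_nonneg fun _ _ => abs_nonneg _
  set M : ℝ := Ω * (2 * C₁ * (16 + Real.pi * C₂)) with hM
  have hM0 : 0 ≤ M := by
    have := Real.pi_pos
    positivity
  refine ⟨min δ₀ (c / (162 * (M + 1))), lt_min hδ₀ (by positivity), ?_⟩
  intro k hk ρ hρ0 hρ1 hδ hga
  set δ : ℝ := min δ₀ (c / (162 * (M + 1))) with hδdef
  have hcont := hh_cont k hk.cont ρ hρ0 hρ1
  have heven := hh_even k hk.even ρ
  have hbad' := hbad k hk ρ hρ0 hρ1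
  clear hbad
  generalize hh k ρ = h at hδ hga hcont heven hbad' ⊢
  have hδd : ∀ t, |h t| ≤ δ₀ := fun t => (hδ t).trans (min_le_left _ _)
  have hK := ka6_cont h hcont
  have hb := bounds6 h hcont δ fun t _ => hδ t
  have hδM : δ * (162 * (M + 1)) ≤ c := by
    have h1 : δ ≤ c / (162 * (M + 1)) := min_le_right _ _
    rwa [le_div_iff₀ (by positivity)] at h1
  have hδ0 : 0 < δ := lt_min hδ₀ (by positivity)
  have hκ0 : ∀ t, |t| ≤ 1 → ka6 h t = 0 := by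
    refine abs_near (wt a μ) (fun p => dir a p.1 p.2) (dir_norm hg) (ka6 h) hK c C₁ C₂ (162 * δ)
      (ga6 h) hC₁0 hC₂ (wt_sum hd) ?_ ?_ hga hb.2.2.2 ?_
    · intro w hw
      have H := hbad' hδd w 0 hw (by simp) (fun i j _ => by
        rw [yy0]
        exact abs_ip hw (dir_norm hg (i, j)))
      have e1 : ∑ i, ∑ j, μ i * μ j * ff a μ (al6 h) (ga6 h) (ka6 h) w 0 i j =
          ∑ l : Fin 4 × Fin 4, wt a μ l * ka6 h (ip w (dir a l.1 l.2)) := by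
        have e2 : ∀ l : Fin 4 × Fin 4,
            μ l.1 * μ l.2 * ff a μ (al6 h) (ga6 h) (ka6 h) w 0 l.1 l.2 =
            ga6 h * (wt a μ l * ip w (dir a l.1 l.2) ^ 4) +
              wt a μ l * ka6 h (ip w (dir a l.1 l.2)) := by
          intro l
          rw [ff0]
          unfold wt
          ring
        rw [← Fintype.sum_prod_type'
          (f := fun i j => μ i * μ j * ff a μ (al6 h) (ga6 h) (ka6 h) w 0 i j)]
        rw [Finset.sum_congr rfl (fun l _ => e2 l), Finset.sum_add_distrib, ← Finset.mul_sum,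
          wt_ip4 hg hd h4 w, mul_zero, zero_add]
      have e3 : ∑ i, ∑ j, ff a μ (al6 h) (ga6 h) (ka6 h) w 0 i j ^ 2 ≤
          32 * D ^ 2 * (∑ l : Fin 4 × Fin 4, ka6 h (ip w (dir a l.1 l.2)) ^ 2 + ga6 h ^ 2) := by
        rw [← Fintype.sum_prod_type'
          (f := fun i j => ff a μ (al6 h) (ga6 h) (ka6 h) w 0 i j ^ 2)]
        calc ∑ l : Fin 4 × Fin 4, ff a μ (al6 h) (ga6 h) (ka6 h) w 0 l.1 l.2 ^ 2
            ≤ ∑ l : Fin 4 × Fin 4,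
              D ^ 2 * (2 * (ga6 h ^ 2 + ka6 h (ip w (dir a l.1 l.2)) ^ 2)) :=
              Finset.sum_le_sum fun l _ => bound_ff a μ (al6 h) (ga6 h) (ka6 h) w hg hw D hD l.1 l.2
          _ = D ^ 2 * (2 * (16 * ga6 h ^ 2 +
              ∑ l : Fin 4 × Fin 4, ka6 h (ip w (dir a l.1 l.2)) ^ 2)) := by
              rw [← Finset.mul_sum, ← Finset.mul_sum, Finset.sum_add_distrib, Finset.sum_const,
                Finset.card_univ]
              simp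
          _ ≤ 32 * D ^ 2 *
              (∑ l : Fin 4 × Fin 4, ka6 h (ip w (dir a l.1 l.2)) ^ 2 + ga6 h ^ 2) := by
              have h1 : 0 ≤ ∑ l : Fin 4 × Fin 4, ka6 h (ip w (dir a l.1 l.2)) ^ 2 :=
                Finset.sum_nonneg fun _ _ => sq_nonneg _
              nlinarith [mul_nonneg (sq_nonneg D) h1]
      rw [e1] at H
      calc ∑ l : Fin 4 × Fin 4, wt a μ l * ka6 h (ip w (dir a l.1 l.2))
          ≤ C * ∑ i, ∑ j, ff a μ (al6 h) (ga6 h) (ka6 h) w 0 i j ^ 2 := H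
        _ ≤ C * (32 * D ^ 2 *
            (∑ l : Fin 4 × Fin 4, ka6 h (ip w (dir a l.1 l.2)) ^ 2 + ga6 h ^ 2)) :=
            mul_le_mul_of_nonneg_left e3 hC.le
        _ = C₁ * (∑ l : Fin 4 × Fin 4, ka6 h (ip w (dir a l.1 l.2)) ^ 2 + ga6 h ^ 2) := by
            rw [hC₁]
            ring
    · have H := coer (wt a μ) (fun p => dir a p.1 p.2) (dir_norm hg) 3 c hlam h hcont heven
      simp only [proj6] at H
      refine H.trans_eq ?_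
      refine integral_congr_ae (Filter.Eventually.of_forall fun w => ?_)
      show (∑ l : Fin 4 × Fin 4, wt a μ l * h (ip w (dir a l.1 l.2))) ^ 2 =
        (∑ l : Fin 4 × Fin 4, wt a μ l * ka6 h (ip w (dir a l.1 l.2))) ^ 2
      congr 1
      have e1 : ∀ l : Fin 4 × Fin 4, wt a μ l * h (ip w (dir a l.1 l.2)) =
          c6 h * wt a μ l + (al6 h * (wt a μ l * ip w (dir a l.1 l.2) ^ 2) +
            (ga6 h * (wt a μ l * ip w (dir a l.1 l.2) ^ 4) +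
              wt a μ l * ka6 h (ip w (dir a l.1 l.2)))) := by
        intro l
        unfold ka6
        ring
      rw [Finset.sum_congr rfl (fun l _ => e1 l), Finset.sum_add_distrib, Finset.sum_add_distrib,
        Finset.sum_add_distrib, ← Finset.mul_sum, ← Finset.mul_sum, ← Finset.mul_sum, wt_sum hd,
        wt_ip2 hg hd, wt_ip4 hg hd h4]
      ring
    · have hcard : (Fintype.card (Fin 4 × Fin 4) : ℝ) = 16 := by
        simp
      rw [hcard]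
      have e1 : 162 * δ * (∑ l, |wt a μ l|) * (2 * C₁ * (16 + Real.pi * C₂)) = 162 * δ * M := by
        rw [hM, hΩ]
        ring
      rw [e1]
      nlinarith
  refine ⟨?_, hκ0⟩
  have hI : ∫ w in Disc, ka6 h w.re ^ 2 = 0 := by
    have e1 : ∫ w in Disc, ka6 h w.re ^ 2 = ∫ w in Disc, (0 : ℝ) := by
      refine setIntegral_congr_fun measurableSet_closedBall fun w hw => ?_
      have h1 := hκ0 w.re (abs_le.2 ⟨(CoerAux.abs_re_le hw).1, (CoerAux.abs_re_le hw).2⟩)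
      show ka6 h w.re ^ 2 = 0
      rw [h1]
      norm_num
    rw [e1]
    simp
  rw [hI, mul_zero] at hga
  exact pow_eq_zero_iff (two_ne_zero) |>.1 (le_antisymm hga (sq_nonneg _))

end P23F
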