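import Mathlib
import Pool.Agent.Lib.P23F.DiscInt

/-!
# Module P23F.Subst : a one dimensional substitution on every chord

PROOF.  Apply `disc_slices` with the unit vector `v = -i u`: the points are
`(t + i s) v = (s - i t) u`, the inner variable `s` runs along `u` on the chord
`[-b, b]`, `b = √(1 - t²)`, and `ip ((s - i t) u) u = s`.  For fixed `t` put
`g(s) = s + e ψ((s - i t) u)`; `g` is `C¹` with
`|g' - 1| = |e| |fderiv ψ (..) u| ≤ |e| D ≤ 1/2`, and `g(±b) = ±b` since `ψ = 0` on the unit circle.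
So `g` is increasing from `-b` to `b` on the chord, which gives `|g(s)| ≤ b ≤ 1`: first claim
(every `w ∈ Disc` is such a point).
Substitution (`intervalIntegral.integral_comp_mul_deriv`): for continuous `F`,
`∫_{-b}^b F(g(s)) g'(s) ds = ∫_{-b}^b F(x) dx`.
Second claim: `∫ κ(g) - ∫ κ = ∫ κ(g) (1 - g')`, in absolute value
`≤ |e| D ∫ |κ(g)| ≤ 2 |e| D ∫ |κ(g)| g' = 2 |e| D ∫ |κ|` (`g' ≥ 1/2`); integrate over `t`.
Third claim: `∫ κ(g)² ≤ 2 ∫ κ(g)² g' = 2 ∫ κ²`; integrate over `t`.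
-/

set_option autoImplicit false

open MeasureTheory

namespace P23F

namespace SubstAux

/-- the points of the chords -/
noncomputable def P (u : ℂ) (t s : ℝ) : ℂ := ((t : ℂ) + s * Complex.I) * (-Complex.I * u)

theorem P_eq (u : ℂ) (t s : ℝ) : P u t s = ((s : ℂ) - t * Complex.I) * u := by
  unfold P
  linear_combination (-(s : ℂ) * u) * Complex.I_mul_I

theorem norm_P {u : ℂ} (hu : ‖u‖ = 1) (t s : ℝ) : ‖P u t s‖ = √(t ^ 2 + s ^ 2) := by
  unfold P
  rw [norm_mul, norm_mul, norm_neg, Complex.norm_I, hu, Complex.norm_def,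
    Complex.normSq_add_mul_I]
  ring

theorem ip_P {u : ℂ} (hu : ‖u‖ = 1) (t s : ℝ) : ip (P u t s) u = s := by
  have hu2 : u.re * u.re + u.im * u.im = 1 := by
    have h1 := Complex.normSq_eq_norm_sq u
    rw [hu, Complex.normSq_apply] at h1
    linarith
  have h2 : ip (P u t s) u = s * (u.re * u.re + u.im * u.im) := by
    rw [P_eq]
    simp [ip]
    ring
  rw [h2, hu2, mul_one]

theorem mem_P {u : ℂ} (hu : ‖u‖ = 1) {t s : ℝ} (h : t ^ 2 + s ^ 2 ≤ 1) : P u t s ∈ Disc := by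
  rw [mem_closedBall_zero_iff, norm_P hu]
  rw [Real.sqrt_le_one]
  exact h

theorem hasDerivAt_P (u : ℂ) (t s : ℝ) : HasDerivAt (fun s => P u t s) u s := by
  have h1 : HasDerivAt (fun s : ℝ => ((s : ℂ) - t * Complex.I) * u) (1 * u) s :=
    ((Complex.ofRealCLM.hasDerivAt).sub_const _).mul_const u
  rw [one_mul] at h1
  refine h1.congr_of_eventuallyEq (Filter.Eventually.of_forall fun x => ?_)
  exact P_eq u t x

theorem cont_P (u : ℂ) : Continuous fun p : ℝ × ℝ => P u p.1 p.2 := by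
  unfold P
  fun_prop

theorem cont_P1 (u : ℂ) (t : ℝ) : Continuous fun s : ℝ => P u t s := by
  unfold P
  fun_prop

section

variable {u : ℂ} (hu : ‖u‖ = 1) {ψ : ℂ → ℝ} (hψ : ContDiff ℝ 1 ψ)
    (hψ0 : ∀ w, ‖w‖ = 1 → ψ w = 0) {D : ℝ} (hD : ∀ w ∈ Disc, ‖fderiv ℝ ψ w‖ ≤ D) {e : ℝ}
    (he : |e| * D ≤ 1 / 2)

include hψ in
theorem hasDerivAt_g (t s : ℝ) :
    HasDerivAt (fun s => s + e * ψ (P u t s)) (1 + e * fderiv ℝ ψ (P u t s) u) s := by
  have h1 : HasDerivAt (fun s => ψ (P u t s)) (fderiv ℝ ψ (P u t s) u) s :=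
    ((hψ.differentiable (by norm_num)) (P u t s)).hasFDerivAt.comp_hasDerivAt s
      (hasDerivAt_P u t s)
  exact (hasDerivAt_id s).add (h1.const_mul e)

include hψ in
theorem cont_g' (t : ℝ) : Continuous fun s => 1 + e * fderiv ℝ ψ (P u t s) u := by
  have h1 : Continuous (fderiv ℝ ψ) := hψ.continuous_fderiv (by norm_num)
  exact continuous_const.add (continuous_const.mul
    ((h1.comp (cont_P1 u t)).clm_apply continuous_const))

include hψ in
theorem cont_g (t : ℝ) : Continuous fun s => s + e * ψ (P u t s) :=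
  continuous_id.add (continuous_const.mul (hψ.continuous.comp (cont_P1 u t)))

include hD in
theorem D_nonneg : 0 ≤ D :=
  (norm_nonneg _).trans (hD 0 (by simp))

include hu hD in
theorem g'_near {t s : ℝ} (h : t ^ 2 + s ^ 2 ≤ 1) :
    |(1 + e * fderiv ℝ ψ (P u t s) u) - 1| ≤ |e| * D := by
  rw [add_sub_cancel_left, abs_mul]
  refine mul_le_mul_of_nonneg_left ?_ (abs_nonneg e)
  have h1 := (fderiv ℝ ψ (P u t s)).le_opNorm u
  rw [hu, mul_one, Real.norm_eq_abs] at h1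
  exact h1.trans (hD _ (mem_P hu h))

include hu hD he in
theorem g'_half {t s : ℝ} (h : t ^ 2 + s ^ 2 ≤ 1) :
    1 / 2 ≤ 1 + e * fderiv ℝ ψ (P u t s) u := by
  have h1 := abs_le.1 ((g'_near hu hD (e := e) h).trans he)
  linarith [h1.1]

theorem chord {t s : ℝ} (ht : |t| ≤ 1) (hs : s ∈ Set.Icc (-√(1 - t ^ 2)) √(1 - t ^ 2)) :
    t ^ 2 + s ^ 2 ≤ 1 := by
  have h0 : 0 ≤ 1 - t ^ 2 := by
    have := sq_abs t
    nlinarith [abs_nonneg t]
  have h1 : |s| ≤ √(1 - t ^ 2) := abs_le.2 hs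
  have h2 : |s| ^ 2 ≤ √(1 - t ^ 2) ^ 2 := pow_le_pow_left₀ (abs_nonneg s) h1 2
  rw [sq_abs, Real.sq_sqrt h0] at h2
  linarith

include hu hψ0 in
theorem g_end {t b : ℝ} (h : t ^ 2 + b ^ 2 = 1) : b + e * ψ (P u t b) = b := by
  rw [hψ0 _ (by rw [norm_P hu, h, Real.sqrt_one]), mul_zero, add_zero]

theorem chord_end {t : ℝ} (ht : |t| ≤ 1) : t ^ 2 + √(1 - t ^ 2) ^ 2 = 1 := by
  have h0 : 0 ≤ 1 - t ^ 2 := by
    have := sq_abs t
    nlinarith [abs_nonneg t]
  rw [Real.sq_sqrt h0]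
  ring

include hu hψ hψ0 hD he in
theorem g_abs_le {t s : ℝ} (h : t ^ 2 + s ^ 2 ≤ 1) : |s + e * ψ (P u t s)| ≤ 1 := by
  have ht : |t| ≤ 1 := abs_le_one_iff_mul_self_le_one.2 (by nlinarith)
  have h0 : 0 ≤ 1 - t ^ 2 := by nlinarith
  have hs : s ∈ Set.Icc (-√(1 - t ^ 2)) √(1 - t ^ 2) := by
    rw [Set.mem_Icc, ← abs_le]
    exact Real.abs_le_sqrt (by linarith)
  have hb := Real.sqrt_nonneg (1 - t ^ 2)
  have hmono : MonotoneOn (fun s => s + e * ψ (P u t s))
      (Set.Icc (-√(1 - t ^ 2)) √(1 - t ^ 2)) := by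
    refine monotoneOn_of_deriv_nonneg (convex_Icc _ _) (cont_g hψ t).continuousOn
      (fun x _ => (hasDerivAt_g hψ t x).differentiableAt.differentiableWithinAt) ?_
    intro x hx
    rw [(hasDerivAt_g hψ t x).deriv]
    have h1 := g'_half hu hD he (chord ht (interior_subset hx))
    linarith
  have h1 := hmono hs (Set.right_mem_Icc.2 (by linarith)) hs.2
  have h2 := hmono (Set.left_mem_Icc.2 (by linarith)) hs hs.1
  have e1 := g_end (e := e) hu hψ0 (chord_end ht)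
  have e2 := g_end (e := e) hu hψ0 (t := t) (b := -√(1 - t ^ 2)) (by
    rw [neg_sq]
    exact chord_end ht)
  simp only at h1 h2
  rw [e1] at h1
  rw [e2] at h2
  have h3 : √(1 - t ^ 2) ≤ 1 := Real.sqrt_le_one.2 (by nlinarith)
  exact abs_le.2 ⟨by linarith, by linarith⟩

include hu hψ hψ0 in
/-- the substitution -/
theorem subst_chord {t : ℝ} (ht : |t| ≤ 1) {F : ℝ → ℝ} (hF : Continuous F) :
    ∫ s in (-√(1 - t ^ 2))..√(1 - t ^ 2),
      F (s + e * ψ (P u t s)) * (1 + e * fderiv ℝ ψ (P u t s) u) =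
    ∫ s in (-√(1 - t ^ 2))..√(1 - t ^ 2), F s := by
  have h1 := intervalIntegral.integral_comp_mul_deriv (a := -√(1 - t ^ 2)) (b := √(1 - t ^ 2))
    (f := fun s => s + e * ψ (P u t s)) (f' := fun s => 1 + e * fderiv ℝ ψ (P u t s) u)
    (g := F) (fun x _ => hasDerivAt_g hψ t x) (cont_g' hψ t).continuousOn hF
  have e1 := g_end (e := e) hu hψ0 (chord_end ht)
  have e2 := g_end (e := e) hu hψ0 (t := t) (b := -√(1 - t ^ 2)) (by
    rw [neg_sq]
    exact chord_end ht)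
  rw [e1, e2] at h1
  exact h1

include hu hψ hψ0 hD he in
theorem chord_sq {t : ℝ} (ht : |t| ≤ 1) {F : ℝ → ℝ} (hF : Continuous F) (hF0 : ∀ x, 0 ≤ F x) :
    ∫ s in (-√(1 - t ^ 2))..√(1 - t ^ 2), F (s + e * ψ (P u t s)) ≤
      2 * ∫ s in (-√(1 - t ^ 2))..√(1 - t ^ 2), F s := by
  have hb := Real.sqrt_nonneg (1 - t ^ 2)
  rw [← subst_chord (e := e) hu hψ hψ0 ht hF, ← intervalIntegral.integral_const_mul]
  refine intervalIntegral.integral_mono_on (by linarith)
    ((hF.comp (cont_g hψ t)).intervalIntegrable _ _)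
    ((continuous_const.mul ((hF.comp (cont_g hψ t)).mul (cont_g' hψ t))).intervalIntegrable _ _)
    fun s hs => ?_
  have h1 := g'_half hu hD he (chord ht hs)
  have h2 := hF0 (s + e * ψ (P u t s))
  nlinarith

include hu hψ hψ0 hD he in
theorem chord_int {t : ℝ} (ht : |t| ≤ 1) {κ : ℝ → ℝ} (hκ : Continuous κ) :
    |(∫ s in (-√(1 - t ^ 2))..√(1 - t ^ 2), κ (s + e * ψ (P u t s))) -
      ∫ s in (-√(1 - t ^ 2))..√(1 - t ^ 2), κ s| ≤
      2 * |e| * D * ∫ s in (-√(1 - t ^ 2))..√(1 - t ^ 2), |κ s| := by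
  have hb := Real.sqrt_nonneg (1 - t ^ 2)
  have hD0 := D_nonneg hD
  have hcg := cont_g (u := u) (e := e) hψ t
  have hcg' := cont_g' (u := u) (e := e) hψ t
  have h0 := chord_sq hu hψ hψ0 hD he ht hκ.abs (fun x => abs_nonneg _)
  have h1 := subst_chord (e := e) hu hψ hψ0 ht hκ
  have hs := intervalIntegral.integral_sub (a := -√(1 - t ^ 2)) (b := √(1 - t ^ 2))
    (μ := volume) (f := fun s => κ (s + e * ψ (P u t s)))
    (g := fun s => κ (s + e * ψ (P u t s)) * (1 + e * fderiv ℝ ψ (P u t s) u))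
    ((hκ.comp hcg).intervalIntegrable _ _) (((hκ.comp hcg).mul hcg').intervalIntegrable _ _)
  rw [← h1, ← hs]
  refine (intervalIntegral.abs_integral_le_integral_abs (by linarith)).trans ?_
  have h2 : ∫ s in (-√(1 - t ^ 2))..√(1 - t ^ 2), |κ (s + e * ψ (P u t s)) -
      κ (s + e * ψ (P u t s)) * (1 + e * fderiv ℝ ψ (P u t s) u)| ≤
      ∫ s in (-√(1 - t ^ 2))..√(1 - t ^ 2), |e| * D * |κ (s + e * ψ (P u t s))| := by
    refine intervalIntegral.integral_mono_on (by linarith)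
      (((hκ.comp hcg).sub ((hκ.comp hcg).mul hcg')).abs.intervalIntegrable _ _)
      ((continuous_const.mul (hκ.comp hcg).abs).intervalIntegrable _ _)
      fun s hs => ?_
    have h3 := g'_near hu hD (e := e) (chord ht hs)
    have h4 : κ (s + e * ψ (P u t s)) -
        κ (s + e * ψ (P u t s)) * (1 + e * fderiv ℝ ψ (P u t s) u) =
        -((1 + e * fderiv ℝ ψ (P u t s) u) - 1) * κ (s + e * ψ (P u t s)) := by ring
    rw [h4, abs_mul, abs_neg]
    exact mul_le_mul_of_nonneg_right h3 (abs_nonneg _)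
  refine h2.trans ?_
  rw [intervalIntegral.integral_const_mul]
  have h5 : 0 ≤ |e| * D := by positivity
  nlinarith

end

theorem cont_slice (G : ℂ → ℝ) (hG : Continuous G) (u : ℂ) :
    Continuous fun t : ℝ => ∫ s in (-√(1 - t ^ 2))..√(1 - t ^ 2), G (P u t s) := by
  have hc : Continuous (Function.uncurry fun t s : ℝ => G (P u t s)) := hG.comp (cont_P u)
  have h1 : Continuous fun t : ℝ => ∫ s in (0 : ℝ)..√(1 - t ^ 2), G (P u t s) :=
    intervalIntegral.continuous_parametric_intervalIntegral_of_continuous hc (by fun_prop)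
  have h2 : Continuous fun t : ℝ => ∫ s in (0 : ℝ)..(-√(1 - t ^ 2)), G (P u t s) :=
    intervalIntegral.continuous_parametric_intervalIntegral_of_continuous hc (by fun_prop)
  refine (h1.sub h2).congr fun t => ?_
  have hi : ∀ a b : ℝ, IntervalIntegrable (fun s : ℝ => G (P u t s)) volume a b :=
    fun a b => (hG.comp (cont_P1 u t)).intervalIntegrable a b
  exact intervalIntegral.integral_interval_sub_left (hi _ _) (hi _ _)

theorem slices {u : ℂ} (hu : ‖u‖ = 1) (G : ℂ → ℝ) (hG : Continuous G) :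
    ∫ w in Disc, G w = ∫ t in (-1 : ℝ)..1, ∫ s in (-√(1 - t ^ 2))..√(1 - t ^ 2),
      G (P u t s) :=
  disc_slices G hG (-Complex.I * u) (by rw [norm_mul, norm_neg, Complex.norm_I, hu, one_mul])

theorem cont_ip (u : ℂ) : Continuous fun w : ℂ => ip w u := by
  unfold ip
  exact (Complex.continuous_re.mul continuous_const).add
    (Complex.continuous_im.mul continuous_const)

end SubstAux

open SubstAux

theorem subst_abs_le (u : ℂ) (hu : ‖u‖ = 1) (ψ : ℂ → ℝ) (hψ : ContDiff ℝ 1 ψ)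
    (hψ0 : ∀ w, ‖w‖ = 1 → ψ w = 0) (D : ℝ) (hD : ∀ w ∈ Disc, ‖fderiv ℝ ψ w‖ ≤ D) (e : ℝ)
    (he : |e| * D ≤ 1 / 2) (w : ℂ) (hw : w ∈ Disc) : |ip w u + e * ψ w| ≤ 1 := by
  have hv : ‖-Complex.I * u‖ = 1 := by rw [norm_mul, norm_neg, Complex.norm_I, hu, one_mul]
  have hv0 : -Complex.I * u ≠ 0 := by
    intro h
    rw [h, norm_zero] at hv
    exact zero_ne_one hv
  have h1 : P u (w / (-Complex.I * u)).re (w / (-Complex.I * u)).im = w := by
    unfold P
    rw [Complex.re_add_im, div_mul_cancel₀ _ hv0]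
  rw [mem_closedBall_zero_iff] at hw
  have h2 : (w / (-Complex.I * u)).re ^ 2 + (w / (-Complex.I * u)).im ^ 2 ≤ 1 := by
    have h3 := norm_P hu (w / (-Complex.I * u)).re (w / (-Complex.I * u)).im
    rw [h1] at h3
    rw [h3, Real.sqrt_le_one] at hw
    exact hw
  have h4 := g_abs_le hu hψ hψ0 hD he h2
  have h5 := ip_P hu (w / (-Complex.I * u)).re (w / (-Complex.I * u)).im
  rw [h1] at h4 h5
  rw [h5]
  exact h4

theorem subst_int (u : ℂ) (hu : ‖u‖ = 1) (ψ : ℂ → ℝ) (hψ : ContDiff ℝ 1 ψ)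
    (hψ0 : ∀ w, ‖w‖ = 1 → ψ w = 0) (D : ℝ) (hD : ∀ w ∈ Disc, ‖fderiv ℝ ψ w‖ ≤ D) (e : ℝ)
    (he : |e| * D ≤ 1 / 2) (κ : ℝ → ℝ) (hκ : Continuous κ) :
    |(∫ w in Disc, κ (ip w u + e * ψ w)) - ∫ w in Disc, κ (ip w u)| ≤
      2 * |e| * D * ∫ w in Disc, |κ (ip w u)| := by
  have c1 : Continuous fun w => κ (ip w u + e * ψ w) :=
    hκ.comp ((cont_ip u).add (continuous_const.mul hψ.continuous))
  have c2 : Continuous fun w => κ (ip w u) := hκ.comp (cont_ip u)
  have c3 : Continuous fun w => |κ (ip w u)| := c2.abs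
  rw [slices hu _ c1, slices hu _ c2, slices hu _ c3]
  rw [← intervalIntegral.integral_sub ((cont_slice _ c1 u).intervalIntegrable _ _)
    ((cont_slice _ c2 u).intervalIntegrable _ _), ← intervalIntegral.integral_const_mul]
  refine (intervalIntegral.abs_integral_le_integral_abs (by norm_num)).trans ?_
  refine intervalIntegral.integral_mono_on (by norm_num)
    (((cont_slice _ c1 u).sub (cont_slice _ c2 u)).abs.intervalIntegrable _ _)
    ((continuous_const.mul (cont_slice _ c3 u)).intervalIntegrable _ _) fun t ht => ?_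
  simp only [ip_P hu]
  exact chord_int hu hψ hψ0 hD he (abs_le.2 ht) hκ

theorem subst_sq (u : ℂ) (hu : ‖u‖ = 1) (ψ : ℂ → ℝ) (hψ : ContDiff ℝ 1 ψ)
    (hψ0 : ∀ w, ‖w‖ = 1 → ψ w = 0) (D : ℝ) (hD : ∀ w ∈ Disc, ‖fderiv ℝ ψ w‖ ≤ D) (e : ℝ)
    (he : |e| * D ≤ 1 / 2) (κ : ℝ → ℝ) (hκ : Continuous κ) :
    ∫ w in Disc, κ (ip w u + e * ψ w) ^ 2 ≤ 2 * ∫ w in Disc, κ (ip w u) ^ 2 := by
  have c1 : Continuous fun w => κ (ip w u + e * ψ w) ^ 2 :=
    (hκ.comp ((cont_ip u).add (continuous_const.mul hψ.continuous))).pow 2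
  have c2 : Continuous fun w => κ (ip w u) ^ 2 := (hκ.comp (cont_ip u)).pow 2
  rw [slices hu _ c1, slices hu _ c2, ← intervalIntegral.integral_const_mul]
  refine intervalIntegral.integral_mono_on (by norm_num)
    ((cont_slice _ c1 u).intervalIntegrable _ _)
    ((continuous_const.mul (cont_slice _ c2 u)).intervalIntegrable _ _) fun t ht => ?_
  simp only [ip_P hu]
  exact chord_sq hu hψ hψ0 hD he (abs_le.2 ht) (hκ.pow 2) (fun x => sq_nonneg _)

end P23F
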