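import Mathlib
import Pool.Agent.Lib.P23F.Subst
import Pool.Agent.Lib.P23F.LNe
import Pool.Agent.Lib.P23F.Bad6

/-!
# Module P23F.Near6b : orthocentric case, the quartic coefficient dominates

PROOF.  `ψ w = LL a μ w (1 - ‖w‖²)`, a polynomial in `w.re, w.im`, zero on the unit circle; let
`M ≥ 1` bound `|ψ|` and `‖fderiv ψ‖` on the disc, `E ≥ 1` bound `|eta μ i - eta μ j| / ‖a i - a j‖`
(`i ≠ j`), `I₀ = ∫_{Disc} LL ψ = ∫ LL² (1 - ‖w‖²) > 0` (`LL_int_pos`), `J = ∫ ψ²`,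
`W = ∑_p |wt a μ p|`; `K` from `alg6`, `δ₀`, `C` from `bad6`.
Let `0 < θ ≤ 1` with `θ M ≤ 1`, `θ E M ≤ 1/2` and `K θ J ≤ I₀`; let `C₂ ≥ 1` with
`2 W E M √π ≤ I₀ √C₂`.  Suppose `h = hh k ρ`, `|h| ≤ δ ≤ δ₀`, `α = al6 h`, `γ = ga6 h`, `κ = ka6 h`,
`N² := ∫_{Disc} κ(w.re)²` and `C₂ N² < γ²` (so `γ ≠ 0`, `N < |γ| / √C₂`, `N² < γ²`).
Let `A = |α| + |γ| > 0`, `σ = γ / A` (`|σ| ≤ 1`), `τ(w) = θ σ ψ(w)`, `|τ| ≤ 1` on the disc.
`yy a μ w τ(w) i j = ip w u + e ψ(w)` with `u = dir a i j`,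
`e = θ σ (η i - η j)/‖a i - a j‖`, `|e| ≤ θ E |σ|`, `|e| M ≤ 1/2`; so `subst_abs_le` gives
`|yy| ≤ 1` and `bad6` applies at every `w ∈ Disc`.  Integrate over the disc and use `alg6`:
`LHS := ∫ [4 γ τ LL - K A τ² + ∑_{i≠j} wt κ(yy)] ≤ C K ∫ [α² τ² + γ² + ∑_{i≠j} κ(yy)²] =: RHS`.
* `∫ 4 γ τ LL = 4 θ (γ²/A) I₀`;  `∫ K A τ² = K θ² (γ²/A) J ≤ θ (γ²/A) I₀`.
* By `subst_int`, `disc_ridge_re` and `wt_sum` (`∑ wt ∫ κ(ip w u) = 0`),
  `|∫ ∑_{i≠j} wt κ(yy)| ≤ W 2 (θ E |σ|) M ∫ |κ(w.re)| ≤ 2 W E M θ |σ| √π N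
  ≤ 2 W E M √π θ (γ²/A) / √C₂ ≤ θ (γ²/A) I₀`  (`|σ| |γ| = γ²/A`, Cauchy-Schwarz, area `π`).
* So `LHS ≥ 2 θ I₀ γ²/A`.
* `RHS ≤ C K (γ² J + π γ² + 16 * 2 N²) ≤ C K (J + π + 32) γ²`, since
  `α² τ² ≤ α² σ² ψ² ≤ γ² ψ²` (`|α| ≤ A`) and `subst_sq`.
Hence `2 θ I₀ / A ≤ C K (J + π + 32)`, i.e. `A ≥ 2 θ I₀ / (C K (J + π + 32)) =: A₀ > 0`, but
`A ≤ 152 δ` (`bounds6`).  Choose `δ ≤ δ₀` with `152 δ < A₀`: contradiction.
-/

set_option autoImplicit false

open MeasureTheory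

namespace P23F

private lemma near6b_core (C K θ I₀ J V N2 T α γ S Q : ℝ) (hC : 0 < C) (hK : 0 < K)
    (hθ : 0 < θ) (hθ1 : θ ≤ 1) (hJ : 0 ≤ J) (hKJ : K * θ * J ≤ I₀)
    (hT : T ≤ I₀ * |γ|) (hγ : 0 < |γ|) (hN2 : N2 ≤ γ ^ 2)
    (hS : |S| ≤ θ * |γ / (|α| + |γ|)| * T) (hQ : Q ≤ 32 * N2)
    (hmain : 4 * γ * (θ * (γ / (|α| + |γ|))) * I₀ -
      K * (|α| + |γ|) * (θ * (γ / (|α| + |γ|))) ^ 2 * J + S ≤
      C * (K * (α ^ 2 * (θ * (γ / (|α| + |γ|))) ^ 2 * J + γ ^ 2 * V + Q))) :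
    2 * θ * I₀ ≤ C * K * (J + V + 32) * (|α| + |γ|) := by
  obtain ⟨A, hA⟩ : ∃ A, A = |α| + |γ| := ⟨_, rfl⟩
  rw [← hA] at hS hmain ⊢
  have hA0 : 0 < A := by rw [hA]; positivity
  have hαA : |α| ≤ A := by rw [hA]; linarith
  obtain ⟨σ, hσ⟩ : ∃ σ, σ = γ / A := ⟨_, rfl⟩
  rw [← hσ] at hS hmain
  have hσA : σ * A = γ := by rw [hσ]; field_simp
  have hγ2 : 0 < γ ^ 2 := by rw [← sq_abs]; positivity
  obtain ⟨g, hg⟩ : ∃ g, g = σ * γ := ⟨_, rfl⟩
  have hgA : g * A = γ ^ 2 := by rw [hg, ← hσA]; ring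
  have hg0 : 0 < g := by
    by_contra h
    push Not at h
    nlinarith
  have h1 : |σ| * |γ| = g := by
    rw [← abs_mul, ← hg, abs_of_pos hg0]
  have h2 : σ ^ 2 * A = g := by rw [hg, ← hσA]; ring
  have h3 : -(θ * g * I₀) ≤ S := by
    have h4 : θ * |σ| * T ≤ θ * |σ| * (I₀ * |γ|) :=
      mul_le_mul_of_nonneg_left hT (by positivity)
    have h5 : θ * |σ| * (I₀ * |γ|) = θ * g * I₀ := by rw [← h1]; ring
    have h6 := (abs_le.1 hS).1
    linarith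
  have h4 : K * A * (θ * σ) ^ 2 * J ≤ θ * g * I₀ := by
    have h5 : K * A * (θ * σ) ^ 2 * J = θ * g * (K * θ * J) := by
      rw [← h2]; ring
    rw [h5]
    exact mul_le_mul_of_nonneg_left hKJ (by positivity)
  have h5 : 4 * γ * (θ * σ) * I₀ = 4 * (θ * g * I₀) := by rw [hg]; ring
  have h6 : α ^ 2 * (θ * σ) ^ 2 ≤ γ ^ 2 := by
    have h7 : α ^ 2 ≤ A ^ 2 := by
      rw [← sq_abs α]
      exact pow_le_pow_left₀ (abs_nonneg _) hαA 2
    have h8 : θ ^ 2 ≤ 1 := by nlinarith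
    calc α ^ 2 * (θ * σ) ^ 2 = α ^ 2 * σ ^ 2 * θ ^ 2 := by ring
      _ ≤ α ^ 2 * σ ^ 2 * 1 := mul_le_mul_of_nonneg_left h8 (by positivity)
      _ = α ^ 2 * σ ^ 2 := by ring
      _ ≤ A ^ 2 * σ ^ 2 := mul_le_mul_of_nonneg_right h7 (by positivity)
      _ = γ ^ 2 := by rw [← hσA]; ring
  have h7 : α ^ 2 * (θ * σ) ^ 2 * J + γ ^ 2 * V + Q ≤ (J + V + 32) * γ ^ 2 := by
    have h8 : α ^ 2 * (θ * σ) ^ 2 * J ≤ γ ^ 2 * J := mul_le_mul_of_nonneg_right h6 hJ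
    nlinarith
  have h8 : C * (K * (α ^ 2 * (θ * σ) ^ 2 * J + γ ^ 2 * V + Q)) ≤
      C * (K * ((J + V + 32) * γ ^ 2)) :=
    mul_le_mul_of_nonneg_left (mul_le_mul_of_nonneg_left h7 hK.le) hC.le
  have h9 : 2 * (θ * g * I₀) ≤ C * (K * ((J + V + 32) * γ ^ 2)) := by linarith
  rw [← hgA] at h9
  have h10 : g * (2 * θ * I₀) ≤ g * (C * K * (J + V + 32) * A) := by nlinarith
  exact le_of_mul_le_mul_left h10 hg0

private noncomputable def psi6 (a : Fin 4 → ℂ) (μ : Fin 4 → ℝ) (w : ℂ) : ℝ :=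
  LL a μ w * (1 - ‖w‖ ^ 2)

private lemma ip_contDiff (u : ℂ) : ContDiff ℝ 1 (fun w : ℂ => ip w u) := by
  unfold ip
  exact (Complex.reCLM.contDiff.mul contDiff_const).add
    (Complex.imCLM.contDiff.mul contDiff_const)

private lemma LL_contDiff (a : Fin 4 → ℂ) (μ : Fin 4 → ℝ) : ContDiff ℝ 1 (LL a μ) := by
  unfold LL
  refine contDiff_const.mul (ContDiff.sum fun j _ => ?_)
  by_cases hj : j = 0
  · simp only [hj, if_true]
    exact contDiff_const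
  · simp only [hj, if_false]
    exact contDiff_const.mul ((ip_contDiff _).pow 3)

private lemma psi6_contDiff (a : Fin 4 → ℂ) (μ : Fin 4 → ℝ) : ContDiff ℝ 1 (psi6 a μ) := by
  unfold psi6
  exact (LL_contDiff a μ).mul (contDiff_const.sub (contDiff_norm_sq ℝ))

private lemma int_disc (f : ℂ → ℝ) (hf : Continuous f) : IntegrableOn f Disc :=
  hf.continuousOn.integrableOn_compact (isCompact_closedBall _ _)

private lemma cs_disc (f : ℂ → ℝ) (hf : Continuous f) :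
    (∫ w in Disc, |f w|) ^ 2 ≤ ((volume Disc).toReal + 1) * ∫ w in Disc, f w ^ 2 := by
  obtain ⟨V, hV⟩ : ∃ V, V = (volume Disc).toReal := ⟨_, rfl⟩
  have hV0 : 0 ≤ V := by rw [hV]; exact ENNReal.toReal_nonneg
  obtain ⟨N, hN⟩ : ∃ N, N = ∫ w in Disc, |f w| := ⟨_, rfl⟩
  obtain ⟨t, ht⟩ : ∃ t, t = N / (V + 1) := ⟨_, rfl⟩
  have h1 : 0 ≤ ∫ w in Disc, (|f w| - t) ^ 2 := integral_nonneg fun w => sq_nonneg _
  have h2 : ∫ w in Disc, (|f w| - t) ^ 2 =
      (∫ w in Disc, f w ^ 2) - 2 * t * N + t ^ 2 * V := by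
    have h3 : ∀ w, (|f w| - t) ^ 2 = f w ^ 2 - 2 * t * |f w| + t ^ 2 := by
      intro w
      rw [← sq_abs (f w)]
      ring
    simp_rw [h3]
    rw [integral_add, integral_sub, integral_const_mul, ← hN]
    · rw [setIntegral_const, hV]
      simp [Measure.real, mul_comm]
    · exact int_disc _ (hf.pow 2)
    · exact int_disc _ (hf.abs.const_smul (2 * t))
    · exact int_disc _ (((hf.pow 2).sub (continuous_const.mul hf.abs)))
    · exact int_disc _ continuous_const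
  rw [h2] at h1
  rw [← hV, ← hN]
  have h4 : t * (V + 1) = N := by rw [ht]; field_simp
  have h5 : 0 ≤ t ^ 2 := sq_nonneg t
  have h6 : N ^ 2 = t * N * (V + 1) := by rw [← h4]; ring
  have h7 : t * N ≤ ∫ w in Disc, f w ^ 2 := by
    have : t ^ 2 * V ≤ t * N := by
      rw [← h4]; nlinarith
    linarith
  rw [h6]
  nlinarith

private lemma sum_bound (w Y : Fin 4 → Fin 4 → ℝ) (X B : ℝ) (hw : ∑ i, ∑ j, w i j = 0)
    (hd : ∀ i, w i i = 0) (hY : ∀ i j, i ≠ j → |Y i j - X| ≤ B) :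
    |∑ i, ∑ j, (if i = j then 0 else w i j * Y i j)| ≤ (∑ i, ∑ j, |w i j|) * B := by
  have h1 : ∑ i, ∑ j, (if i = j then 0 else w i j * Y i j) =
      ∑ i, ∑ j, (if i = j then 0 else w i j * (Y i j - X)) + (∑ i, ∑ j, w i j) * X := by
    rw [Finset.sum_mul, ← Finset.sum_add_distrib]
    refine Finset.sum_congr rfl fun i _ => ?_
    rw [Finset.sum_mul, ← Finset.sum_add_distrib]
    refine Finset.sum_congr rfl fun j _ => ?_
    by_cases h : i = j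
    · subst h; simp [hd]
    · simp only [h, if_false]; ring
  rw [h1, hw, zero_mul, add_zero]
  refine (Finset.abs_sum_le_sum_abs _ _).trans ?_
  rw [Finset.sum_mul]
  refine Finset.sum_le_sum fun i _ => ?_
  refine (Finset.abs_sum_le_sum_abs _ _).trans ?_
  rw [Finset.sum_mul]
  refine Finset.sum_le_sum fun j _ => ?_
  by_cases h : i = j
  · subst h; simp [hd]
  · simp only [h, if_false, abs_mul]
    exact mul_le_mul_of_nonneg_left (hY i j h) (abs_nonneg _)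

private lemma int_sum2 (f : Fin 4 → Fin 4 → ℂ → ℝ) (hf : ∀ i j, Continuous (f i j)) :
    ∫ w in Disc, ∑ i, ∑ j, (if i = j then 0 else f i j w) =
      ∑ i, ∑ j, (if i = j then 0 else ∫ w in Disc, f i j w) := by
  have hc : ∀ i j, Continuous (fun w => if i = j then (0 : ℝ) else f i j w) := by
    intro i j
    by_cases h : i = j
    · simp only [h, if_true]; exact continuous_const
    · simp only [h, if_false]; exact hf i j
  rw [integral_finsetSum]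
  · refine Finset.sum_congr rfl fun i _ => ?_
    rw [integral_finsetSum]
    · refine Finset.sum_congr rfl fun j _ => ?_
      by_cases h : i = j
      · simp [h]
      · simp [h]
    · intro j _
      exact int_disc _ (hc i j)
  · intro i _
    exact int_disc _ (continuous_finsetSum _ fun j _ => hc i j)

theorem near6b (a : Fin 4 → ℂ) (μ : Fin 4 → ℝ) (hg : Gen a) (hd : Dep a μ)
    (h4 : ∑ p, (wt a μ p : ℂ) * dir a p.1 p.2 ^ 4 = 0) :
    ∃ C₂ > 0, ∃ δ > 0, ∀ (k : ℝ → ℝ), Bad a k → ∀ ρ, 0 < ρ → ρ < 1 → (∀ t, |hh k ρ t| ≤ δ) →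
      ga6 (hh k ρ) ^ 2 ≤ C₂ * ∫ w in Disc, ka6 (hh k ρ) w.re ^ 2 := by
  obtain ⟨K, hK, hK6⟩ := alg6 a μ hg hd h4
  obtain ⟨δ₀, hδ₀, C, hC, hB⟩ := bad6 a μ hg hd h4
  have hψ : ContDiff ℝ 1 (psi6 a μ) := psi6_contDiff a μ
  have hψ0 : ∀ w : ℂ, ‖w‖ = 1 → psi6 a μ w = 0 := fun w hw => by simp [psi6, hw]
  have hLc : Continuous (LL a μ) := (LL_contDiff a μ).continuous
  have hψc : Continuous (psi6 a μ) := hψ.continuous
  have hψd : Continuous (fderiv ℝ (psi6 a μ)) := hψ.continuous_fderiv one_ne_zero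
  obtain ⟨M₁, hM₁⟩ := (isCompact_closedBall (0 : ℂ) 1).exists_bound_of_continuousOn
    hψc.continuousOn
  obtain ⟨M₂, hM₂⟩ := (isCompact_closedBall (0 : ℂ) 1).exists_bound_of_continuousOn
    hψd.continuousOn
  obtain ⟨M, hM⟩ : ∃ M, M = max 1 (max M₁ M₂) := ⟨_, rfl⟩
  have hM1 : 1 ≤ M := by rw [hM]; exact le_max_left _ _
  have hMψ : ∀ w ∈ Disc, |psi6 a μ w| ≤ M := fun w hw => by
    rw [hM]
    exact ((Real.norm_eq_abs _).symm.le.trans (hM₁ w hw)).trans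
      ((le_max_left _ _).trans (le_max_right _ _))
  have hMd : ∀ w ∈ Disc, ‖fderiv ℝ (psi6 a μ) w‖ ≤ M := fun w hw => by
    rw [hM]
    exact (hM₂ w hw).trans ((le_max_right _ _).trans (le_max_right _ _))
  obtain ⟨E, hE1, hE⟩ : ∃ E : ℝ, 1 ≤ E ∧
      ∀ i j : Fin 4, |(eta μ i - eta μ j) / ‖a i - a j‖| ≤ E := by
    refine ⟨1 + ∑ i, ∑ j, |(eta μ i - eta μ j) / ‖a i - a j‖|, ?_, ?_⟩
    · have : 0 ≤ ∑ i, ∑ j, |(eta μ i - eta μ j) / ‖a i - a j‖| :=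
        Finset.sum_nonneg fun i _ => Finset.sum_nonneg fun j _ => abs_nonneg _
      linarith
    · intro i j
      have h1 : |(eta μ i - eta μ j) / ‖a i - a j‖| ≤
          ∑ j, |(eta μ i - eta μ j) / ‖a i - a j‖| :=
        Finset.single_le_sum (f := fun j => |(eta μ i - eta μ j) / ‖a i - a j‖|)
          (fun j _ => abs_nonneg _) (Finset.mem_univ j)
      have h2 : ∑ j, |(eta μ i - eta μ j) / ‖a i - a j‖| ≤
          ∑ i, ∑ j, |(eta μ i - eta μ j) / ‖a i - a j‖| :=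
        Finset.single_le_sum (f := fun i => ∑ j, |(eta μ i - eta μ j) / ‖a i - a j‖|)
          (fun i _ => Finset.sum_nonneg fun j _ => abs_nonneg _) (Finset.mem_univ i)
      linarith
  obtain ⟨I₀, hI₀⟩ : ∃ I, I = ∫ w in Disc, LL a μ w ^ 2 * (1 - ‖w‖ ^ 2) := ⟨_, rfl⟩
  have hI : 0 < I₀ := by rw [hI₀]; exact LL_int_pos a μ hg hd
  obtain ⟨J, hJ₀⟩ : ∃ J, J = ∫ w in Disc, psi6 a μ w ^ 2 := ⟨_, rfl⟩
  have hJ : 0 ≤ J := by rw [hJ₀]; exact integral_nonneg fun w => sq_nonneg _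
  obtain ⟨V, hV₀⟩ : ∃ V, V = (volume Disc).toReal := ⟨_, rfl⟩
  have hV : 0 ≤ V := by rw [hV₀]; exact ENNReal.toReal_nonneg
  obtain ⟨W, hW₀⟩ : ∃ W, W = ∑ i, ∑ j, |μ i * μ j * ‖a i - a j‖ ^ 2| := ⟨_, rfl⟩
  have hW : 0 ≤ W := by
    rw [hW₀]
    exact Finset.sum_nonneg fun i _ => Finset.sum_nonneg fun j _ => abs_nonneg _
  obtain ⟨θ, hθ0, hθ1, hθM, hθE, hθK⟩ : ∃ θ : ℝ, 0 < θ ∧ θ ≤ 1 ∧ θ * M ≤ 1 ∧
      θ * E * M ≤ 1 / 2 ∧ K * θ * J ≤ I₀ := by
    have hEM : 0 < 2 * E * M := by positivity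
    have hKJ : 0 < K * J + 1 := by positivity
    refine ⟨min (1 / (2 * E * M)) (I₀ / (K * J + 1)), ?_, ?_, ?_, ?_, ?_⟩
    · exact lt_min (by positivity) (by positivity)
    · refine (min_le_left _ _).trans ?_
      rw [div_le_one hEM]
      nlinarith
    · have h1 : min (1 / (2 * E * M)) (I₀ / (K * J + 1)) ≤ 1 / (2 * E * M) := min_le_left _ _
      have h2 : min (1 / (2 * E * M)) (I₀ / (K * J + 1)) * M ≤ 1 / (2 * E * M) * M :=
        mul_le_mul_of_nonneg_right h1 (by positivity)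
      refine h2.trans ?_
      rw [one_div, inv_mul_le_iff₀ hEM]
      nlinarith
    · have h1 : min (1 / (2 * E * M)) (I₀ / (K * J + 1)) ≤ 1 / (2 * E * M) := min_le_left _ _
      have h2 : min (1 / (2 * E * M)) (I₀ / (K * J + 1)) * E * M ≤ 1 / (2 * E * M) * E * M :=
        mul_le_mul_of_nonneg_right (mul_le_mul_of_nonneg_right h1 (by positivity)) (by positivity)
      refine h2.trans (le_of_eq ?_)
      field_simp
    · have h1 : min (1 / (2 * E * M)) (I₀ / (K * J + 1)) ≤ I₀ / (K * J + 1) := min_le_right _ _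
      have h2 : K * min (1 / (2 * E * M)) (I₀ / (K * J + 1)) * J ≤ K * (I₀ / (K * J + 1)) * J :=
        mul_le_mul_of_nonneg_right (mul_le_mul_of_nonneg_left h1 hK.le) hJ
      refine h2.trans ?_
      have h3 : K * (I₀ / (K * J + 1)) * J = I₀ * ((K * J) / (K * J + 1)) := by ring
      rw [h3]
      have h4 : (K * J) / (K * J + 1) ≤ 1 := by rw [div_le_one hKJ]; linarith
      nlinarith
  obtain ⟨B, hBd⟩ : ∃ B, B = C * K * (J + V + 32) := ⟨_, rfl⟩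
  have hB0 : 0 < B := by rw [hBd]; positivity
  refine ⟨(2 * W * E * M) ^ 2 * (V + 1) / I₀ ^ 2 + 1, by positivity,
    min δ₀ (θ * I₀ / (152 * B)), lt_min hδ₀ (by positivity), ?_⟩
  intro k hk ρ hρ0 hρ1 hδ
  by_contra hcon
  push Not at hcon
  have hcont : Continuous (hh k ρ) := hh_cont k hk.cont ρ hρ0 hρ1
  have hκc : Continuous (ka6 (hh k ρ)) := ka6_cont _ hcont
  obtain ⟨-, hbα, hbγ, -⟩ := bounds6 (hh k ρ) hcont _ fun t _ => hδ t
  have hB' := hB k hk ρ hρ0 hρ1 (fun t => (hδ t).trans (min_le_left _ _))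
  obtain ⟨α, hα⟩ : ∃ α, α = al6 (hh k ρ) := ⟨_, rfl⟩
  obtain ⟨γ, hγ⟩ : ∃ γ, γ = ga6 (hh k ρ) := ⟨_, rfl⟩
  obtain ⟨κ, hκ⟩ : ∃ κ, κ = ka6 (hh k ρ) := ⟨_, rfl⟩
  rw [← hκ] at hκc
  rw [← hα] at hbα
  rw [← hγ] at hbγ
  rw [← hα, ← hγ, ← hκ] at hB'
  rw [← hγ, ← hκ] at hcon
  clear hα hγ hκ hB
  obtain ⟨N2, hN2⟩ : ∃ N2, N2 = ∫ w in Disc, κ w.re ^ 2 := ⟨_, rfl⟩
  rw [← hN2] at hcon
  have hN20 : 0 ≤ N2 := by rw [hN2]; exact integral_nonneg fun w => sq_nonneg _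
  obtain ⟨P, hP⟩ : ∃ P, P = (2 * W * E * M) ^ 2 * (V + 1) / I₀ ^ 2 := ⟨_, rfl⟩
  rw [← hP] at hcon
  have hP0 : 0 ≤ P := by rw [hP]; positivity
  have hPN : 0 ≤ P * N2 := mul_nonneg hP0 hN20
  have hN2γ : N2 ≤ γ ^ 2 := by nlinarith
  have hPγ : P * N2 ≤ γ ^ 2 := by nlinarith
  have hγ2 : 0 < γ ^ 2 := by nlinarith
  have hγ0 : 0 < |γ| := by
    rw [abs_pos]
    rintro rfl
    simp at hγ2
  obtain ⟨N1, hN1⟩ : ∃ N1, N1 = ∫ w in Disc, |κ w.re| := ⟨_, rfl⟩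
  have hN10 : 0 ≤ N1 := by rw [hN1]; exact integral_nonneg fun w => abs_nonneg _
  have hre : Continuous (fun w : ℂ => κ w.re) := hκc.comp Complex.continuous_re
  have hCS : N1 ^ 2 ≤ (V + 1) * N2 := by
    rw [hN1, hN2, hV₀]
    exact cs_disc (fun w => κ w.re) hre
  have hT : 2 * W * E * M * N1 ≤ I₀ * |γ| := by
    refine abs_le_of_sq_le_sq' ?_ (by positivity) |>.2
    rw [mul_pow I₀, sq_abs, mul_pow]
    have h1 : (2 * W * E * M) ^ 2 * N1 ^ 2 ≤ (2 * W * E * M) ^ 2 * ((V + 1) * N2) :=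
      mul_le_mul_of_nonneg_left hCS (sq_nonneg _)
    have h2 : (2 * W * E * M) ^ 2 * ((V + 1) * N2) = I₀ ^ 2 * (P * N2) := by
      rw [hP]; field_simp
    rw [h2] at h1
    exact h1.trans (mul_le_mul_of_nonneg_left hPγ (sq_nonneg _))
  obtain ⟨σ, hσ⟩ : ∃ σ, σ = γ / (|α| + |γ|) := ⟨_, rfl⟩
  have hσ1 : |σ| ≤ 1 := by
    rw [hσ, abs_div, abs_of_pos (show 0 < |α| + |γ| by positivity), div_le_one (by positivity)]
    linarith [abs_nonneg α]
  have hθσ : |θ * σ| ≤ θ := by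
    rw [abs_mul, abs_of_pos hθ0]
    nlinarith
  have hee : ∀ i j, |(eta μ i - eta μ j) / ‖a i - a j‖ * (θ * σ)| ≤ E * (θ * |σ|) := by
    intro i j
    rw [abs_mul, abs_mul θ, abs_of_pos hθ0]
    exact mul_le_mul_of_nonneg_right (hE i j) (by positivity)
  have heM : ∀ i j, |(eta μ i - eta μ j) / ‖a i - a j‖ * (θ * σ)| * M ≤ 1 / 2 := by
    intro i j
    have h1 : E * (θ * |σ|) * M ≤ E * (θ * 1) * M :=
      mul_le_mul_of_nonneg_right (mul_le_mul_of_nonneg_left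
        (mul_le_mul_of_nonneg_left hσ1 hθ0.le) (by positivity)) (by positivity)
    have h2 : |(eta μ i - eta μ j) / ‖a i - a j‖ * (θ * σ)| * M ≤ E * (θ * |σ|) * M :=
      mul_le_mul_of_nonneg_right (hee i j) (by positivity)
    nlinarith
  have hdn : ∀ i j, ‖dir a i j‖ = 1 := fun i j => dir_norm hg (i, j)
  have hyy : ∀ w i j, yy a μ w (θ * σ * psi6 a μ w) i j =
      ip w (dir a i j) + (eta μ i - eta μ j) / ‖a i - a j‖ * (θ * σ) * psi6 a μ w := by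
    intro w i j
    unfold yy
    ring
  have hyc : ∀ i j, Continuous (fun w => κ (yy a μ w (θ * σ * psi6 a μ w) i j)) := by
    intro i j
    simp_rw [hyy]
    exact hκc.comp ((ip_contDiff _).continuous.add (continuous_const.mul hψc))
  have hpt : ∀ w ∈ Disc,
      4 * γ * (θ * σ * psi6 a μ w) * LL a μ w - K * (|α| + |γ|) * (θ * σ * psi6 a μ w) ^ 2 +
        ∑ i, ∑ j, (if i = j then 0 else μ i * μ j * ‖a i - a j‖ ^ 2 *
          κ (yy a μ w (θ * σ * psi6 a μ w) i j)) ≤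
      C * (K * (α ^ 2 * (θ * σ * psi6 a μ w) ^ 2 + γ ^ 2 +
          ∑ i, ∑ j, (if i = j then 0 else κ (yy a μ w (θ * σ * psi6 a μ w) i j) ^ 2))) := by
    intro w hw
    have hτ : |θ * σ * psi6 a μ w| ≤ 1 := by
      rw [abs_mul]
      calc |θ * σ| * |psi6 a μ w| ≤ θ * M :=
            mul_le_mul hθσ (hMψ w hw) (abs_nonneg _) hθ0.le
        _ ≤ 1 := hθM
    have hy1 : ∀ i j, i ≠ j → |yy a μ w (θ * σ * psi6 a μ w) i j| ≤ 1 := by
      intro i j _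
      rw [hyy]
      exact subst_abs_le _ (hdn i j) _ hψ hψ0 M hMd _ (heM i j) w hw
    obtain ⟨h1, h2, -⟩ := hK6 α γ κ w (θ * σ * psi6 a μ w) hw hτ
    exact h1.trans ((hB' w _ hw hτ hy1).trans (mul_le_mul_of_nonneg_left h2 hC.le))
  have hcS : Continuous (fun w => ∑ i, ∑ j, (if i = j then 0 else μ i * μ j *
      ‖a i - a j‖ ^ 2 * κ (yy a μ w (θ * σ * psi6 a μ w) i j))) := by
    refine continuous_finsetSum _ fun i _ => continuous_finsetSum _ fun j _ => ?_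
    by_cases h : i = j
    · simp only [h, if_true]; exact continuous_const
    · simp only [h, if_false]; exact continuous_const.mul (hyc i j)
  have hcQ : Continuous (fun w => ∑ i, ∑ j, (if i = j then 0 else
      κ (yy a μ w (θ * σ * psi6 a μ w) i j) ^ 2)) := by
    refine continuous_finsetSum _ fun i _ => continuous_finsetSum _ fun j _ => ?_
    by_cases h : i = j
    · simp only [h, if_true]; exact continuous_const
    · simp only [h, if_false]; exact (hyc i j).pow 2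
  have hcτ : Continuous (fun w => θ * σ * psi6 a μ w) := continuous_const.mul hψc
  have hcF1 : Continuous (fun w => 4 * γ * (θ * σ * psi6 a μ w) * LL a μ w) :=
    (continuous_const.mul hcτ).mul hLc
  have hcF2 : Continuous (fun w => K * (|α| + |γ|) * (θ * σ * psi6 a μ w) ^ 2) :=
    continuous_const.mul (hcτ.pow 2)
  have hcG1 : Continuous (fun w => α ^ 2 * (θ * σ * psi6 a μ w) ^ 2) :=
    continuous_const.mul (hcτ.pow 2)
  have hcF12 : Continuous (fun w => 4 * γ * (θ * σ * psi6 a μ w) * LL a μ w -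
      K * (|α| + |γ|) * (θ * σ * psi6 a μ w) ^ 2) := hcF1.sub hcF2
  have hcF : Continuous (fun w => 4 * γ * (θ * σ * psi6 a μ w) * LL a μ w -
      K * (|α| + |γ|) * (θ * σ * psi6 a μ w) ^ 2 +
        ∑ i, ∑ j, (if i = j then 0 else μ i * μ j * ‖a i - a j‖ ^ 2 *
          κ (yy a μ w (θ * σ * psi6 a μ w) i j))) := hcF12.add hcS
  have hcG12 : Continuous (fun w => α ^ 2 * (θ * σ * psi6 a μ w) ^ 2 + γ ^ 2) :=
    hcG1.add continuous_const
  have hcG : Continuous (fun w => α ^ 2 * (θ * σ * psi6 a μ w) ^ 2 + γ ^ 2 +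
      ∑ i, ∑ j, (if i = j then 0 else κ (yy a μ w (θ * σ * psi6 a μ w) i j) ^ 2)) :=
    hcG12.add hcQ
  have hcCG : Continuous (fun w => C * (K * (α ^ 2 * (θ * σ * psi6 a μ w) ^ 2 + γ ^ 2 +
      ∑ i, ∑ j, (if i = j then 0 else κ (yy a μ w (θ * σ * psi6 a μ w) i j) ^ 2)))) :=
    continuous_const.mul (continuous_const.mul hcG)
  have hint := setIntegral_mono_on (μ := volume) (s := Disc)
    (int_disc _ hcF) (int_disc _ hcCG) measurableSet_closedBall hpt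
  obtain ⟨S, hS⟩ : ∃ S, S = ∫ w in Disc, ∑ i, ∑ j, (if i = j then 0 else μ i * μ j *
      ‖a i - a j‖ ^ 2 * κ (yy a μ w (θ * σ * psi6 a μ w) i j)) := ⟨_, rfl⟩
  obtain ⟨Q, hQ⟩ : ∃ Q, Q = ∫ w in Disc, ∑ i, ∑ j, (if i = j then 0 else
      κ (yy a μ w (θ * σ * psi6 a μ w) i j) ^ 2) := ⟨_, rfl⟩
  have hF : ∫ w in Disc, (4 * γ * (θ * σ * psi6 a μ w) * LL a μ w -
      K * (|α| + |γ|) * (θ * σ * psi6 a μ w) ^ 2 +
        ∑ i, ∑ j, (if i = j then 0 else μ i * μ j * ‖a i - a j‖ ^ 2 *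
          κ (yy a μ w (θ * σ * psi6 a μ w) i j))) =
      4 * γ * (θ * σ) * I₀ - K * (|α| + |γ|) * (θ * σ) ^ 2 * J + S := by
    rw [integral_add (int_disc _ hcF12) (int_disc _ hcS),
      integral_sub (int_disc _ hcF1) (int_disc _ hcF2), hS]
    congr 2
    · rw [hI₀, ← integral_const_mul]
      refine integral_congr_ae (Filter.Eventually.of_forall fun w => ?_)
      simp only [psi6]
      ring
    · rw [hJ₀, ← integral_const_mul]
      refine integral_congr_ae (Filter.Eventually.of_forall fun w => ?_)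
      ring
  have hG : ∫ w in Disc, (C * (K * (α ^ 2 * (θ * σ * psi6 a μ w) ^ 2 + γ ^ 2 +
          ∑ i, ∑ j, (if i = j then 0 else κ (yy a μ w (θ * σ * psi6 a μ w) i j) ^ 2)))) =
      C * (K * (α ^ 2 * (θ * σ) ^ 2 * J + γ ^ 2 * V + Q)) := by
    rw [integral_const_mul, integral_const_mul,
      integral_add (int_disc _ hcG12) (int_disc _ hcQ),
      integral_add (int_disc _ hcG1) (int_disc _ continuous_const), hQ]
    congr 4
    · rw [hJ₀, ← integral_const_mul]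
      refine integral_congr_ae (Filter.Eventually.of_forall fun w => ?_)
      ring
    · rw [setIntegral_const, hV₀]
      simp [Measure.real, mul_comm]
  rw [hF, hG] at hint
  have hSb : |S| ≤ θ * |σ| * (2 * W * E * M * N1) := by
    have h1 : S = ∑ i, ∑ j, (if i = j then 0 else μ i * μ j * ‖a i - a j‖ ^ 2 *
        ∫ w in Disc, κ (yy a μ w (θ * σ * psi6 a μ w) i j)) := by
      rw [hS, int_sum2 (fun i j w => μ i * μ j * ‖a i - a j‖ ^ 2 *
        κ (yy a μ w (θ * σ * psi6 a μ w) i j)) fun i j => continuous_const.mul (hyc i j)]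
      refine Finset.sum_congr rfl fun i _ => Finset.sum_congr rfl fun j _ => ?_
      rw [integral_const_mul]
    rw [h1]
    have h2 := sum_bound (fun i j => μ i * μ j * ‖a i - a j‖ ^ 2)
      (fun i j => ∫ w in Disc, κ (yy a μ w (θ * σ * psi6 a μ w) i j))
      (∫ w in Disc, κ w.re) (2 * (E * (θ * |σ|)) * M * N1)
      (by
        have := wt_sum hd
        rw [Fintype.sum_prod_type] at this
        simpa [wt] using this)
      (fun i => by simp)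
      (by
        intro i j _
        simp_rw [hyy]
        have h3 := subst_int _ (hdn i j) _ hψ hψ0 M hMd _ (heM i j) κ hκc
        rw [disc_ridge_re κ hκc _ (hdn i j),
          disc_ridge_re (fun t => |κ t|) hκc.abs _ (hdn i j), ← hN1] at h3
        refine h3.trans ?_
        refine mul_le_mul_of_nonneg_right (mul_le_mul_of_nonneg_right
          (mul_le_mul_of_nonneg_left (hee i j) (by norm_num)) (by positivity)) hN10)
    refine h2.trans (le_of_eq ?_)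
    rw [← hW₀]
    ring
  have hQb : Q ≤ 32 * N2 := by
    rw [hQ, int_sum2 (fun i j w => κ (yy a μ w (θ * σ * psi6 a μ w) i j) ^ 2)
      fun i j => (hyc i j).pow 2]
    have h1 : ∀ i j : Fin 4, (if i = j then 0 else
        ∫ w in Disc, κ (yy a μ w (θ * σ * psi6 a μ w) i j) ^ 2) ≤ 2 * N2 := by
      intro i j
      by_cases h : i = j
      · simp only [h, if_true]; positivity
      · simp only [h, if_false]
        simp_rw [hyy]
        have h3 := subst_sq _ (hdn i j) _ hψ hψ0 M hMd _ (heM i j) κ hκc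
        rw [disc_ridge_re (fun t => κ t ^ 2) (hκc.pow 2) _ (hdn i j), ← hN2] at h3
        exact h3
    calc ∑ i : Fin 4, ∑ j : Fin 4, (if i = j then 0 else
        ∫ w in Disc, κ (yy a μ w (θ * σ * psi6 a μ w) i j) ^ 2)
        ≤ ∑ i : Fin 4, ∑ j : Fin 4, 2 * N2 :=
          Finset.sum_le_sum fun i _ => Finset.sum_le_sum fun j _ => h1 i j
      _ = 32 * N2 := by simp; ring
  rw [hσ] at hSb hint
  have hfin := near6b_core C K θ I₀ J V N2 (2 * W * E * M * N1) α γ S Q hC hK hθ0 hθ1 hJ hθK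
    hT hγ0 hN2γ hSb hQb hint
  rw [← hBd] at hfin
  have hA : |α| + |γ| ≤ 152 * min δ₀ (θ * I₀ / (152 * B)) := by linarith
  have hA2 : 152 * min δ₀ (θ * I₀ / (152 * B)) ≤ 152 * (θ * I₀ / (152 * B)) :=
    mul_le_mul_of_nonneg_left (min_le_right _ _) (by norm_num)
  have hA3 : B * (|α| + |γ|) ≤ B * (152 * (θ * I₀ / (152 * B))) :=
    mul_le_mul_of_nonneg_left (hA.trans hA2) hB0.le
  have hA4 : B * (152 * (θ * I₀ / (152 * B))) = θ * I₀ := by field_simp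
  rw [hA4] at hA3
  have hA5 : 0 < θ * I₀ := mul_pos hθ0 hI
  linarith

end P23F
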