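import Mathlib
import Pool.Agent.Lib.P23F.Near6a
import Pool.Agent.Lib.P23F.Near6b

/-!
# Module P23F.Near6 : the orthocentric case near zero
-/

set_option autoImplicit false

open MeasureTheory

namespace P23F

theorem near6 (a : Fin 4 → ℂ) (μ : Fin 4 → ℝ) (hg : Gen a) (hd : Dep a μ)
    (h4 : ∑ p, (wt a μ p : ℂ) * dir a p.1 p.2 ^ 4 = 0) (k : ℝ → ℝ) (hk : Bad a k) :
    ∃ ρ > 0, ρ < 1 ∧ ∃ α : ℝ, ∀ y, |y| ≤ ρ → k y = α * y ^ 2 := by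
  obtain ⟨C₂, hC₂, δ₁, hδ₁, h1⟩ := near6b a μ hg hd h4
  obtain ⟨δ₂, hδ₂, h2⟩ := near6a a μ hg hd h4 C₂ hC₂.le
  obtain ⟨ρ, hρ0, hρ1, hρ⟩ := hh_small k hk.cont hk.zero (min δ₁ δ₂) (lt_min hδ₁ hδ₂)
  have hb : ∀ t, |hh k ρ t| ≤ min δ₁ δ₂ := hρ ρ hρ0 le_rfl
  have h3 := h1 k hk ρ hρ0 hρ1 fun t => (hb t).trans (min_le_left _ _)
  obtain ⟨h4, h5⟩ := h2 k hk ρ hρ0 hρ1 (fun t => (hb t).trans (min_le_right _ _)) h3
  have h6 : ∀ t, |t| ≤ 1 → k (ρ * t) = c6 (hh k ρ) + al6 (hh k ρ) * t ^ 2 := by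
    intro t ht
    have h7 := h5 t ht
    rw [ka6, h4, hh_eq k ρ t ht] at h7
    linarith
  have h7 : c6 (hh k ρ) = 0 := by
    have := h6 0 (by simp)
    rw [mul_zero, hk.zero] at this
    linarith
  refine ⟨ρ, hρ0, hρ1, al6 (hh k ρ) / ρ ^ 2, fun y hy => ?_⟩
  have h8 := h6 (y / ρ) (by rw [abs_div, abs_of_pos hρ0]; exact (div_le_one hρ0).2 hy)
  rw [mul_div_cancel₀ _ hρ0.ne', h7] at h8
  rw [h8]
  field_simp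
  ring

end P23F
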