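import Mathlib
import Pool.Agent.Lib.P23F.Defs

/-!
# Module P23F.Red : reduction to affinely independent or planar quadruples

PROOF.  For `c` with `∑ c i = 0`: `∑ i, ∑ j, c i c j ‖b i - b j‖² = -2 ‖∑ c i • b i‖²`.  If the matrix
is not `Pos4` there is `c ≠ 0` with `∑ c i = 0` and `∑ c i • b i = 0`.  So the three differences
`b i - b 0` are linearly dependent and span a subspace `V` of dimension `≤ 2`; it has dimension
`2` since `b 0, b 1, b 2` are not collinear.  Choose a linear isometry `V ≃ₗᵢ ℂ`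
(`stdOrthonormalBasis` and `Complex.orthonormalBasisOneI`, or
`LinearIsometryEquiv.fromOrthogonalSpanSingleton..`, `EuclideanSpace`), and put
`a i = J (b i - b 0)`.  `Gen a`: if `cr (a j - a i) (a k - a i) = 0` then `a j - a i`, `a k - a i` are
linearly dependent over `ℝ` (in the plane), hence so are `b j - b i`, `b k - b i`, and
`b i, b j, b k` are collinear (`collinear_iff_of_mem` or
`Collinear` of three points with dependent differences).
-/

set_option autoImplicit false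

namespace P23F

private lemma red_quad {H : Type*} [NormedAddCommGroup H] [InnerProductSpace ℝ H]
    (b : Fin 4 → H) (c : Fin 4 → ℝ) (hc : ∑ i, c i = 0) :
    ∑ i, ∑ j, c i * c j * ‖b i - b j‖ ^ 2 = -2 * ‖∑ i, c i • b i‖ ^ 2 := by
  have h1 : ‖∑ i, c i • b i‖ ^ 2 = ∑ i, ∑ j, c i * c j * inner ℝ (b i) (b j) := by
    rw [← real_inner_self_eq_norm_sq, sum_inner]
    refine Finset.sum_congr rfl fun i _ => ?_
    rw [inner_sum]
    refine Finset.sum_congr rfl fun j _ => ?_
    rw [real_inner_smul_left, real_inner_smul_right]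
    ring
  have h3 : ∀ i j, c i * c j * ‖b i - b j‖ ^ 2 =
      (c i * ‖b i‖ ^ 2) * c j + c i * (c j * ‖b j‖ ^ 2) +
        (-2) * (c i * c j * inner ℝ (b i) (b j)) := by
    intro i j
    rw [norm_sub_sq_real]
    ring
  have h4 : ∑ i, ∑ j, c i * c j * ‖b i - b j‖ ^ 2 =
      (∑ i, ∑ j, (c i * ‖b i‖ ^ 2) * c j) + (∑ i, ∑ j, c i * (c j * ‖b j‖ ^ 2)) +
        (-2) * ∑ i, ∑ j, c i * c j * inner ℝ (b i) (b j) := by
    rw [Finset.mul_sum, ← Finset.sum_add_distrib, ← Finset.sum_add_distrib]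
    refine Finset.sum_congr rfl fun i _ => ?_
    rw [Finset.mul_sum, ← Finset.sum_add_distrib, ← Finset.sum_add_distrib]
    exact Finset.sum_congr rfl fun j _ => h3 i j
  have h5 : (∑ i, ∑ j, (c i * ‖b i‖ ^ 2) * c j) = 0 := by
    refine Finset.sum_eq_zero fun i _ => ?_
    rw [← Finset.mul_sum, hc, mul_zero]
  have h6 : (∑ i, ∑ j, c i * (c j * ‖b j‖ ^ 2)) = 0 := by
    rw [Finset.sum_comm]
    refine Finset.sum_eq_zero fun i _ => ?_
    rw [← Finset.sum_mul, hc, zero_mul]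
  rw [h4, h5, h6, h1]
  ring

private lemma red_col {H : Type*} [NormedAddCommGroup H] [InnerProductSpace ℝ H]
    {p q r : H} {x y : ℝ} (h : x • (q - p) + y • (r - p) = 0) (hxy : ¬ (x = 0 ∧ y = 0)) :
    Collinear ℝ ({p, q, r} : Set H) := by
  rw [collinear_iff_of_mem (p₀ := p) (by simp)]
  by_cases hy : y = 0
  · have hx : x ≠ 0 := fun h0 => hxy ⟨h0, hy⟩
    rw [hy, zero_smul, add_zero] at h
    have hq : q - p = 0 := (smul_eq_zero.1 h).resolve_left hx
    have hq' : q = p := sub_eq_zero.1 hq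
    refine ⟨r - p, ?_⟩
    intro z hz
    simp only [Set.mem_insert_iff, Set.mem_singleton_iff] at hz
    rcases hz with hz | hz | hz
    · exact ⟨0, by simp [hz]⟩
    · exact ⟨0, by simp [hz, hq']⟩
    · exact ⟨1, by simp [hz]⟩
  · have hr : r = (-(y⁻¹ * x)) • (q - p) + p := by
      have h1 : y • (r - p) = -(x • (q - p)) := by
        rw [eq_neg_iff_add_eq_zero, add_comm]
        exact h
      have h2 : r - p = y⁻¹ • (y • (r - p)) := by
        rw [smul_smul, inv_mul_cancel₀ hy, one_smul]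
      rw [h1] at h2
      rw [← sub_eq_iff_eq_add, h2, smul_neg, smul_smul, neg_smul]
    refine ⟨q - p, ?_⟩
    intro z hz
    simp only [Set.mem_insert_iff, Set.mem_singleton_iff] at hz
    rcases hz with hz | hz | hz
    · exact ⟨0, by simp [hz]⟩
    · exact ⟨1, by simp [hz]⟩
    · exact ⟨-(y⁻¹ * x), by rw [hz]; exact hr⟩

theorem reduction {H : Type*} [NormedAddCommGroup H] [InnerProductSpace ℝ H] (b : Fin 4 → H)
    (hb : ∀ i j k : Fin 4, i ≠ j → i ≠ k → j ≠ k → ¬ Collinear ℝ ({b i, b j, b k} : Set H)) :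
    Good (fun i j => ‖b i - b j‖ ^ 2) ∨
      ∃ a : Fin 4 → ℂ, Gen a ∧ ∀ i j, ‖a i - a j‖ = ‖b i - b j‖ := by
  classical
  by_cases hP : ∃ c : Fin 4 → ℝ, ∑ i, c i = 0 ∧ c ≠ 0 ∧ ∑ i, c i • b i = 0
  swap
  · left
    refine ⟨fun i => by simp, fun i j => by rw [norm_sub_rev], fun c hc h0 => ?_⟩
    have hne : ∑ i, c i • b i ≠ 0 := fun h => hP ⟨c, hc, h0, h⟩
    have hpos := norm_pos_iff.2 hne
    show ∑ i, ∑ j, c i * c j * ‖b i - b j‖ ^ 2 < 0
    rw [red_quad b c hc]
    nlinarith [pow_pos hpos 2]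
  right
  obtain ⟨c, hc, hc0, hcb⟩ := hP
  have key : ∀ i j k : Fin 4, i ≠ j → i ≠ k → j ≠ k → ∀ x y : ℝ,
      x • (b j - b i) + y • (b k - b i) = 0 → x = 0 ∧ y = 0 := by
    intro i j k hij hik hjk x y h
    by_contra hcon
    exact hb i j k hij hik hjk (red_col h hcon)
  have hdep : c 1 • (b 1 - b 0) + c 2 • (b 2 - b 0) + c 3 • (b 3 - b 0) = 0 := by
    have h1 : c 0 = -(c 1 + c 2 + c 3) := by
      rw [Fin.sum_univ_four] at hc
      linarith
    rw [Fin.sum_univ_four, h1] at hcb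
    rw [← hcb]
    module
  have hc3 : c 3 ≠ 0 := by
    intro h3
    rw [h3, zero_smul, add_zero] at hdep
    obtain ⟨h1, h2⟩ := key 0 1 2 (by decide) (by decide) (by decide) _ _ hdep
    have h0 : c 0 = 0 := by
      rw [Fin.sum_univ_four] at hc
      linarith
    apply hc0
    funext i
    fin_cases i
    · exact h0
    · exact h1
    · exact h2
    · exact h3
  set e1 : H := b 1 - b 0 with he1
  set e2 : H := b 2 - b 0 with he2
  have hind : ∀ x y : ℝ, x • e1 + y • e2 = 0 → x = 0 ∧ y = 0 :=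
    key 0 1 2 (by decide) (by decide) (by decide)
  have he1n : e1 ≠ 0 := by
    intro h
    have := (hind 1 0 (by simp [h])).1
    norm_num at this
  have hn1 : 0 < ‖e1‖ := norm_pos_iff.2 he1n
  set u : H := ‖e1‖⁻¹ • e1 with hu
  have hun : ‖u‖ = 1 := by
    rw [hu, norm_smul, norm_inv, norm_norm, inv_mul_cancel₀ hn1.ne']
  have huu : inner ℝ u u = 1 := by
    rw [real_inner_self_eq_norm_sq, hun]
    norm_num
  set w : H := e2 - (inner ℝ u e2) • u with hw
  have hwne : w ≠ 0 := by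
    intro h
    have h2 : (-(inner ℝ u e2 * ‖e1‖⁻¹)) • e1 + (1 : ℝ) • e2 = 0 := by
      rw [← h, hw, hu]
      module
    have := (hind _ _ h2).2
    norm_num at this
  have hwn : 0 < ‖w‖ := norm_pos_iff.2 hwne
  set v : H := ‖w‖⁻¹ • w with hv
  have hvn : ‖v‖ = 1 := by
    rw [hv, norm_smul, norm_inv, norm_norm, inv_mul_cancel₀ hwn.ne']
  have huw : inner ℝ u w = 0 := by
    rw [hw, inner_sub_right, real_inner_smul_right, huu]
    ring
  have huv : inner ℝ u v = 0 := by
    rw [hv, real_inner_smul_right, huw, mul_zero]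
  have hE1 : e1 = ‖e1‖ • u + (0 : ℝ) • v := by
    rw [hu, smul_smul, mul_inv_cancel₀ hn1.ne', one_smul, zero_smul, add_zero]
  have hwv : ‖w‖ • v = w := by
    rw [hv, smul_smul, mul_inv_cancel₀ hwn.ne', one_smul]
  have hE2 : e2 = (inner ℝ u e2) • u + ‖w‖ • v := by
    rw [hwv]
    exact (add_sub_cancel (inner ℝ u e2 • u) e2).symm
  obtain ⟨p1, q1, r1, hF1, hF2⟩ : ∃ p1 q1 r1 : ℝ, e1 = p1 • u ∧ e2 = q1 • u + r1 • v :=
    ⟨‖e1‖, inner ℝ u e2, ‖w‖, by rw [zero_smul, add_zero] at hE1; exact hE1, hE2⟩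
  have hcoord : ∀ i : Fin 4, ∃ α β : ℝ, b i - b 0 = α • u + β • v := by
    intro i
    fin_cases i
    · exact ⟨0, 0, by simp⟩
    · exact ⟨_, _, hE1⟩
    · exact ⟨_, _, hE2⟩
    · refine ⟨-(c 3)⁻¹ * (c 1 * p1 + c 2 * q1), -(c 3)⁻¹ * (c 2 * r1), ?_⟩
      show b 3 - b 0 = _
      have h1 : b 3 - b 0 = (c 3)⁻¹ • (c 3 • (b 3 - b 0)) := by
        rw [smul_smul, inv_mul_cancel₀ hc3, one_smul]
      have h2 : c 3 • (b 3 - b 0) = -(c 1 • e1 + c 2 • e2) := by
        rw [eq_neg_iff_add_eq_zero, add_comm]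
        exact hdep
      rw [h1, h2, hF1, hF2]
      module
  choose α β hαβ using hcoord
  have hdiff : ∀ i j : Fin 4, b i - b j = (α i - α j) • u + (β i - β j) • v := by
    intro i j
    have h1 : b i - b j = (b i - b 0) - (b j - b 0) := by abel
    rw [h1, hαβ i, hαβ j]
    module
  refine ⟨fun i => ⟨α i, β i⟩, ?_, ?_⟩
  · intro i j k hij hik hjk hcr
    have h1 : (α j - α i) * (β k - β i) - (β j - β i) * (α k - α i) = 0 := hcr
    have hlin : ∀ x y : ℝ, x * (α j - α i) + y * (α k - α i) = 0 →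
        x * (β j - β i) + y * (β k - β i) = 0 → x = 0 ∧ y = 0 := by
      intro x y hx hy
      refine key i j k hij hik hjk x y ?_
      rw [hdiff j i, hdiff k i]
      have h2 : x • ((α j - α i) • u + (β j - β i) • v) + y • ((α k - α i) • u + (β k - β i) • v) =
          (x * (α j - α i) + y * (α k - α i)) • u +
            (x * (β j - β i) + y * (β k - β i)) • v := by
        module
      rw [h2, hx, hy, zero_smul, zero_smul, add_zero]
    have h3 := hlin (α k - α i) (-(α j - α i)) (by ring) (by linarith)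
    have h4 := hlin (β k - β i) (-(β j - β i)) (by linarith) (by ring)
    have h5 := hlin 1 0 (by linarith [h3.2]) (by linarith [h4.2])
    exact one_ne_zero h5.1
  · intro i j
    have h1 : ‖b i - b j‖ ^ 2 = (α i - α j) ^ 2 + (β i - β j) ^ 2 := by
      have hx : ‖(α i - α j) • u‖ = |α i - α j| := by
        rw [norm_smul (α i - α j) u, hun, mul_one, Real.norm_eq_abs]
      have hy : ‖(β i - β j) • v‖ = |β i - β j| := by
        rw [norm_smul (β i - β j) v, hvn, mul_one, Real.norm_eq_abs]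
      rw [hdiff i j, norm_add_sq_real, real_inner_smul_left, real_inner_smul_right, huv, hx, hy,
        sq_abs, sq_abs]
      ring
    have h2 : ‖(⟨α i, β i⟩ : ℂ) - ⟨α j, β j⟩‖ ^ 2 = (α i - α j) ^ 2 + (β i - β j) ^ 2 := by
      rw [Complex.sq_norm, Complex.normSq_apply]
      simp only [Complex.sub_re, Complex.sub_im]
      ring
    have h3 : ‖(⟨α i, β i⟩ : ℂ) - ⟨α j, β j⟩‖ ^ 2 = ‖b i - b j‖ ^ 2 := by rw [h1, h2]
    exact (pow_left_inj₀ (norm_nonneg _) (norm_nonneg _) two_ne_zero).1 h3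

end P23F
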