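import Mathlib
import Pool.Agent.Lib.P23F.Family
import Pool.Agent.Lib.P23F.Chol

/-!
# Module P23F.VarB : one pair on the flat part

PROOF.  As in module VarA (read it), with one pair treated differently.  Let `l₀ : Fin 6` be the
index with `{pi6 l₀, pj6 l₀} = {i₀, j₀}`.  For parameters `0 < δ`, `0 < δ' ≤ δ₀` (`δ₀` from `h3`,
also `δ' < 1`) and `τ` in the cube let `t = δ' τ l₀`, `p τ i = ((1 + t) * s i) • x`, and `Rτ` the
symmetric zero diagonal matrix with `Rτ = (√(R i j) + δ τ l)²` for the pairs `l ≠ l₀` and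
`Rτ i₀ j₀ = R i₀ j₀`; for `δ` small it is good and `√(R i j) - δ > 0`.  `q τ = q₀ Rτ`.
Sign conditions.  Pair `l₀`: `Φ (((1+t) (s i₀ - s j₀)) • x) √(R i₀ j₀) = (1 + t) d i₀ j₀` (`h3`),
which is `< d` for `t = -δ'` and `> d` for `t = δ'`.  (If the pair is stored as `(j₀, i₀)` use
`IsType.neg_left`.)
Pair `l ≠ l₀`, `(i, j)`: `τ l = -1`: we need `Φ (((1+t)(s i - s j)) • x) (√(R i j) - δ) < d i j` for
all `|t| ≤ δ'`: at `t = 0` it is `< Φ ((s i - s j) • x) √(R i j) = d i j` by `IsType.strict`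
(`‖(s i - s j) • x‖ = |s i - s j| < d i j`), and by `IsType.lip` the left side changes by at most
`δ' |s i - s j|`; so it holds for `δ'` small (depending on `δ`).  `τ l = 1`: similarly
`d i j < Φ ((s i - s j) • x) (√(R i j) + δ)` by `IsType.strict'`.  First choose `δ`, then `δ'`.
-/

set_option autoImplicit false

namespace P23F

/-- the index of a pair -/
private def ixB : Fin 4 → Fin 4 → Fin 6 :=
  ![![0, 0, 1, 2], ![0, 0, 3, 4], ![1, 3, 0, 5], ![2, 4, 5, 0]]

private theorem ixB_symm (i j : Fin 4) : ixB i j = ixB j i := by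
  revert i j
  decide

private theorem ixB_pair (l : Fin 6) : ixB (pi6 l) (pj6 l) = l := by
  revert l
  decide

private theorem pi_ne_pj (l : Fin 6) : pi6 l ≠ pj6 l := by
  revert l
  decide

private theorem ixB_spec (i j : Fin 4) (h : i ≠ j) :
    (pi6 (ixB i j) = i ∧ pj6 (ixB i j) = j) ∨ (pi6 (ixB i j) = j ∧ pj6 (ixB i j) = i) := by
  revert i j
  decide

private theorem goodB_pos {R : Fin 4 → Fin 4 → ℝ} (hR : Good R) {i j : Fin 4} (h : i ≠ j) :
    0 < R i j := by
  have h1 := hR.pos (fun a => (if a = i then 1 else 0) - (if a = j then 1 else 0)) (by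
    rw [Finset.sum_sub_distrib]
    simp) (by
    intro h2
    have h3 := congrFun h2 i
    simp only [if_true, Pi.zero_apply, if_neg h] at h3
    norm_num at h3)
  have e : ∀ a : Fin 4, ∑ b : Fin 4,
      ((if a = i then (1 : ℝ) else 0) - (if a = j then 1 else 0)) *
        ((if b = i then 1 else 0) - (if b = j then 1 else 0)) * R a b =
      ((if a = i then (1 : ℝ) else 0) - (if a = j then 1 else 0)) * (R a i - R a j) := by
    intro a
    simp_rw [mul_assoc]
    rw [← Finset.mul_sum]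
    congr 1
    simp [sub_mul, Finset.sum_sub_distrib]
  simp_rw [e] at h1
  simp only [sub_mul, Finset.sum_sub_distrib, ite_mul, one_mul, zero_mul,
    Finset.sum_ite_eq', Finset.mem_univ, if_true] at h1
  rw [hR.diag i, hR.diag j, hR.symm j i] at h1
  linarith

private theorem ev_lt {a b c : ℝ} (h : a < b) :
    ∀ᶠ δ in nhdsWithin (0 : ℝ) (Set.Ioi 0), a + δ * c < b := by
  have h1 : Filter.Tendsto (fun δ : ℝ => a + δ * c) (nhdsWithin (0 : ℝ) (Set.Ioi 0))
      (nhds (a + 0 * c)) :=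
    ((continuous_const.add (continuous_id.mul continuous_const)).tendsto 0).mono_left
      nhdsWithin_le_nhds
  rw [zero_mul, add_zero] at h1
  exact h1.eventually_lt_const h

private theorem ev_le2 {b c : ℝ} (h : 0 < b) :
    ∀ᶠ δ in nhdsWithin (0 : ℝ) (Set.Ioi 0), 2 * c * δ + δ ^ 2 ≤ b := by
  have h1 : Filter.Tendsto (fun δ : ℝ => 2 * c * δ + δ ^ 2) (nhdsWithin (0 : ℝ) (Set.Ioi 0))
      (nhds (2 * c * 0 + 0 ^ 2)) := by
    refine (Continuous.tendsto ?_ 0).mono_left nhdsWithin_le_nhds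
    fun_prop
  have e : (2 * c * 0 + 0 ^ 2 : ℝ) = 0 := by ring
  rw [e] at h1
  exact (h1.eventually_lt_const h).mono fun _ h => h.le

theorem embed_B {X : Type*} [NormedAddCommGroup X] [NormedSpace ℝ X] {Φ : X → ℝ → ℝ}
    (hΦ : IsType Φ) (x : X) (hx : ‖x‖ = 1) (s : Fin 4 → ℝ) (R : Fin 4 → Fin 4 → ℝ) (hR : Good R)
    (d : Fin 4 → Fin 4 → ℝ) (hd : ∀ i j, d i j = d j i) (i₀ j₀ : Fin 4) (hij : i₀ ≠ j₀)
    (hd0 : 0 < d i₀ j₀)
    (h1 : ∀ i j, i ≠ j → Φ ((s i - s j) • x) √(R i j) = d i j)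
    (h2 : ∀ i j, i ≠ j → ¬ ((i = i₀ ∧ j = j₀) ∨ (i = j₀ ∧ j = i₀)) → |s i - s j| < d i j)
    (h3 : ∃ δ₀ > 0, ∀ t : ℝ, |t| ≤ δ₀ →
      Φ (((1 + t) * (s i₀ - s j₀)) • x) √(R i₀ j₀) = (1 + t) * d i₀ j₀) :
    ∃ P : Fin 4 → X, ∀ i j, i ≠ j → ‖P i - P j‖ = d i j := by
  classical
  obtain ⟨δ₀, hδ₀, h3⟩ := h3
  obtain ⟨q₀, hq₀, hq₀'⟩ := chol
  obtain ⟨δ₁, hδ₁, hpos⟩ := pos4_open R hR.pos
  set l₀ : Fin 6 := ixB i₀ j₀ with hl₀
  have hRp : ∀ l, 0 < √(R (pi6 l) (pj6 l)) := fun l =>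
    Real.sqrt_pos.2 (goodB_pos hR (pi_ne_pj l))
  -- the pairs different from the special one
  have hne : ∀ l, l ≠ l₀ → |s (pi6 l) - s (pj6 l)| < d (pi6 l) (pj6 l) := by
    intro l hl
    refine h2 _ _ (pi_ne_pj l) ?_
    rintro (⟨ha, hb⟩ | ⟨ha, hb⟩)
    · apply hl
      rw [hl₀, ← ha, ← hb, ixB_pair]
    · apply hl
      rw [hl₀, ixB_symm, ← ha, ← hb, ixB_pair]
  -- choice of δ
  have hev : ∀ᶠ δ in nhdsWithin (0 : ℝ) (Set.Ioi 0),
      (∀ i j : Fin 4, 2 * √(R i j) * δ + δ ^ 2 ≤ δ₁) ∧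
      (∀ l, δ < √(R (pi6 l) (pj6 l))) := by
    refine Filter.Eventually.and ?_ ?_
    · exact Filter.eventually_all.2 fun i => Filter.eventually_all.2 fun j => ev_le2 hδ₁
    · refine Filter.eventually_all.2 fun l => ?_
      filter_upwards [ev_lt (c := 1) (hRp l)] with δ h
      linarith
  obtain ⟨δ, ⟨hδa, hδb⟩, hδ⟩ := (hev.and self_mem_nhdsWithin).exists
  have hδ : 0 < δ := hδ
  -- strict inequalities at t = 0
  have hlow : ∀ l, l ≠ l₀ → Φ ((s (pi6 l) - s (pj6 l)) • x) (√(R (pi6 l) (pj6 l)) - δ) <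
      d (pi6 l) (pj6 l) := by
    intro l hl
    have h4 := h1 _ _ (pi_ne_pj l)
    rw [← h4]
    refine hΦ.strict _ (by linarith [hδb l]) (by linarith) ?_
    rw [h4, norm_smul, hx, mul_one, Real.norm_eq_abs]
    exact hne l hl
  have hup : ∀ l, l ≠ l₀ → d (pi6 l) (pj6 l) <
      Φ ((s (pi6 l) - s (pj6 l)) • x) (√(R (pi6 l) (pj6 l)) + δ) := by
    intro l hl
    have h4 := h1 _ _ (pi_ne_pj l)
    rw [← h4]
    refine hΦ.strict' _ (Real.sqrt_nonneg _) (by linarith) ?_
    rw [h4, norm_smul, hx, mul_one, Real.norm_eq_abs]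
    exact hne l hl
  -- choice of δ'
  have hev' : ∀ᶠ δ' in nhdsWithin (0 : ℝ) (Set.Ioi 0),
      (∀ l, l ≠ l₀ → Φ ((s (pi6 l) - s (pj6 l)) • x) (√(R (pi6 l) (pj6 l)) - δ) +
        δ' * |s (pi6 l) - s (pj6 l)| < d (pi6 l) (pj6 l)) ∧
      (∀ l, l ≠ l₀ → d (pi6 l) (pj6 l) + δ' * |s (pi6 l) - s (pj6 l)| <
        Φ ((s (pi6 l) - s (pj6 l)) • x) (√(R (pi6 l) (pj6 l)) + δ)) ∧ δ' < δ₀ := by
    refine Filter.Eventually.and ?_ (Filter.Eventually.and ?_ ?_)
    · refine Filter.eventually_all.2 fun l => ?_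
      by_cases hl : l = l₀
      · exact Filter.Eventually.of_forall fun _ h => absurd hl h
      · exact (ev_lt (hlow l hl)).mono fun _ h _ => h
    · refine Filter.eventually_all.2 fun l => ?_
      by_cases hl : l = l₀
      · exact Filter.Eventually.of_forall fun _ h => absurd hl h
      · exact (ev_lt (hup l hl)).mono fun _ h _ => h
    · filter_upwards [ev_lt (c := 1) hδ₀] with δ h
      linarith
  obtain ⟨δ', ⟨hδ'a, hδ'b, hδ'c⟩, hδ'⟩ := (hev'.and self_mem_nhdsWithin).exists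
  have hδ' : 0 < δ' := hδ'
  -- the family
  let τ' : (Fin 6 → ℝ) → Fin 6 → ℝ := fun τ l => if l = l₀ then 0 else τ l
  let RR : (Fin 6 → ℝ) → Fin 4 → Fin 4 → ℝ := fun τ i j =>
    if i = j then 0 else (√(R i j) + δ * τ' τ (ixB i j)) ^ 2
  have hτ'c : ∀ l, Continuous fun τ => τ' τ l := by
    intro l
    by_cases hl : l = l₀
    · simp only [τ', hl, if_true]
      exact continuous_const
    · simp only [τ', hl, if_false]
      exact continuous_apply l
  have hRRc : Continuous RR := by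
    refine continuous_pi fun i => continuous_pi fun j => ?_
    by_cases h : i = j
    · simp only [RR, h, if_true]
      exact continuous_const
    · simp only [RR, h, if_false]
      exact (continuous_const.add (continuous_const.mul (hτ'c _))).pow 2
  have hτ'b : ∀ τ ∈ Set.Icc (fun _ : Fin 6 => (-1 : ℝ)) (fun _ => (1 : ℝ)), ∀ l,
      |τ' τ l| ≤ 1 := by
    intro τ hτ l
    by_cases hl : l = l₀
    · simp only [τ', hl, if_true, abs_zero]
      norm_num
    · simp only [τ', hl, if_false]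
      exact abs_le.2 ⟨hτ.1 l, hτ.2 l⟩
  have hgood : ∀ τ ∈ Set.Icc (fun _ : Fin 6 => (-1 : ℝ)) (fun _ => (1 : ℝ)), Good (RR τ) := by
    intro τ hτ
    refine ⟨fun i => by simp only [RR, if_true], fun i j => ?_, hpos _ fun i j => ?_⟩
    · by_cases h : i = j
      · rw [h]
      · simp only [RR, h, if_false, Ne.symm h, hR.symm i j, ixB_symm i j]
    · by_cases h : i = j
      · simp only [RR, h, if_true, hR.diag, sub_zero, abs_zero]
        exact hδ₁.le
      · have h5 : 0 ≤ R i j := (goodB_pos hR h).le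
        have h6 : RR τ i j - R i j =
            2 * √(R i j) * (δ * τ' τ (ixB i j)) + (δ * τ' τ (ixB i j)) ^ 2 := by
          simp only [RR, h, if_false]
          have := Real.sq_sqrt h5
          linear_combination this
        have h7 : |δ * τ' τ (ixB i j)| ≤ δ := by
          rw [abs_mul, abs_of_pos hδ]
          have := hτ'b τ hτ (ixB i j)
          nlinarith
        rw [h6]
        calc |2 * √(R i j) * (δ * τ' τ (ixB i j)) + (δ * τ' τ (ixB i j)) ^ 2|
            ≤ |2 * √(R i j) * (δ * τ' τ (ixB i j))| + |(δ * τ' τ (ixB i j)) ^ 2| :=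
              abs_add_le _ _
          _ = 2 * √(R i j) * |δ * τ' τ (ixB i j)| + |δ * τ' τ (ixB i j)| ^ 2 := by
              rw [abs_mul, abs_pow, abs_of_nonneg (by positivity : (0 : ℝ) ≤ 2 * √(R i j))]
          _ ≤ 2 * √(R i j) * δ + δ ^ 2 := by
              have h8 : (0 : ℝ) ≤ 2 * √(R i j) := by positivity
              have h9 := mul_le_mul_of_nonneg_left h7 h8
              have h10 := pow_le_pow_left₀ (abs_nonneg _) h7 2
              linarith
          _ ≤ δ₁ := hδa i j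
  have hqn : ∀ τ ∈ Set.Icc (fun _ : Fin 6 => (-1 : ℝ)) (fun _ => (1 : ℝ)), ∀ l,
      ‖q₀ (RR τ) (pi6 l) - q₀ (RR τ) (pj6 l)‖ = √(R (pi6 l) (pj6 l)) + δ * τ' τ l := by
    intro τ hτ l
    have h4 := hq₀' (RR τ) (hgood τ hτ) (pi6 l) (pj6 l)
    have h5 : RR τ (pi6 l) (pj6 l) = (√(R (pi6 l) (pj6 l)) + δ * τ' τ l) ^ 2 := by
      simp only [RR, pi_ne_pj l, if_false, ixB_pair]
    rw [h5] at h4
    have h6 := abs_le.1 (hτ'b τ hτ l)
    have h7 : 0 ≤ √(R (pi6 l) (pj6 l)) + δ * τ' τ l := by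
      have := hδb l
      nlinarith [h6.1]
    exact (sq_eq_sq₀ (norm_nonneg _) h7).1 h4
  obtain ⟨P, hP⟩ := embed_of_family hΦ pi6 pj6 (fun l => d (pi6 l) (pj6 l))
    (fun τ i => ((1 + δ' * τ l₀) * s i) • x) (fun τ => q₀ (RR τ)) (by
      refine Continuous.continuousOn (continuous_pi fun i => ?_)
      exact ((continuous_const.add (continuous_const.mul (continuous_apply l₀))).mul
        continuous_const).smul continuous_const)
    (hq₀.comp hRRc.continuousOn (fun τ hτ => hgood τ hτ)) (by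
      intro τ hτ l hl
      have e : ((1 + δ' * τ l₀) * s (pi6 l)) • x - ((1 + δ' * τ l₀) * s (pj6 l)) • x =
          ((1 + δ' * τ l₀) * (s (pi6 l) - s (pj6 l))) • x := by
        rw [← sub_smul, mul_sub]
      show Φ (((1 + δ' * τ l₀) * s (pi6 l)) • x - ((1 + δ' * τ l₀) * s (pj6 l)) • x)
        ‖q₀ (RR τ) (pi6 l) - q₀ (RR τ) (pj6 l)‖ < d (pi6 l) (pj6 l)
      rw [e, hqn τ hτ l]
      by_cases hll : l = l₀
      · subst hll
        have h5 : τ' τ l₀ = 0 := by simp only [τ', if_true]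
        rw [h5, mul_zero, add_zero, hl]
        have h6 := h3 (δ' * -1) (by
          rw [abs_mul, abs_of_pos hδ', abs_neg, abs_one, mul_one]
          exact hδ'c.le)
        rcases ixB_spec i₀ j₀ hij with ⟨ha, hb⟩ | ⟨ha, hb⟩
        · rw [ha, hb, h6]
          nlinarith
        · rw [ha, hb, hR.symm j₀ i₀, hd j₀ i₀]
          have e2 : ((1 + δ' * -1) * (s j₀ - s i₀)) • x =
              -(((1 + δ' * -1) * (s i₀ - s j₀)) • x) := by
            rw [← neg_smul]
            congr 1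
            ring
          rw [e2, hΦ.neg_left, h6]
          nlinarith
      · have h5 : τ' τ l = -1 := by simp only [τ', hll, if_false, hl]
        rw [h5]
        have h6 := hδ'a l hll
        have h7 := (abs_le.1 (hΦ.lip (((1 + δ' * τ l₀) * (s (pi6 l) - s (pj6 l))) • x)
          ((s (pi6 l) - s (pj6 l)) • x) (√(R (pi6 l) (pj6 l)) + δ * -1)
          (√(R (pi6 l) (pj6 l)) + δ * -1))).2
        have e3 : ((1 + δ' * τ l₀) * (s (pi6 l) - s (pj6 l))) • x -
            (s (pi6 l) - s (pj6 l)) • x = (δ' * τ l₀ * (s (pi6 l) - s (pj6 l))) • x := by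
          rw [← sub_smul]
          congr 1
          ring
        have h8 : |τ l₀| ≤ 1 := abs_le.2 ⟨hτ.1 l₀, hτ.2 l₀⟩
        have h9 : δ' * |τ l₀| * |s (pi6 l) - s (pj6 l)| ≤ δ' * |s (pi6 l) - s (pj6 l)| := by
          refine mul_le_mul_of_nonneg_right ?_ (abs_nonneg _)
          nlinarith
        rw [e3, norm_smul, hx, mul_one, Real.norm_eq_abs, sub_self, abs_zero, add_zero,
          abs_mul, abs_mul, abs_of_pos hδ'] at h7
        have e4 : √(R (pi6 l) (pj6 l)) + δ * -1 = √(R (pi6 l) (pj6 l)) - δ := by ring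
        rw [e4] at h7 ⊢
        linarith) (by
      intro τ hτ l hl
      have e : ((1 + δ' * τ l₀) * s (pi6 l)) • x - ((1 + δ' * τ l₀) * s (pj6 l)) • x =
          ((1 + δ' * τ l₀) * (s (pi6 l) - s (pj6 l))) • x := by
        rw [← sub_smul, mul_sub]
      show d (pi6 l) (pj6 l) <
        Φ (((1 + δ' * τ l₀) * s (pi6 l)) • x - ((1 + δ' * τ l₀) * s (pj6 l)) • x)
        ‖q₀ (RR τ) (pi6 l) - q₀ (RR τ) (pj6 l)‖
      rw [e, hqn τ hτ l]
      by_cases hll : l = l₀
      · subst hll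
        have h5 : τ' τ l₀ = 0 := by simp only [τ', if_true]
        rw [h5, mul_zero, add_zero, hl]
        have h6 := h3 (δ' * 1) (by
          rw [mul_one, abs_of_pos hδ']
          exact hδ'c.le)
        rcases ixB_spec i₀ j₀ hij with ⟨ha, hb⟩ | ⟨ha, hb⟩
        · rw [ha, hb, h6]
          nlinarith
        · rw [ha, hb, hR.symm j₀ i₀, hd j₀ i₀]
          have e2 : ((1 + δ' * 1) * (s j₀ - s i₀)) • x =
              -(((1 + δ' * 1) * (s i₀ - s j₀)) • x) := by
            rw [← neg_smul]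
            congr 1
            ring
          rw [e2, hΦ.neg_left, h6]
          nlinarith
      · have h5 : τ' τ l = 1 := by simp only [τ', hll, if_false, hl]
        rw [h5, mul_one]
        have h6 := hδ'b l hll
        have h7 := (abs_le.1 (hΦ.lip (((1 + δ' * τ l₀) * (s (pi6 l) - s (pj6 l))) • x)
          ((s (pi6 l) - s (pj6 l)) • x) (√(R (pi6 l) (pj6 l)) + δ)
          (√(R (pi6 l) (pj6 l)) + δ))).1
        have e3 : ((1 + δ' * τ l₀) * (s (pi6 l) - s (pj6 l))) • x -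
            (s (pi6 l) - s (pj6 l)) • x = (δ' * τ l₀ * (s (pi6 l) - s (pj6 l))) • x := by
          rw [← sub_smul]
          congr 1
          ring
        have h8 : |τ l₀| ≤ 1 := abs_le.2 ⟨hτ.1 l₀, hτ.2 l₀⟩
        have h9 : δ' * |τ l₀| * |s (pi6 l) - s (pj6 l)| ≤ δ' * |s (pi6 l) - s (pj6 l)| := by
          refine mul_le_mul_of_nonneg_right ?_ (abs_nonneg _)
          nlinarith
        rw [e3, norm_smul, hx, mul_one, Real.norm_eq_abs, sub_self, abs_zero, add_zero,
          abs_mul, abs_mul, abs_of_pos hδ'] at h7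
        linarith)
  refine ⟨P, fun i j h => ?_⟩
  have h4 := hP (ixB i j)
  rcases ixB_spec i j h with ⟨ha, hb⟩ | ⟨ha, hb⟩
  · simpa only [ha, hb] using h4
  · simp only [ha, hb] at h4
    rw [norm_sub_rev, h4, hd]

end P23F
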