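import Mathlib
import Pool.Agent.Lib.P23F.Wts
import Pool.Agent.Lib.P23F.PDlem
import Pool.Agent.Lib.P23F.VarB

/-!
# Module P23F.Trunc : truncated ellipses

PROOF.  First the flat part: for `s` with `s ≠ 0` and `r` with `r² ≤ (1 - α) s²`:
`Φ (s • x) r = |s|`.  Indeed for `d > |s|` `hsec` gives `Φ (s • x) √(d² - α s²) = d`; let
`d ↓ |s|`, by continuity (`IsType.lip`) `Φ (s • x) (√(1-α) |s|) = |s|`, and
`|s| = ‖s • x‖ ≤ Φ (s • x) r ≤ Φ (s • x) (√(1-α)|s|)` (`norm_le`, `mono_right`).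

Let `i₀ ≠ j₀` with `0 < μ i₀ μ j₀` (`exists_same`), `d₀ = ‖a i₀ - a j₀‖`,
`w = dir a i₀ j₀`, `s i = ip w (a i)`; `s i₀ - s j₀ = d₀`.  `pd_lemma` with `m = 1 - α` gives
`η`, `C`.  Let `0 < e ≤ η`, `C (2 e²) < 2 μ i₀ μ j₀ e`, `e < (1 - α) d₀²`.  Let
`f i₀ j₀ = f j₀ i₀ = e`, other entries `0`, `R i j = ‖a_ij‖² - α (ip w a_ij)² - f i j`.  Hypothesis of
`pd_lemma` with `c0 = 0`: `α (ip w z)² ≤ α ‖z‖²`.  So `R` is `Pos4`, hence `Good`.
* For `i ≠ j`, `{i, j} ≠ {i₀, j₀}`: by `par_partner` the pair is not parallel to `(i₀, j₀)` (a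
  parallel pair would force `μ i₀ + μ j₀ = 0`, but `0 < μ i₀ μ j₀`), so
  `|s i - s j| < ‖a_ij‖` and `Φ ((s i - s j) • x) √(R i j) = ‖a_ij‖` by `hsec`.
* For `(i₀, j₀)`: `R = (1 - α) d₀² - e < (1-α) d₀²`; the flat part with `s = (1 + t) d₀`,
  `|t| ≤ δ₀` small such that `(1 - α) d₀² - e ≤ (1 - α)(1 + t)² d₀²`, gives
  `Φ (((1+t) d₀) • x) √R = (1 + t) d₀`.
Apply `embed_B`.
-/

set_option autoImplicit false

namespace P23F

private theorem trunc_flat {X : Type*} [NormedAddCommGroup X] [NormedSpace ℝ X] {Φ : X → ℝ → ℝ}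
    (hΦ : IsType Φ) (x : X) (hx : ‖x‖ = 1) (α : ℝ)
    (hsec : ∀ s d : ℝ, |s| < d → Φ (s • x) √(d ^ 2 - α * s ^ 2) = d) (s r : ℝ)
    (hr : r ^ 2 ≤ (1 - α) * s ^ 2) : Φ (s • x) r = |s| := by
  apply le_antisymm
  · refine le_of_forall_gt_imp_ge_of_dense fun d hd => ?_
    rw [← hsec s d hd]
    refine hΦ.mono_right _ ?_
    rw [abs_of_nonneg (Real.sqrt_nonneg _)]
    apply Real.abs_le_sqrt
    have h1 : s ^ 2 ≤ d ^ 2 := by
      rw [← sq_abs s]
      exact pow_le_pow_left₀ (abs_nonneg s) hd.le 2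
    linarith
  · have h1 := hΦ.norm_le (s • x) r
    rw [norm_smul, hx, mul_one, Real.norm_eq_abs] at h1
    exact h1

private theorem trunc_ip_cr (w z : ℂ) : ip w z ^ 2 + cr w z ^ 2 = ‖w‖ ^ 2 * ‖z‖ ^ 2 := by
  rw [Complex.sq_norm, Complex.sq_norm, Complex.normSq_apply, Complex.normSq_apply]
  unfold ip cr
  ring

private theorem trunc_sum (i₀ j₀ : Fin 4) (hij : i₀ ≠ j₀) (g : Fin 4 → Fin 4 → ℝ)
    (hg : g i₀ j₀ = g j₀ i₀) (e : ℝ) :
    ∑ i, ∑ j, g i j * (if (i = i₀ ∧ j = j₀) ∨ (i = j₀ ∧ j = i₀) then e else 0) =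
      2 * g i₀ j₀ * e := by
  have h1 : ∀ i j, g i j * (if (i = i₀ ∧ j = j₀) ∨ (i = j₀ ∧ j = i₀) then e else 0) =
      (if i = i₀ then (if j = j₀ then g i j * e else 0) else 0) +
      (if i = j₀ then (if j = i₀ then g i j * e else 0) else 0) := by
    intro i j
    by_cases h1 : i = i₀
    · by_cases h2 : j = j₀
      · subst h1 h2
        simp [hij]
      · subst h1
        simp [hij, h2]
    · by_cases h3 : i = j₀
      · by_cases h4 : j = i₀
        · subst h3 h4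
          simp [h1]
        · subst h3
          simp [h1, h4]
      · simp [h1, h3]
  simp_rw [h1, Finset.sum_add_distrib]
  simp [← hg]
  ring

theorem trunc {X : Type*} [NormedAddCommGroup X] [NormedSpace ℝ X] {Φ : X → ℝ → ℝ}
    (hΦ : IsType Φ) (x : X) (hx : ‖x‖ = 1) (a : Fin 4 → ℂ) (μ : Fin 4 → ℝ) (hg : Gen a)
    (hd : Dep a μ) (α : ℝ) (h0 : 0 ≤ α) (h1 : α < 1)
    (hsec : ∀ s d : ℝ, |s| < d → Φ (s • x) √(d ^ 2 - α * s ^ 2) = d) :
    ∃ P : Fin 4 → X, ∀ i j, i ≠ j → ‖P i - P j‖ = ‖a i - a j‖ := by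
  have hflat := trunc_flat hΦ x hx α hsec
  obtain ⟨i₀, j₀, hij, hμ⟩ := exists_same a μ hd
  have hd0 : 0 < ‖a i₀ - a j₀‖ := norm_pos_iff.2 (sub_ne_zero.2 (gen_ne a hg i₀ j₀ hij))
  obtain ⟨d₀, hd₀⟩ : ∃ d₀, d₀ = ‖a i₀ - a j₀‖ := ⟨_, rfl⟩
  rw [← hd₀] at hd0
  obtain ⟨w, hw⟩ : ∃ w, w = dir a i₀ j₀ := ⟨_, rfl⟩
  have hwn : ‖w‖ = 1 := by
    rw [hw]
    exact dir_norm hg (i₀, j₀)
  have hwd : w = (a i₀ - a j₀) / (d₀ : ℂ) := by
    rw [hw, hd₀]
    unfold dir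
    rw [if_neg hij]
  have hadd : ∀ u v, ip w (u - v) = ip w u - ip w v := by
    intro u v
    unfold ip
    rw [Complex.sub_re, Complex.sub_im]
    ring
  have hipc : ∀ z, ip w z ^ 2 + cr w z ^ 2 = ‖z‖ ^ 2 := by
    intro z
    rw [trunc_ip_cr, hwn]
    ring
  have hip0 : ip w (a i₀ - a j₀) = d₀ := by
    have e1 : ‖a i₀ - a j₀‖ ^ 2 = d₀ ^ 2 := by rw [hd₀]
    rw [Complex.sq_norm, Complex.normSq_apply] at e1
    rw [hwd]
    unfold ip
    rw [Complex.div_ofReal_re, Complex.div_ofReal_im]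
    field_simp
    linarith
  obtain ⟨η, hη, C, hC, hpd⟩ := pd_lemma a μ hd (1 - α) (by linarith)
  have hm : 0 < 1 - α := by linarith
  have hq : 0 < (1 - α) * d₀ ^ 2 := by positivity
  obtain ⟨e, he0, he1, he2, he3⟩ : ∃ e : ℝ, 0 < e ∧ e ≤ η ∧ C * e < μ i₀ * μ j₀ ∧
      e < (1 - α) * d₀ ^ 2 := by
    refine ⟨min η (min (μ i₀ * μ j₀ / (2 * C)) ((1 - α) * d₀ ^ 2 / 2)),
      lt_min hη (lt_min (by positivity) (by positivity)), min_le_left _ _, ?_, ?_⟩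
    · have h2 : min η (min (μ i₀ * μ j₀ / (2 * C)) ((1 - α) * d₀ ^ 2 / 2)) ≤
          μ i₀ * μ j₀ / (2 * C) := (min_le_right _ _).trans (min_le_left _ _)
      have h3 := mul_le_mul_of_nonneg_left h2 hC.le
      have h4 : C * (μ i₀ * μ j₀ / (2 * C)) = μ i₀ * μ j₀ / 2 := by
        field_simp
      linarith
    · have h2 : min η (min (μ i₀ * μ j₀ / (2 * C)) ((1 - α) * d₀ ^ 2 / 2)) ≤
          (1 - α) * d₀ ^ 2 / 2 := (min_le_right _ _).trans (min_le_right _ _)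
      linarith
  obtain ⟨f, hf⟩ : ∃ f : Fin 4 → Fin 4 → ℝ,
      f = fun i j => if (i = i₀ ∧ j = j₀) ∨ (i = j₀ ∧ j = i₀) then e else 0 := ⟨_, rfl⟩
  have hfs : ∀ i j, f i j = f j i := by
    intro i j
    rw [hf]
    by_cases h2 : (i = i₀ ∧ j = j₀) ∨ (i = j₀ ∧ j = i₀)
    · have h3 : (j = i₀ ∧ i = j₀) ∨ (j = j₀ ∧ i = i₀) := by tauto
      simp only [h2, h3, if_true]
    · have h3 : ¬ ((j = i₀ ∧ i = j₀) ∨ (j = j₀ ∧ i = i₀)) := by tauto
      simp only [h2, h3, if_false]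
  have hf0 : f i₀ j₀ = e := by
    rw [hf]
    simp
  have hfn : ∀ i j, ¬ ((i = i₀ ∧ j = j₀) ∨ (i = j₀ ∧ j = i₀)) → f i j = 0 := by
    intro i j h2
    rw [hf]
    simp only [h2, if_false]
  have hpos := hpd 0 α w (fun z => by
      have h2 := hipc z
      have h3 : ip w z ^ 2 ≤ ‖z‖ ^ 2 := by nlinarith [sq_nonneg (cr w z)]
      have h4 := mul_le_mul_of_nonneg_left h3 h0
      linarith) f hfs
    (fun i j => by
      by_cases h2 : (i = i₀ ∧ j = j₀) ∨ (i = j₀ ∧ j = i₀)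
      · have h3 : f i j = e := by
          rw [hf]
          simp only [h2, if_true]
        rw [h3, abs_of_pos he0]
        exact he1
      · rw [hfn i j h2, abs_zero]
        exact hη.le)
    (by
      have e1 : ∑ i, ∑ j, f i j ^ 2 = 2 * e ^ 2 := by
        have h2 := trunc_sum i₀ j₀ hij (fun _ _ => e) rfl e
        rw [show (2 : ℝ) * e ^ 2 = 2 * e * e by ring, ← h2]
        refine Finset.sum_congr rfl fun i _ => Finset.sum_congr rfl fun j _ => ?_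
        rw [hf]
        by_cases h3 : (i = i₀ ∧ j = j₀) ∨ (i = j₀ ∧ j = i₀)
        · simp only [h3, if_true]
          ring
        · simp only [h3, if_false]
          ring
      have e2 : ∑ i, ∑ j, μ i * μ j * f i j = 2 * (μ i₀ * μ j₀) * e := by
        rw [← trunc_sum i₀ j₀ hij (fun i j => μ i * μ j) (mul_comm _ _) e, hf]
      rw [e1, e2]
      nlinarith)
  obtain ⟨R, hRdef⟩ : ∃ R : Fin 4 → Fin 4 → ℝ, R = fun i j =>
    ‖a i - a j‖ ^ 2 - α * ip w (a i - a j) ^ 2 - f i j := ⟨_, rfl⟩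
  have hRv : ∀ i j, R i j = ‖a i - a j‖ ^ 2 - α * ip w (a i - a j) ^ 2 - f i j := by
    intro i j
    rw [hRdef]
  have hneg : ∀ z, ip w (-z) = -ip w z := by
    intro z
    unfold ip
    rw [Complex.neg_re, Complex.neg_im]
    ring
  have hR : Good R := by
    refine ⟨fun i => ?_, fun i j => ?_, ?_⟩
    · have h2 : ¬ ((i = i₀ ∧ i = j₀) ∨ (i = j₀ ∧ i = i₀)) := by
        rintro (⟨h3, h4⟩ | ⟨h3, h4⟩)
        · exact hij (h3.symm.trans h4)
        · exact hij (h4.symm.trans h3)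
      rw [hRv, hfn i i h2, sub_self]
      unfold ip
      simp
    · rw [hRv, hRv, hfs i j, ← neg_sub (a j) (a i), norm_neg, hneg]
      ring
    · rw [hRdef]
      have e1 : (fun i j => ‖a i - a j‖ ^ 2 - α * ip w (a i - a j) ^ 2 - f i j) =
          fun i j => (1 - 0) * ‖a i - a j‖ ^ 2 - α * ip w (a i - a j) ^ 2 - f i j := by
        funext i j
        ring
      rw [e1]
      exact hpos
  have hR0 : R i₀ j₀ = (1 - α) * d₀ ^ 2 - e := by
    rw [hRv, hip0, hf0, ← hd₀]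
    ring
  have hR0p : 0 ≤ R i₀ j₀ := by
    rw [hR0]
    linarith
  have hRs : √(R i₀ j₀) ^ 2 = (1 - α) * d₀ ^ 2 - e := by
    rw [Real.sq_sqrt hR0p, hR0]
  have hlt : ∀ i j, i ≠ j → ¬ ((i = i₀ ∧ j = j₀) ∨ (i = j₀ ∧ j = i₀)) →
      |ip w (a i) - ip w (a j)| < ‖a i - a j‖ := by
    intro i j hne hn
    rw [← hadd]
    apply abs_lt_of_sq_lt_sq _ (norm_nonneg _)
    have h2 := hipc (a i - a j)
    have h3 : cr w (a i - a j) ≠ 0 := by
      intro h4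
      have h5 : cr (a i₀ - a j₀) (a i - a j) = 0 := by
        have h6 : cr w (a i - a j) = cr (a i₀ - a j₀) (a i - a j) / d₀ := by
          rw [hwd]
          unfold cr
          rw [Complex.div_ofReal_re, Complex.div_ofReal_im]
          field_simp
        rw [h6] at h4
        rcases div_eq_zero_iff.1 h4 with h7 | h7
        · exact h7
        · exact absurd h7 hd0.ne'
      rcases par_partner a μ hg hd i₀ j₀ i j hij hne h5 with h6 | h6 | h6
      · exact hn (Or.inl h6)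
      · exact hn (Or.inr h6)
      · have h7 : μ j₀ = -μ i₀ := by linarith [h6.1]
        rw [h7] at hμ
        nlinarith [sq_nonneg (μ i₀)]
    have h4 : 0 < cr w (a i - a j) ^ 2 := by positivity
    linarith
  refine embed_B hΦ x hx (fun i => ip w (a i)) R hR (fun i j => ‖a i - a j‖)
    (fun i j => norm_sub_rev _ _) i₀ j₀ hij (by rw [← hd₀]; exact hd0) ?_ ?_ ?_
  · intro i j hne
    show Φ ((ip w (a i) - ip w (a j)) • x) √(R i j) = ‖a i - a j‖
    by_cases h2 : (i = i₀ ∧ j = j₀) ∨ (i = j₀ ∧ j = i₀)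
    · have h3 : Φ ((ip w (a i₀) - ip w (a j₀)) • x) √(R i₀ j₀) = ‖a i₀ - a j₀‖ := by
        rw [← hadd, hip0, hflat d₀ _ (by rw [hRs]; linarith), abs_of_pos hd0, hd₀]
      rcases h2 with ⟨h4, h5⟩ | ⟨h4, h5⟩
      · rw [h4, h5]
        exact h3
      · rw [h4, h5, hR.symm j₀ i₀, norm_sub_rev, ← h3]
        rw [← neg_sub (ip w (a i₀)) (ip w (a j₀)), neg_smul, hΦ.neg_left]
    · rw [hRv, hfn i j h2, sub_zero, hadd]
      exact hsec _ _ (hlt i j hne h2)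
  · intro i j hne hn
    exact hlt i j hne hn
  · refine ⟨min (1 / 2) (e / (2 * ((1 - α) * d₀ ^ 2))), lt_min (by norm_num) (by positivity),
      fun t ht => ?_⟩
    have ht1 : |t| ≤ 1 / 2 := ht.trans (min_le_left _ _)
    have ht2 : |t| ≤ e / (2 * ((1 - α) * d₀ ^ 2)) := ht.trans (min_le_right _ _)
    rw [le_div_iff₀ (by positivity)] at ht2
    have ht3 := neg_abs_le t
    have ht4 := le_abs_self t
    show Φ (((1 + t) * (ip w (a i₀) - ip w (a j₀))) • x) √(R i₀ j₀) = (1 + t) * ‖a i₀ - a j₀‖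
    have hpos1 : 0 < (1 + t) * d₀ := mul_pos (by linarith) hd0
    rw [← hadd, hip0, hflat ((1 + t) * d₀) _ ?_, abs_of_pos hpos1, hd₀]
    rw [hRs]
    have h5 : 1 - 2 * |t| ≤ (1 + t) ^ 2 := by nlinarith [sq_nonneg t]
    have h6 := mul_le_mul_of_nonneg_left h5 hq.le
    nlinarith

end P23F
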