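import Mathlib
import Pool.Agent.Lib.P23F.NetRel
import Pool.Agent.Lib.P23F.TypeLim
import Pool.Agent.Lib.P23F.VarA
import Pool.Agent.Lib.P23F.Sec
import Pool.Agent.Lib.P23F.Near4
import Pool.Agent.Lib.P23F.Near6
import Pool.Agent.Lib.P23F.Extend
import Pool.Agent.Lib.P23F.Trunc
import Pool.Agent.Lib.P23F.CaseA
import Pool.Agent.Lib.P23F.Hilb
import Pool.Agent.Lib.P23F.Red

/-!
# Module P23F.Main : the four point theorem
-/

set_option autoImplicit false

namespace P23F

theorem planar {X : Type*} [NormedAddCommGroup X] [NormedSpace ℝ X]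
    (hX : ¬ FiniteDimensional ℝ X) (a : Fin 4 → ℂ) (hg : Gen a) :
    ∃ P : Fin 4 → X, ∀ i j, i ≠ j → ‖P i - P j‖ = ‖a i - a j‖ := by
  obtain ⟨Φ, hΦ⟩ := exists_type (relDvor hX)
  obtain ⟨μ, hd⟩ := exists_dep a hg
  by_contra hno
  have hsec : ∀ x : X, ‖x‖ = 1 → ∀ s d : ℝ, |s| < d → Φ (s • x) √(d ^ 2 - s ^ 2) = d := by
    intro x hx
    obtain ⟨k, he, hc, hz, hn, hl, hk⟩ := exists_section hΦ x hx
    have hbad : Bad a k := by
      refine ⟨he, hc, hz, hn, hl, fun s hs hpos => hno ?_⟩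
      refine embed_A hΦ (fun i => s i • x) (Rk a k s) ⟨?_, ?_, hpos⟩ (fun i j => ‖a i - a j‖)
        (fun i j => norm_sub_rev _ _) ?_ ?_
      · intro i
        simp [Rk]
      · intro i j
        simp only [Rk]
        rw [norm_sub_rev (a i) (a j)]
        have h1 : (s i - s j) / ‖a j - a i‖ = -((s j - s i) / ‖a j - a i‖) := by ring
        rw [h1, he]
      · intro i j hij
        have h1 := hk (s i - s j) ‖a i - a j‖ (hs i j hij)
        rw [← sub_smul]
        exact h1
      · intro i j hij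
        rw [← sub_smul, norm_smul, hx, mul_one]
        exact hs i j hij
    obtain ⟨ρ, hρ0, hρ1, α, hα⟩ : ∃ ρ > 0, ρ < 1 ∧ ∃ α : ℝ, ∀ y, |y| ≤ ρ → k y = α * y ^ 2 := by
      by_cases h4 : ∑ p, (wt a μ p : ℂ) * dir a p.1 p.2 ^ 4 = 0
      · exact near6 a μ hg hd h4 k hbad
      · exact near4 a μ hg hd h4 k hbad
    have hall := extend a μ hg hd k hbad ρ α hρ0 hρ1 hα
    have hα0 : 0 ≤ α := by
      have h1 := hn (1 / 2) (by norm_num [abs_of_pos])
      rw [hall (1 / 2) (by norm_num [abs_of_pos])] at h1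
      nlinarith
    have hα1 : α ≤ 1 := by
      by_contra h
      push Not at h
      have h1 : |(√α)⁻¹| < 1 := by
        rw [abs_of_pos (by positivity)]
        apply inv_lt_one_of_one_lt₀
        rw [Real.lt_sqrt (by norm_num)]
        simpa using h
      have h2 := hl _ h1
      rw [hall _ h1, inv_pow, Real.sq_sqrt hα0, mul_inv_cancel₀ (by positivity)] at h2
      exact lt_irrefl _ h2
    have hsec' : ∀ s d : ℝ, |s| < d → Φ (s • x) √(d ^ 2 - α * s ^ 2) = d := by
      intro s d hsd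
      have hd0 : 0 < d := (abs_nonneg s).trans_lt hsd
      have h1 := hk s d hsd
      rw [hall (s / d) (by rw [abs_div, abs_of_pos hd0]; exact (div_lt_one hd0).2 hsd)] at h1
      have h2 : d ^ 2 * (1 - α * (s / d) ^ 2) = d ^ 2 - α * s ^ 2 := by
        field_simp
      rw [h2] at h1
      exact h1
    rcases hα1.lt_or_eq with h | h
    · exact absurd (trunc hΦ x hx a μ hg hd α hα0 h hsec') hno
    · intro s d hsd
      have := hsec' s d hsd
      rw [h, one_mul] at this
      exact this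
  have hE : ∀ x r, Φ x r ^ 2 = ‖x‖ ^ 2 + r ^ 2 := by
    intro x r
    by_cases hx : x = 0
    · rw [hx, hΦ.zero_left, norm_zero, sq_abs]
      ring
    by_cases hr : r = 0
    · rw [hr, hΦ.zero_right]
      ring
    have hx0 : 0 < ‖x‖ := norm_pos_iff.2 hx
    have hr0 : 0 < r ^ 2 := by positivity
    have h1 := hsec (‖x‖⁻¹ • x) (by rw [norm_smul, norm_inv, norm_norm, inv_mul_cancel₀ hx0.ne'])
      ‖x‖ √(‖x‖ ^ 2 + r ^ 2) (by
        rw [abs_of_pos hx0]
        apply Real.lt_sqrt_of_sq_lt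
        linarith)
    rw [Real.sq_sqrt (by positivity), smul_smul, mul_inv_cancel₀ hx0.ne', one_smul,
      add_sub_cancel_left, Real.sqrt_sq_eq_abs] at h1
    have h2 : Φ x r = Φ x |r| := by
      rcases abs_choice r with h | h
      · rw [h]
      · rw [h, hΦ.even]
    rw [h2, h1, Real.sq_sqrt (by positivity)]
  have hpar := case_A hΦ hE a μ hg hd hno
  obtain ⟨P, hP⟩ := hilbert_embed hX hpar a
  exact hno ⟨P, fun i j _ => hP i j⟩

theorem four_points {X : Type*} [NormedAddCommGroup X] [NormedSpace ℝ X]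
    (hX : ¬ FiniteDimensional ℝ X) {H : Type*} [NormedAddCommGroup H] [InnerProductSpace ℝ H]
    (b : Fin 4 → H)
    (hb : ∀ i j k : Fin 4, i ≠ j → i ≠ k → j ≠ k → ¬ Collinear ℝ ({b i, b j, b k} : Set H)) :
    ∃ P : Fin 4 → X, ∀ i j, ‖P i - P j‖ = ‖b i - b j‖ := by
  have key : ∃ P : Fin 4 → X, ∀ i j, i ≠ j → ‖P i - P j‖ = ‖b i - b j‖ := by
    rcases reduction b hb with h | ⟨a, hg, ha⟩
    · obtain ⟨Φ, hΦ⟩ := exists_type (relDvor hX)
      refine embed_A hΦ (fun _ => 0) _ h _ (fun i j => norm_sub_rev _ _) ?_ ?_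
      · intro i j _
        rw [sub_self, hΦ.zero_left, Real.sqrt_sq (norm_nonneg _), abs_of_nonneg (norm_nonneg _)]
      · intro i j hij
        rw [sub_self, norm_zero, norm_pos_iff, sub_ne_zero]
        intro h
        have hthird : ∀ i j : Fin 4, ∃ k : Fin 4, k ≠ i ∧ k ≠ j := by decide
        obtain ⟨k, hk1, hk2⟩ := hthird i j
        apply hb i j k hij hk1.symm hk2.symm
        rw [h, Set.insert_eq_of_mem (by simp)]
        exact collinear_pair ℝ _ _
    · obtain ⟨P, hP⟩ := planar hX a hg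
      exact ⟨P, fun i j hij => by rw [hP i j hij, ha]⟩
  obtain ⟨P, hP⟩ := key
  refine ⟨P, fun i j => ?_⟩
  by_cases h : i = j
  · simp [h]
  · exact hP i j h

end P23F
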